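import Mathlib

set_option autoImplicit false

namespace Pool.Agent.Helper275.Pent

open scoped Classical

/-- relation generating the regions -/
def rr {D : Type} (ph gl : Equiv.Perm D) (bad : D → Prop) (d e : D) : Prop :=
  e = ph d ∨ (e = gl d ∧ ¬ bad d)

/-- set of cycles of `sg` containing a bad element -/
def badCyc {D : Type} (sg : Equiv.Perm D) (bad : D → Prop) :
    Set (Quotient (Equiv.Perm.SameCycle.setoid sg)) :=
  {q | ∃ d, bad d ∧ (Quotient.mk _ d) = q}

/-- next bad element along the permutation -/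
def IsNext {D : Type} (sg : Equiv.Perm D) (bad : D → Prop) (d e : D) : Prop :=
  ∃ m : ℕ, 0 < m ∧ e = (sg ^ m) d ∧ bad e ∧ ∀ i, 0 < i → i < m → ¬ bad ((sg ^ i) d)



theorem coarse_euler {D : Type} [Fintype D] (ph gl : Equiv.Perm D)
    (hgl : ∀ d, gl (gl d) = d) (hne : ∀ d, gl d ≠ d)
    (hconn : ∀ S : Set D, S.Nonempty → (∀ d ∈ S, ph d ∈ S) → (∀ d ∈ S, gl d ∈ S) → S = Set.univ)
    (hdsc : ∀ c : D → ZMod 2, (∀ d, c (gl d) = c d) →
      (∀ d, ∑ e ∈ Finset.univ.filter (fun e => (ph * gl).SameCycle d e), c e = 0) →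
      ∃ f : D → ZMod 2, (∀ d, f (ph d) = f d) ∧ ∀ d, c d = f d + f (gl d))
    (bad : D → Prop) (hbad : ∀ d, bad (gl d) ↔ bad d) (hex : ∃ d, bad d) :
    Set.ncard {d | bad d} + 4 ≤
      2 * Set.ncard (badCyc (ph * gl) bad) + 2 * Nat.card (Quot (rr ph gl bad)) := by
  have h2 : ∀ a b : ZMod 2, a + b = 0 → a = b := by decide
  have h2' : ∀ a : ZMod 2, a + a = 0 := by decide
  let Bd := {d : D // bad d}
  let glb : Bd → Bd := fun d => ⟨gl d.1, (hbad d.1).mpr d.2⟩
  have hglb : ∀ d, glb (glb d) = d := fun d => Subtype.ext (hgl d.1)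
  have hglbne : ∀ d, glb d ≠ d := fun d h => hne d.1 (congrArg Subtype.val h)
  let P : (Bd → ZMod 2) →ₗ[ZMod 2] (Bd → ZMod 2) :=
    LinearMap.id + LinearMap.funLeft (ZMod 2) (ZMod 2) glb
  have hP : ∀ c d, P c d = c d + c (glb d) := fun c d => rfl
  have hU : ∀ c, c ∈ LinearMap.ker P ↔ ∀ d, c (glb d) = c d := by
    intro c
    rw [LinearMap.mem_ker]
    constructor
    · intro h d
      have := congrFun h d
      rw [hP] at this
      exact (h2 _ _ this).symm
    · intro h
      funext d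
      rw [hP, h d, h2']
      rfl
  have hPrange : LinearMap.range P ≤ LinearMap.ker P := by
    rintro _ ⟨c, rfl⟩
    rw [hU]
    intro d
    rw [hP, hP, hglb, add_comm]
  have h1 : Fintype.card Bd ≤ 2 * Module.finrank (ZMod 2) (LinearMap.ker P) := by
    have h3 := P.finrank_range_add_finrank_ker
    have h4 := Submodule.finrank_mono hPrange
    rw [Module.finrank_fintype_fun_eq_card] at h3
    omega
  have : Fintype (badCyc (ph * gl) bad) := Fintype.ofFinite _
  let T : (Bd → ZMod 2) →ₗ[ZMod 2] (badCyc (ph * gl) bad → ZMod 2) :=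
    { toFun := fun c q => ∑ e : Bd, if (Quotient.mk _ e.1 = q.1) then c e else 0
      map_add' := by
        intro c c'
        funext q
        simp only [Pi.add_apply]
        rw [← Finset.sum_add_distrib]
        refine Finset.sum_congr rfl fun e _ => ?_
        split_ifs <;> simp
      map_smul' := by
        intro a c
        funext q
        simp only [Pi.smul_apply, smul_eq_mul, RingHom.id_apply]
        rw [Finset.mul_sum]
        refine Finset.sum_congr rfl fun e _ => ?_
        split_ifs <;> simp }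
  have hT : ∀ c q, T c q = ∑ e : Bd, if (Quotient.mk _ e.1 = q.1) then c e else 0 :=
    fun c q => rfl
  let σ : (badCyc (ph * gl) bad → ZMod 2) →ₗ[ZMod 2] ZMod 2 := ∑ q, LinearMap.proj q
  have hσ : ∀ g, σ g = ∑ q, g q := by
    intro g
    simp [σ]
  have hσT : ∀ c ∈ LinearMap.ker P, σ (T c) = 0 := by
    intro c hc
    rw [hσ]
    simp only [hT]
    rw [Finset.sum_comm]
    have h3 : ∀ e : Bd, (∑ q : badCyc (ph * gl) bad, if (Quotient.mk _ e.1 = q.1) then c e else 0) = c e := by
      intro e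
      rw [Finset.sum_eq_single ⟨Quotient.mk _ e.1, ⟨e.1, e.2, rfl⟩⟩]
      · simp
      · intro q _ hq
        rw [if_neg]
        intro h
        exact hq (Subtype.ext h.symm)
      · intro h
        exact absurd (Finset.mem_univ _) h
    rw [Finset.sum_congr rfl (fun e _ => h3 e)]
    refine Finset.sum_involution (fun e _ => glb e) ?_ ?_ ?_ ?_
    · intro e _
      rw [(hU c).mp hc e, h2']
    · intro e _ _
      exact hglbne e
    · intro e _
      exact Finset.mem_univ _
    · intro e _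
      exact hglb e
  obtain ⟨d0, hd0⟩ := hex
  have hσs : Function.Surjective σ := by
    intro a
    refine ⟨Pi.single ⟨Quotient.mk _ d0, ⟨d0, hd0, rfl⟩⟩ a, ?_⟩
    rw [hσ, Finset.sum_pi_single']
    simp
  have hVb : Module.finrank (ZMod 2) (LinearMap.ker σ) + 1 = Fintype.card (badCyc (ph * gl) bad) := by
    have h3 := σ.finrank_range_add_finrank_ker
    rw [Module.finrank_fintype_fun_eq_card, LinearMap.range_eq_top.mpr hσs, finrank_top,
      Module.finrank_self] at h3
    omega
  let TU := T.domRestrict (LinearMap.ker P)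
  have hTUr : LinearMap.range TU ≤ LinearMap.ker σ := by
    rintro _ ⟨c, rfl⟩
    exact hσT c.1 c.2
  have h3 := TU.finrank_range_add_finrank_ker
  have h4 := Submodule.finrank_mono hTUr
  have : Fintype (Quot (rr ph gl bad)) := Fintype.ofFinite _
  let Ψ : (Quot (rr ph gl bad) → ZMod 2) →ₗ[ZMod 2] (Bd → ZMod 2) :=
    LinearMap.funLeft (ZMod 2) (ZMod 2) (fun d : Bd => Quot.mk _ d.1) +
      LinearMap.funLeft (ZMod 2) (ZMod 2) (fun d : Bd => Quot.mk _ (gl d.1))
  have hΨ : ∀ F d, Ψ F d = F (Quot.mk _ d.1) + F (Quot.mk _ (gl d.1)) := fun F d => rfl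
  have hΨk : 1 ≤ Module.finrank (ZMod 2) (LinearMap.ker Ψ) := by
    have hmem : (fun _ => 1 : Quot (rr ph gl bad) → ZMod 2) ∈ LinearMap.ker Ψ := by
      rw [LinearMap.mem_ker]
      funext d
      rw [hΨ, h2']
      rfl
    rw [Nat.one_le_iff_ne_zero]
    intro h0
    rw [Submodule.finrank_eq_zero] at h0
    rw [h0, Submodule.mem_bot] at hmem
    have := congrFun hmem (Quot.mk _ d0)
    exact one_ne_zero this
  have h5 := Ψ.finrank_range_add_finrank_ker
  rw [Module.finrank_fintype_fun_eq_card] at h5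
  have hsub : (LinearMap.ker TU).map (LinearMap.ker P).subtype ≤ LinearMap.range Ψ := by
    rintro _ ⟨⟨c, hcU⟩, hcT, rfl⟩
    have hcT' : T c = 0 := hcT
    change c ∈ LinearMap.range Ψ
    let c' : D → ZMod 2 := fun d => if h : bad d then c ⟨d, h⟩ else 0
    have hc'1 : ∀ d (h : bad d), c' d = c ⟨d, h⟩ := fun d h => by simp [c', h]
    have hc'0 : ∀ d, ¬ bad d → c' d = 0 := fun d h => by simp [c', h]
    obtain ⟨f, hf1, hf2⟩ := hdsc c' (by
      intro d
      by_cases h : bad d
      · rw [hc'1 d h, hc'1 (gl d) ((hbad d).mpr h)]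
        exact (hU c).mp hcU ⟨d, h⟩
      · rw [hc'0 d h, hc'0 (gl d) (fun h' => h ((hbad d).mp h'))]) (by
      intro d
      have hsum : ∑ e ∈ Finset.univ.filter (fun e => (ph * gl).SameCycle d e), c' e =
          ∑ e : Bd, if (ph * gl).SameCycle d e.1 then c e else 0 := by
        rw [Finset.sum_filter]
        have e1 : ∑ e : D, (if (ph * gl).SameCycle d e then c' e else 0) =
            ∑ e ∈ Finset.univ.filter bad, (if (ph * gl).SameCycle d e then c' e else 0) := by
          symm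
          apply Finset.sum_filter_of_ne
          intro e _ he
          by_contra hb
          apply he
          rw [hc'0 e hb]
          simp
        rw [e1, Finset.sum_subtype (p := bad) (Finset.univ.filter bad) (fun x => by simp)
          (fun e => if (ph * gl).SameCycle d e then c' e else 0)]
        refine Finset.sum_congr rfl fun e _ => ?_
        rw [hc'1 e.1 e.2]
      rw [hsum]
      by_cases hq : (Quotient.mk (Equiv.Perm.SameCycle.setoid (ph * gl)) d) ∈ badCyc (ph * gl) bad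
      · have h6 := congrFun hcT' ⟨_, hq⟩
        rw [hT] at h6
        refine Eq.trans (Finset.sum_congr rfl fun e _ => ?_) h6
        have h7 : (ph * gl).SameCycle d e.1 ↔
            (Quotient.mk (Equiv.Perm.SameCycle.setoid (ph * gl)) e.1) = Quotient.mk _ d := by
          rw [Quotient.eq]
          exact ⟨fun h => h.symm, fun h => Equiv.Perm.SameCycle.symm h⟩
        by_cases h8 : (ph * gl).SameCycle d e.1
        · rw [if_pos h8, if_pos (h7.mp h8)]
        · rw [if_neg h8, if_neg (fun h => h8 (h7.mpr h))]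
      · apply Finset.sum_eq_zero
        intro e _
        rw [if_neg]
        intro h
        apply hq
        exact ⟨e.1, e.2, Quotient.sound h.symm⟩)
    refine ⟨Quot.lift f ?_, ?_⟩
    · rintro d e (h | ⟨h, hb⟩)
      · rw [h, hf1]
      · rw [h]
        apply h2
        rw [← hf2, hc'0 d hb]
    · funext d
      rw [hΨ, ← hc'1 d.1 d.2, hf2]
  have h6 := Submodule.finrank_mono hsub
  rw [Submodule.finrank_map_subtype_eq] at h6
  have hB : Set.ncard {d | bad d} = Fintype.card Bd := by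
    rw [← Nat.card_coe_set_eq, Nat.card_eq_fintype_card]
    rfl
  have hV : Set.ncard (badCyc (ph * gl) bad) = Fintype.card (badCyc (ph * gl) bad) := by
    rw [← Nat.card_coe_set_eq, Nat.card_eq_fintype_card]
  have hR : Nat.card (Quot (rr ph gl bad)) = Fintype.card (Quot (rr ph gl bad)) :=
    Nat.card_eq_fintype_card
  rw [hB, hV, hR]
  omega



theorem exists_next {D : Type} [Fintype D] (sg : Equiv.Perm D) (bad : D → Prop) (d : D)
    (hd : bad d) : ∃! e, IsNext sg bad d e := by
  have hex : ∃ m : ℕ, 0 < m ∧ bad ((sg ^ m) d) :=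
    ⟨orderOf sg, orderOf_pos sg, by rw [pow_orderOf_eq_one]; exact hd⟩
  refine ⟨(sg ^ (Nat.find hex)) d, ⟨Nat.find hex, (Nat.find_spec hex).1, rfl,
    (Nat.find_spec hex).2, ?_⟩, ?_⟩
  · intro i hi hlt hb
    exact Nat.find_min hex hlt ⟨hi, hb⟩
  · rintro e ⟨m, hm, rfl, hb, hmin⟩
    have h1 : Nat.find hex ≤ m := Nat.find_min' hex ⟨hm, hb⟩
    rcases h1.lt_or_eq with h2 | h2
    · exact absurd (Nat.find_spec hex).2 (hmin _ (Nat.find_spec hex).1 h2)
    · rw [h2]

theorem vc_orb {D : Type} (sg : Equiv.Perm D) (bad : D → Prop)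
    (nb : D → D) (hnb : ∀ d, bad d → IsNext sg bad d (nb d)) :
    ∀ i : ℕ, ∀ d, bad d → bad ((sg ^ i) d) → ∃ j : ℕ, (sg ^ i) d = nb^[j] d := by
  intro i
  induction i using Nat.strong_induction_on with
  | _ i ih =>
    intro d hd hi
    rcases Nat.eq_zero_or_pos i with rfl | hpos
    · exact ⟨0, by simp⟩
    obtain ⟨m, hm, he, hb, hmin⟩ := hnb d hd
    have hmi : m ≤ i := by
      by_contra hlt
      push Not at hlt
      exact hmin i hpos hlt hi
    have h1 : (sg ^ i) d = (sg ^ (i - m)) (nb d) := by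
      rw [he, ← Equiv.Perm.mul_apply, ← pow_add, Nat.sub_add_cancel hmi]
    rw [h1] at hi ⊢
    obtain ⟨j, hj⟩ := ih (i - m) (by omega) (nb d) hb hi
    exact ⟨j + 1, by rw [hj, Function.iterate_succ_apply]⟩

theorem vc_two {D : Type} (nb : D → D) (d : D) (h : nb (nb d) = d) (j : ℕ) :
    nb^[j] d = d ∨ nb^[j] d = nb d := by
  induction j with
  | zero => left; rfl
  | succ j ih =>
    rw [Function.iterate_succ_apply']
    rcases ih with h1 | h1
    · right; rw [h1]
    · left; rw [h1, h]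

theorem vc_fiber {D : Type} (F : Finset D) (t0 : D → Prop) (nb : D → D) (hne : F.Nonempty)
    (hcl : ∀ d ∈ F, nb d ∈ F) (horb : ∀ d ∈ F, ∀ e ∈ F, ∃ j : ℕ, e = nb^[j] d)
    (h1 : ∀ d ∈ F, nb d ≠ d)
    (h2 : ∀ d ∈ F, nb (nb d) = d → ¬ t0 d)
    (h3 : ∀ d ∈ F, nb (nb (nb d)) = d → ¬ (t0 d ∧ t0 (nb d) ∧ t0 (nb (nb d)))) :
    4 + (F.filter t0).card ≤ 2 * F.card := by
  have hle : (F.filter t0).card ≤ F.card := Finset.card_filter_le F t0
  by_cases h4 : 4 ≤ F.card
  · omega
  have htwo : ∀ d ∈ F, nb (nb d) = d → F.card ≤ 2 := by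
    intro d hd h
    have hsub : F ⊆ {d, nb d} := by
      intro e he
      obtain ⟨j, rfl⟩ := horb d hd e he
      rcases vc_two nb d h j with h5 | h5 <;> rw [h5] <;> simp
    exact (Finset.card_le_card hsub).trans Finset.card_le_two
  obtain ⟨d, hd⟩ := hne
  have hpair : ∀ d ∈ F, ({d, nb d} : Finset D) ⊆ F ∧ ({d, nb d} : Finset D).card = 2 := by
    intro d hd
    constructor
    · intro e he
      rcases Finset.mem_insert.mp he with rfl | he
      · exact hd
      · rw [Finset.mem_singleton.mp he]; exact hcl d hd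
    · exact Finset.card_pair (h1 d hd).symm
  have hge2 : 2 ≤ F.card := by
    have := Finset.card_le_card (hpair d hd).1
    rw [(hpair d hd).2] at this
    exact this
  by_cases hc2 : F.card = 2
  · have hzero : F.filter t0 = ∅ := by
      apply Finset.filter_eq_empty_iff.mpr
      intro e he
      apply h2 e he
      have heq : ({e, nb e} : Finset D) = F :=
        Finset.eq_of_subset_of_card_le (hpair e he).1 (by rw [(hpair e he).2, hc2])
      have hm : nb (nb e) ∈ ({e, nb e} : Finset D) := by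
        rw [heq]; exact hcl _ (hcl e he)
      rcases Finset.mem_insert.mp hm with h5 | h5
      · exact h5
      · exact absurd (Finset.mem_singleton.mp h5) (h1 _ (hcl e he))
    rw [hzero, hc2]; simp
  · have hc3 : F.card = 3 := by omega
    by_cases hall : ∀ e ∈ F, t0 e
    · exfalso
      have hd1 := hcl d hd
      have hd2 := hcl _ hd1
      have hd3 := hcl _ hd2
      have n1 : nb (nb d) ≠ d := by
        intro h
        have := htwo d hd h
        omega
      have n2 : nb (nb (nb d)) ≠ nb d := by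
        intro h
        have := htwo (nb d) hd1 h
        omega
      have n3 : nb (nb (nb d)) ≠ nb (nb d) := h1 _ hd2
      have hcard : ({d, nb d, nb (nb d)} : Finset D).card = 3 := by
        rw [Finset.card_eq_three]
        exact ⟨d, nb d, nb (nb d), (h1 d hd).symm, n1.symm, (h1 _ hd1).symm, rfl⟩
      have hsub : ({d, nb d, nb (nb d)} : Finset D) ⊆ F := by
        intro e he
        simp only [Finset.mem_insert, Finset.mem_singleton] at he
        rcases he with rfl | rfl | rfl
        · exact hd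
        · exact hd1
        · exact hd2
      have heq : ({d, nb d, nb (nb d)} : Finset D) = F :=
        Finset.eq_of_subset_of_card_le hsub (by rw [hcard, hc3])
      rw [← heq] at hd3
      simp only [Finset.mem_insert, Finset.mem_singleton] at hd3
      rcases hd3 with h5 | h5 | h5
      · exact h3 d hd h5 ⟨hall d hd, hall _ hd1, hall _ hd2⟩
      · exact n2 h5
      · exact n3 h5
    · push Not at hall
      obtain ⟨e, he, hte⟩ := hall
      have : (F.filter t0).card < F.card := by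
        apply Finset.card_lt_card
        rw [Finset.filter_ssubset]
        exact ⟨e, he, hte⟩
      omega

theorem vertex_count {D : Type} [Fintype D] (sg : Equiv.Perm D) (bad : D → Prop) (t0 : D → Prop)
    (nb : D → D) (hnb : ∀ d, bad d → IsNext sg bad d (nb d))
    (h1 : ∀ d, bad d → nb d ≠ d)
    (h2 : ∀ d, bad d → nb (nb d) = d → ¬ t0 d)
    (h3 : ∀ d, bad d → nb (nb (nb d)) = d → ¬ (t0 d ∧ t0 (nb d) ∧ t0 (nb (nb d)))) :
    4 * Set.ncard (badCyc sg bad) + Set.ncard {d | bad d ∧ t0 d} ≤ 2 * Set.ncard {d | bad d} := by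
  classical
  set q : D → Quotient (Equiv.Perm.SameCycle.setoid sg) := fun d => Quotient.mk _ d with hq
  set Bd : Finset D := Finset.univ.filter bad with hBd
  have e1 : Set.ncard (badCyc sg bad) = (Bd.image q).card := by
    rw [← Set.ncard_coe_finset]
    congr 1
    ext c
    simp only [badCyc, Finset.coe_image, Set.mem_image, hBd, hq]
    constructor
    · rintro ⟨d, hd, rfl⟩
      exact ⟨d, by simpa using hd, rfl⟩
    · rintro ⟨d, hd, rfl⟩
      exact ⟨d, by simpa using hd, rfl⟩
  have e2 : Set.ncard {d | bad d ∧ t0 d} = (Bd.filter t0).card := by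
    rw [← Set.ncard_coe_finset]
    congr 1
    ext d
    simp [hBd]
  have e3 : Set.ncard {d | bad d} = Bd.card := by
    rw [← Set.ncard_coe_finset]
    congr 1
    ext d
    simp [hBd]
  rw [e1, e2, e3]
  have s1 : Bd.card = ∑ c ∈ Bd.image q, (Bd.filter (fun d => q d = c)).card :=
    Finset.card_eq_sum_card_image q Bd
  have s2 : (Bd.filter t0).card
      = ∑ c ∈ Bd.image q, ((Bd.filter t0).filter (fun d => q d = c)).card :=
    Finset.card_eq_sum_card_fiberwise (fun d hd =>
      Finset.mem_image_of_mem q (Finset.mem_of_mem_filter d hd))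
  have s3 : 4 * (Bd.image q).card = ∑ c ∈ Bd.image q, 4 := by
    rw [Finset.sum_const, smul_eq_mul, mul_comm]
  rw [s1, s2, s3, ← Finset.sum_add_distrib, Finset.mul_sum]
  apply Finset.sum_le_sum
  intro c hc
  obtain ⟨d0, hd0, rfl⟩ := Finset.mem_image.mp hc
  have hfil : (Bd.filter t0).filter (fun d => q d = q d0)
      = (Bd.filter (fun d => q d = q d0)).filter t0 := by
    ext x
    simp only [Finset.mem_filter]
    tauto
  rw [hfil]
  have hmem : ∀ d, d ∈ Bd.filter (fun d => q d = q d0) ↔ bad d ∧ q d = q d0 := by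
    intro d
    simp [hBd]
  have hnq : ∀ d, bad d → q (nb d) = q d := by
    intro d hd
    obtain ⟨m, hm, he, hb, hmin⟩ := hnb d hd
    apply Quotient.sound
    show Equiv.Perm.SameCycle sg (nb d) d
    exact Equiv.Perm.SameCycle.symm ⟨(m : ℤ), by rw [zpow_natCast]; exact he.symm⟩
  apply vc_fiber _ t0 nb ⟨d0, (hmem d0).mpr ⟨by simpa [hBd] using hd0, rfl⟩⟩
  · intro d hd
    obtain ⟨hb, hqd⟩ := (hmem d).mp hd
    have hbn : bad (nb d) := by
      obtain ⟨m, hm, he, hb', hmin⟩ := hnb d hb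
      exact hb'
    exact (hmem _).mpr ⟨hbn, by rw [hnq d hb, hqd]⟩
  · intro d hd e he
    obtain ⟨hb, hqd⟩ := (hmem d).mp hd
    obtain ⟨hb', hqe⟩ := (hmem e).mp he
    have hsc : Equiv.Perm.SameCycle sg d e := Quotient.exact (hqd.trans hqe.symm)
    obtain ⟨i, _, hi⟩ := hsc.exists_pow_eq'
    obtain ⟨j, hj⟩ := vc_orb sg bad nb hnb i d hb (by rw [hi]; exact hb')
    exact ⟨j, by rw [← hj, hi]⟩
  · intro d hd
    exact h1 d ((hmem d).mp hd).1
  · intro d hd
    exact h2 d ((hmem d).mp hd).1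
  · intro d hd
    exact h3 d ((hmem d).mp hd).1

theorem zinv {a b : ZMod 5} (h : a * b = 1) : a⁻¹ = b := by
  haveI : Fact (Nat.Prime 5) := ⟨by norm_num⟩
  exact inv_eq_of_mul_eq_one_right h

theorem belt_count {D : Type} [Fintype D] (ph gl : Equiv.Perm D) (bad : D → Prop)
    (E : Set D) (idx dl : D → ZMod 5)
    (hgl : ∀ d, gl (gl d) = d) (hbad : ∀ d, bad (gl d) ↔ bad d)
    (hE : ∀ d, d ∈ E ↔ ph d ∈ E)
    (hidx : ∀ d ∈ E, idx (ph d) = idx d + 1)
    (hdl : ∀ d ∈ E, dl (ph d) = dl d)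
    (hdl0 : ∀ d ∈ E, dl d ≠ 0)
    (hg : ∀ d ∈ E, idx d ≠ 0 → ¬ bad d →
      gl d ∈ E ∧ idx (gl d) = -(idx d)⁻¹ ∧ dl (gl d) = (idx d) ^ 2 * dl d)
    (hrun : ∀ d ∈ E, bad d → (idx d = 1 ∨ idx d = 2 ∨ idx d = 3) →
      bad (ph d) ∨ bad (ph (gl (ph d))))
    (hself : ∀ d ∈ E, gl (ph (ph (ph d))) ≠ d)
    (hex : ∃ d ∈ E, bad d ∧ idx d ≠ 0) :
    3 ≤ Set.ncard {d | d ∈ E ∧ bad d ∧ (idx d = 1 ∨ idx d = 2 ∨ idx d = 3)} ∧
    4 ≤ Set.ncard {d | d ∈ E ∧ bad d ∧ idx d ≠ 0} := by
  -- elementary facts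
  have n1 := zinv (a := 1) (b := 1) (by decide)
  have n2 := zinv (a := 2) (b := 3) (by decide)
  have n3 := zinv (a := 3) (b := 2) (by decide)
  have n4 := zinv (a := 4) (b := 4) (by decide)
  have n1 : -(1 : ZMod 5)⁻¹ = 4 := by rw [n1]; decide
  have n2 : -(2 : ZMod 5)⁻¹ = 2 := by rw [n2]; decide
  have n3 : -(3 : ZMod 5)⁻¹ = 3 := by rw [n3]; decide
  have n4 : -(4 : ZMod 5)⁻¹ = 1 := by rw [n4]; decide
  have g1 : ∀ d ∈ E, idx d = 1 → ¬ bad d → gl d ∈ E ∧ idx (gl d) = 4 ∧ dl (gl d) = dl d := by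
    intro d hd h hb
    obtain ⟨a, b, c⟩ := hg d hd (by rw [h]; decide) hb
    rw [h] at b c
    refine ⟨a, b.trans n1, ?_⟩
    rw [c]; simp
  have g2 : ∀ d ∈ E, idx d = 2 → ¬ bad d → gl d ∈ E ∧ idx (gl d) = 2 ∧ dl (gl d) = - dl d := by
    intro d hd h hb
    obtain ⟨a, b, c⟩ := hg d hd (by rw [h]; decide) hb
    rw [h] at b c
    refine ⟨a, b.trans n2, ?_⟩
    rw [c, show (2 : ZMod 5) ^ 2 = -1 by decide]; ring
  have g3 : ∀ d ∈ E, idx d = 3 → ¬ bad d → gl d ∈ E ∧ idx (gl d) = 3 ∧ dl (gl d) = - dl d := by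
    intro d hd h hb
    obtain ⟨a, b, c⟩ := hg d hd (by rw [h]; decide) hb
    rw [h] at b c
    refine ⟨a, b.trans n3, ?_⟩
    rw [c, show (3 : ZMod 5) ^ 2 = -1 by decide]; ring
  have g4 : ∀ d ∈ E, idx d = 4 → ¬ bad d → gl d ∈ E ∧ idx (gl d) = 1 ∧ dl (gl d) = dl d := by
    intro d hd h hb
    obtain ⟨a, b, c⟩ := hg d hd (by rw [h]; decide) hb
    rw [h] at b c
    refine ⟨a, b.trans n4, ?_⟩
    rw [c, show (4 : ZMod 5) ^ 2 = 1 by decide]; ring
  have p1 : ∀ d ∈ E, idx d = 1 → idx (ph d) = 2 := by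
    intro d hd h; rw [hidx d hd, h]; decide
  have p2 : ∀ d ∈ E, idx d = 2 → idx (ph d) = 3 := by
    intro d hd h; rw [hidx d hd, h]; decide
  have p3 : ∀ d ∈ E, idx d = 3 → idx (ph d) = 4 := by
    intro d hd h; rw [hidx d hd, h]; decide
  have pE : ∀ d ∈ E, ph d ∈ E := fun d hd => (hE d).1 hd
  -- transitions
  have t1 : ∀ d ∈ E, bad d → idx d = 1 →
      (bad (ph d) ∧ ph d ∈ E ∧ idx (ph d) = 2 ∧ dl (ph d) = dl d) ∨
      (¬ bad (ph d) ∧ bad (ph (gl (ph d))) ∧ ph (gl (ph d)) ∈ E ∧ idx (ph (gl (ph d))) = 3 ∧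
        dl (ph (gl (ph d))) = - dl d) := by
    intro d hd hb h
    by_cases hb' : bad (ph d)
    · exact Or.inl ⟨hb', pE d hd, p1 d hd h, hdl d hd⟩
    · right
      obtain ⟨a, b, c⟩ := g2 (ph d) (pE d hd) (p1 d hd h) hb'
      rcases hrun d hd hb (Or.inl h) with h' | h'
      · exact absurd h' hb'
      · exact ⟨hb', h', pE _ a, p2 _ a b, by rw [hdl _ a, c, hdl d hd]⟩
  have t2 : ∀ d ∈ E, bad d → idx d = 2 →
      (bad (ph d) ∧ ph d ∈ E ∧ idx (ph d) = 3 ∧ dl (ph d) = dl d) ∨
      (¬ bad (ph d) ∧ bad (ph (gl (ph d))) ∧ ph (gl (ph d)) ∈ E ∧ idx (ph (gl (ph d))) = 4 ∧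
        dl (ph (gl (ph d))) = - dl d) := by
    intro d hd hb h
    by_cases hb' : bad (ph d)
    · exact Or.inl ⟨hb', pE d hd, p2 d hd h, hdl d hd⟩
    · right
      obtain ⟨a, b, c⟩ := g3 (ph d) (pE d hd) (p2 d hd h) hb'
      rcases hrun d hd hb (Or.inr (Or.inl h)) with h' | h'
      · exact absurd h' hb'
      · exact ⟨hb', h', pE _ a, p3 _ a b, by rw [hdl _ a, c, hdl d hd]⟩
  have t3 : ∀ d ∈ E, bad d → idx d = 3 →
      (bad (ph d) ∧ ph d ∈ E ∧ idx (ph d) = 4 ∧ dl (ph d) = dl d) ∨
      (¬ bad (ph d) ∧ bad (ph (gl (ph d))) ∧ ph (gl (ph d)) ∈ E ∧ idx (ph (gl (ph d))) = 2 ∧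
        dl (ph (gl (ph d))) = dl d) := by
    intro d hd hb h
    by_cases hb' : bad (ph d)
    · exact Or.inl ⟨hb', pE d hd, p3 d hd h, hdl d hd⟩
    · right
      obtain ⟨a, b, c⟩ := g4 (ph d) (pE d hd) (p3 d hd h) hb'
      rcases hrun d hd hb (Or.inr (Or.inr h)) with h' | h'
      · exact absurd h' hb'
      · exact ⟨hb', h', pE _ a, p1 _ a b, by rw [hdl _ a, c, hdl d hd]⟩
  -- balance
  have bal : ∀ p : ZMod 5 → Prop,
      (Finset.univ.filter (fun d => (d ∈ E ∧ idx d = 1 ∧ p (dl d)) ∧ bad d)).card =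
      (Finset.univ.filter (fun d => (d ∈ E ∧ idx d = 4 ∧ p (dl d)) ∧ bad d)).card := by
    intro p
    have e1 : (Finset.univ.filter (fun d => d ∈ E ∧ idx d = 1 ∧ p (dl d))).card =
        (Finset.univ.filter (fun d => d ∈ E ∧ idx d = 4 ∧ p (dl d))).card := by
      refine Finset.card_bij (fun d _ => ph (ph (ph d))) ?_ ?_ ?_
      · intro d hd
        simp only [Finset.mem_filter, Finset.mem_univ, true_and] at hd ⊢
        obtain ⟨a, b, c⟩ := hd
        have a1 := pE d a
        have a2 := pE _ a1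
        refine ⟨pE _ a2, p3 _ a2 (p2 _ a1 (p1 d a b)), ?_⟩
        rw [hdl _ a2, hdl _ a1, hdl _ a]; exact c
      · intro d _ d' _ h
        exact ph.injective (ph.injective (ph.injective h))
      · intro b hb
        simp only [Finset.mem_filter, Finset.mem_univ, true_and] at hb
        obtain ⟨h1, h2, h3⟩ := hb
        refine ⟨ph.symm (ph.symm (ph.symm b)), ?_, by simp⟩
        simp only [Finset.mem_filter, Finset.mem_univ, true_and]
        have a1 : ph.symm b ∈ E := by rw [hE]; simpa using h1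
        have a2 : ph.symm (ph.symm b) ∈ E := by rw [hE]; simpa using a1
        have a3 : ph.symm (ph.symm (ph.symm b)) ∈ E := by rw [hE]; simpa using a2
        have i1 := hidx _ a1
        have i2 := hidx _ a2
        have i3 := hidx _ a3
        have l1 := hdl _ a1
        have l2 := hdl _ a2
        have l3 := hdl _ a3
        simp only [Equiv.apply_symm_apply] at i1 i2 i3 l1 l2 l3
        refine ⟨a3, ?_, ?_⟩
        · have : idx (ph.symm (ph.symm (ph.symm b))) = 4 - 3 := by
            rw [← h2, i1, i2, i3]; ring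
          rw [this]; decide
        · rw [← l3, ← l2, ← l1]; exact h3
    have e2 : (Finset.univ.filter (fun d => (d ∈ E ∧ idx d = 1 ∧ p (dl d)) ∧ ¬ bad d)).card =
        (Finset.univ.filter (fun d => (d ∈ E ∧ idx d = 4 ∧ p (dl d)) ∧ ¬ bad d)).card := by
      refine Finset.card_bij (fun d _ => gl d) ?_ ?_ ?_
      · intro d hd
        simp only [Finset.mem_filter, Finset.mem_univ, true_and] at hd ⊢
        obtain ⟨⟨a, b, c⟩, e⟩ := hd
        obtain ⟨x, y, z⟩ := g1 d a b e
        exact ⟨⟨x, y, by rw [z]; exact c⟩, fun h => e ((hbad d).1 h)⟩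
      · intro d _ d' _ h
        exact gl.injective h
      · intro d hd
        simp only [Finset.mem_filter, Finset.mem_univ, true_and] at hd
        obtain ⟨⟨a, b, c⟩, e⟩ := hd
        obtain ⟨x, y, z⟩ := g4 d a b e
        refine ⟨gl d, ?_, hgl d⟩
        simp only [Finset.mem_filter, Finset.mem_univ, true_and]
        exact ⟨⟨x, y, by rw [z]; exact c⟩, fun h => e ((hbad d).1 h)⟩
    have f1 := Finset.card_filter_add_card_filter_not
      (s := Finset.univ.filter (fun d => d ∈ E ∧ idx d = 1 ∧ p (dl d))) bad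
    have f2 := Finset.card_filter_add_card_filter_not
      (s := Finset.univ.filter (fun d => d ∈ E ∧ idx d = 4 ∧ p (dl d))) bad
    rw [Finset.filter_filter, Finset.filter_filter] at f1 f2
    omega
  -- the classes
  obtain ⟨B, hB⟩ : ∃ B : ZMod 5 → Finset D,
      B = fun i => Finset.univ.filter (fun d => d ∈ E ∧ bad d ∧ idx d = i) := ⟨_, rfl⟩
  have mB : ∀ i d, d ∈ B i ↔ (d ∈ E ∧ bad d ∧ idx d = i) := by
    intro i d; rw [hB]; simp
  have h14 : (B 1).card = (B 4).card := by
    have := bal (fun _ => True)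
    rw [hB]
    convert this using 2
    · ext d; simp; tauto
    · ext d; simp; tauto
  have balx : ∀ d, d ∈ B 4 → ∃ s ∈ B 1, dl s = dl d := by
    intro d hd
    obtain ⟨p, hp⟩ : ∃ p : ZMod 5 → Prop, ∀ x, p x ↔ x = dl d := ⟨fun x => x = dl d, fun _ => Iff.rfl⟩
    have hb := bal p
    have hthis := (mB 4 d).1 hd
    obtain ⟨s, hs⟩ := Finset.card_pos.1 (lt_of_lt_of_eq (Finset.card_pos.2 ⟨d,
      Finset.mem_filter.2 ⟨Finset.mem_univ _, ⟨hthis.1, hthis.2.2, (hp _).2 rfl⟩, hthis.2.1⟩⟩)
      hb.symm)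
    simp only [Finset.mem_filter, Finset.mem_univ, true_and] at hs
    exact ⟨s, (mB 1 s).2 ⟨hs.1.1, hs.2, hs.1.2.1⟩, (hp _).1 hs.1.2.2⟩
  -- A is nonempty
  have m1 : ∀ s ∈ B 1, ∃ a, (a ∈ B 2 ∧ dl a = dl s) ∨ (a ∈ B 3 ∧ dl a = - dl s) := by
    intro s hs
    obtain ⟨x, y, z⟩ := (mB 1 s).1 hs
    rcases t1 s x y z with ⟨a, b, c, d⟩ | ⟨_, a, b, c, d⟩
    · exact ⟨_, Or.inl ⟨(mB 2 _).2 ⟨b, a, c⟩, d⟩⟩
    · exact ⟨_, Or.inr ⟨(mB 3 _).2 ⟨b, a, c⟩, d⟩⟩
  have hd23 : Disjoint (B 2) (B 3) := by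
    rw [Finset.disjoint_left]
    intro d h2 h3
    have := ((mB 2 d).1 h2).2.2
    rw [((mB 3 d).1 h3).2.2] at this
    exact absurd this (by decide)
  have hAne : (B 2 ∪ B 3).Nonempty := by
    have hS : ∀ s ∈ B 1, (B 2 ∪ B 3).Nonempty := by
      intro s hs
      obtain ⟨a, ⟨h, _⟩ | ⟨h, _⟩⟩ := m1 s hs
      · exact ⟨a, Finset.mem_union_left _ h⟩
      · exact ⟨a, Finset.mem_union_right _ h⟩
    obtain ⟨d, hd, hb, h0⟩ := hex
    have hcases : ∀ z : ZMod 5, z ≠ 0 → z = 1 ∨ z = 2 ∨ z = 3 ∨ z = 4 := by decide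
    rcases hcases _ h0 with h | h | h | h
    · exact hS d ((mB 1 d).2 ⟨hd, hb, h⟩)
    · exact ⟨d, Finset.mem_union_left _ ((mB 2 d).2 ⟨hd, hb, h⟩)⟩
    · exact ⟨d, Finset.mem_union_right _ ((mB 3 d).2 ⟨hd, hb, h⟩)⟩
    · obtain ⟨s, hs, _⟩ := balx d ((mB 4 d).2 ⟨hd, hb, h⟩)
      exact hS s hs
  have hneg : ∀ x : ZMod 5, x ≠ 0 → x ≠ -x := by decide
  have hA2 : 2 ≤ (B 2 ∪ B 3).card := by
    obtain ⟨a, ha⟩ := hAne
    -- a successor of `a`
    by_contra hcon
    have huniq : ∀ b ∈ B 2 ∪ B 3, b = a := by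
      intro b hb
      by_contra hne
      exact hcon (Finset.one_lt_card.2 ⟨b, hb, a, ha, hne⟩)
    have hkey : ∃ t ∈ B 4, (a ∈ B 2 ∧ dl t = - dl a) ∨ (a ∈ B 3 ∧ dl t = dl a) := by
      rcases Finset.mem_union.1 ha with h | h
      · obtain ⟨x, y, z⟩ := (mB 2 a).1 h
        rcases t2 a x y z with ⟨q1, q2, q3, q4⟩ | ⟨_, q1, q2, q3, q4⟩
        · exfalso
          have hm : ph a ∈ B 3 := (mB 3 _).2 ⟨q2, q1, q3⟩
          have := huniq _ (Finset.mem_union_right _ hm)
          rw [this, z] at q3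
          exact absurd q3 (by decide)
        · exact ⟨_, (mB 4 _).2 ⟨q2, q1, q3⟩, Or.inl ⟨h, q4⟩⟩
      · obtain ⟨x, y, z⟩ := (mB 3 a).1 h
        rcases t3 a x y z with ⟨q1, q2, q3, q4⟩ | ⟨_, q1, q2, q3, q4⟩
        · exact ⟨_, (mB 4 _).2 ⟨q2, q1, q3⟩, Or.inr ⟨h, q4⟩⟩
        · exfalso
          have hm : ph (gl (ph a)) ∈ B 2 := (mB 2 _).2 ⟨q2, q1, q3⟩
          have := huniq _ (Finset.mem_union_left _ hm)
          rw [this, z] at q3
          exact absurd q3 (by decide)
    obtain ⟨t, ht, hta⟩ := hkey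
    obtain ⟨s, hs, hst⟩ := balx t ht
    obtain ⟨a', ha'⟩ := m1 s hs
    have hEa : dl a ≠ 0 := by
      apply hdl0
      rcases Finset.mem_union.1 ha with h | h
      · exact ((mB 2 a).1 h).1
      · exact ((mB 3 a).1 h).1
    rcases ha' with ⟨h1, h2⟩ | ⟨h1, h2⟩
    · have e := huniq a' (Finset.mem_union_left _ h1)
      rw [e] at h1 h2
      rcases hta with ⟨h3, h4⟩ | ⟨h3, h4⟩
      · rw [hst, h4] at h2
        exact hneg _ hEa h2
      · exact (Finset.disjoint_left.1 hd23 h1 h3)
    · have e := huniq a' (Finset.mem_union_right _ h1)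
      rw [e] at h1 h2
      rcases hta with ⟨h3, h4⟩ | ⟨h3, h4⟩
      · exact (Finset.disjoint_left.1 hd23 h3 h1)
      · rw [hst, h4] at h2
        exact hneg _ hEa h2
  rw [Finset.card_union_of_disjoint hd23] at hA2
  have h0 : (B 1).card = 0 → (B 2).card = (B 3).card ∧ (B 2).card ≠ 1 := by
    intro hb1
    have hB4 : B 4 = ∅ := by rw [← Finset.card_eq_zero, ← h14, hb1]
    have q2 : ∀ a ∈ B 2, ph a ∈ B 3 := by
      intro a ha
      obtain ⟨x, y, z⟩ := (mB 2 a).1 ha
      rcases t2 a x y z with ⟨q1, q2, q3, q4⟩ | ⟨_, q1, q2, q3, q4⟩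
      · exact (mB 3 _).2 ⟨q2, q1, q3⟩
      · have : ph (gl (ph a)) ∈ B 4 := (mB 4 _).2 ⟨q2, q1, q3⟩
        rw [hB4] at this
        simp at this
    have q3 : ∀ a ∈ B 3, ph (gl (ph a)) ∈ B 2 := by
      intro a ha
      obtain ⟨x, y, z⟩ := (mB 3 a).1 ha
      rcases t3 a x y z with ⟨q1, q2, q3, q4⟩ | ⟨_, q1, q2, q3, q4⟩
      · have : ph a ∈ B 4 := (mB 4 _).2 ⟨q2, q1, q3⟩
        rw [hB4] at this
        simp at this
      · exact (mB 2 _).2 ⟨q2, q1, q3⟩
    have le1 : (B 2).card ≤ (B 3).card :=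
      Finset.card_le_card_of_injOn (fun a => ph a) (fun a ha => q2 a ha)
        (fun a _ b _ h => ph.injective h)
    have le2 : (B 3).card ≤ (B 2).card :=
      Finset.card_le_card_of_injOn (fun a => ph (gl (ph a))) (fun a ha => q3 a ha)
        (fun a _ b _ h => ph.injective (gl.injective (ph.injective h)))
    refine ⟨le_antisymm le1 le2, ?_⟩
    intro hone
    obtain ⟨a, ha⟩ := Finset.card_eq_one.1 hone
    have haB : a ∈ B 2 := by rw [ha]; simp
    have h5 := q3 _ (q2 a haB)
    rw [ha, Finset.mem_singleton] at h5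
    have hdE : ph.symm a ∈ E := by
      rw [hE]; simpa using ((mB 2 a).1 haB).1
    apply hself _ hdE
    apply ph.injective
    simp only [Equiv.apply_symm_apply]
    exact h5
  have hd : ∀ i j : ZMod 5, i ≠ j → Disjoint (B i) (B j) := by
    intro i j hij
    rw [Finset.disjoint_left]
    intro d h2 h3
    exact hij (((mB i d).1 h2).2.2.symm.trans ((mB j d).1 h3).2.2)
  have c1 : Set.ncard {d | d ∈ E ∧ bad d ∧ (idx d = 1 ∨ idx d = 2 ∨ idx d = 3)}
      = (B 1).card + ((B 2).card + (B 3).card) := by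
    rw [← Finset.card_union_of_disjoint hd23, ← Finset.card_union_of_disjoint
      (Finset.disjoint_union_right.2 ⟨hd 1 2 (by decide), hd 1 3 (by decide)⟩),
      ← Set.ncard_coe_finset]
    congr 1
    ext d
    simp only [Set.mem_setOf_eq, Finset.coe_union, Set.mem_union, Finset.mem_coe, mB]
    tauto
  have c2 : Set.ncard {d | d ∈ E ∧ bad d ∧ idx d ≠ 0}
      = (B 4).card + ((B 1).card + ((B 2).card + (B 3).card)) := by
    rw [← Finset.card_union_of_disjoint hd23, ← Finset.card_union_of_disjoint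
      (Finset.disjoint_union_right.2 ⟨hd 1 2 (by decide), hd 1 3 (by decide)⟩),
      ← Finset.card_union_of_disjoint (Finset.disjoint_union_right.2 ⟨hd 4 1 (by decide),
        Finset.disjoint_union_right.2 ⟨hd 4 2 (by decide), hd 4 3 (by decide)⟩⟩),
      ← Set.ncard_coe_finset]
    congr 1
    ext d
    simp only [Set.mem_setOf_eq, Finset.coe_union, Set.mem_union, Finset.mem_coe, mB]
    have hcases : ∀ z : ZMod 5, z ≠ 0 ↔ z = 1 ∨ z = 2 ∨ z = 3 ∨ z = 4 := by decide
    rw [hcases]
    tauto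
  rw [c1, c2]
  by_cases hb1 : (B 1).card = 0
  · obtain ⟨r1, r2⟩ := h0 hb1
    omega
  · omega

namespace SphereAux
open Module

variable {D : Type} [Fintype D]

/-- `c d + c (gl d)` -/
noncomputable def N (gl : Equiv.Perm D) : (D → ZMod 2) →ₗ[ZMod 2] (D → ZMod 2) where
  toFun c := fun d => c d + c (gl d)
  map_add' a b := by
    funext d
    simp only [Pi.add_apply]
    ring
  map_smul' r a := by
    funext d
    simp only [Pi.smul_apply, smul_eq_mul, RingHom.id_apply]
    ring

theorem add_eq_zero_iff' (a b : ZMod 2) : a + b = 0 ↔ a = b := by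
  revert a b
  decide

theorem mem_ker_N (gl : Equiv.Perm D) (c : D → ZMod 2) :
    c ∈ LinearMap.ker (N gl) ↔ ∀ d, c (gl d) = c d := by
  rw [LinearMap.mem_ker]
  constructor
  · intro h d
    have h1 := congrFun h d
    exact ((add_eq_zero_iff' _ _).1 h1).symm
  · intro h
    funext d
    exact (add_eq_zero_iff' _ _).2 (h d).symm

theorem ker_le_range (gl : Equiv.Perm D) (hgl : ∀ d, gl (gl d) = d) (hne : ∀ d, gl d ≠ d) :
    LinearMap.ker (N gl) ≤ LinearMap.range (N gl) := by
  intro c hc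
  rw [mem_ker_N] at hc
  let e := Fintype.equivFin D
  refine ⟨fun d => if e d < e (gl d) then c d else 0, ?_⟩
  funext d
  change (if e d < e (gl d) then c d else 0) + (if e (gl d) < e (gl (gl d)) then c (gl d) else 0)
    = c d
  rw [hgl, hc]
  have h1 : e d ≠ e (gl d) := fun h => hne d (e.injective h).symm
  rcases lt_or_gt_of_ne h1 with h | h
  · rw [if_pos h, if_neg (not_lt.2 h.le), add_zero]
  · rw [if_neg (not_lt.2 h.le), if_pos h, zero_add]

theorem finrank_ker_N (gl : Equiv.Perm D) (hgl : ∀ d, gl (gl d) = d) (hne : ∀ d, gl d ≠ d) :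
    2 * finrank (ZMod 2) (LinearMap.ker (N gl)) ≤ Fintype.card D := by
  have h1 := LinearMap.finrank_range_add_finrank_ker (N gl)
  have h2 := Submodule.finrank_mono (ker_le_range gl hgl hne)
  rw [Module.finrank_fintype_fun_eq_card] at h1
  omega

abbrev VQ (sg : Equiv.Perm D) : Type := Quotient (Equiv.Perm.SameCycle.setoid sg)

noncomputable instance (sg : Equiv.Perm D) : Fintype (VQ sg) := Fintype.ofFinite _

/-- cycle sums -/
noncomputable def T (sg gl : Equiv.Perm D) :
    LinearMap.ker (N gl) →ₗ[ZMod 2] (VQ sg → ZMod 2) where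
  toFun c := fun q => ∑ e ∈ Finset.univ.filter (fun e => (Quotient.mk _ e : VQ sg) = q), c.1 e
  map_add' a b := by
    funext q
    simp only [Pi.add_apply, Submodule.coe_add, Finset.sum_add_distrib]
  map_smul' r a := by
    funext q
    simp only [Pi.smul_apply, smul_eq_mul, RingHom.id_apply, Submodule.coe_smul,
      Finset.mul_sum]

theorem mk_sg (sg : Equiv.Perm D) (d : D) :
    (Quotient.mk _ (sg d) : VQ sg) = Quotient.mk _ d := by
  apply Quotient.sound
  change sg.SameCycle (sg d) d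
  exact (Equiv.Perm.sameCycle_apply_left).2 (Equiv.Perm.SameCycle.refl _ _)

/-- coboundary -/
noncomputable def B (ph gl : Equiv.Perm D) (hgl : ∀ d, gl (gl d) = d) :
    (VQ ph → ZMod 2) →ₗ[ZMod 2] LinearMap.ker (N gl) where
  toFun f := ⟨fun d => f (Quotient.mk _ d) + f (Quotient.mk _ (gl d)), by
    rw [mem_ker_N]
    intro d
    rw [hgl, add_comm]⟩
  map_add' a b := by
    apply Subtype.ext
    funext d
    simp only [Pi.add_apply, Submodule.coe_add]
    ring
  map_smul' r a := by
    apply Subtype.ext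
    funext d
    simp only [Pi.smul_apply, smul_eq_mul, RingHom.id_apply, Submodule.coe_smul]
    ring

theorem range_B_le (ph gl : Equiv.Perm D) (hgl : ∀ d, gl (gl d) = d) :
    LinearMap.range (B ph gl hgl) ≤ LinearMap.ker (T (ph * gl) gl) := by
  rintro _ ⟨f, rfl⟩
  rw [LinearMap.mem_ker]
  funext q
  change ∑ e ∈ Finset.univ.filter (fun e => (Quotient.mk _ e : VQ (ph * gl)) = q),
    (f (Quotient.mk _ e) + f (Quotient.mk _ (gl e))) = 0
  rw [Finset.sum_add_distrib]
  have h1 : ∑ e ∈ Finset.univ.filter (fun e => (Quotient.mk _ e : VQ (ph * gl)) = q),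
      f (Quotient.mk _ (gl e)) =
      ∑ e ∈ Finset.univ.filter (fun e => (Quotient.mk _ e : VQ (ph * gl)) = q),
      f (Quotient.mk _ e) := by
    refine Finset.sum_equiv (ph * gl) ?_ ?_
    · intro i
      simp only [Finset.mem_filter, Finset.mem_univ, true_and]
      rw [mk_sg]
    · intro i _
      congr 1
      rw [Equiv.Perm.mul_apply]
      exact (mk_sg ph (gl i)).symm
  rw [h1]
  exact (add_eq_zero_iff' _ _).2 rfl

/-- invariant functions are constant -/
theorem const_of_inv (ph gl : Equiv.Perm D)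
    (hconn : ∀ S : Set D, S.Nonempty → (∀ d ∈ S, ph d ∈ S) → (∀ d ∈ S, gl d ∈ S) → S = Set.univ)
    (u : D → ZMod 2) (h1 : ∀ d, u (ph d) = u d) (h2 : ∀ d, u (gl d) = u d) (d0 d : D) :
    u d = u d0 := by
  have h := hconn {d | u d = u d0} ⟨d0, rfl⟩ (fun d hd => (h1 d).trans hd)
    (fun d hd => (h2 d).trans hd)
  have h3 : d ∈ {d | u d = u d0} := by
    rw [h]
    exact Set.mem_univ d
  exact h3

theorem finrank_ker_B (ph gl : Equiv.Perm D) [Nonempty D] (hgl : ∀ d, gl (gl d) = d)
    (hconn : ∀ S : Set D, S.Nonempty → (∀ d ∈ S, ph d ∈ S) → (∀ d ∈ S, gl d ∈ S) → S = Set.univ) :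
    finrank (ZMod 2) (LinearMap.ker (B ph gl hgl)) ≤ 1 := by
  let d0 : D := Classical.arbitrary D
  have hmem : (fun _ => (1 : ZMod 2)) ∈ LinearMap.ker (B ph gl hgl) := by
    rw [LinearMap.mem_ker]
    apply Subtype.ext
    funext d
    change (1 : ZMod 2) + 1 = 0
    decide
  refine finrank_le_one ⟨_, hmem⟩ ?_
  rintro ⟨f, hf⟩
  refine ⟨f (Quotient.mk _ d0), ?_⟩
  apply Subtype.ext
  funext q
  change f (Quotient.mk _ d0) • (1 : ZMod 2) = f q
  obtain ⟨d, rfl⟩ := Quotient.exists_rep q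
  rw [smul_eq_mul, mul_one]
  rw [LinearMap.mem_ker] at hf
  have h2 : ∀ d, f (Quotient.mk _ (gl d)) = f (Quotient.mk _ d) := by
    intro d
    have h3 := congrFun (congrArg Subtype.val hf) d
    exact ((add_eq_zero_iff' _ _).1 h3).symm
  exact (const_of_inv ph gl hconn (fun d => f (Quotient.mk _ d))
    (fun d => by simp only [mk_sg ph d]) h2 d0 d).symm

theorem finrank_range_T (ph gl : Equiv.Perm D) [Nonempty D] (hgl : ∀ d, gl (gl d) = d)
    (hne : ∀ d, gl d ≠ d)
    (hconn : ∀ S : Set D, S.Nonempty → (∀ d ∈ S, ph d ∈ S) → (∀ d ∈ S, gl d ∈ S) → S = Set.univ) :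
    Fintype.card (VQ (ph * gl)) ≤ finrank (ZMod 2) (LinearMap.range (T (ph * gl) gl)) + 1 := by
  let d0 : D := Classical.arbitrary D
  set sg := ph * gl with hsg
  have h1 := LinearMap.finrank_range_dualMap_eq_finrank_range (T sg gl)
  have h2 := LinearMap.finrank_range_add_finrank_ker (T sg gl).dualMap
  rw [Subspace.dual_finrank_eq, Module.finrank_fintype_fun_eq_card] at h2
  have h3 : finrank (ZMod 2) (LinearMap.ker (T sg gl).dualMap) ≤ 1 := by
    -- the sum functional
    let σ : Module.Dual (ZMod 2) (VQ sg → ZMod 2) :=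
      ∑ q : VQ sg, LinearMap.proj q
    -- kernel elements are multiples of it
    have hker : ∀ φ ∈ LinearMap.ker (T sg gl).dualMap, ∃ r : ZMod 2, φ = r • σ := by
      intro φ hφ
      rw [LinearMap.mem_ker] at hφ
      let h : VQ sg → ZMod 2 := fun q => φ (Pi.single q 1)
      have hedge : ∀ d, h (Quotient.mk _ (gl d)) = h (Quotient.mk _ d) := by
        intro d
        let c : D → ZMod 2 := fun e => if e = d ∨ e = gl d then 1 else 0
        have hc : c ∈ LinearMap.ker (N gl) := by
          rw [mem_ker_N]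
          intro e
          have : (gl e = d ∨ gl e = gl d) ↔ (e = d ∨ e = gl d) := by
            constructor
            · rintro (h | h)
              · right
                rw [← h, hgl]
              · left
                exact gl.injective h
            · rintro (h | h)
              · right
                rw [h]
              · left
                rw [h, hgl]
          simp only [c, this]
        have hTc : T sg gl ⟨c, hc⟩ = Pi.single (Quotient.mk _ d) 1 + Pi.single (Quotient.mk _ (gl d)) 1 := by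
          funext q
          change ∑ e ∈ Finset.univ.filter (fun e => (Quotient.mk _ e : VQ sg) = q), c e = _
          have hcs : ∀ e, c e = (if e = d then 1 else 0) + (if e = gl d then 1 else 0) := by
            intro e
            simp only [c]
            by_cases h1 : e = d
            · have h2 : e ≠ gl d := by
                rw [h1]
                exact (hne d).symm
              simp [h1, (hne d).symm]
            · simp [h1]
          rw [Finset.sum_congr rfl (fun e _ => hcs e), Finset.sum_add_distrib,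
            Finset.sum_filter, Finset.sum_filter]
          rw [Pi.add_apply, Pi.single_apply, Pi.single_apply]
          congr 1
          · rw [Finset.sum_eq_single d]
            · simp [eq_comm]
            · intro b _ hb
              simp [hb]
            · simp
          · rw [Finset.sum_eq_single (gl d)]
            · simp [eq_comm]
            · intro b _ hb
              simp [hb]
            · simp
        have h4 : φ (T sg gl ⟨c, hc⟩) = 0 := by
          have := LinearMap.congr_fun hφ ⟨c, hc⟩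
          simpa using this
        rw [hTc, map_add] at h4
        exact ((add_eq_zero_iff' _ _).1 h4).symm
      have hph : ∀ d, h (Quotient.mk _ (ph d)) = h (Quotient.mk _ d) := by
        intro d
        have e1 : ph d = sg (gl d) := by
          rw [hsg, Equiv.Perm.mul_apply, hgl]
        rw [e1, mk_sg, hedge]
      have hconst : ∀ d, h (Quotient.mk _ d) = h (Quotient.mk _ d0) := fun d =>
        const_of_inv ph gl hconn (fun d => h (Quotient.mk _ d)) hph hedge d0 d
      refine ⟨h (Quotient.mk _ d0), ?_⟩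
      refine LinearMap.pi_ext' fun q => ?_
      refine LinearMap.ext_ring ?_
      obtain ⟨d, rfl⟩ := Quotient.exists_rep q
      change h (Quotient.mk _ d) = (h (Quotient.mk _ d0) • σ) (Pi.single (Quotient.mk _ d) 1)
      rw [hconst d, LinearMap.smul_apply]
      have : σ (Pi.single (Quotient.mk _ d) 1) = 1 := by
        simp only [σ, LinearMap.sum_apply, LinearMap.proj_apply]
        rw [Finset.sum_eq_single (Quotient.mk _ d)]
        · simp
        · intro b _ hb
          rw [Pi.single_apply, if_neg hb]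
        · simp
      rw [this, smul_eq_mul, mul_one]
    have hle : LinearMap.ker (T sg gl).dualMap ≤ Submodule.span (ZMod 2) {σ} := by
      intro φ hφ
      obtain ⟨r, rfl⟩ := hker φ hφ
      exact Submodule.smul_mem _ _ (Submodule.mem_span_singleton_self σ)
    exact (Submodule.finrank_mono hle).trans ((finrank_span_le_card ({σ} : Set _)).trans (by simp))
  omega

end SphereAux

open SphereAux in
theorem sphere_dsc {D : Type} [Fintype D] [Nonempty D] (ph gl : Equiv.Perm D)
    (hgl : ∀ d, gl (gl d) = d) (hne : ∀ d, gl d ≠ d)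
    (hconn : ∀ S : Set D, S.Nonempty → (∀ d ∈ S, ph d ∈ S) → (∀ d ∈ S, gl d ∈ S) → S = Set.univ)
    (hchi : 2 * (Nat.card (Quotient (Equiv.Perm.SameCycle.setoid (ph * gl))) +
      Nat.card (Quotient (Equiv.Perm.SameCycle.setoid ph))) = Fintype.card D + 4)
    (c : D → ZMod 2) (hc : ∀ d, c (gl d) = c d)
    (hs : ∀ d, ∑ e ∈ Finset.univ.filter (fun e => (ph * gl).SameCycle d e), c e = 0) :
    ∃ f : D → ZMod 2, (∀ d, f (ph d) = f d) ∧ ∀ d, c d = f d + f (gl d) := by
  have hcK : c ∈ LinearMap.ker (N gl) := (mem_ker_N gl c).2 hc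
  have hT : (⟨c, hcK⟩ : LinearMap.ker (N gl)) ∈ LinearMap.ker (T (ph * gl) gl) := by
    rw [LinearMap.mem_ker]
    funext q
    obtain ⟨d, rfl⟩ := Quotient.exists_rep q
    change ∑ e ∈ Finset.univ.filter
      (fun e => (Quotient.mk _ e : VQ (ph * gl)) = Quotient.mk _ d), c e = 0
    rw [← hs d]
    congr 1
    ext e
    simp only [Finset.mem_filter, Finset.mem_univ, true_and]
    constructor
    · intro h
      have h1 : (ph * gl).SameCycle e d := Quotient.exact h
      exact h1.symm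
    · intro h
      exact Quotient.sound (show (ph * gl).SameCycle e d from h.symm)
  have hB := range_B_le ph gl hgl
  have e1 := LinearMap.finrank_range_add_finrank_ker (B ph gl hgl)
  have e2 := finrank_ker_B ph gl hgl hconn
  have e3 := LinearMap.finrank_range_add_finrank_ker (T (ph * gl) gl)
  have e4 := finrank_range_T ph gl hgl hne hconn
  have e5 := finrank_ker_N gl hgl hne
  rw [Module.finrank_fintype_fun_eq_card] at e1
  have hchi' : 2 * (Fintype.card (VQ (ph * gl)) + Fintype.card (VQ ph)) = Fintype.card D + 4 := by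
    rw [← Nat.card_eq_fintype_card, ← Nat.card_eq_fintype_card]
    exact hchi
  have heq : LinearMap.range (B ph gl hgl) = LinearMap.ker (T (ph * gl) gl) := by
    apply Submodule.eq_of_le_of_finrank_le hB
    omega
  rw [← heq] at hT
  obtain ⟨f, hf⟩ := hT
  refine ⟨fun d => f (Quotient.mk _ d), ?_, ?_⟩
  · intro d
    simp only [mk_sg ph d]
  · intro d
    have h1 := congrFun (congrArg Subtype.val hf) d
    exact h1.symm

end Pool.Agent.Helper275.Pent
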