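import Pool.Agent.Helper275.Pent.Defs

set_option autoImplicit false

namespace Pool.Agent.Helper275.Pent

noncomputable section

/-- twice the coordinates of the vertices, as pairs of integers: `(a, b)` is `a + b * phi` -/
def dti : Fin 20 → Fin 3 → ℤ × ℤ := ![
  ![(0, 1), (0, 1), (0, 1)],
  ![(0, 0), (1, 0), (1, 1)],
  ![(0, -1), (0, 1), (0, 1)],
  ![(-1, 0), (1, 1), (0, 0)],
  ![(1, 0), (1, 1), (0, 0)],
  ![(1, 1), (0, 0), (1, 0)],
  ![(0, 1), (0, -1), (0, 1)],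
  ![(0, 0), (-1, 0), (1, 1)],
  ![(0, -1), (0, -1), (0, 1)],
  ![(-1, -1), (0, 0), (1, 0)],
  ![(-1, -1), (0, 0), (-1, 0)],
  ![(0, -1), (0, 1), (0, -1)],
  ![(0, 0), (1, 0), (-1, -1)],
  ![(0, 1), (0, 1), (0, -1)],
  ![(1, 1), (0, 0), (-1, 0)],
  ![(0, 1), (0, -1), (0, -1)],
  ![(1, 0), (-1, -1), (0, 0)],
  ![(-1, 0), (-1, -1), (0, 0)],
  ![(0, -1), (0, -1), (0, -1)],
  ![(0, 0), (-1, 0), (-1, -1)]]

/-- the normals of the facets -/
def nti : Fin 12 → Fin 3 → ℤ × ℤ := ![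
  ![(0, 0), (0, 1), (1, 0)],
  ![(1, 0), (0, 0), (0, 1)],
  ![(-1, 0), (0, 0), (0, 1)],
  ![(0, -1), (1, 0), (0, 0)],
  ![(0, 0), (0, 1), (-1, 0)],
  ![(0, 1), (1, 0), (0, 0)],
  ![(0, 1), (-1, 0), (0, 0)],
  ![(0, 0), (0, -1), (1, 0)],
  ![(0, -1), (-1, 0), (0, 0)],
  ![(-1, 0), (0, 0), (0, -1)],
  ![(1, 0), (0, 0), (0, -1)],
  ![(0, 0), (0, -1), (-1, 0)]]

/-- multiplication of `a + b * phi` -/
def pmu (u v : ℤ × ℤ) : ℤ × ℤ :=
  (u.1 * v.1 + u.2 * v.2, u.1 * v.2 + u.2 * v.1 + u.2 * v.2)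

/-- evaluation -/
def pev (u : ℤ × ℤ) : ℝ := (u.1 : ℝ) + (u.2 : ℝ) * Real.goldenRatio

theorem pev_mul (u v : ℤ × ℤ) : pev (pmu u v) = pev u * pev v := by
  have h := Real.goldenRatio_sq
  simp only [pev, pmu]
  push_cast
  linear_combination (-(u.2 : ℝ) * v.2) * h

theorem pev_add (u v : ℤ × ℤ) : pev (u + v) = pev u + pev v := by
  simp only [pev, Prod.fst_add, Prod.snd_add]
  push_cast
  ring

theorem pev_sub (u v : ℤ × ℤ) : pev (u - v) = pev u - pev v := by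
  simp only [pev, Prod.fst_sub, Prod.snd_sub]
  push_cast
  ring

theorem pev_nonneg {u : ℤ × ℤ} (h1 : 0 ≤ u.1) (h2 : 0 ≤ u.2) : 0 ≤ pev u := by
  have h := Real.goldenRatio_pos
  have h1' : (0 : ℝ) ≤ u.1 := by exact_mod_cast h1
  have h2' : (0 : ℝ) ≤ u.2 := by exact_mod_cast h2
  unfold pev
  positivity

theorem pev_pos {u : ℤ × ℤ} (h1 : 0 ≤ u.1) (h2 : 0 < u.2) : 0 < pev u := by
  have h := Real.goldenRatio_pos
  have h1' : (0 : ℝ) ≤ u.1 := by exact_mod_cast h1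
  have h2' : (0 : ℝ) < u.2 := by exact_mod_cast h2
  unfold pev
  positivity

theorem dv_eq (a : Fin 20) (i : Fin 3) : dv a i = pev (dti a i) / 2 := by
  fin_cases a <;> fin_cases i <;>
    simp [dv, dti, pev, ga, gc, Real.goldenRatio_sq] <;> ring

/-- the squared distance, four times -/
def chkSq (a b : Fin 20) : ℤ × ℤ :=
  pmu (dti a 0 - dti b 0) (dti a 0 - dti b 0) + pmu (dti a 1 - dti b 1) (dti a 1 - dti b 1) +
    pmu (dti a 2 - dti b 2) (dti a 2 - dti b 2)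

theorem dist_dv (a b : Fin 20) : dist (dv a) (dv b) ^ 2 = pev (chkSq a b) / 4 := by
  rw [EuclideanSpace.dist_eq, Real.sq_sqrt (Finset.sum_nonneg fun _ _ => sq_nonneg _)]
  rw [Fin.sum_univ_three]
  simp only [Real.dist_eq, sq_abs, dv_eq, chkSq, pev_add, pev_mul, pev_sub]
  ring

theorem chk_one : ∀ q : Fin 12, ∀ j : Fin 5, chkSq (fv q j) (fv q (j + 1)) = (4, 0) := by
  decide +kernel

theorem chk_two : ∀ q : Fin 12, ∀ j : Fin 5, chkSq (fv q j) (fv q (j + 2)) = (4, 4) := by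
  decide +kernel

/-- twice the inner product with the normal -/
def ipi (q : Fin 12) (a : Fin 20) : ℤ × ℤ :=
  pmu (nti q 0) (dti a 0) + pmu (nti q 1) (dti a 1) + pmu (nti q 2) (dti a 2)

theorem ipi_check : ∀ q : Fin 12, ∀ a : Fin 20,
    ((∃ j, fv q j = a) ∧ ipi q a = (1, 2)) ∨
      ((¬ ∃ j, fv q j = a) ∧ 0 ≤ ((1, 2) - ipi q a : ℤ × ℤ).1 ∧
        0 < ((1, 2) - ipi q a : ℤ × ℤ).2) := by
  decide +kernel

/-- each facet of the model dodecahedron is a regular pentagon of edge length one -/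
theorem facet_regular (q : Fin 12) (j : Fin 5) :
    dist (dv (fv q j)) (dv (fv q (j + 1))) = 1 ∧
      dist (dv (fv q j)) (dv (fv q (j + 2))) = Real.goldenRatio := by
  constructor
  · have h := dist_dv (fv q j) (fv q (j + 1))
    rw [chk_one] at h
    have h2 : dist (dv (fv q j)) (dv (fv q (j + 1))) ^ 2 = 1 ^ 2 := by
      rw [h]; simp [pev]
    exact (pow_left_inj₀ dist_nonneg zero_le_one two_ne_zero).1 h2
  · have h := dist_dv (fv q j) (fv q (j + 2))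
    rw [chk_two] at h
    have h2 : dist (dv (fv q j)) (dv (fv q (j + 2))) ^ 2 = Real.goldenRatio ^ 2 := by
      rw [h, Real.goldenRatio_sq]; simp only [pev]; push_cast; ring
    exact (pow_left_inj₀ dist_nonneg Real.goldenRatio_pos.le two_ne_zero).1 h2

/-- the vertices of each facet are the vertices in a supporting plane -/
theorem facet_support (q : Fin 12) : ∃ (n : E3) (c : ℝ), ∀ a,
    inner ℝ n (dv a) ≤ c ∧ (inner ℝ n (dv a) = c ↔ ∃ j, fv q j = a) := by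
  refine ⟨!₂[pev (nti q 0), pev (nti q 1), pev (nti q 2)], pev (1, 2) / 2, fun a => ?_⟩
  have h : inner ℝ (!₂[pev (nti q 0), pev (nti q 1), pev (nti q 2)] : E3) (dv a) =
      pev (ipi q a) / 2 := by
    rw [PiLp.inner_apply, Fin.sum_univ_three]
    simp only [RCLike.inner_apply, conj_trivial, dv_eq, ipi, pev_add, pev_mul]
    simp
    ring
  rw [h]
  rcases ipi_check q a with ⟨h1, h2⟩ | ⟨h1, h2, h3⟩
  · rw [h2]
    exact ⟨le_rfl, fun _ => h1, fun _ => rfl⟩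
  · have h4 := pev_pos h2 h3
    rw [pev_sub] at h4
    refine ⟨by linarith, fun h5 => ?_, fun h5 => absurd h5 h1⟩
    exfalso
    linarith

end

end Pool.Agent.Helper275.Pent
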