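import Mathlib

set_option autoImplicit false

/-!
Closed polyhedral surfaces made of copies of a regular pentagon of edge length one, and unions of
solid regular dodecahedra of edge length one glued at common facets.
-/

namespace Pool.Agent.Helper275.Pent

open scoped Topology

noncomputable section

/-- Euclidean three-space -/
abbrev E3 : Type := EuclideanSpace ℝ (Fin 3)

/-- the vertices, in cyclic order, of the model regular pentagon: it has edge length one, lies in
the plane `ℂ` and is centred at the origin -/
def pv (k : ZMod 5) : ℂ :=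
  Complex.exp (2 * (Real.pi : ℂ) * Complex.I * (k.val : ℂ) / 5) /
    ((2 * Real.sin (Real.pi / 5) : ℝ) : ℂ)

/-- the model regular pentagon (with its interior) -/
def P : Set ℂ := convexHull ℝ (Set.range pv)

/-- the point at parameter `s` of the edge number `i` of the model pentagon, which goes from
vertex `i` to vertex `i + 1` -/
def edgePt (i : ZMod 5) (s : ℝ) : ℂ := (1 - s) • pv i + s • pv (i + 1)

/-- combinatorial data of a closed polyhedral surface made of finitely many copies of the
pentagon, one for each `x : X`: the edge `i` of the copy `x` is glued to the edge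
`(g (x, i)).2` of the copy `(g (x, i)).1`, by the isometry of edges that reverses the parameter
when `flip (x, i)` is true, and by the one that preserves it when `flip (x, i)` is false -/
structure Surf where
  X : Type
  fin : Finite X
  g : X × ZMod 5 → X × ZMod 5
  flip : X × ZMod 5 → Bool
  g_g : ∀ e, g (g e) = e
  g_ne : ∀ e, g e ≠ e
  flip_g : ∀ e, flip (g e) = flip e

/-- the gluing relation on the disjoint union of the copies of the pentagon -/
def Surf.Glue (M : Surf) (a b : Σ _ : M.X, P) : Prop :=
  ∃ (i : ZMod 5) (s : ℝ), 0 ≤ s ∧ s ≤ 1 ∧ (a.2 : ℂ) = edgePt i s ∧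
    b.1 = (M.g (a.1, i)).1 ∧
    (b.2 : ℂ) = edgePt (M.g (a.1, i)).2 (if M.flip (a.1, i) then 1 - s else s)

/-- the closed polyhedral surface: the disjoint union of the pentagons modulo the gluing, with the
quotient topology -/
abbrev Surf.Space (M : Surf) : Type := Quot M.Glue

/-- the point `t` of the face `x` -/
def Surf.pt (M : Surf) (x : M.X) (t : P) : M.Space := Quot.mk _ ⟨x, t⟩

/-- half of the golden ratio -/
def ga : ℝ := Real.goldenRatio / 2

/-- half of the square of the golden ratio -/
def gc : ℝ := Real.goldenRatio ^ 2 / 2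

/-- the twenty vertices of the model regular dodecahedron of edge length one, centred at the
origin -/
def dv : Fin 20 → E3 := ![
  !₂[ga, ga, ga], !₂[0, 1 / 2, gc], !₂[-ga, ga, ga], !₂[-(1 / 2), gc, 0], !₂[1 / 2, gc, 0],
  !₂[gc, 0, 1 / 2], !₂[ga, -ga, ga], !₂[0, -(1 / 2), gc], !₂[-ga, -ga, ga], !₂[-gc, 0, 1 / 2],
  !₂[-gc, 0, -(1 / 2)], !₂[-ga, ga, -ga], !₂[0, 1 / 2, -gc], !₂[ga, ga, -ga],
  !₂[gc, 0, -(1 / 2)], !₂[ga, -ga, -ga], !₂[1 / 2, -gc, 0], !₂[-(1 / 2), -gc, 0],
  !₂[-ga, -ga, -ga], !₂[0, -(1 / 2), -gc]]

/-- the five vertices, in cyclic order, of each of the twelve facets -/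
def fv : Fin 12 → Fin 5 → Fin 20 := ![
  ![0, 1, 2, 3, 4],
  ![1, 0, 5, 6, 7],
  ![2, 1, 7, 8, 9],
  ![3, 2, 9, 10, 11],
  ![4, 3, 11, 12, 13],
  ![0, 4, 13, 14, 5],
  ![15, 16, 6, 5, 14],
  ![16, 17, 8, 7, 6],
  ![17, 18, 10, 9, 8],
  ![18, 19, 12, 11, 10],
  ![19, 15, 14, 13, 12],
  ![16, 15, 19, 18, 17]]

/-- the model solid regular dodecahedron of edge length one -/
def Dod : Set E3 := convexHull ℝ (Set.range dv)

/-- the facets of the model dodecahedron -/
def facet (q : Fin 12) : Set E3 := convexHull ℝ (Set.range fun j => dv (fv q j))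

/-- finitely many copies of the solid dodecahedron, one for each `i : I`, some of whose facets
are glued in pairs: `mt (i, q) = some (j, r)` when the facet `q` of the copy `i` is glued to the
facet `r` of the copy `j`, and the isometry of facets used is then `h (i, q)`; and
`mt (i, q) = none` when the facet `q` of the copy `i` is used in no gluing -/
structure Solid where
  I : Type
  fin : Finite I
  mt : I × Fin 12 → Option (I × Fin 12)
  h : I × Fin 12 → E3 → E3
  mt_symm : ∀ a b, mt a = some b → mt b = some a
  mt_ne : ∀ a, mt a ≠ some a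
  h_image : ∀ a b, mt a = some b → h a '' facet a.2 = facet b.2
  h_dist : ∀ a b, mt a = some b → ∀ s ∈ facet a.2, ∀ t ∈ facet a.2,
    dist (h a s) (h a t) = dist s t
  h_h : ∀ a b, mt a = some b → ∀ t ∈ facet a.2, h b (h a t) = t

/-- the gluing relation on the disjoint union of the copies of the solid dodecahedron -/
def Solid.Glue (B : Solid) (a b : Σ _ : B.I, Dod) : Prop :=
  ∃ q r, B.mt (a.1, q) = some (b.1, r) ∧ (a.2 : E3) ∈ facet q ∧ (b.2 : E3) = B.h (a.1, q) a.2

/-- the union of the dodecahedra: their disjoint union modulo the gluing, with the quotient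
topology -/
abbrev Solid.Space (B : Solid) : Type := Quot B.Glue

/-- the point `t` of the solid `i` -/
def Solid.pt (B : Solid) (i : B.I) (t : Dod) : B.Space := Quot.mk _ ⟨i, t⟩

/-- solids glued along a facet lie on opposite sides of it: the images under `F` of two copies
glued along a facet meet only along the image of that facet -/
def Solid.Proper (B : Solid) (F : B.Space → E3) : Prop :=
  ∀ i q j r, B.mt (i, q) = some (j, r) →
    Set.range (fun t : Dod => F (B.pt i t)) ∩ Set.range (fun t : Dod => F (B.pt j t)) =
      (fun t : Dod => F (B.pt i t)) '' {t | (t : E3) ∈ facet q}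

/-- the boundary: the union of the facets not used in any gluing -/
def Solid.bdry (B : Solid) : Set B.Space :=
  {z | ∃ i q, B.mt (i, q) = none ∧ ∃ t : Dod, (t : E3) ∈ facet q ∧ z = B.pt i t}

/-- `M` with the map `f` is the boundary of `B` with the map `F`: there is a homeomorphism `Ψ` of
`M` onto the boundary of `B` that takes the faces of `M` one-to-one and isometrically onto the
facets of `B` used in no gluing, and `f` agrees with `F` under `Ψ` -/
def IsBoundary (M : Surf) (f : M.Space → E3) (B : Solid) (F : B.Space → E3) : Prop :=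
  ∃ (Ψ : M.Space → B.Space) (Φ : M.X → B.I × Fin 12),
    Topology.IsEmbedding Ψ ∧ Set.range Ψ = B.bdry ∧
    Function.Injective Φ ∧ Set.range Φ = {a | B.mt a = none} ∧
    (∀ x, ∃ w : P → Dod, Isometry w ∧ Set.range (fun t => (w t : E3)) = facet (Φ x).2 ∧
      ∀ t, Ψ (M.pt x t) = B.pt (Φ x).1 (w t)) ∧
    ∀ z, F (Ψ z) = f z

end

end Pool.Agent.Helper275.Pent
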