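import Pool.Agent.Helper275.Pent.MapDef

set_option autoImplicit false

/-!
The regular dodecahedron: formal coordinates in `ℚ(√5)`.
-/

namespace Pool.Agent.Helper275.Pent

open scoped Matrix

/-- formal elements of `ℚ(√5)` -/
structure K5 where
  a : ℚ
  b : ℚ
deriving DecidableEq

namespace K5
def add (x y : K5) : K5 := ⟨x.a + y.a, x.b + y.b⟩
def neg (x : K5) : K5 := ⟨-x.a, -x.b⟩
def mul (x y : K5) : K5 := ⟨x.a * y.a + 5 * (x.b * y.b), x.a * y.b + x.b * y.a⟩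
end K5

noncomputable def ev (x : K5) : ℝ := x.a + x.b * s5

theorem ev_add (x y : K5) : ev (x.add y) = ev x + ev y := by
  simp only [ev, K5.add]; push_cast; ring
theorem ev_neg (x : K5) : ev x.neg = - ev x := by
  simp only [ev, K5.neg]; push_cast; ring
theorem ev_mul (x y : K5) : ev (x.mul y) = ev x * ev y := by
  simp only [ev, K5.mul]; push_cast
  have := s5_sq
  linear_combination (- (x.b : ℝ) * y.b) * this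

/-- formal vectors -/
structure V5 where
  x : K5
  y : K5
  z : K5
deriving DecidableEq

namespace V5
def add (p q : V5) : V5 := ⟨p.x.add q.x, p.y.add q.y, p.z.add q.z⟩
def smul (k : K5) (p : V5) : V5 := ⟨k.mul p.x, k.mul p.y, k.mul p.z⟩
def sub (p q : V5) : V5 := ⟨p.x.add q.x.neg, p.y.add q.y.neg, p.z.add q.z.neg⟩
def dot (p q : V5) : K5 :=
  (((p.x.mul q.x).add (p.y.mul q.y)).add
    (((p.x.mul q.y).add (p.y.mul q.x)).mul ⟨1 / 4, -1 / 4⟩)).add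
    ((p.z.mul q.z).mul ⟨5 / 8, 1 / 8⟩)
end V5

/-- evaluation of a formal vector in the basis of a frame -/
noncomputable def evL (Q : Fr) (s : Bool) (p : V5) : V :=
  Q.lin (ev p.x) (ev p.y) (sg s * ev p.z)

theorem evL_add (Q : Fr) (s : Bool) (p q : V5) : evL Q s (p.add q) = evL Q s p + evL Q s q := by
  simp only [evL, V5.add, ev_add, Fr.lin]; module
theorem evL_smul (Q : Fr) (s : Bool) (k : K5) (p : V5) :
    evL Q s (p.smul k) = ev k • evL Q s p := by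
  simp only [evL, V5.smul, ev_mul, Fr.lin]; module
theorem evL_sub (Q : Fr) (s : Bool) (p q : V5) : evL Q s (p.sub q) = evL Q s p - evL Q s q := by
  simp only [evL, V5.sub, ev_add, ev_neg, Fr.lin]; module
theorem evL_dot (Q : Fr) (s : Bool) (p q : V5) : evL Q s p ⬝ᵥ evL Q s q = ev (p.dot q) := by
  simp only [evL, V5.dot, ev_add, ev_mul]
  rw [Q.lin_dot, one_sub_cc_sq]
  have h1 : ev ⟨1 / 4, -1 / 4⟩ = cc := by simp only [ev, cc]; push_cast; ring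
  have h2 : ev ⟨5 / 8, 1 / 8⟩ = (5 + s5) / 8 := by simp only [ev]; push_cast; ring
  rw [h1, h2]
  have h3 := sg_sq s
  linear_combination (ev p.z * ev q.z * ((5 + s5) / 8)) * h3

/-- formal frames -/
structure FF where
  o : V5
  u : V5
  v : V5
  w : V5
deriving DecidableEq

def k1 : K5 := ⟨-1 / 2, 1 / 2⟩
def m1 : K5 := ⟨-1, 0⟩

def FF.rho (X : FF) : FF := ⟨X.o.add X.u, (X.u.smul k1).add X.v, X.u.smul m1, X.w⟩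
def FF.tau (X : FF) : FF :=
  ⟨X.o.add X.u, X.u.smul m1,
    ((X.u.smul ⟨-1 / 2, 3 / 10⟩).add (X.v.smul ⟨0, -1 / 5⟩)).add (X.w.smul ⟨0, 2 / 5⟩),
    ((X.u.smul ⟨1 / 2, -1 / 10⟩).add (X.v.smul ⟨0, 2 / 5⟩)).add (X.w.smul ⟨0, 1 / 5⟩)⟩

def FF.base : FF := ⟨⟨⟨0, 0⟩, ⟨0, 0⟩, ⟨0, 0⟩⟩, ⟨⟨1, 0⟩, ⟨0, 0⟩, ⟨0, 0⟩⟩,
  ⟨⟨0, 0⟩, ⟨1, 0⟩, ⟨0, 0⟩⟩, ⟨⟨0, 0⟩, ⟨0, 0⟩, ⟨1, 0⟩⟩⟩

/-- the formal frame represents the frame `P` relative to `Q` -/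
def Rep (Q : Fr) (s : Bool) (X : FF) (P : Fr) : Prop :=
  P.o = Q.o + evL Q s X.o ∧ P.u = evL Q s X.u ∧ P.v = evL Q s X.v ∧
    sg s • P.w = evL Q s X.w

theorem Rep.base (Q : Fr) (s : Bool) : Rep Q s FF.base Q := by
  refine ⟨?_, ?_, ?_, ?_⟩ <;> simp [evL, FF.base, Fr.lin, ev]

theorem Rep.rho {Q : Fr} {s : Bool} {X : FF} {P : Fr} (h : Rep Q s X P) :
    Rep Q s X.rho (rhoF P) := by
  obtain ⟨h1, h2, h3, h4⟩ := h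
  have e1 : ev k1 = (s5 - 1) / 2 := by simp only [ev, k1]; push_cast; ring
  have e2 : ev m1 = -1 := by simp [ev, m1]
  refine ⟨?_, ?_, ?_, ?_⟩
  · simp only [rhoF, FF.rho, evL_add, h1, h2]; module
  · simp only [rhoF, FF.rho, evL_add, evL_smul, e1, h3, h2]
  · simp only [rhoF, FF.rho, evL_smul, e2, h2]; module
  · rw [w_rho]; exact h4

theorem Rep.tau {Q : Fr} {s : Bool} {X : FF} {P : Fr} (h : Rep Q s X P) :
    Rep Q s X.tau (tauF s P) := by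
  obtain ⟨h1, h2, h3, h4⟩ := h
  have e2 : ev m1 = -1 := by simp [ev, m1]
  have e3 : ev ⟨-1 / 2, 3 / 10⟩ = (3 * s5 - 5) / 10 := by simp only [ev]; push_cast; ring
  have e4 : ev ⟨0, -1 / 5⟩ = -(s5 / 5) := by simp only [ev]; push_cast; ring
  have e5 : ev ⟨0, 2 / 5⟩ = 2 * (s5 / 5) := by simp only [ev]; push_cast; ring
  have e6 : ev ⟨1 / 2, -1 / 10⟩ = -(2 * (s5 / 5)) * cc := by
    simp only [ev, cc]; push_cast
    have := s5_sq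
    linear_combination (-1 / 10 : ℝ) * this
  have e7 : ev ⟨0, 1 / 5⟩ = s5 / 5 := by simp only [ev]; push_cast; ring
  refine ⟨?_, ?_, ?_, ?_⟩
  · simp only [tauF, FF.tau, evL_add, h1, h2]; module
  · simp only [tauF, FF.tau, evL_smul, e2, h2]; module
  · simp only [tauF, FF.tau, evL_add, evL_smul, e3, e4, e5, ← h2, ← h3, ← h4, Fr.lin]; module
  · simp only [FF.tau, evL_add, evL_smul, e5, e6, e7, ← h2, ← h3, ← h4]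
    rw [w_tau]
    simp only [Fr.lin]
    have h5 := sg_sq s
    have l : sg s • ((-(2 * sg s * (s5 / 5)) * cc) • P.u + (2 * sg s * (s5 / 5)) • P.v
        + (s5 / 5) • P.w) = ((-(2 * (s5 / 5)) * cc) * (sg s * sg s)) • P.u
        + ((2 * (s5 / 5)) * (sg s * sg s)) • P.v + (s5 / 5) • (sg s • P.w) := by module
    rw [l, h5]
    module

theorem Rep.unique {Q : Fr} {s : Bool} {X : FF} {P P' : Fr} (h : Rep Q s X P)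
    (h' : Rep Q s X P') : P = P' := by
  obtain ⟨h1, h2, h3, -⟩ := h
  obtain ⟨h1', h2', h3', -⟩ := h'
  ext1
  · rw [h1, h1']
  · rw [h2, h2']
  · rw [h3, h3']

/-- frames of the darts of the dodecahedron on the side `s` of the frame `Q` -/
noncomputable def FD (s : Bool) (Q : Fr) (f : Fin 12) (j : Fin 5) : Fr :=
  if f.val = 0 then rhoF^[j.val] Q
  else if f.val < 6 then rhoF^[j.val] (tauF s (rhoF^[f.val - 1] Q))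
  else if f.val < 11 then rhoF^[j.val + 3] (tauF s (rhoF^[2] (tauF s (rhoF^[f.val - 6] Q))))
  else rhoF^[j.val] (tauF s (rhoF^[3] (tauF s (rhoF^[2] (tauF s Q)))))

/-- the same for formal frames -/
def FD5 (f : Fin 12) (j : Fin 5) : FF :=
  if f.val = 0 then FF.rho^[j.val] FF.base
  else if f.val < 6 then FF.rho^[j.val] (FF.tau (FF.rho^[f.val - 1] FF.base))
  else if f.val < 11 then
    FF.rho^[j.val + 3] (FF.tau (FF.rho^[2] (FF.tau (FF.rho^[f.val - 6] FF.base))))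
  else FF.rho^[j.val] (FF.tau (FF.rho^[3] (FF.tau (FF.rho^[2] (FF.tau FF.base)))))

theorem Rep.iter {Q : Fr} {s : Bool} {X : FF} {P : Fr} (h : Rep Q s X P) (n : ℕ) :
    Rep Q s (FF.rho^[n] X) (rhoF^[n] P) := by
  induction n with
  | zero => exact h
  | succ n ih => rw [Function.iterate_succ_apply', Function.iterate_succ_apply']; exact ih.rho

theorem Rep.FD (Q : Fr) (s : Bool) (f : Fin 12) (j : Fin 5) :
    Rep Q s (FD5 f j) (FD s Q f j) := by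
  unfold FD5 Pent.FD
  split_ifs
  · exact (Rep.base Q s).iter _
  · exact ((Rep.base Q s).iter _).tau.iter _
  · exact ((((Rep.base Q s).iter _).tau.iter _).tau).iter _
  · exact ((((Rep.base Q s).tau.iter _).tau.iter _).tau).iter _

def cr : Fin 20 → V5 := ![
  ⟨⟨0, 0⟩, ⟨0, 0⟩, ⟨0, 0⟩⟩,
  ⟨⟨1, 0⟩, ⟨0, 0⟩, ⟨0, 0⟩⟩,
  ⟨⟨(1 / 2), (1 / 2)⟩, ⟨1, 0⟩, ⟨0, 0⟩⟩,
  ⟨⟨1, 0⟩, ⟨(1 / 2), (1 / 2)⟩, ⟨0, 0⟩⟩,
  ⟨⟨0, 0⟩, ⟨1, 0⟩, ⟨0, 0⟩⟩,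
  ⟨⟨0, (-1 / 5)⟩, ⟨0, (-1 / 5)⟩, ⟨0, (2 / 5)⟩⟩,
  ⟨⟨(1 / 2), (-1 / 10)⟩, ⟨(-1 / 2), (-1 / 10)⟩, ⟨1, (1 / 5)⟩⟩,
  ⟨⟨(1 / 2), (3 / 10)⟩, ⟨0, (-1 / 5)⟩, ⟨0, (2 / 5)⟩⟩,
  ⟨⟨1, (2 / 5)⟩, ⟨(1 / 2), (-1 / 10)⟩, ⟨1, (1 / 5)⟩⟩,
  ⟨⟨(3 / 2), (3 / 10)⟩, ⟨(1 / 2), (3 / 10)⟩, ⟨0, (2 / 5)⟩⟩,
  ⟨⟨1, (2 / 5)⟩, ⟨1, (2 / 5)⟩, ⟨1, (1 / 5)⟩⟩,
  ⟨⟨(1 / 2), (3 / 10)⟩, ⟨(3 / 2), (3 / 10)⟩, ⟨0, (2 / 5)⟩⟩,
  ⟨⟨(1 / 2), (-1 / 10)⟩, ⟨1, (2 / 5)⟩, ⟨1, (1 / 5)⟩⟩,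
  ⟨⟨0, (-1 / 5)⟩, ⟨(1 / 2), (3 / 10)⟩, ⟨0, (2 / 5)⟩⟩,
  ⟨⟨(-1 / 2), (-1 / 10)⟩, ⟨(1 / 2), (-1 / 10)⟩, ⟨1, (1 / 5)⟩⟩,
  ⟨⟨(1 / 2), (-3 / 10)⟩, ⟨0, (1 / 5)⟩, ⟨1, (3 / 5)⟩⟩,
  ⟨⟨0, (1 / 5)⟩, ⟨(1 / 2), (-3 / 10)⟩, ⟨1, (3 / 5)⟩⟩,
  ⟨⟨1, (1 / 5)⟩, ⟨0, (1 / 5)⟩, ⟨1, (3 / 5)⟩⟩,
  ⟨⟨1, (1 / 5)⟩, ⟨1, (1 / 5)⟩, ⟨1, (3 / 5)⟩⟩,
  ⟨⟨0, (1 / 5)⟩, ⟨1, (1 / 5)⟩, ⟨1, (3 / 5)⟩⟩]
def vt : Fin 12 → Fin 5 → Fin 20 := ![
  ![0, 1, 2, 3, 4],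
  ![1, 0, 5, 6, 7],
  ![2, 1, 7, 8, 9],
  ![3, 2, 9, 10, 11],
  ![4, 3, 11, 12, 13],
  ![0, 4, 13, 14, 5],
  ![15, 16, 6, 5, 14],
  ![16, 17, 8, 7, 6],
  ![17, 18, 10, 9, 8],
  ![18, 19, 12, 11, 10],
  ![19, 15, 14, 13, 12],
  ![16, 15, 19, 18, 17]]
def gD : Fin 12 → Fin 5 → Fin 12 × Fin 5 := ![
  ![(1, 0), (2, 0), (3, 0), (4, 0), (5, 0)],
  ![(0, 0), (5, 4), (6, 2), (7, 3), (2, 1)],
  ![(0, 1), (1, 4), (7, 2), (8, 3), (3, 1)],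
  ![(0, 2), (2, 4), (8, 2), (9, 3), (4, 1)],
  ![(0, 3), (3, 4), (9, 2), (10, 3), (5, 1)],
  ![(0, 4), (4, 4), (10, 2), (6, 3), (1, 1)],
  ![(11, 0), (7, 4), (1, 2), (5, 3), (10, 1)],
  ![(11, 4), (8, 4), (2, 2), (1, 3), (6, 1)],
  ![(11, 3), (9, 4), (3, 2), (2, 3), (7, 1)],
  ![(11, 2), (10, 4), (4, 2), (3, 3), (8, 1)],
  ![(11, 1), (6, 4), (5, 2), (4, 3), (9, 1)],
  ![(6, 0), (10, 0), (9, 0), (8, 0), (7, 0)]]

theorem FD5_ph : ∀ f j, FD5 f (j + 1) = (FD5 f j).rho := by decide +kernel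

theorem FD5_gD : ∀ f j, FD5 (gD f j).1 (gD f j).2 = (FD5 f j).tau := by decide +kernel

theorem FD5_o : ∀ f j, (FD5 f j).o = cr (vt f j) := by decide +kernel

theorem FD_ph (s : Bool) (Q : Fr) (f : Fin 12) (j : Fin 5) :
    FD s Q f (j + 1) = rhoF (FD s Q f j) := by
  have h1 := Rep.FD Q s f (j + 1)
  rw [FD5_ph] at h1
  exact h1.unique (Rep.FD Q s f j).rho

theorem FD_gD (s : Bool) (Q : Fr) (f : Fin 12) (j : Fin 5) :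
    FD s Q (gD f j).1 (gD f j).2 = tauF s (FD s Q f j) := by
  have h1 := Rep.FD Q s (gD f j).1 (gD f j).2
  rw [FD5_gD] at h1
  exact h1.unique (Rep.FD Q s f j).tau

/-- positions of the vertices of the dodecahedron -/
noncomputable def dp (s : Bool) (Q : Fr) (a : Fin 20) : V := Q.o + evL Q s (cr a)

theorem FD_o (s : Bool) (Q : Fr) (f : Fin 12) (j : Fin 5) :
    (FD s Q f j).o = dp s Q (vt f j) := by
  rw [(Rep.FD Q s f j).1, FD5_o, dp]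

theorem gD_gD : ∀ f j, gD (gD f j).1 (gD f j).2 = (f, j) := by decide +kernel

theorem vt_gD : ∀ f j, vt (gD f j).1 (gD f j).2 = vt f (j + 1) := by decide +kernel

theorem vt_inj : ∀ f, Function.Injective (vt f) := by decide +kernel

/-- squared distance -/
def dsq (a b : V) : ℝ := (a - b) ⬝ᵥ (a - b)

theorem dsq_dp (s : Bool) (Q : Fr) (a b : Fin 20) :
    dsq (dp s Q a) (dp s Q b) = ev (((cr a).sub (cr b)).dot ((cr a).sub (cr b))) := by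
  unfold dsq dp
  rw [show Q.o + evL Q s (cr a) - (Q.o + evL Q s (cr b)) = evL Q s ((cr a).sub (cr b)) by
    rw [evL_sub]; abel]
  rw [evL_dot]

end Pool.Agent.Helper275.Pent
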