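import Pool.Agent.Helper275.Pent.Dod

set_option autoImplicit false

namespace Pool.Agent.Helper275.Pent

open scoped Matrix Classical

noncomputable section

variable {D : Type} [Fintype D]

/-- vertices of a facet -/
def fverts (s : Bool) (Q : Fr) (f : Fin 12) : Set V := Set.range fun j => dp s Q (vt f j)

/-- identification of the faces at the point `t` -/
def RelM (M : PMap D) (t : V) (d e : D) : Prop :=
  Relation.EqvGen (fun a b => b = M.ph a ∨
    (b = M.gl a ∧ t ∈ segment ℝ (M.fr a).o ((M.fr a).o + (M.fr a).u))) d e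

/-- identification of the solids at the point `t` -/
def RelB {I : Type} (Q : I → Fr) (s : I → Bool) (m : I × Fin 12 → Option (I × Fin 12)) (t : V)
    (i j : I) : Prop :=
  Relation.EqvGen (fun i j => ∃ f f', m (i, f) = some (j, f') ∧
    t ∈ convexHull ℝ (fverts (s i) (Q i) f)) i j

/-- the surface is the boundary of a union of dodecahedra -/
def Filled (M : PMap D) : Prop :=
  ∃ (I : Type) (_ : Finite I) (Q : I → Fr) (s : I → Bool) (m : I × Fin 12 → Option (I × Fin 12))
    (fac : D → I × Fin 12),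
    (∀ a b, m a = some b → m b = some a) ∧ (∀ a, m a ≠ some a) ∧
    (∀ i f j f', m (i, f) = some (j, f') → fverts (s i) (Q i) f = fverts (s j) (Q j) f') ∧
    (∀ d, m (fac d) = none) ∧ (∀ a, m a = none → ∃ d, fac d = a) ∧
    (∀ d e, fac d = fac e ↔ M.ph.SameCycle d e) ∧
    (∀ d, {z | ∃ k : ℕ, z = (M.fr ((M.ph ^ k) d)).o} =
      fverts (s (fac d).1) (Q (fac d).1) (fac d).2) ∧
    (∀ t d e, t ∈ convexHull ℝ (fverts (s (fac d).1) (Q (fac d).1) (fac d).2) →
      t ∈ convexHull ℝ (fverts (s (fac e).1) (Q (fac e).1) (fac e).2) →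
      (RelM M t d e ↔ RelB Q s m t (fac d).1 (fac e).1))

end

end Pool.Agent.Helper275.Pent
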