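import Pool.Agent.Helper275.Pent.Pat
import Pool.Agent.Helper275.Pent.FilDef

set_option autoImplicit false


namespace Pool.Agent.Helper275.Pent

open scoped Matrix Classical

noncomputable section

variable {D : Type} [Fintype D]

/-- the darts of the eleven faces of a patch (and a junk value for the twelfth facet) -/
def psi (M : PMap D) (x : D) (f : Fin 12) (j : Fin 5) : D :=
  if f.val = 0 then (M.ph ^ j.val) x
  else if f.val < 6 then (M.ph ^ j.val) (M.gl ((M.ph ^ (f.val - 1)) x))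
  else if f.val < 11 then
    (M.ph ^ (j.val + 3)) (M.gl ((M.ph ^ 2) (M.gl ((M.ph ^ (f.val - 6)) x))))
  else (M.ph ^ j.val) (M.gl ((M.ph ^ 3) (M.gl ((M.ph ^ 2) (M.gl x)))))

/-- boundary curve of the patch -/
def pcurve (M : PMap D) (x : D) : Set D :=
  {d | ∃ f : Fin 12, 6 ≤ f.val ∧ f.val ≤ 10 ∧ d = psi M x f 0}

/-! #### the darts of the patch -/

def pX (M : PMap D) (x : D) (i : Fin 5) : D := (M.ph ^ i.val) x
def pY (M : PMap D) (x : D) (i j : Fin 5) : D := (M.ph ^ j.val) (M.gl (pX M x i))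
def pZ (M : PMap D) (x : D) (i k : Fin 5) : D := (M.ph ^ k.val) (M.gl (pY M x i 2))
def fY (i : Fin 5) : Fin 12 := ⟨1 + i.val, by omega⟩
def fZ (i : Fin 5) : Fin 12 := ⟨6 + i.val, by omega⟩

theorem pp_succ (M : PMap D) (hord : ∀ d, (M.ph ^ 5) d = d) (j : Fin 5) (d : D) :
    (M.ph ^ (j + 1).val) d = M.ph ((M.ph ^ j.val) d) := by
  have key : ∀ n m : ℕ, n = m + 1 → (M.ph ^ n) d = M.ph ((M.ph ^ m) d) := by
    rintro n m rfl
    rw [pow_succ', Equiv.Perm.mul_apply]
  fin_cases j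
  · exact key 1 0 rfl
  · exact key 2 1 rfl
  · exact key 3 2 rfl
  · exact key 4 3 rfl
  · show (M.ph ^ 0) d = M.ph ((M.ph ^ 4) d)
    rw [← key 5 4 rfl, hord]
    rfl

theorem pp_add3 (M : PMap D) (hord : ∀ d, (M.ph ^ 5) d = d) (j : Fin 5) (d : D) :
    (M.ph ^ (j.val + 3)) d = (M.ph ^ (j + 3).val) d := by
  have key : ∀ n : ℕ, (M.ph ^ (n + 5)) d = (M.ph ^ n) d := by
    intro n
    rw [pow_add, Equiv.Perm.mul_apply, hord]
  fin_cases j
  · rfl
  · rfl
  · exact key 0
  · exact key 1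
  · exact key 2

theorem pX_succ (M : PMap D) (hord : ∀ d, (M.ph ^ 5) d = d) (x : D) (i : Fin 5) :
    pX M x (i + 1) = M.ph (pX M x i) := pp_succ M hord i _
theorem pY_succ (M : PMap D) (hord : ∀ d, (M.ph ^ 5) d = d) (x : D) (i j : Fin 5) :
    pY M x i (j + 1) = M.ph (pY M x i j) := pp_succ M hord j _
theorem pZ_succ (M : PMap D) (hord : ∀ d, (M.ph ^ 5) d = d) (x : D) (i k : Fin 5) :
    pZ M x i (k + 1) = M.ph (pZ M x i k) := pp_succ M hord k _

theorem psi_X (M : PMap D) (x : D) (j : Fin 5) : psi M x 0 j = pX M x j := by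
  unfold psi pX
  rw [if_pos (show ((0 : Fin 12) : ℕ) = 0 from rfl)]

theorem psi_Y (M : PMap D) (x : D) (i j : Fin 5) : psi M x (fY i) j = pY M x i j := by
  have h1 : ¬ (fY i).val = 0 := by show ¬ 1 + i.val = 0; omega
  have h2 : (fY i).val < 6 := by show 1 + i.val < 6; omega
  have h3 : (fY i).val - 1 = i.val := by show 1 + i.val - 1 = i.val; omega
  unfold psi pY pX
  rw [if_neg h1, if_pos h2, h3]

theorem psi_Z (M : PMap D) (hord : ∀ d, (M.ph ^ 5) d = d) (x : D) (i j : Fin 5) :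
    psi M x (fZ i) j = pZ M x i (j + 3) := by
  have h1 : ¬ (fZ i).val = 0 := by show ¬ 6 + i.val = 0; omega
  have h2 : ¬ (fZ i).val < 6 := by show ¬ 6 + i.val < 6; omega
  have h3 : (fZ i).val < 11 := by show 6 + i.val < 11; omega
  have h4 : (fZ i).val - 6 = i.val := by show 6 + i.val - 6 = i.val; omega
  unfold psi pZ pY pX
  rw [if_neg h1, if_neg h2, if_pos h3, h4, pp_add3 M hord]
  rfl

theorem f_cases (f : Fin 12) : f = 0 ∨ (∃ i, f = fY i) ∨ (∃ i, f = fZ i) ∨ f = 11 := by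
  revert f; decide

/-- all the relations in the patch -/
structure PRel (M : PMap D) (s : Bool) (x : D) : Prop where
  aX : ∀ i, Adj M s (pX M x i)
  aY : ∀ i j, Adj M s (pY M x i j)
  e1 : ∀ i, M.gl (pX M x i) = pY M x i 0
  e2 : ∀ i, M.gl (pY M x (i + 1) 1) = pY M x i 4
  e3 : ∀ i, M.gl (pY M x i 2) = pZ M x i 0
  e4 : ∀ i, M.gl (pY M x i 3) = pZ M x (i + 1) 1
  e5 : ∀ i, M.gl (pZ M x (i + 1) 2) = pZ M x i 4
  a2 : ∀ i, Adj M s (pZ M x (i + 1) 2)

theorem patch_rel (M : PMap D) (hord : ∀ d, (M.ph ^ 5) d = d) {s : Bool} {x : D} {G : Set D}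
    (hP : Patch M s x G) : PRel M s x := by
  have aX : ∀ i, Adj M s (pX M x i) := fun i => (hP i.val 0).2.2.2.1
  have aY : ∀ i j, Adj M s (pY M x i j) := fun i j => (hP i.val j.val).2.2.2.2
  have e1 : ∀ i, M.gl (pX M x i) = pY M x i 0 := fun i => rfl
  have e3 : ∀ i, M.gl (pY M x i 2) = pZ M x i 0 := fun i => rfl
  have e2 : ∀ i, M.gl (pY M x (i + 1) 1) = pY M x i 4 := by
    intro i
    have h1 : M.ph (M.gl (pX M x (i + 1))) = pY M x (i + 1) 1 := by
      rw [e1, ← pY_succ M hord]; rfl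
    have h2 := (close3 M (aX (i + 1)) (by rw [h1]; exact aY _ _)).1
    rw [h1, pX_succ M hord] at h2
    have h3 := M.ph.injective h2
    have h4 : M.ph (M.gl (pY M x (i + 1) 1)) = M.gl (pX M x i) := by
      rw [← h3, M.gl_gl]
    have h5 : M.ph (pY M x i 4) = M.gl (pX M x i) := by
      rw [e1, ← pY_succ M hord]; rfl
    exact M.ph.injective (h4.trans h5.symm)
  have e2' : ∀ i, M.gl (pY M x i 4) = pY M x (i + 1) 1 := by
    intro i
    rw [← e2, M.gl_gl]
  have e4' : ∀ i, M.gl (pZ M x (i + 1) 1) = pY M x i 3 := by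
    intro i
    have h1 : M.ph (M.gl (pY M x i 4)) = pY M x (i + 1) 2 := by
      rw [e2', ← pY_succ M hord]; rfl
    have h2 := (close3 M (aY i 4) (by rw [h1]; exact aY _ _)).1
    have h3 : M.ph (M.gl (pY M x (i + 1) 2)) = pZ M x (i + 1) 1 := by
      rw [e3, ← pZ_succ M hord]; rfl
    rw [h1, h3] at h2
    have h4 : M.ph (pY M x i 3) = pY M x i 4 := by rw [← pY_succ M hord]; rfl
    exact M.ph.injective (h2.trans h4.symm)
  have e4 : ∀ i, M.gl (pY M x i 3) = pZ M x (i + 1) 1 := by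
    intro i
    rw [← e4', M.gl_gl]
  have aZ0 : ∀ i, Adj M s (pZ M x i 0) := by
    intro i
    rw [← e3]
    exact (aY i 2).gl
  have h5 : ∀ i, M.gl (pZ M x (i + 1) 2) = pZ M x i 4 ∧ Adj M s (pZ M x (i + 1) 2) := by
    intro i
    have h1 : M.ph (M.gl (pZ M x i 0)) = pY M x i 3 := by
      rw [← e3, M.gl_gl, ← pY_succ M hord]; rfl
    have h2 := close3 M (aZ0 i) (by rw [h1]; exact aY _ _)
    have h3 : M.ph (M.gl (pY M x i 3)) = pZ M x (i + 1) 2 := by
      rw [e4, ← pZ_succ M hord]; rfl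
    rw [h1, h3] at h2
    have h4 : M.ph (pZ M x i 4) = pZ M x i 0 := by rw [← pZ_succ M hord]; rfl
    exact ⟨M.ph.injective (h2.1.trans h4.symm), h2.2⟩
  exact ⟨aX, aY, e1, e2, e3, e4, fun i => (h5 i).1, fun i => (h5 i).2⟩

theorem gD_X : ∀ i, gD 0 i = (fY i, 0) := by decide
theorem gD_Y0 : ∀ i, gD (fY i) 0 = (0, i) := by decide
theorem gD_Y1 : ∀ i, gD (fY (i + 1)) 1 = (fY i, 4) := by decide
theorem gD_Y2 : ∀ i, gD (fY i) 2 = (fZ i, 2) := by decide
theorem gD_Y3 : ∀ i, gD (fY i) 3 = (fZ (i + 1), 3) := by decide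
theorem gD_Y4 : ∀ i, gD (fY i) 4 = (fY (i + 1), 1) := by decide
theorem gD_Z1 : ∀ i, gD (fZ i) 1 = (fZ (i + 1), 4) := by decide
theorem gD_Z2 : ∀ i, gD (fZ i) 2 = (fY i, 2) := by decide
theorem gD_Z3 : ∀ i, gD (fZ (i + 1)) 3 = (fY i, 3) := by decide
theorem gD_Z4 : ∀ i, gD (fZ (i + 1)) 4 = (fZ i, 1) := by decide
theorem gD_Z0 : ∀ i, (gD (fZ i) 0).1 = 11 := by decide
theorem fin5_cases (j : Fin 5) : j = 0 ∨ j = 1 ∨ j = 2 ∨ j = 3 ∨ j = 4 := by revert j; decide
def tof (n : ℕ) : Fin 5 := ⟨n % 5, by omega⟩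
theorem tof_succ (n : ℕ) : tof (n + 1) = tof n + 1 := by
  apply Fin.ext
  rw [Fin.val_add]
  show (n + 1) % 5 = (n % 5 + 1) % 5
  omega
theorem tof_val (i : Fin 5) : tof i.val = i := by revert i; decide
theorem vt_bottom : ∀ i k, vt (fZ k) 0 = vt (fZ i) 1 → vt (fZ k) 1 = vt (fZ i) 0 → False := by
  decide
theorem fin5_pred (i : Fin 5) : ∃ k, i = k + 1 := by revert i; decide

theorem patch_map (M : PMap D) (hord : ∀ d, (M.ph ^ 5) d = d) {s : Bool} {x : D} {G : Set D}
    (hP : Patch M s x G) :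
    (∀ f j, psi M x f (j + 1) = M.ph (psi M x f j)) ∧
    (∀ f j, f ≠ 11 → (gD f j).1 ≠ 11 → M.gl (psi M x f j) = psi M x (gD f j).1 (gD f j).2) ∧
    (∀ f j, f ≠ 11 → M.fr (psi M x f j) = FD s (M.fr x) f j) := by
  have R := patch_rel M hord hP
  refine ⟨?_, ?_, ?_⟩
  · intro f j
    rcases f_cases f with rfl | ⟨i, rfl⟩ | ⟨i, rfl⟩ | rfl
    · rw [psi_X, psi_X, pX_succ M hord]
    · rw [psi_Y, psi_Y, pY_succ M hord]
    · rw [psi_Z M hord, psi_Z M hord, add_right_comm, pZ_succ M hord]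
    · exact pp_succ M hord j _
  · intro f j hf hg
    rcases f_cases f with rfl | ⟨i, rfl⟩ | ⟨i, rfl⟩ | rfl
    · rw [gD_X, psi_X, psi_Y, R.e1]
    · have hj := fin5_cases j
      rcases hj with rfl | rfl | rfl | rfl | rfl
      · rw [gD_Y0, psi_Y, psi_X, ← R.e1, M.gl_gl]
      · obtain ⟨k, rfl⟩ := fin5_pred i
        rw [gD_Y1, psi_Y, psi_Y, R.e2]
      · rw [gD_Y2, psi_Y, psi_Z M hord, R.e3]; rfl
      · rw [gD_Y3, psi_Y, psi_Z M hord, R.e4]; rfl
      · rw [gD_Y4, psi_Y, psi_Y, ← R.e2, M.gl_gl]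
    · have hj := fin5_cases j
      rcases hj with rfl | rfl | rfl | rfl | rfl
      · exact absurd (gD_Z0 i) hg
      · rw [gD_Z1, psi_Z M hord, psi_Z M hord]
        show M.gl (pZ M x i 4) = pZ M x (i + 1) 2
        rw [← R.e5, M.gl_gl]
      · rw [gD_Z2, psi_Z M hord, psi_Y]
        show M.gl (pZ M x i 0) = pY M x i 2
        rw [← R.e3, M.gl_gl]
      · obtain ⟨k, rfl⟩ := fin5_pred i
        rw [gD_Z3, psi_Z M hord, psi_Y]
        show M.gl (pZ M x (k + 1) 1) = pY M x k 3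
        rw [← R.e4, M.gl_gl]
      · obtain ⟨k, rfl⟩ := fin5_pred i
        rw [gD_Z4, psi_Z M hord, psi_Z M hord]
        show M.gl (pZ M x (k + 1) 2) = pZ M x k 4
        rw [R.e5]
    · exact absurd rfl hf
  · intro f j hf
    have fX : ∀ i, M.fr (pX M x i) = rhoF^[i.val] (M.fr x) := fun i => fr_ph_pow M x i.val
    have fYY : ∀ i j, M.fr (pY M x i j) = rhoF^[j.val] (tauF s (rhoF^[i.val] (M.fr x))) := by
      intro i j
      unfold pY
      rw [fr_ph_pow, (R.aX i : M.fr (M.gl (pX M x i)) = _), fX]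
    rcases f_cases f with rfl | ⟨i, rfl⟩ | ⟨i, rfl⟩ | rfl
    · rw [psi_X, fX]
      unfold FD
      rw [if_pos (show ((0 : Fin 12) : ℕ) = 0 from rfl)]
    · have h1 : ¬ (fY i).val = 0 := by show ¬ 1 + i.val = 0; omega
      have h2 : (fY i).val < 6 := by show 1 + i.val < 6; omega
      have h3 : (fY i).val - 1 = i.val := by show 1 + i.val - 1 = i.val; omega
      rw [psi_Y, fYY]
      unfold FD
      rw [if_neg h1, if_pos h2, h3]
    · have h1 : ¬ (fZ i).val = 0 := by show ¬ 6 + i.val = 0; omega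
      have h2 : ¬ (fZ i).val < 6 := by show ¬ 6 + i.val < 6; omega
      have h3 : (fZ i).val < 11 := by show 6 + i.val < 11; omega
      have h4 : (fZ i).val - 6 = i.val := by show 6 + i.val - 6 = i.val; omega
      unfold FD
      rw [if_neg h1, if_neg h2, if_pos h3, h4]
      unfold psi
      rw [if_neg h1, if_neg h2, if_pos h3, h4]
      have e : (M.ph ^ 2) (M.gl ((M.ph ^ i.val) x)) = pY M x i 2 := rfl
      rw [e, fr_ph_pow, (R.aY i 2 : M.fr (M.gl (pY M x i 2)) = _), fYY]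
      rfl
    · exact absurd rfl hf

/-! #### darts of the patch are different -/

theorem ev_inj {x y : K5} (h : ev x = ev y) : x = y := by
  obtain ⟨a, b⟩ := x
  obtain ⟨a', b'⟩ := y
  simp only [ev] at h
  by_cases hb : b = b'
  · subst hb
    have : (a : ℝ) = a' := by linarith
    have : a = a' := by exact_mod_cast this
    rw [this]
  · exfalso
    have hne : ((b : ℝ) - b') ≠ 0 := by
      intro h0
      apply hb
      have : (b : ℝ) = b' := by linarith
      exact_mod_cast this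
    have h1 : s5 = ((a' - a) / (b - b') : ℚ) := by
      push_cast
      rw [eq_div_iff hne]
      linarith
    exact InA_s5_irr ⟨_, h1.symm⟩

theorem evL_inj (Q : Fr) (s : Bool) {p q : V5} (h : evL Q s p = evL Q s q) : p = q := by
  obtain ⟨h1, h2, h3⟩ := Q.lin_inj h
  have hs : sg s ≠ 0 := by
    intro h0
    have := sg_sq s
    rw [h0] at this
    norm_num at this
  have h4 := mul_left_cancel₀ hs h3
  obtain ⟨x, y, z⟩ := p
  obtain ⟨x', y', z'⟩ := q
  have g1 : x = x' := ev_inj h1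
  have g2 : y = y' := ev_inj h2
  have g3 : z = z' := ev_inj h4
  rw [g1, g2, g3]

theorem cr_inj : Function.Injective cr := by decide +kernel

theorem dp_inj (s : Bool) (Q : Fr) : Function.Injective (dp s Q) := by
  intro a b h
  unfold dp at h
  exact cr_inj (evL_inj Q s (add_left_cancel h))

theorem FD_o' (s : Bool) (Q : Fr) (f : Fin 12) (j : Fin 5) :
    (FD s Q f j).o + (FD s Q f j).u = dp s Q (vt f (j + 1)) := by
  rw [← FD_o, FD_ph]
  rfl

theorem vt_pair : ∀ f f' j j', vt f j = vt f' j' → vt f (j + 1) = vt f' (j' + 1) →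
    f = f' ∧ j = j' := by decide +kernel

theorem FD_inj (s : Bool) (Q : Fr) {f f' : Fin 12} {j j' : Fin 5}
    (h : FD s Q f j = FD s Q f' j') : f = f' ∧ j = j' := by
  apply vt_pair
  · apply dp_inj s Q
    rw [← FD_o, ← FD_o, h]
  · apply dp_inj s Q
    rw [← FD_o', ← FD_o', h]

theorem patch_curve (M : PMap D) (hord : ∀ d, (M.ph ^ 5) d = d) {s : Bool} {x : D} {G : Set D}
    (hP : Patch M s x G) :
    Curve M s (pcurve M x) ∧ psi M x 6 0 ∈ pcurve M x ∧
      (∀ h ∈ pcurve M x, (M.ph * M.gl * M.ph).SameCycle (psi M x 6 0) h) ∧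
      (∀ d, Rea M (pcurve M x) d ∨ ∃ f j, f ≠ 11 ∧ d = psi M x f j) ∧
      (∀ f j, f ≠ 11 → ¬ Rea M (pcurve M x) (psi M x f j)) := by
  obtain ⟨p1, p2, p3⟩ := patch_map M hord hP
  have R := patch_rel M hord hP
  set H := pcurve M x with hHd
  have psi_inj : ∀ f f' j j', f ≠ 11 → f' ≠ 11 → psi M x f j = psi M x f' j' → f = f' ∧ j = j' := by
    intro f f' j j' hf hf' h
    apply FD_inj s (M.fr x)
    rw [← p3 f j hf, ← p3 f' j' hf', h]
  have fZ_ne : ∀ i, fZ i ≠ 11 := by decide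
  have fY_ne : ∀ i, fY i ≠ 11 := by decide
  have fZ_of : ∀ f : Fin 12, 6 ≤ f.val → f.val ≤ 10 → ∃ i, f = fZ i := by decide
  have memH : ∀ d, d ∈ H ↔ ∃ i, d = psi M x (fZ i) 0 := by
    intro d
    constructor
    · rintro ⟨f, h1, h2, rfl⟩
      obtain ⟨i, rfl⟩ := fZ_of f h1 h2
      exact ⟨i, rfl⟩
    · rintro ⟨i, rfl⟩
      exact ⟨fZ i, by show 6 ≤ 6 + i.val; omega, by show 6 + i.val ≤ 10; omega, rfl⟩
  have notH : ∀ f j, f ≠ 11 → psi M x f j ∈ H → (∃ i, f = fZ i) ∧ j = 0 := by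
    intro f j hf h
    obtain ⟨i, hi⟩ := (memH _).mp h
    obtain ⟨h1, h2⟩ := psi_inj _ _ _ _ hf (fZ_ne i) hi
    exact ⟨⟨i, h1⟩, h2⟩
  have z3 : ∀ i, psi M x (fZ i) 0 = pZ M x i 3 := fun i => psi_Z M hord x i 0
  have z4 : ∀ i, M.ph (psi M x (fZ i) 0) = pZ M x i 4 := by
    intro i
    rw [z3, ← pZ_succ M hord]; rfl
  have g4 : ∀ i, M.gl (pZ M x i 4) = pZ M x (i + 1) 2 := by
    intro i
    rw [← R.e5, M.gl_gl]
  have Tz : ∀ i, M.ph (M.gl (M.ph (psi M x (fZ i) 0))) = psi M x (fZ (i + 1)) 0 := by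
    intro i
    rw [z4, g4, z3, ← pZ_succ M hord]; rfl
  have hC : Curve M s H := by
    refine ⟨⟨_, (memH _).mpr ⟨0, rfl⟩⟩, ?_, ?_, ?_, ?_, ?_⟩
    · intro h hh
      obtain ⟨i, rfl⟩ := (memH h).mp hh
      rw [z4, ← R.e5]
      exact (R.a2 i).gl
    · intro h hh
      obtain ⟨i, rfl⟩ := (memH h).mp hh
      rw [Tz]
      exact (memH _).mpr ⟨_, rfl⟩
    · intro h hh hc
      obtain ⟨i, rfl⟩ := (memH h).mp hh
      rw [← p1] at hc
      exact absurd (notH _ _ (fZ_ne i) hc).2 (by decide)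
    · intro h hh hc
      obtain ⟨i, rfl⟩ := (memH h).mp hh
      rw [z4, g4] at hc
      have e : pZ M x (i + 1) 2 = psi M x (fZ (i + 1)) 4 := by
        rw [psi_Z M hord]; rfl
      rw [e] at hc
      exact absurd (notH _ _ (fZ_ne _) hc).2 (by decide)
    · intro h hh hc
      obtain ⟨i, rfl⟩ := (memH h).mp hh
      obtain ⟨k, hk⟩ := (memH _).mp hc
      have e1 := M.fr_o (psi M x (fZ i) 0)
      have e2 := M.fr_u (psi M x (fZ i) 0)
      rw [hk, p3 _ _ (fZ_ne i), p3 _ _ (fZ_ne k)] at e1 e2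
      have v1 : vt (fZ k) 0 = vt (fZ i) 1 := by
        apply dp_inj s (M.fr x)
        rw [← FD_o, e1]
        exact FD_o' s (M.fr x) (fZ i) 0
      have v2 : vt (fZ k) 1 = vt (fZ i) 0 := by
        apply dp_inj s (M.fr x)
        have e3 := FD_o' s (M.fr x) (fZ k) 0
        rw [e1, e2] at e3
        rw [← FD_o s (M.fr x) (fZ i) 0]
        have e4 : dp s (M.fr x) (vt (fZ k) (0 + 1)) = (FD s (M.fr x) (fZ i) 0).o := by
          rw [← e3]; abel
        exact e4
      exact vt_bottom i k v1 v2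
  have hSame : ∀ n : ℕ, ((M.ph * M.gl * M.ph) ^ n) (psi M x 6 0) = psi M x (fZ (tof n)) 0 := by
    intro n
    induction n with
    | zero => rfl
    | succ n ih =>
      rw [pow_succ', Equiv.Perm.mul_apply, ih]
      have e : (M.ph * M.gl * M.ph) (psi M x (fZ (tof n)) 0)
          = M.ph (M.gl (M.ph (psi M x (fZ (tof n)) 0))) := rfl
      rw [e, Tz, tof_succ]
  have hone : ∀ h ∈ H, (M.ph * M.gl * M.ph).SameCycle (psi M x 6 0) h := by
    intro h hh
    obtain ⟨i, rfl⟩ := (memH h).mp hh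
    refine ⟨(i.val : ℤ), ?_⟩
    rw [zpow_natCast, hSame, tof_val]
  have hcov : ∀ d, Rea M H d ∨ ∃ f j, f ≠ 11 ∧ d = psi M x f j := by
    have hS := M.conn {d | Rea M H d ∨ ∃ f j, f ≠ 11 ∧ d = psi M x f j}
      ⟨psi M x 0 0, Or.inr ⟨0, 0, by decide, rfl⟩⟩
      (by
        rintro d (h | ⟨f, j, hf, rfl⟩)
        · exact Or.inl (Rea.ph h)
        · exact Or.inr ⟨f, j + 1, hf, (p1 f j).symm⟩)
      (by
        rintro d (h | ⟨f, j, hf, rfl⟩)
        · by_cases hg : M.gl d ∈ H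
          · obtain ⟨i, hi⟩ := (memH _).mp hg
            exact Or.inr ⟨_, _, fZ_ne i, hi⟩
          · exact Or.inl (Rea.gl h hg)
        · by_cases hg : (gD f j).1 = 11
          · have h0 : ∀ f j, f ≠ 11 → (gD f j).1 = 11 → (∃ i, f = fZ i) ∧ j = 0 := by decide
            obtain ⟨⟨i, rfl⟩, rfl⟩ := h0 f j hf hg
            exact Or.inl (Rea.base ((memH _).mpr ⟨i, rfl⟩))
          · exact Or.inr ⟨_, _, hg, p2 f j hf hg⟩)
    intro d
    have : d ∈ {d | Rea M H d ∨ ∃ f j, f ≠ 11 ∧ d = psi M x f j} := by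
      rw [hS]; trivial
    exact this
  refine ⟨hC, (memH _).mpr ⟨0, rfl⟩, hone, hcov, ?_⟩
  obtain ⟨F, hf1, hf2⟩ := curve_sep M hC
  set c := F (psi M x 6 0) with hc
  have hHc : ∀ h ∈ H, F h = c := by
    intro h hh
    obtain ⟨n, rfl⟩ := same_pow (hone h hh)
    exact (curve_const M hC F hf1 hf2 _ ((memH _).mpr ⟨0, rfl⟩) n).2
  have hphn : ∀ f j, F (psi M x f j) = F (psi M x f 0) := by
    intro f j
    have key : ∀ n : ℕ, F (psi M x f (tof n)) = F (psi M x f 0) := by
      intro n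
      induction n with
      | zero => rfl
      | succ n ih => rw [tof_succ, p1, hf1, ih]
    have := key j.val
    rwa [tof_val] at this
  have cZ : ∀ i j, F (psi M x (fZ i) j) = c := by
    intro i j
    rw [hphn]
    exact hHc _ ((memH _).mpr ⟨i, rfl⟩)
  have cY : ∀ i j, F (psi M x (fY i) j) = c := by
    intro i j
    rw [hphn, ← hphn (fY i) 2]
    have h1 := p2 (fY i) 2 (fY_ne i) (by rw [gD_Y2]; exact fZ_ne i)
    rw [gD_Y2] at h1
    have h2 := hf2 (psi M x (fY i) 2)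
    rw [h1, cZ i 2] at h2
    have n1 : psi M x (fY i) 2 ∉ H := fun h => absurd (notH _ _ (fY_ne i) h).2 (by decide)
    have n2 : psi M x (fZ i) 2 ∉ H := fun h => absurd (notH _ _ (fZ_ne i) h).2 (by decide)
    rw [if_neg (not_or.mpr ⟨n1, n2⟩)] at h2
    exact (z2_add _ _ h2).symm
  have cX : ∀ j, F (psi M x 0 j) = c := by
    intro j
    rw [hphn, ← hphn 0 1]
    have h1 := p2 0 1 (by decide) (by decide)
    have h2 := hf2 (psi M x 0 1)
    rw [h1] at h2
    have e : psi M x (gD 0 1).1 (gD 0 1).2 = psi M x (fY 1) 0 := rfl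
    rw [e, cY 1 0] at h2
    have n1 : psi M x 0 1 ∉ H := fun h => absurd (notH _ _ (by decide) h).2 (by decide)
    have n2 : psi M x (fY 1) 0 ∉ H := by
      intro h
      obtain ⟨i, hi⟩ := (notH _ _ (fY_ne 1) h).1
      revert hi
      revert i
      decide
    rw [if_neg (not_or.mpr ⟨n1, n2⟩)] at h2
    exact (z2_add _ _ h2).symm
  intro f j hf hRea
  have h1 := rea_col M F c hf1 hf2 hHc hRea
  rcases f_cases f with rfl | ⟨i, rfl⟩ | ⟨i, rfl⟩ | rfl
  · rw [cX] at h1; exact z2_ne _ h1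
  · rw [cY] at h1; exact z2_ne _ h1
  · rw [cZ] at h1; exact z2_ne _ h1
  · exact hf rfl

theorem lev_nonneg : ∀ (f : Fin 12) (a : Fin 20),
    0 ≤ (((FD5 f 0).w).dot ((cr a).sub (cr (vt f 0)))).a ∧
    0 ≤ (((FD5 f 0).w).dot ((cr a).sub (cr (vt f 0)))).b := by decide +kernel

theorem lev_zero : ∀ (f : Fin 12) (j : Fin 5),
    ((FD5 f 0).w).dot ((cr (vt f j)).sub (cr (vt f 0))) = ⟨0, 0⟩ := by decide +kernel

theorem lev_pos : ∀ (f : Fin 12) (a : Fin 20), (∀ i, vt f i ≠ a) →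
    0 < (((FD5 f 0).w).dot ((cr a).sub (cr (vt f 0)))).a := by decide +kernel

theorem vt_common : ∀ (f f' : Fin 12), f ≠ f' →
    (∀ j i, vt f i ≠ vt f' j) ∨ ∃ j0, (gD f j0).1 = f' ∧
      ∀ j, (∀ i, vt f i ≠ vt f' j) ∨ vt f' j = vt f j0 ∨ vt f' j = vt f (j0 + 1) := by
  decide +kernel

theorem lev_eval (s : Bool) (Q : Fr) (f : Fin 12) (a : Fin 20) :
    evL Q s (FD5 f 0).w ⬝ᵥ (dp s Q a - dp s Q (vt f 0)) =
      ev (((FD5 f 0).w).dot ((cr a).sub (cr (vt f 0)))) := by
  unfold dp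
  rw [show Q.o + evL Q s (cr a) - (Q.o + evL Q s (cr (vt f 0))) =
    evL Q s ((cr a).sub (cr (vt f 0))) by rw [evL_sub]; abel]
  rw [evL_dot]

theorem hull_rep {ι : Type} [Fintype ι] (p : ι → V) (t : V)
    (h : t ∈ convexHull ℝ (Set.range p)) :
    ∃ w : ι → ℝ, (∀ i, 0 ≤ w i) ∧ ∑ i, w i = 1 ∧ ∑ i, w i • p i = t := by
  have hsub : convexHull ℝ (Set.range p) ⊆
      {t : V | ∃ w : ι → ℝ, (∀ i, 0 ≤ w i) ∧ ∑ i, w i = 1 ∧ ∑ i, w i • p i = t} := by
    refine convexHull_min ?_ ?_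
    · rintro _ ⟨i, rfl⟩
      refine ⟨fun j => if j = i then 1 else 0, fun j => ?_, ?_, ?_⟩
      · dsimp only
        split_ifs <;> norm_num
      · simp
      · simp
    · rintro x ⟨w, hw, hw1, rfl⟩ y ⟨w', hw', hw1', rfl⟩ a b ha hb hab
      refine ⟨fun i => a * w i + b * w' i, fun i => ?_, ?_, ?_⟩
      · have := hw i
        have := hw' i
        positivity
      · rw [Finset.sum_add_distrib, ← Finset.mul_sum, ← Finset.mul_sum, hw1, hw1']
        linarith
      · simp only [add_smul, mul_smul]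
        rw [Finset.sum_add_distrib, ← Finset.smul_sum, ← Finset.smul_sum]
  exact hsub h

theorem dot_rep {ι : Type} [Fintype ι] (p : ι → V) (w : ι → ℝ) (hw : ∑ i, w i = 1)
    (n o : V) : n ⬝ᵥ ((∑ i, w i • p i) - o) = ∑ i, w i * (n ⬝ᵥ (p i - o)) := by
  have h1 : (∑ i, w i • p i) - o = ∑ i, w i • (p i - o) := by
    simp only [smul_sub]
    rw [Finset.sum_sub_distrib, ← Finset.sum_smul, hw, one_smul]
  rw [h1, dotProduct_sum]
  simp only [dotProduct_smul, smul_eq_mul]

theorem dod_inter (s : Bool) (Q : Fr) (f f' : Fin 12) (hne : f ≠ f') (t : V)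
    (h : t ∈ convexHull ℝ (fverts s Q f)) (h' : t ∈ convexHull ℝ (fverts s Q f')) :
    ∃ j, (gD f j).1 = f' ∧ t ∈ segment ℝ (dp s Q (vt f j)) (dp s Q (vt f (j + 1))) := by
  obtain ⟨w, hw, hw1, hwt⟩ := hull_rep _ _ h
  obtain ⟨w', hw', hw1', hwt'⟩ := hull_rep _ _ h'
  have hl0 : evL Q s (FD5 f 0).w ⬝ᵥ (t - dp s Q (vt f 0)) = 0 := by
    rw [← hwt, dot_rep _ _ hw1]
    refine Finset.sum_eq_zero fun j _ => ?_
    rw [lev_eval, lev_zero]
    simp [ev]
  have hl1 : ∑ j, w' j * ev (((FD5 f 0).w).dot ((cr (vt f' j)).sub (cr (vt f 0)))) = 0 := by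
    rw [← hl0, ← hwt', dot_rep _ _ hw1']
    refine Finset.sum_congr rfl fun j _ => ?_
    rw [lev_eval]
  have hev : ∀ a : Fin 20, 0 ≤ ev (((FD5 f 0).w).dot ((cr a).sub (cr (vt f 0)))) := by
    intro a
    obtain ⟨h1, h2⟩ := lev_nonneg f a
    have h1' : (0 : ℝ) ≤ ((((FD5 f 0).w).dot ((cr a).sub (cr (vt f 0)))).a : ℚ) := by
      exact_mod_cast h1
    have h2' : (0 : ℝ) ≤ ((((FD5 f 0).w).dot ((cr a).sub (cr (vt f 0)))).b : ℚ) := by
      exact_mod_cast h2
    unfold ev
    exact add_nonneg h1' (mul_nonneg h2' s5_pos.le)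
  have hev' : ∀ a : Fin 20, (∀ i, vt f i ≠ a) →
      0 < ev (((FD5 f 0).w).dot ((cr a).sub (cr (vt f 0)))) := by
    intro a ha
    obtain ⟨h1, h2⟩ := lev_nonneg f a
    have h3 := lev_pos f a ha
    have h3' : (0 : ℝ) < ((((FD5 f 0).w).dot ((cr a).sub (cr (vt f 0)))).a : ℚ) := by
      exact_mod_cast h3
    have h2' : (0 : ℝ) ≤ ((((FD5 f 0).w).dot ((cr a).sub (cr (vt f 0)))).b : ℚ) := by
      exact_mod_cast h2
    unfold ev
    exact add_pos_of_pos_of_nonneg h3' (mul_nonneg h2' s5_pos.le)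
  have hz := (Finset.sum_eq_zero_iff_of_nonneg
    (fun j _ => mul_nonneg (hw' j) (hev (vt f' j)))).mp hl1
  have hz' : ∀ j, (∀ i, vt f i ≠ vt f' j) → w' j = 0 := by
    intro j hj
    rcases mul_eq_zero.mp (hz j (Finset.mem_univ j)) with h1 | h1
    · exact h1
    · exact absurd h1 (hev' _ hj).ne'
  rcases vt_common f f' hne with hc | ⟨j0, hj0, hc⟩
  · exfalso
    have : ∑ i, w' i = 0 := Finset.sum_eq_zero fun j _ => hz' j (hc j)
    rw [this] at hw1'
    exact zero_ne_one hw1'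
  · refine ⟨j0, hj0, ?_⟩
    have hcv : Convex ℝ (segment ℝ (dp s Q (vt f j0)) (dp s Q (vt f (j0 + 1)))) :=
      convex_segment _ _
    have hrep : t = ∑ j, w' j • (if w' j = 0 then dp s Q (vt f j0) else dp s Q (vt f' j)) := by
      rw [← hwt']
      refine Finset.sum_congr rfl fun j _ => ?_
      by_cases hj : w' j = 0
      · rw [if_pos hj, hj, zero_smul, zero_smul]
      · rw [if_neg hj]
    rw [hrep]
    refine hcv.sum_mem (fun j _ => hw' j) hw1' fun j _ => ?_
    by_cases hj : w' j = 0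
    · rw [if_pos hj]
      exact left_mem_segment _ _ _
    · rw [if_neg hj]
      rcases hc j with h1 | h1 | h1
      · exact absurd (hz' j h1) hj
      · rw [h1]
        exact left_mem_segment _ _ _
      · rw [h1]
        exact right_mem_segment _ _ _


theorem fb_ev_inj {x y : K5} (h : ev x = ev y) : x = y := by
  obtain ⟨a, b⟩ := x
  obtain ⟨a', b'⟩ := y
  simp only [ev] at h
  by_cases hb : b = b'
  · subst hb
    have h1 : (a : ℝ) = a' := by linarith
    have h2 : a = a' := by exact_mod_cast h1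
    rw [h2]
  · exfalso
    have hb' : ((b - b' : ℚ) : ℝ) ≠ 0 := by
      have : b - b' ≠ 0 := sub_ne_zero.2 hb
      exact_mod_cast this
    have h1 : s5 = (((a' - a) / (b - b') : ℚ) : ℝ) := by
      rw [Rat.cast_div, eq_div_iff hb']
      push_cast
      linarith
    exact InA_s5_irr ⟨_, h1.symm⟩

theorem fb_evL_inj (Q : Fr) (s : Bool) {p q : V5} (h : evL Q s p = evL Q s q) : p = q := by
  obtain ⟨h1, h2, h3⟩ := Q.lin_inj h
  have hs : sg s ≠ 0 := by cases s <;> simp [sg]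
  have h4 := mul_left_cancel₀ hs h3
  obtain ⟨x, y, z⟩ := p
  obtain ⟨x', y', z'⟩ := q
  have e1 : x = x' := fb_ev_inj h1
  have e2 : y = y' := fb_ev_inj h2
  have e3 : z = z' := fb_ev_inj h4
  rw [e1, e2, e3]

theorem fb_cr_inj : ∀ a b, cr a = cr b → a = b := by decide +kernel

theorem fb_dp_inj (Q : Fr) (s : Bool) {a b : Fin 20} (h : dp s Q a = dp s Q b) : a = b :=
  fb_cr_inj a b (fb_evL_inj Q s (add_left_cancel h))

theorem fb_vt_inj : ∀ (f : Fin 12) (j : Fin 5) (f' : Fin 12) (j' : Fin 5),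
    vt f j = vt f' j' → vt f (j + 1) = vt f' (j' + 1) → f = f' ∧ j = j' := by decide +kernel

theorem fb_FD_u (s : Bool) (Q : Fr) (f : Fin 12) (j : Fin 5) :
    (FD s Q f j).o + (FD s Q f j).u = dp s Q (vt f (j + 1)) := by
  rw [← FD_o, FD_ph]
  rfl

theorem fb_FD_inj (s : Bool) (Q : Fr) (f : Fin 12) (j : Fin 5) (f' : Fin 12) (j' : Fin 5)
    (h : FD s Q f j = FD s Q f' j') : f = f' ∧ j = j' := by
  apply fb_vt_inj
  · apply fb_dp_inj Q s
    rw [← FD_o, ← FD_o, h]
  · apply fb_dp_inj Q s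
    rw [← fb_FD_u, ← fb_FD_u, h]

def fbF : Fin 5 → Fin 12 := ![6, 7, 8, 9, 10]

theorem fb_tab : ∀ i : Fin 5, fbF i ≠ 11 ∧ gD (fbF i) 1 = (fbF (i + 1), 4) ∧
    gD (fbF i) 0 = (11, -i) ∧ gD 11 i = (fbF (-i), 0) := by decide +kernel

theorem fb_11 : ∀ (f : Fin 12) (j : Fin 5), f ≠ 11 → (gD f j).1 = 11 →
    ∃ i, f = fbF i ∧ j = 0 := by decide +kernel

theorem fb_F_surj : ∀ f : Fin 12, 6 ≤ f.val → f.val ≤ 10 → ∃ i, f = fbF i := by decide +kernel

theorem fb_cyc : ∀ i j : Fin 5, ∃ n : Fin 5, (fun a => a + 1)^[n.val] i = j := by decide +kernel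

theorem fb_step (M : PMap D) (hord : ∀ d, (M.ph ^ 5) d = d) {s : Bool} {x : D} {G : Set D}
    (hP : Patch M s x G) (i : Fin 5) (h : Adj M s (psi M x (fbF i) 0)) :
    M.ph (M.gl (psi M x (fbF (i + 1)) 0)) = M.gl (psi M x (fbF i) 0) ∧
      Adj M s (psi M x (fbF (i + 1)) 0) := by
  obtain ⟨ha, hb, hc⟩ := patch_map M hord hP
  obtain ⟨t1, t2, t3, t4⟩ := fb_tab i
  obtain ⟨t1', -, -, -⟩ := fb_tab (i + 1)
  have e1 : M.ph (psi M x (fbF i) 0) = psi M x (fbF i) 1 := (ha (fbF i) 0).symm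
  have e2 : M.gl (psi M x (fbF i) 1) = psi M x (fbF (i + 1)) 4 := by
    have := hb (fbF i) 1 t1 (by rw [t2]; exact t1')
    rwa [t2] at this
  have e3 : M.ph (psi M x (fbF (i + 1)) 4) = psi M x (fbF (i + 1)) 0 := (ha (fbF (i + 1)) 4).symm
  have hadj : Adj M s (psi M x (fbF i) 1) := by
    unfold Adj
    rw [e2, hc _ _ t1', hc _ _ t1, ← FD_gD, t2]
  have h1 : Adj M s (M.gl (psi M x (fbF i) 0)) := h.gl
  have h2 : Adj M s (M.ph (M.gl (M.gl (psi M x (fbF i) 0)))) := by
    rw [M.gl_gl, e1]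
    exact hadj
  have h3 := close3 M h1 h2
  rw [M.gl_gl, e1, e2, e3] at h3
  exact h3

theorem fb_full (M : PMap D) (hord : ∀ d, (M.ph ^ 5) d = d) {s : Bool} {x : D} {G : Set D}
    (hP : Patch M s x G) (h : ∃ h ∈ pcurve M x, Adj M s h) :
    (∀ f j, M.gl (psi M x f j) = psi M x (gD f j).1 (gD f j).2) ∧
    (∀ f j, M.fr (psi M x f j) = FD s (M.fr x) f j) := by
  obtain ⟨ha, hb, hc⟩ := patch_map M hord hP
  obtain ⟨_, ⟨f0, hf1, hf2, rfl⟩, hadj0⟩ := h
  obtain ⟨i0, rfl⟩ : ∃ i0, f0 = fbF i0 := fb_F_surj f0 hf1 hf2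
  have hadjn : ∀ n : ℕ, Adj M s (psi M x (fbF ((fun a => a + 1)^[n] i0)) 0) := by
    intro n
    induction n with
    | zero => exact hadj0
    | succ n ih =>
      rw [Function.iterate_succ_apply']
      exact (fb_step M hord hP _ ih).2
  have hadj : ∀ i, Adj M s (psi M x (fbF i) 0) := by
    intro i
    obtain ⟨n, hn⟩ := fb_cyc i0 i
    rw [← hn]
    exact hadjn n.val
  have key : ∀ i, M.ph (M.gl (psi M x (fbF (i + 1)) 0)) = M.gl (psi M x (fbF i) 0) :=
    fun i => (fb_step M hord hP i (hadj i)).1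
  have p0 : psi M x 11 0 = M.gl (psi M x (fbF 0) 0) := by
    simp [psi, fbF]
  have p1 : psi M x 11 1 = M.gl (psi M x (fbF 4) 0) := by
    have h1 : psi M x 11 1 = M.ph (psi M x 11 0) := ha 11 0
    rw [h1, p0]
    exact key 4
  have p2 : psi M x 11 2 = M.gl (psi M x (fbF 3) 0) := by
    have h1 : psi M x 11 2 = M.ph (psi M x 11 1) := ha 11 1
    rw [h1, p1]
    exact key 3
  have p3 : psi M x 11 3 = M.gl (psi M x (fbF 2) 0) := by
    have h1 : psi M x 11 3 = M.ph (psi M x 11 2) := ha 11 2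
    rw [h1, p2]
    exact key 2
  have p4 : psi M x 11 4 = M.gl (psi M x (fbF 1) 0) := by
    have h1 : psi M x 11 4 = M.ph (psi M x 11 3) := ha 11 3
    rw [h1, p3]
    exact key 1
  have p : ∀ j, psi M x 11 j = M.gl (psi M x (fbF (-j)) 0) := by
    intro j
    fin_cases j
    · exact p0
    · exact p1
    · exact p2
    · exact p3
    · exact p4
  have hb' : ∀ f j, M.gl (psi M x f j) = psi M x (gD f j).1 (gD f j).2 := by
    intro f j
    by_cases hf : f = 11
    · subst hf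
      rw [p j, M.gl_gl, (fb_tab j).2.2.2]
    · by_cases hg : (gD f j).1 = 11
      · obtain ⟨i, rfl, rfl⟩ := fb_11 f j hf hg
        rw [(fb_tab i).2.2.1]
        change _ = psi M x 11 (-i)
        rw [p (-i), neg_neg]
      · exact hb f j hf hg
  refine ⟨hb', ?_⟩
  intro f j
  by_cases hf : f = 11
  · subst hf
    rw [p j]
    have h1 : M.fr (M.gl (psi M x (fbF (-j)) 0)) = tauF s (M.fr (psi M x (fbF (-j)) 0)) :=
      hadj (-j)
    rw [h1, hc _ _ (fb_tab (-j)).1, ← FD_gD, (fb_tab (-j)).2.2.1, neg_neg]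
  · exact hc f j hf

theorem fb_RelM_ph (M : PMap D) (t : V) (d : D) (n : ℕ) : RelM M t d ((M.ph ^ n) d) := by
  induction n with
  | zero => exact Relation.EqvGen.refl _
  | succ n ih =>
    refine Relation.EqvGen.trans _ _ _ ih (Relation.EqvGen.rel _ _ (Or.inl ?_))
    rw [pow_succ']
    rfl

theorem fill_base (M : PMap D) (hord : ∀ d, (M.ph ^ 5) d = d) {s : Bool} {x : D} {G : Set D}
    (hP : Patch M s x G) (h : ∃ h ∈ pcurve M x, Adj M s h) : Filled M := by
  obtain ⟨ha, -, -⟩ := patch_map M hord hP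
  obtain ⟨hb, hc⟩ := fb_full M hord hP h
  have hcov : ∀ d, ∃ f j, d = psi M x f j := by
    have h1 := M.conn {d | ∃ f j, d = psi M x f j} ⟨psi M x 0 0, 0, 0, rfl⟩
      (by
        rintro _ ⟨f, j, rfl⟩
        exact ⟨f, j + 1, (ha f j).symm⟩)
      (by
        rintro _ ⟨f, j, rfl⟩
        exact ⟨_, _, hb f j⟩)
    intro d
    have h2 : d ∈ {d | ∃ f j, d = psi M x f j} := by rw [h1]; exact Set.mem_univ d
    exact h2
  have hinj : ∀ f j f' j', psi M x f j = psi M x f' j' → f = f' ∧ j = j' := by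
    intro f j f' j' he
    apply fb_FD_inj s (M.fr x)
    rw [← hc, ← hc, he]
  have hiter : ∀ (f : Fin 12) (j : Fin 5) (n : ℕ),
      (M.ph ^ n) (psi M x f j) = psi M x f ((fun a => a + 1)^[n] j) := by
    intro f j n
    induction n with
    | zero => rfl
    | succ n ih =>
      rw [Function.iterate_succ_apply', ha, ← ih, pow_succ']
      rfl
  choose gf gj hg using hcov
  have hgf : ∀ f j, gf (psi M x f j) = f := by
    intro f j
    exact (hinj _ _ _ _ (hg (psi M x f j))).1.symm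
  refine ⟨Unit, inferInstance, fun _ => M.fr x, fun _ => s, fun _ => none,
    fun d => ((), gf d), ?_, ?_, ?_, ?_, ?_, ?_, ?_, ?_⟩
  · intro a b hab
    exact absurd hab (by simp)
  · intro a
    simp
  · intro i f j f' hh
    exact absurd hh (by simp)
  · intro d
    rfl
  · rintro ⟨⟨⟩, f⟩ -
    exact ⟨psi M x f 0, congrArg (Prod.mk ()) (hgf f 0)⟩
  · intro d e
    constructor
    · intro hfe
      have hfe' : gf d = gf e := congrArg Prod.snd hfe
      obtain ⟨n, hn⟩ := fb_cyc (gj d) (gj e)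
      refine ⟨(n.val : ℤ), ?_⟩
      rw [zpow_natCast]
      conv_lhs => rw [hg d]
      rw [hiter, hn, hfe']
      exact (hg e).symm
    · intro hse
      obtain ⟨n, hn⟩ := sameCycle_pow M hse
      have h1 : gf e = gf d := by
        rw [← hn]
        conv_lhs => rw [hg d]
        rw [hiter, hgf]
      simp only [h1]
  · intro d
    ext z
    simp only [fverts, Set.mem_range]
    constructor
    · rintro ⟨k, hk⟩
      have hk' : z = (M.fr ((M.ph ^ k) d)).o := hk
      refine ⟨(fun a => a + 1)^[k] (gj d), ?_⟩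
      rw [hk']
      conv_rhs => rw [hg d]
      rw [hiter, hc, FD_o]
    · rintro ⟨j', hj'⟩
      obtain ⟨n, hn⟩ := fb_cyc (gj d) j'
      refine ⟨n.val, ?_⟩
      rw [← hj']
      conv_rhs => rw [hg d]
      rw [hiter, hn, hc, FD_o]
  · intro t d e hd he
    constructor
    · intro _
      exact Relation.EqvGen.refl _
    · intro _
      have hd' : t ∈ convexHull ℝ (fverts s (M.fr x) (gf d)) := hd
      have he' : t ∈ convexHull ℝ (fverts s (M.fr x) (gf e)) := he
      have hchain : ∀ f j j', RelM M t (psi M x f j) (psi M x f j') := by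
        intro f j j'
        obtain ⟨n, hn⟩ := fb_cyc j j'
        have := fb_RelM_ph M t (psi M x f j) n.val
        rwa [hiter, hn] at this
      rw [hg d, hg e]
      by_cases hfe : gf d = gf e
      · rw [hfe]
        exact hchain _ _ _
      · obtain ⟨j, hj1, hj2⟩ := dod_inter s (M.fr x) (gf d) (gf e) hfe t hd' he'
        refine Relation.EqvGen.trans _ _ _ (hchain _ _ j) ?_
        have h1 : RelM M t (psi M x (gf d) j) (M.gl (psi M x (gf d) j)) := by
          refine Relation.EqvGen.rel _ _ (Or.inr ⟨rfl, ?_⟩)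
          rw [hc, fb_FD_u, FD_o]
          exact hj2
        refine Relation.EqvGen.trans _ _ _ h1 ?_
        rw [hb, hj1]
        exact hchain _ _ _

theorem cr_pos : ∀ a b : Fin 20, a ≠ b →
    0 < (((cr a).sub (cr b)).dot ((cr a).sub (cr b))).a ∧
    0 ≤ (((cr a).sub (cr b)).dot ((cr a).sub (cr b))).b := by decide +kernel

theorem vt_face : ∀ f f' : Fin 12, ∀ j j' : Fin 5,
    (∀ k : Fin 5, vt f (j + k) = vt f' (j' + k)) → f = f' := by decide +kernel

theorem vt_cap1 : ∀ f : Fin 12, 6 ≤ f.val → f.val ≤ 10 → ∃ j, vt 11 j = vt f 0 := by decide +kernel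
theorem vt_cap1' : ∀ f : Fin 12, 6 ≤ f.val → f.val ≤ 10 → ∃ j, vt 11 j = vt f 1 := by decide +kernel
theorem vt_cap2 : ∀ j : Fin 5, ∃ f : Fin 12, 6 ≤ f.val ∧ f.val ≤ 10 ∧ vt f 0 = vt 11 j := by
  decide +kernel

theorem eqvGen_le {α : Type} {r K : α → α → Prop} (hr : ∀ a, K a a) (hs : ∀ a b, K a b → K b a)
    (ht : ∀ a b c, K a b → K b c → K a c) (h : ∀ a b, r a b → K a b) {a b : α}
    (hab : Relation.EqvGen r a b) : K a b := by
  induction hab with
  | rel a b h1 => exact h a b h1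
  | refl a => exact hr a
  | symm a b _ ih => exact hs a b ih
  | trans a b c _ _ ih1 ih2 => exact ht a b c ih1 ih2

theorem ofNat5_succ (k : ℕ) : Fin.ofNat 5 (k + 1) = Fin.ofNat 5 k + 1 := by
  ext
  simp [Fin.val_add, Fin.ofNat]

theorem ofNat5_val (k : Fin 5) : Fin.ofNat 5 k.val = k := by
  ext
  simp [Fin.ofNat, Nat.mod_eq_of_lt k.isLt]

theorem psi_pow (M : PMap D) (x : D) (pm1 : ∀ f j, psi M x f (j + 1) = M.ph (psi M x f j))
    (f : Fin 12) (j : Fin 5) (k : ℕ) : (M.ph ^ k) (psi M x f j) = psi M x f (j + Fin.ofNat 5 k) := by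
  induction k with
  | zero =>
    have : j + Fin.ofNat 5 0 = j := add_zero j
    rw [this]
    rfl
  | succ k ih =>
    rw [pow_succ', Equiv.Perm.mul_apply, ih, ← pm1, ofNat5_succ, add_assoc]

theorem psi_face (M : PMap D) (s : Bool) (x : D)
    (pm1 : ∀ f j, psi M x f (j + 1) = M.ph (psi M x f j))
    (pm3 : ∀ f j, f ≠ 11 → M.fr (psi M x f j) = FD s (M.fr x) f j)
    (f f' : Fin 12) (j j' : Fin 5) (hf : f ≠ 11) (hf' : f' ≠ 11)
    (h : psi M x f j = psi M x f' j') : f = f' := by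
  apply vt_face f f' j j'
  intro k
  have h1 : psi M x f (j + k) = psi M x f' (j' + k) := by
    have h2 := psi_pow M x pm1 f j k.val
    have h3 := psi_pow M x pm1 f' j' k.val
    rw [h, h3, ofNat5_val] at h2
    exact h2.symm
  have h2 := congrArg (fun d => (M.fr d).o) h1
  simp only [pm3 f _ hf, pm3 f' _ hf', FD_o] at h2
  exact dp_inj s _ h2

/-- data of the cut surface, in a convenient form -/
theorem fill_prep (M : PMap D) (hord : ∀ d, (M.ph ^ 5) d = d) {s : Bool} {x : D} {G : Set D}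
    (hP : Patch M s x G) (M' : PMap (Sset M (pcurve M x)))
    (c1 : ∀ d, ((M'.gl d : Sset M (pcurve M x)) : D) = M.gl d)
    (c2 : ∀ d : Sset M (pcurve M x), (d : D) ∉ pcurve M x →
      ((M'.ph d : Sset M (pcurve M x)) : D) = M.ph d ∧ M'.fr d = M.fr d)
    (c3 : ∀ d : Sset M (pcurve M x), (d : D) ∈ pcurve M x →
      ((M'.ph d : Sset M (pcurve M x)) : D) = M.ph (M.gl (M.ph d)) ∧
        M'.fr d = Dd s (M.fr d)) :
    (∀ d, Rea M (pcurve M x) d → d ∉ pcurve M x) ∧
    (∀ d, Rea M (pcurve M x) (M.ph d) → Rea M (pcurve M x) d) ∧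
    (∀ d, Rea M (pcurve M x) d → ¬ Rea M (pcurve M x) (M.gl d) → M.gl d ∈ pcurve M x) ∧
    (∀ p : Sset M (pcurve M x), (M'.fr p).o = (M.fr p).o ∧ (M'.fr p).u = (M.fr p).u) ∧
    (∃ cap : Sset M (pcurve M x), (cap : D) ∈ pcurve M x ∧
      (∀ p : Sset M (pcurve M x), (p : D) ∈ pcurve M x ↔ M'.ph.SameCycle cap p) ∧
      {z | ∃ k : ℕ, z = (M'.fr ((M'.ph ^ k) cap)).o} = fverts s (M.fr x) 11) ∧
    (∀ h ∈ pcurve M x, segment ℝ (M.fr h).o ((M.fr h).o + (M.fr h).u) ⊆
      convexHull ℝ (fverts s (M.fr x) 11)) := by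
  obtain ⟨pm1, pm2, pm3⟩ := patch_map M hord hP
  obtain ⟨hC, h0, hone, hcov, hnot⟩ := patch_curve M hord hP
  have hHne : ∀ f : Fin 12, f.val ≤ 10 → f ≠ 11 := by
    intro f hf h
    rw [h] at hf
    exact absurd hf (by decide)
  have hUH : ∀ d, Rea M (pcurve M x) d → d ∉ pcurve M x := by
    rintro d hd ⟨f, h1, h2, h3⟩
    rw [h3] at hd
    exact hnot f 0 (hHne f h2) hd
  have hfr : ∀ p : Sset M (pcurve M x), (M'.fr p).o = (M.fr p).o ∧ (M'.fr p).u = (M.fr p).u := by
    intro p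
    by_cases hp : (p : D) ∈ pcurve M x
    · rw [(c3 p hp).2]
      exact ⟨rfl, rfl⟩
    · rw [(c2 p hp).2]
      exact ⟨rfl, rfl⟩
  have hstep : ∀ (n : ℕ) (p : Sset M (pcurve M x)), (p : D) ∈ pcurve M x →
      (((M'.ph ^ n) p : Sset M (pcurve M x)) : D) ∈ pcurve M x ∧
      (((M'.ph ^ n) p : Sset M (pcurve M x)) : D) = ((M.ph * M.gl * M.ph) ^ n) (p : D) := by
    intro n p hp
    induction n with
    | zero => exact ⟨hp, rfl⟩
    | succ n ih =>
      have h1 := c3 _ ih.1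
      rw [pow_succ', Equiv.Perm.mul_apply, h1.1]
      refine ⟨hC.nxt _ ih.1, ?_⟩
      rw [ih.2, pow_succ' (M.ph * M.gl * M.ph), Equiv.Perm.mul_apply]
      rfl
  have hreach : ∀ p : Sset M (pcurve M x), (p : D) ∈ pcurve M x →
      ∃ n : ℕ, (M'.ph ^ n) (⟨psi M x 6 0, Or.inr h0⟩ : Sset M (pcurve M x)) = p := by
    intro p hp
    obtain ⟨n, -, hn⟩ := (hone p hp).exists_pow_eq'
    refine ⟨n, ?_⟩
    apply Subtype.ext
    rw [(hstep n _ h0).2]
    exact hn
  refine ⟨hUH, ?_, ?_, hfr, ⟨⟨psi M x 6 0, Or.inr h0⟩, h0, ?_, ?_⟩, ?_⟩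
  · intro d hd
    have h1 : ∀ n : ℕ, Rea M (pcurve M x) ((M.ph ^ n) (M.ph d)) := by
      intro n
      induction n with
      | zero => exact hd
      | succ n ih =>
        rw [pow_succ', Equiv.Perm.mul_apply]
        exact Rea.ph ih
    have h2 := h1 4
    have h3 : (M.ph ^ 4) (M.ph d) = (M.ph ^ 5) d := by
      rw [← Equiv.Perm.mul_apply, ← pow_succ]
    rw [h3, hord] at h2
    exact h2
  · intro d hd hn
    by_contra hcon
    exact hn (Rea.gl hd hcon)
  · -- cycle of the cap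
    intro p
    constructor
    · intro hp
      obtain ⟨n, hn⟩ := hreach p hp
      refine ⟨(n : ℤ), ?_⟩
      rw [zpow_natCast]
      exact hn
    · intro hp
      obtain ⟨n, -, hn⟩ := hp.exists_pow_eq'
      rw [← hn]
      exact (hstep n _ h0).1
  · ext z
    constructor
    · rintro ⟨k, hk⟩
      obtain ⟨f, h1, h2, h3⟩ := (hstep k ⟨psi M x 6 0, Or.inr h0⟩ h0).1
      rw [hk, (hfr _).1, h3, pm3 f 0 (hHne f h2), FD_o]
      obtain ⟨j, hj⟩ := vt_cap1 f h1 h2
      exact ⟨j, by simp only [hj]⟩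
    · rintro ⟨j, hj⟩
      obtain ⟨f, h1, h2, h3⟩ := vt_cap2 j
      obtain ⟨n, hn⟩ := hreach ⟨psi M x f 0, Or.inr ⟨f, h1, h2, rfl⟩⟩ ⟨f, h1, h2, rfl⟩
      refine ⟨n, ?_⟩
      rw [hn, (hfr _).1, pm3 f 0 (hHne f h2), FD_o, h3]
      exact hj.symm
  · rintro h ⟨f, h1, h2, h3⟩
    have h4 : (M.fr h).o = dp s (M.fr x) (vt f 0) := by
      rw [h3, pm3 f 0 (hHne f h2), FD_o]
    have h5 : (M.fr h).o + (M.fr h).u = dp s (M.fr x) (vt f 1) := by
      have h6 : (M.fr (M.ph h)).o = (M.fr h).o + (M.fr h).u := by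
        rw [M.fr_ph]
        rfl
      rw [← h6, h3, ← pm1, pm3 f _ (hHne f h2), FD_o]
      rfl
    rw [h5, h4]
    apply (convex_convexHull ℝ _).segment_subset
    · apply subset_convexHull
      obtain ⟨j, hj⟩ := vt_cap1 f h1 h2
      exact ⟨j, by simp only [hj]⟩
    · apply subset_convexHull
      obtain ⟨j, hj⟩ := vt_cap1' f h1 h2
      exact ⟨j, by simp only [hj]⟩

theorem relM_ph (M : PMap D) (t : V) (d : D) : RelM M t d (M.ph d) :=
  Relation.EqvGen.rel _ _ (Or.inl rfl)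

theorem relM_gl (M : PMap D) (t : V) (d : D)
    (h : t ∈ segment ℝ (M.fr d).o ((M.fr d).o + (M.fr d).u)) : RelM M t d (M.gl d) :=
  Relation.EqvGen.rel _ _ (Or.inr ⟨rfl, h⟩)

theorem relM_refl (M : PMap D) (t : V) (d : D) : RelM M t d d := Relation.EqvGen.refl _

theorem relM_symm {M : PMap D} {t : V} {d e : D} (h : RelM M t d e) : RelM M t e d :=
  Relation.EqvGen.symm _ _ h

theorem relM_trans {M : PMap D} {t : V} {d e g : D} (h : RelM M t d e) (h' : RelM M t e g) :
    RelM M t d g := Relation.EqvGen.trans _ _ _ h h'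

theorem relM_pow (M : PMap D) (t : V) (d : D) (n : ℕ) : RelM M t d ((M.ph ^ n) d) := by
  induction n with
  | zero => exact relM_refl M t d
  | succ n ih =>
    rw [pow_succ', Equiv.Perm.mul_apply]
    exact relM_trans ih (relM_ph M t _)

theorem relM_cyc {M : PMap D} (t : V) {d e : D} (h : M.ph.SameCycle d e) : RelM M t d e := by
  obtain ⟨n, -, hn⟩ := h.exists_pow_eq'
  rw [← hn]
  exact relM_pow M t d n

theorem seg_gl (M : PMap D) (d : D) :
    segment ℝ (M.fr (M.gl d)).o ((M.fr (M.gl d)).o + (M.fr (M.gl d)).u) =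
      segment ℝ (M.fr d).o ((M.fr d).o + (M.fr d).u) := by
  rw [M.fr_o, M.fr_u, add_neg_cancel_right, segment_symm]

theorem seg_psi (M : PMap D) {s : Bool} {x : D}
    (pm1 : ∀ f j, psi M x f (j + 1) = M.ph (psi M x f j))
    (pm3 : ∀ f j, f ≠ 11 → M.fr (psi M x f j) = FD s (M.fr x) f j) (f : Fin 12) (j : Fin 5)
    (hf : f ≠ 11) :
    segment ℝ (M.fr (psi M x f j)).o ((M.fr (psi M x f j)).o + (M.fr (psi M x f j)).u) =
      segment ℝ (dp s (M.fr x) (vt f j)) (dp s (M.fr x) (vt f (j + 1))) := by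
  have h5 : (M.fr (psi M x f j)).o + (M.fr (psi M x f j)).u = dp s (M.fr x) (vt f (j + 1)) := by
    have h6 : (M.fr (M.ph (psi M x f j))).o =
        (M.fr (psi M x f j)).o + (M.fr (psi M x f j)).u := by
      rw [M.fr_ph]
      rfl
    rw [← h6, ← pm1, pm3 f _ hf, FD_o]
  rw [h5, pm3 f j hf, FD_o]

theorem seg_psi_sub (M : PMap D) {s : Bool} {x : D}
    (pm1 : ∀ f j, psi M x f (j + 1) = M.ph (psi M x f j))
    (pm3 : ∀ f j, f ≠ 11 → M.fr (psi M x f j) = FD s (M.fr x) f j) (f : Fin 12) (j : Fin 5)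
    (hf : f ≠ 11) :
    segment ℝ (M.fr (psi M x f j)).o ((M.fr (psi M x f j)).o + (M.fr (psi M x f j)).u) ⊆
      convexHull ℝ (fverts s (M.fr x) f) := by
  rw [seg_psi M pm1 pm3 f j hf]
  apply (convex_convexHull ℝ _).segment_subset
  · exact subset_convexHull _ _ ⟨j, rfl⟩
  · exact subset_convexHull _ _ ⟨j + 1, rfl⟩

/-- two faces of the patch containing `t` are identified at `t` -/
theorem relM_patch (M : PMap D) {s : Bool} {x : D}
    (pm1 : ∀ f j, psi M x f (j + 1) = M.ph (psi M x f j))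
    (pm2 : ∀ f j, f ≠ 11 → (gD f j).1 ≠ 11 →
      M.gl (psi M x f j) = psi M x (gD f j).1 (gD f j).2)
    (pm3 : ∀ f j, f ≠ 11 → M.fr (psi M x f j) = FD s (M.fr x) f j) (t : V)
    (f f' : Fin 12) (j j' : Fin 5) (hf : f ≠ 11) (hf' : f' ≠ 11)
    (h : t ∈ convexHull ℝ (fverts s (M.fr x) f)) (h' : t ∈ convexHull ℝ (fverts s (M.fr x) f')) :
    RelM M t (psi M x f j) (psi M x f' j') := by
  have hsame : ∀ (f : Fin 12) (j j' : Fin 5), RelM M t (psi M x f j) (psi M x f j') := by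
    intro f j j'
    have h1 := relM_pow M t (psi M x f j) (j' - j).val
    rw [psi_pow M x pm1, ofNat5_val, add_sub_cancel] at h1
    exact h1
  by_cases hff : f = f'
  · rw [← hff]
    exact hsame f j j'
  · obtain ⟨j0, h1, h2⟩ := dod_inter s (M.fr x) f f' hff t h h'
    have h3 : RelM M t (psi M x f j0) (M.gl (psi M x f j0)) := by
      apply relM_gl
      rw [seg_psi M pm1 pm3 f j0 hf]
      exact h2
    rw [pm2 f j0 hf (by rw [h1]; exact hf'), h1] at h3
    exact relM_trans (hsame f j j0) (relM_trans h3 (hsame f' _ j'))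

/-- from the surface to the cut surface -/
theorem relM_down (M : PMap D) {H : Set D} (M' : PMap (Sset M H))
    (c1 : ∀ d, ((M'.gl d : Sset M H) : D) = M.gl d)
    (c2 : ∀ d : Sset M H, (d : D) ∉ H → ((M'.ph d : Sset M H) : D) = M.ph d)
    (hUH : ∀ d, Rea M H d → d ∉ H) (hback : ∀ d, Rea M H (M.ph d) → Rea M H d)
    (hgl : ∀ d, Rea M H d → ¬ Rea M H (M.gl d) → M.gl d ∈ H)
    (hfr : ∀ p : Sset M H, (M'.fr p).o = (M.fr p).o ∧ (M'.fr p).u = (M.fr p).u)
    (cap : Sset M H) (hcap : ∀ p : Sset M H, (p : D) ∈ H ↔ M'.ph.SameCycle cap p)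
    (C : Set V)
    (hseg : ∀ h ∈ H, segment ℝ (M.fr h).o ((M.fr h).o + (M.fr h).u) ⊆ C) (t : V) {d e : D}
    (h : RelM M t d e) :
    (∀ (hd : Rea M H d) (he : Rea M H e), RelM M' t ⟨d, Or.inl hd⟩ ⟨e, Or.inl he⟩) ∧
    (∀ (hd : Rea M H d), ¬ Rea M H e → t ∈ C ∧ RelM M' t ⟨d, Or.inl hd⟩ cap) ∧
    (∀ (he : Rea M H e), ¬ Rea M H d → t ∈ C ∧ RelM M' t ⟨e, Or.inl he⟩ cap) := by
  refine eqvGen_le (K := fun d e =>
    (∀ (hd : Rea M H d) (he : Rea M H e), RelM M' t ⟨d, Or.inl hd⟩ ⟨e, Or.inl he⟩) ∧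
    (∀ (hd : Rea M H d), ¬ Rea M H e → t ∈ C ∧ RelM M' t ⟨d, Or.inl hd⟩ cap) ∧
    (∀ (he : Rea M H e), ¬ Rea M H d → t ∈ C ∧ RelM M' t ⟨e, Or.inl he⟩ cap)) ?_ ?_ ?_ ?_ h
  · intro a
    exact ⟨fun _ _ => relM_refl _ _ _, fun h1 h2 => absurd h1 h2, fun h1 h2 => absurd h1 h2⟩
  · rintro a b ⟨h1, h2, h3⟩
    exact ⟨fun ha hb => relM_symm (h1 hb ha), h3, h2⟩
  · rintro a b c ⟨h1, h2, h3⟩ ⟨k1, k2, k3⟩
    by_cases hb : Rea M H b
    · exact ⟨fun ha hc => relM_trans (h1 ha hb) (k1 hb hc),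
        fun ha hc => ⟨(k2 hb hc).1, relM_trans (h1 ha hb) (k2 hb hc).2⟩,
        fun hc ha => ⟨(h3 hb ha).1, relM_trans (relM_symm (k1 hb hc)) (h3 hb ha).2⟩⟩
    · exact ⟨fun ha hc => relM_trans (h2 ha hb).2 (relM_symm (k3 hc hb).2),
        fun ha _ => h2 ha hb, fun hc _ => k3 hc hb⟩
  · rintro a b (hab | ⟨hab, ht⟩)
    · subst hab
      refine ⟨fun ha hb => ?_, fun ha hb => absurd (Rea.ph ha) hb, fun hb ha =>
        absurd (hback a hb) ha⟩
      have h1 := relM_ph M' t ⟨a, Or.inl ha⟩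
      have h2 : M'.ph ⟨a, Or.inl ha⟩ = ⟨M.ph a, Or.inl hb⟩ :=
        Subtype.ext (c2 ⟨a, Or.inl ha⟩ (hUH a ha))
      rw [h2] at h1
      exact h1
    · subst hab
      refine ⟨fun ha hb => ?_, fun ha hb => ?_, fun hb ha => ?_⟩
      · have h1 := relM_gl M' t ⟨a, Or.inl ha⟩ (by rw [(hfr _).1, (hfr _).2]; exact ht)
        have h2 : M'.gl ⟨a, Or.inl ha⟩ = ⟨M.gl a, Or.inl hb⟩ := Subtype.ext (c1 _)
        rw [h2] at h1
        exact h1
      · have hH := hgl a ha hb
        constructor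
        · apply hseg _ hH
          rw [seg_gl]
          exact ht
        · have h1 := relM_gl M' t ⟨a, Or.inl ha⟩ (by rw [(hfr _).1, (hfr _).2]; exact ht)
          refine relM_trans h1 (relM_symm (relM_cyc t ((hcap _).1 ?_)))
          rw [c1]
          exact hH
      · have hH : a ∈ H := by
          have h1 := hgl (M.gl a) hb (by rw [M.gl_gl]; exact ha)
          rwa [M.gl_gl] at h1
        constructor
        · exact hseg _ hH ht
        · have h1 := relM_gl M' t ⟨a, Or.inr hH⟩ (by rw [(hfr _).1, (hfr _).2]; exact ht)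
          have h2 : M'.gl ⟨a, Or.inr hH⟩ = ⟨M.gl a, Or.inl hb⟩ := Subtype.ext (c1 _)
          rw [h2] at h1
          exact relM_trans (relM_symm h1) (relM_symm (relM_cyc t ((hcap _).1 hH)))

/-- from the cut surface to the surface -/
theorem relM_up (M : PMap D) {s : Bool} {x : D}
    (pm1 : ∀ f j, psi M x f (j + 1) = M.ph (psi M x f j))
    (pm2 : ∀ f j, f ≠ 11 → (gD f j).1 ≠ 11 →
      M.gl (psi M x f j) = psi M x (gD f j).1 (gD f j).2)
    (pm3 : ∀ f j, f ≠ 11 → M.fr (psi M x f j) = FD s (M.fr x) f j)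
    (M' : PMap (Sset M (pcurve M x)))
    (c1 : ∀ d, ((M'.gl d : Sset M (pcurve M x)) : D) = M.gl d)
    (c2 : ∀ d : Sset M (pcurve M x), (d : D) ∉ pcurve M x →
      ((M'.ph d : Sset M (pcurve M x)) : D) = M.ph d)
    (hUH : ∀ d, Rea M (pcurve M x) d → d ∉ pcurve M x)
    (hfr : ∀ p : Sset M (pcurve M x), (M'.fr p).o = (M.fr p).o ∧ (M'.fr p).u = (M.fr p).u)
    (cap : Sset M (pcurve M x))
    (hcap : ∀ p : Sset M (pcurve M x), (p : D) ∈ pcurve M x ↔ M'.ph.SameCycle cap p)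
    (t : V) {p q : Sset M (pcurve M x)} (h : RelM M' t p q) :
    (Rea M (pcurve M x) p → Rea M (pcurve M x) q → RelM M t p q) ∧
    (Rea M (pcurve M x) p → (q : D) ∈ pcurve M x →
      ∃ f j, f ≠ 11 ∧ t ∈ convexHull ℝ (fverts s (M.fr x) f) ∧ RelM M t p (psi M x f j)) ∧
    (Rea M (pcurve M x) q → (p : D) ∈ pcurve M x →
      ∃ f j, f ≠ 11 ∧ t ∈ convexHull ℝ (fverts s (M.fr x) f) ∧ RelM M t q (psi M x f j)) := by
  have hHne : ∀ f : Fin 12, f.val ≤ 10 → f ≠ 11 := by
    intro f hf h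
    rw [h] at hf
    exact absurd hf (by decide)
  refine eqvGen_le (K := fun p q : Sset M (pcurve M x) =>
    (Rea M (pcurve M x) p → Rea M (pcurve M x) q → RelM M t p q) ∧
    (Rea M (pcurve M x) p → (q : D) ∈ pcurve M x →
      ∃ f j, f ≠ 11 ∧ t ∈ convexHull ℝ (fverts s (M.fr x) f) ∧ RelM M t p (psi M x f j)) ∧
    (Rea M (pcurve M x) q → (p : D) ∈ pcurve M x →
      ∃ f j, f ≠ 11 ∧ t ∈ convexHull ℝ (fverts s (M.fr x) f) ∧ RelM M t q (psi M x f j)))
    ?_ ?_ ?_ ?_ h
  · intro a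
    exact ⟨fun _ _ => relM_refl _ _ _, fun h1 h2 => absurd h2 (hUH _ h1),
      fun h1 h2 => absurd h2 (hUH _ h1)⟩
  · rintro a b ⟨h1, h2, h3⟩
    exact ⟨fun ha hb => relM_symm (h1 hb ha), h3, h2⟩
  · rintro a b c ⟨h1, h2, h3⟩ ⟨k1, k2, k3⟩
    rcases b.2 with hb | hb
    · refine ⟨fun ha hc => relM_trans (h1 ha hb) (k1 hb hc), fun ha hc => ?_, fun hc ha => ?_⟩
      · obtain ⟨f, j, g1, g2, g3⟩ := k2 hb hc
        exact ⟨f, j, g1, g2, relM_trans (h1 ha hb) g3⟩
      · obtain ⟨f, j, g1, g2, g3⟩ := h3 hb ha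
        exact ⟨f, j, g1, g2, relM_trans (relM_symm (k1 hb hc)) g3⟩
    · refine ⟨fun ha hc => ?_, fun ha _ => h2 ha hb, fun hc _ => k3 hc hb⟩
      obtain ⟨f, j, g1, g2, g3⟩ := h2 ha hb
      obtain ⟨f', j', g1', g2', g3'⟩ := k3 hc hb
      exact relM_trans g3 (relM_trans
        (relM_patch M pm1 pm2 pm3 t f f' j j' g1 g1' g2 g2') (relM_symm g3'))
  · rintro a b (hab | ⟨hab, ht⟩)
    · subst hab
      by_cases hH : (a : D) ∈ pcurve M x
      · have hH' : ((M'.ph a : Sset M (pcurve M x)) : D) ∈ pcurve M x := by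
          rw [hcap] at hH ⊢
          exact hH.trans (Equiv.Perm.SameCycle.refl _ _).apply_right
        exact ⟨fun ha _ => absurd hH (hUH _ ha), fun ha _ => absurd hH (hUH _ ha),
          fun hb _ => absurd hH' (hUH _ hb)⟩
      · refine ⟨fun ha hb => ?_, fun ha hb => ?_, fun _ ha => absurd ha hH⟩
        · rw [c2 a hH]
          exact relM_ph M t a
        · rw [c2 a hH] at hb
          exact absurd hb (hUH _ (Rea.ph ha))
    · subst hab
      rw [(hfr _).1, (hfr _).2] at ht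
      refine ⟨fun ha hb => ?_, fun ha hb => ?_, fun hb ha => ?_⟩
      · rw [c1]
        exact relM_gl M t a ht
      · rw [c1] at hb
        obtain ⟨f, h1, h2, h3⟩ := hb
        refine ⟨f, 0, hHne f h2, ?_, ?_⟩
        · apply seg_psi_sub M pm1 pm3 f 0 (hHne f h2)
          rw [← h3, seg_gl]
          exact ht
        · rw [← h3]
          exact relM_gl M t a ht
      · obtain ⟨f, h1, h2, h3⟩ := ha
        refine ⟨f, 0, hHne f h2, ?_, ?_⟩
        · apply seg_psi_sub M pm1 pm3 f 0 (hHne f h2)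
          rw [← h3]
          exact ht
        · rw [← h3, c1]
          exact relM_symm (relM_gl M t a ht)

/-- glueing of a further solid to the facet `a0` -/
def m2 {I : Type} (m : I × Fin 12 → Option (I × Fin 12)) (a0 : I × Fin 12)
    (a : Option I × Fin 12) : Option (Option I × Fin 12) :=
  match a.1 with
  | none => if a.2 = 11 then some (some a0.1, a0.2) else none
  | some i => if (i, a.2) = a0 then some (none, 11) else (m (i, a.2)).map fun b => (some b.1, b.2)

theorem m2_none {I : Type} (m : I × Fin 12 → Option (I × Fin 12)) (a0 : I × Fin 12) (f : Fin 12)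
    (b : Option I × Fin 12) : m2 m a0 (none, f) = some b ↔ f = 11 ∧ b = (some a0.1, a0.2) := by
  unfold m2
  by_cases hf : f = 11
  · simp [hf, eq_comm]
  · simp [hf]

theorem m2_some {I : Type} (m : I × Fin 12 → Option (I × Fin 12)) (a0 : I × Fin 12) (i : I)
    (f : Fin 12) (b : Option I × Fin 12) : m2 m a0 (some i, f) = some b ↔
      ((i, f) = a0 ∧ b = (none, 11)) ∨ ((i, f) ≠ a0 ∧ ∃ c, m (i, f) = some c ∧
        b = (some c.1, c.2)) := by
  unfold m2
  by_cases hf : (i, f) = a0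
  · simp only [hf, if_true, Option.some.injEq]
    constructor
    · intro h
      exact Or.inl ⟨trivial, h.symm⟩
    · rintro (⟨-, h⟩ | ⟨h, -⟩)
      · exact h.symm
      · exact absurd rfl h
  · simp only [if_neg hf, Option.map_eq_some_iff]
    constructor
    · rintro ⟨c, h1, h2⟩
      exact Or.inr ⟨hf, c, h1, h2.symm⟩
    · rintro (⟨h, -⟩ | ⟨-, c, h1, h2⟩)
      · exact absurd h hf
      · exact ⟨c, h1, h2.symm⟩

theorem relB_new {I : Type} (Q : I → Fr) (sd : I → Bool) (m : I × Fin 12 → Option (I × Fin 12))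
    (Q0 : Fr) (s : Bool) (a0 : I × Fin 12) (ha0 : m a0 = none)
    (hv : fverts s Q0 11 = fverts (sd a0.1) (Q a0.1) a0.2) (t : V) :
    (∀ i j, RelB (fun u => u.elim Q0 Q) (fun u => u.elim s sd) (m2 m a0) t (some i) (some j) ↔
      RelB Q sd m t i j) ∧
    (∀ j, RelB (fun u => u.elim Q0 Q) (fun u => u.elim s sd) (m2 m a0) t none (some j) ↔
      t ∈ convexHull ℝ (fverts s Q0 11) ∧ RelB Q sd m t a0.1 j) ∧
    (∀ i, RelB (fun u => u.elim Q0 Q) (fun u => u.elim s sd) (m2 m a0) t (some i) none ↔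
      t ∈ convexHull ℝ (fverts s Q0 11) ∧ RelB Q sd m t i a0.1) := by
  have hup : ∀ i j, RelB Q sd m t i j →
      RelB (fun u => u.elim Q0 Q) (fun u => u.elim s sd) (m2 m a0) t (some i) (some j) := by
    intro i j h
    refine eqvGen_le (K := fun i j => RelB (fun u => Option.elim u Q0 Q)
      (fun u => Option.elim u s sd) (m2 m a0) t (some i) (some j)) ?_ ?_ ?_ ?_ h
    · intro a; exact Relation.EqvGen.refl _
    · intro a b h; exact Relation.EqvGen.symm _ _ h
    · intro a b c h h'; exact Relation.EqvGen.trans _ _ _ h h'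
    · rintro a b ⟨f, f', h1, h2⟩
      refine Relation.EqvGen.rel _ _ ⟨f, f', ?_, h2⟩
      rw [m2_some]
      refine Or.inr ⟨?_, (b, f'), h1, rfl⟩
      intro h3
      rw [h3, ha0] at h1
      exact absurd h1 (by simp)
  have hcon : t ∈ convexHull ℝ (fverts s Q0 11) →
      RelB (fun u => u.elim Q0 Q) (fun u => u.elim s sd) (m2 m a0) t none (some a0.1) := by
    intro h
    refine Relation.EqvGen.rel _ _ ⟨11, a0.2, ?_, h⟩
    rw [m2_none]
    exact ⟨rfl, rfl⟩
  have hdown : ∀ u v, RelB (fun u => u.elim Q0 Q) (fun u => u.elim s sd) (m2 m a0) t u v →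
      (∀ i j, u = some i → v = some j → RelB Q sd m t i j) ∧
      (∀ j, u = none → v = some j →
        t ∈ convexHull ℝ (fverts s Q0 11) ∧ RelB Q sd m t a0.1 j) ∧
      (∀ i, u = some i → v = none →
        t ∈ convexHull ℝ (fverts s Q0 11) ∧ RelB Q sd m t i a0.1) := by
    intro u v h
    refine eqvGen_le (K := fun u v => (∀ i j, u = some i → v = some j → RelB Q sd m t i j) ∧
      (∀ j, u = none → v = some j →
        t ∈ convexHull ℝ (fverts s Q0 11) ∧ RelB Q sd m t a0.1 j) ∧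
      (∀ i, u = some i → v = none →
        t ∈ convexHull ℝ (fverts s Q0 11) ∧ RelB Q sd m t i a0.1)) ?_ ?_ ?_ ?_ h
    · intro a
      refine ⟨?_, ?_, ?_⟩
      · intro i j h1 h2
        rw [h1] at h2
        cases h2
        exact Relation.EqvGen.refl _
      · intro j h1 h2
        rw [h1] at h2
        cases h2
      · intro j h1 h2
        rw [h1] at h2
        cases h2
    · rintro a b ⟨h1, h2, h3⟩
      exact ⟨fun i j ha hb => Relation.EqvGen.symm _ _ (h1 j i hb ha),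
        fun j ha hb => ⟨(h3 j hb ha).1, Relation.EqvGen.symm _ _ (h3 j hb ha).2⟩,
        fun j ha hb => ⟨(h2 j hb ha).1, Relation.EqvGen.symm _ _ (h2 j hb ha).2⟩⟩
    · rintro a b c ⟨h1, h2, h3⟩ ⟨k1, k2, k3⟩
      rcases b with _ | b
      · refine ⟨fun i j ha hc => ?_, fun j ha hc => k2 j rfl hc, fun i ha hc => h3 i ha rfl⟩
        exact Relation.EqvGen.trans _ _ _ (h3 i ha rfl).2 (k2 j rfl hc).2
      · exact ⟨fun i j ha hc => Relation.EqvGen.trans _ _ _ (h1 i b ha rfl) (k1 b j rfl hc),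
          fun j ha hc => ⟨(h2 b ha rfl).1,
            Relation.EqvGen.trans _ _ _ (h2 b ha rfl).2 (k1 b j rfl hc)⟩,
          fun i ha hc => ⟨(k3 b rfl hc).1,
            Relation.EqvGen.trans _ _ _ (h1 i b ha rfl) (k3 b rfl hc).2⟩⟩
    · rintro a b ⟨f, f', h1, h2⟩
      rcases a with _ | a
      · rw [m2_none] at h1
        obtain ⟨h3, h4⟩ := h1
        have h5 : b = some a0.1 := congrArg Prod.fst h4
        subst h5
        subst h3
        refine ⟨fun i j ha hc => (by cases ha), fun j ha hc => ?_, fun i ha hc => (by cases ha)⟩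
        cases hc
        exact ⟨h2, Relation.EqvGen.refl _⟩
      · rw [m2_some] at h1
        rcases h1 with ⟨h3, h4⟩ | ⟨h3, c, h4, h5⟩
        · have h5 : b = none := congrArg Prod.fst h4
          subst h5
          subst h3
          refine ⟨fun i j ha hc => (by cases hc), fun j ha hc => (by cases hc), fun i ha hc => ?_⟩
          cases ha
          refine ⟨?_, Relation.EqvGen.refl _⟩
          rw [hv]
          exact h2
        · have h6 : b = some c.1 := congrArg Prod.fst h5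
          have h7 : f' = c.2 := congrArg Prod.snd h5
          subst h6
          subst h7
          refine ⟨fun i j ha hc => ?_, fun j ha hc => (by cases ha), fun i ha hc => (by cases hc)⟩
          cases ha
          cases hc
          exact Relation.EqvGen.rel _ _ ⟨f, c.2, h4, h2⟩
  refine ⟨fun i j => ⟨fun h => (hdown _ _ h).1 i j rfl rfl, hup i j⟩,
    fun j => ⟨fun h => (hdown _ _ h).2.1 j rfl rfl, fun h => ?_⟩,
    fun i => ⟨fun h => (hdown _ _ h).2.2 i rfl rfl, fun h => ?_⟩⟩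
  · exact Relation.EqvGen.trans _ _ _ (hcon h.1) (hup _ _ h.2)
  · exact Relation.EqvGen.trans _ _ _ (hup _ _ h.2) (Relation.EqvGen.symm _ _ (hcon h.1))

theorem fill_step (M : PMap D) (hord : ∀ d, (M.ph ^ 5) d = d) {s : Bool} {x : D} {G : Set D}
    (hP : Patch M s x G) (M' : PMap (Sset M (pcurve M x)))
    (c1 : ∀ d, ((M'.gl d : Sset M (pcurve M x)) : D) = M.gl d)
    (c2 : ∀ d : Sset M (pcurve M x), (d : D) ∉ pcurve M x →
      ((M'.ph d : Sset M (pcurve M x)) : D) = M.ph d ∧ M'.fr d = M.fr d)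
    (c3 : ∀ d : Sset M (pcurve M x), (d : D) ∈ pcurve M x →
      ((M'.ph d : Sset M (pcurve M x)) : D) = M.ph (M.gl (M.ph d)) ∧
        M'.fr d = Dd s (M.fr d))
    (hF : Filled M') : Filled M := by
  obtain ⟨hUH, hback, hgl, hfr, ⟨cap, hcapH, hcap, hcapv⟩, hseg⟩ :=
    fill_prep M hord hP M' c1 c2 c3
  obtain ⟨pm1, pm2, pm3⟩ := patch_map M hord hP
  obtain ⟨hC, h0, hone, hcov, hnot⟩ := patch_curve M hord hP
  obtain ⟨I, hI, Q, sd, m, fac', F1, F2, F3, F4, F5, F6, F7, F8⟩ := hF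
  have c2' : ∀ d : Sset M (pcurve M x), (d : D) ∉ pcurve M x →
      ((M'.ph d : Sset M (pcurve M x)) : D) = M.ph d := fun d hd => (c2 d hd).1
  -- the facet of the cap
  have ha0 : m (fac' cap) = none := F4 cap
  have hv : fverts s (M.fr x) 11 = fverts (sd (fac' cap).1) (Q (fac' cap).1) (fac' cap).2 := by
    rw [← hcapv]
    exact F7 cap
  -- powers of `ph`
  have hpow : ∀ (n : ℕ) (p : Sset M (pcurve M x)), Rea M (pcurve M x) p →
      Rea M (pcurve M x) ((M'.ph ^ n) p : Sset M (pcurve M x)) ∧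
      (((M'.ph ^ n) p : Sset M (pcurve M x)) : D) = (M.ph ^ n) p := by
    intro n p hp
    induction n with
    | zero => exact ⟨hp, rfl⟩
    | succ n ih =>
      rw [pow_succ', Equiv.Perm.mul_apply, c2' _ (hUH _ ih.1)]
      refine ⟨Rea.ph ih.1, ?_⟩
      rw [ih.2, pow_succ', Equiv.Perm.mul_apply]
  have hReapow : ∀ (n : ℕ) (d : D), Rea M (pcurve M x) d → Rea M (pcurve M x) ((M.ph ^ n) d) := by
    intro n d hd
    induction n with
    | zero => exact hd
    | succ n ih =>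
      rw [pow_succ', Equiv.Perm.mul_apply]
      exact Rea.ph ih
  have hReacyc : ∀ d e : D, M.ph.SameCycle d e → Rea M (pcurve M x) d →
      Rea M (pcurve M x) e := by
    intro d e hde hd
    obtain ⟨n, -, hn⟩ := hde.exists_pow_eq'
    rw [← hn]
    exact hReapow n d hd
  -- faces of the patch
  have hex : ∀ d, ∃ f : Fin 12, ¬ Rea M (pcurve M x) d → f ≠ 11 ∧ ∃ j, d = psi M x f j := by
    intro d
    rcases hcov d with h | ⟨f, j, h1, h2⟩
    · exact ⟨0, fun h' => absurd h h'⟩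
    · exact ⟨f, fun _ => ⟨h1, j, h2⟩⟩
  choose fi hfi using hex
  have hinj := psi_face M s x pm1 pm3
  have hUne : ∀ p : Sset M (pcurve M x), Rea M (pcurve M x) p → fac' p ≠ fac' cap := by
    intro p hp h
    have h1 := (F6 p cap).1 h
    exact hUH _ hp ((hcap p).2 h1.symm)
  have hHeq : ∀ p : Sset M (pcurve M x), (p : D) ∈ pcurve M x → fac' p = fac' cap := by
    intro p hp
    exact (F6 p cap).2 ((hcap p).1 hp).symm
  -- the new labelling
  let fac : D → Option I × Fin 12 := fun d =>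
    if h : Rea M (pcurve M x) d then (some (fac' ⟨d, Or.inl h⟩).1, (fac' ⟨d, Or.inl h⟩).2)
    else (none, fi d)
  have hfacU : ∀ d (h : Rea M (pcurve M x) d),
      fac d = (some (fac' ⟨d, Or.inl h⟩).1, (fac' ⟨d, Or.inl h⟩).2) := by
    intro d h
    simp only [fac, dif_pos h]
  have hfacP : ∀ d, ¬ Rea M (pcurve M x) d → fac d = (none, fi d) := by
    intro d h
    simp only [fac, dif_neg h]
  refine ⟨Option I, inferInstance, fun u => u.elim (M.fr x) Q, fun u => u.elim s sd,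
    m2 m (fac' cap), fac, ?_, ?_, ?_, ?_, ?_, ?_, ?_, ?_⟩
  · -- symmetric
    rintro ⟨u, f⟩ b hab
    rcases u with _ | i
    · rw [m2_none] at hab
      obtain ⟨h1, h2⟩ := hab
      rw [h2, m2_some]
      exact Or.inl ⟨rfl, by rw [h1]⟩
    · rw [m2_some] at hab
      rcases hab with ⟨h1, h2⟩ | ⟨h1, c, h2, h3⟩
      · rw [h2, m2_none]
        refine ⟨rfl, ?_⟩
        rw [← h1]
      · rw [h3, m2_some]
        refine Or.inr ⟨?_, (i, f), F1 _ _ h2, rfl⟩
        intro h4
        have h5 := F1 _ _ h2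
        rw [show c = fac' cap from h4, ha0] at h5
        exact absurd h5 (by simp)
  · -- no fixed facet
    rintro ⟨u, f⟩ hab
    rcases u with _ | i
    · rw [m2_none] at hab
      exact absurd (congrArg Prod.fst hab.2) (by simp)
    · rw [m2_some] at hab
      rcases hab with ⟨h1, h2⟩ | ⟨h1, c, h2, h3⟩
      · exact absurd (congrArg Prod.fst h2) (by simp)
      · have h4 : i = c.1 := Option.some.inj (congrArg Prod.fst h3)
        have h5 : f = c.2 := congrArg Prod.snd h3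
        apply F2 (i, f)
        rw [h2, h4, h5]
  · -- vertices of glued facets
    intro u f v f' hab
    rcases u with _ | i
    · rw [m2_none] at hab
      obtain ⟨h1, h2⟩ := hab
      have h3 : v = some (fac' cap).1 := congrArg Prod.fst h2
      have h4 : f' = (fac' cap).2 := congrArg Prod.snd h2
      rw [h3, h4, h1]
      exact hv
    · rw [m2_some] at hab
      rcases hab with ⟨h1, h2⟩ | ⟨h1, c, h2, h3⟩
      · have h3 : v = none := congrArg Prod.fst h2
        have h4 : f' = 11 := congrArg Prod.snd h2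
        have h5 : i = (fac' cap).1 := congrArg Prod.fst h1
        have h6 : f = (fac' cap).2 := congrArg Prod.snd h1
        rw [h3, h4, h5, h6]
        exact hv.symm
      · have h4 : v = some c.1 := congrArg Prod.fst h3
        have h5 : f' = c.2 := congrArg Prod.snd h3
        rw [h4, h5]
        exact F3 i f c.1 c.2 h2
  · -- faces are free facets
    intro d
    by_cases hd : Rea M (pcurve M x) d
    · rw [hfacU d hd]
      rcases hm : m2 m (fac' cap) (some (fac' ⟨d, Or.inl hd⟩).1, (fac' ⟨d, Or.inl hd⟩).2) with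
        _ | b
      · rfl
      · rw [m2_some] at hm
        rcases hm with ⟨h1, h2⟩ | ⟨h1, c, h2, h3⟩
        · exact absurd h1 (hUne _ hd)
        · have h4 := F4 ⟨d, Or.inl hd⟩
          have h5 : m (fac' ⟨d, Or.inl hd⟩) = some c := h2
          rw [h4] at h5
          exact absurd h5 (by simp)
    · rw [hfacP d hd]
      rcases hm : m2 m (fac' cap) (none, fi d) with _ | b
      · rfl
      · rw [m2_none] at hm
        exact absurd hm.1 (hfi d hd).1
  · -- free facets are faces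
    rintro ⟨u, f⟩ hm
    rcases u with _ | i
    · have hf : f ≠ 11 := by
        intro hf
        have h1 : m2 m (fac' cap) (none, f) = some (some (fac' cap).1, (fac' cap).2) := by
          rw [m2_none]
          exact ⟨hf, rfl⟩
        rw [hm] at h1
        exact absurd h1 (by simp)
      refine ⟨psi M x f 0, ?_⟩
      have h1 := hnot f 0 hf
      obtain ⟨h2, j, h3⟩ := hfi _ h1
      have h4 : f = fi (psi M x f 0) := hinj _ _ _ _ hf h2 h3
      rw [hfacP _ h1, ← h4]
    · have hne : (i, f) ≠ fac' cap := by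
        intro hf
        have h1 : m2 m (fac' cap) (some i, f) = some (none, 11) := by
          rw [m2_some]
          exact Or.inl ⟨hf, rfl⟩
        rw [hm] at h1
        exact absurd h1 (by simp)
      have hmi : m (i, f) = none := by
        rcases h : m (i, f) with _ | c
        · rfl
        · have h1 : m2 m (fac' cap) (some i, f) = some (some c.1, c.2) := by
            rw [m2_some]
            exact Or.inr ⟨hne, c, h, rfl⟩
          rw [hm] at h1
          exact absurd h1 (by simp)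
      obtain ⟨⟨d, hd⟩, h1⟩ := F5 _ hmi
      rcases hd with hd | hd
      · refine ⟨d, ?_⟩
        rw [hfacU d hd, h1]
      · exact absurd (h1.symm.trans (hHeq ⟨d, Or.inr hd⟩ hd)) hne
  · -- faces and facets
    intro d e
    by_cases hd : Rea M (pcurve M x) d
    · by_cases he : Rea M (pcurve M x) e
      · rw [hfacU d hd, hfacU e he]
        constructor
        · intro h
          have h1 : (fac' ⟨d, Or.inl hd⟩).1 = (fac' ⟨e, Or.inl he⟩).1 :=
            Option.some.inj (congrArg Prod.fst h)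
          have h2 : (fac' ⟨d, Or.inl hd⟩).2 = (fac' ⟨e, Or.inl he⟩).2 := (Prod.mk.inj h).2
          obtain ⟨n, -, hn⟩ := ((F6 _ _).1 (Prod.ext h1 h2)).exists_pow_eq'
          refine ⟨(n : ℤ), ?_⟩
          rw [zpow_natCast]
          have h3 := (hpow n ⟨d, Or.inl hd⟩ hd).2
          rw [hn] at h3
          exact h3.symm
        · intro h
          obtain ⟨n, -, hn⟩ := h.exists_pow_eq'
          have h1 : fac' ⟨d, Or.inl hd⟩ = fac' ⟨e, Or.inl he⟩ := by
            rw [F6]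
            refine ⟨(n : ℤ), ?_⟩
            rw [zpow_natCast]
            apply Subtype.ext
            rw [(hpow n ⟨d, Or.inl hd⟩ hd).2]
            exact hn
          rw [h1]
      · rw [hfacU d hd, hfacP e he]
        constructor
        · intro h
          exact absurd (congrArg Prod.fst h) (by simp)
        · intro h
          exact absurd (hReacyc _ _ h hd) he
    · by_cases he : Rea M (pcurve M x) e
      · rw [hfacP d hd, hfacU e he]
        constructor
        · intro h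
          exact absurd (congrArg Prod.fst h) (by simp)
        · intro h
          exact absurd (hReacyc _ _ h.symm he) hd
      · rw [hfacP d hd, hfacP e he]
        obtain ⟨h1, j, h2⟩ := hfi d hd
        obtain ⟨h3, k, h4⟩ := hfi e he
        constructor
        · intro h
          have h5 : fi d = fi e := congrArg Prod.snd h
          rw [← h5] at h4
          refine ⟨((k - j).val : ℤ), ?_⟩
          rw [zpow_natCast, h2, psi_pow M x pm1, ofNat5_val, add_sub_cancel]
          exact h4.symm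
        · intro h
          obtain ⟨n, -, hn⟩ := h.exists_pow_eq'
          rw [h2, psi_pow M x pm1] at hn
          rw [hinj _ _ _ _ h1 h3 (hn.trans h4)]
  · -- vertices
    intro d
    by_cases hd : Rea M (pcurve M x) d
    · rw [hfacU d hd]
      have h1 := F7 ⟨d, Or.inl hd⟩
      rw [show fverts ((fun u => Option.elim u s sd) (some (fac' ⟨d, Or.inl hd⟩).1))
        ((fun u => Option.elim u (M.fr x) Q) (some (fac' ⟨d, Or.inl hd⟩).1))
        (fac' ⟨d, Or.inl hd⟩).2 = fverts (sd (fac' ⟨d, Or.inl hd⟩).1)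
          (Q (fac' ⟨d, Or.inl hd⟩).1) (fac' ⟨d, Or.inl hd⟩).2 from rfl, ← h1]
      ext z
      constructor
      · rintro ⟨k, hk⟩
        refine ⟨k, ?_⟩
        rw [(hfr _).1, (hpow k ⟨d, Or.inl hd⟩ hd).2]
        exact hk
      · rintro ⟨k, hk⟩
        refine ⟨k, ?_⟩
        rw [(hfr _).1, (hpow k ⟨d, Or.inl hd⟩ hd).2] at hk
        exact hk
    · rw [hfacP d hd]
      obtain ⟨h1, j, h2⟩ := hfi d hd
      have h3 : ∀ k, (M.fr ((M.ph ^ k) d)).o = dp s (M.fr x) (vt (fi d) (j + Fin.ofNat 5 k)) := by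
        intro k
        conv_lhs => rw [h2]
        rw [psi_pow M x pm1, pm3 _ _ h1, FD_o]
      ext z
      constructor
      · rintro ⟨k, hk⟩
        exact ⟨j + Fin.ofNat 5 k, (hk.trans (h3 k)).symm⟩
      · rintro ⟨i, hi⟩
        refine ⟨(i - j).val, ?_⟩
        rw [h3, ofNat5_val, add_sub_cancel]
        exact hi.symm
  · -- identifications
    intro t d e hd1 he1
    obtain ⟨B1, B2, B3⟩ := relB_new Q sd m (M.fr x) s (fac' cap) ha0 hv t
    by_cases hd : Rea M (pcurve M x) d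
    · by_cases he : Rea M (pcurve M x) e
      · rw [hfacU d hd] at hd1 ⊢
        rw [hfacU e he] at he1 ⊢
        rw [show (RelB (fun u => Option.elim u (M.fr x) Q) (fun u => Option.elim u s sd)
          (m2 m (fac' cap)) t (some (fac' ⟨d, Or.inl hd⟩).1, (fac' ⟨d, Or.inl hd⟩).2).1
          (some (fac' ⟨e, Or.inl he⟩).1, (fac' ⟨e, Or.inl he⟩).2).1 ↔ _) from B1 _ _]
        rw [← F8 t ⟨d, Or.inl hd⟩ ⟨e, Or.inl he⟩ hd1 he1]
        constructor
        · intro h
          exact (relM_down M M' c1 c2' hUH hback hgl hfr cap hcap _ hseg t h).1 hd he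
        · intro h
          exact (relM_up M pm1 pm2 pm3 M' c1 c2' hUH hfr cap hcap t h).1 hd he
      · rw [hfacU d hd] at hd1 ⊢
        rw [hfacP e he] at he1 ⊢
        obtain ⟨h1, j, h2⟩ := hfi e he
        rw [show (RelB (fun u => Option.elim u (M.fr x) Q) (fun u => Option.elim u s sd)
          (m2 m (fac' cap)) t (some (fac' ⟨d, Or.inl hd⟩).1, (fac' ⟨d, Or.inl hd⟩).2).1
          ((none : Option I), fi e).1 ↔ _) from B3 _]
        constructor
        · intro h
          obtain ⟨g1, g2⟩ :=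
            (relM_down M M' c1 c2' hUH hback hgl hfr cap hcap _ hseg t h).2.1 hd he
          refine ⟨g1, ?_⟩
          rw [← F8 t ⟨d, Or.inl hd⟩ cap hd1 (by rw [← hv]; exact g1)]
          exact g2
        · rintro ⟨g1, g2⟩
          rw [← F8 t ⟨d, Or.inl hd⟩ cap hd1 (by rw [← hv]; exact g1)] at g2
          obtain ⟨f, j', k1, k2, k3⟩ :=
            (relM_up M pm1 pm2 pm3 M' c1 c2' hUH hfr cap hcap t g2).2.1 hd hcapH
          refine relM_trans k3 ?_
          rw [h2]
          exact relM_patch M pm1 pm2 pm3 t f (fi e) j' j k1 h1 k2 he1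
    · by_cases he : Rea M (pcurve M x) e
      · rw [hfacP d hd] at hd1 ⊢
        rw [hfacU e he] at he1 ⊢
        obtain ⟨h1, j, h2⟩ := hfi d hd
        rw [show (RelB (fun u => Option.elim u (M.fr x) Q) (fun u => Option.elim u s sd)
          (m2 m (fac' cap)) t ((none : Option I), fi d).1
          (some (fac' ⟨e, Or.inl he⟩).1, (fac' ⟨e, Or.inl he⟩).2).1 ↔ _) from B2 _]
        constructor
        · intro h
          obtain ⟨g1, g2⟩ :=
            (relM_down M M' c1 c2' hUH hback hgl hfr cap hcap _ hseg t h).2.2 he hd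
          refine ⟨g1, ?_⟩
          rw [← F8 t cap ⟨e, Or.inl he⟩ (by rw [← hv]; exact g1) he1]
          exact relM_symm g2
        · rintro ⟨g1, g2⟩
          rw [← F8 t cap ⟨e, Or.inl he⟩ (by rw [← hv]; exact g1) he1] at g2
          obtain ⟨f, j', k1, k2, k3⟩ :=
            (relM_up M pm1 pm2 pm3 M' c1 c2' hUH hfr cap hcap t g2).2.2 he hcapH
          refine relM_trans ?_ (relM_symm k3)
          rw [h2]
          exact relM_patch M pm1 pm2 pm3 t (fi d) f j j' h1 k1 hd1 k2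
      · rw [hfacP d hd] at hd1 ⊢
        rw [hfacP e he] at he1 ⊢
        obtain ⟨h1, j, h2⟩ := hfi d hd
        obtain ⟨h3, k, h4⟩ := hfi e he
        constructor
        · intro _
          exact Relation.EqvGen.refl _
        · intro _
          rw [h2, h4]
          exact relM_patch M pm1 pm2 pm3 t (fi d) (fi e) j k h1 h3 hd1 he1

theorem fbF_rng : ∀ i : Fin 5, 6 ≤ (fbF i).val ∧ (fbF i).val ≤ 10 := by decide

theorem fin5_iter5 : ∀ i : Fin 5, (fun a : Fin 5 => a + 1)^[5] i = i := by decide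

/-- the surface with the patch removed and capped still has pentagonal faces -/
theorem cap_pent (M : PMap D) (hord : ∀ d, (M.ph ^ 5) d = d) {s : Bool} {x : D} {G : Set D}
    (hP : Patch M s x G) (M' : PMap (Sset M (pcurve M x)))
    (c2 : ∀ d : Sset M (pcurve M x), (d : D) ∉ pcurve M x →
      ((M'.ph d : Sset M (pcurve M x)) : D) = M.ph d ∧ M'.fr d = M.fr d)
    (c3 : ∀ d : Sset M (pcurve M x), (d : D) ∈ pcurve M x →
      ((M'.ph d : Sset M (pcurve M x)) : D) = M.ph (M.gl (M.ph d)) ∧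
        M'.fr d = Dd s (M.fr d)) (d : Sset M (pcurve M x)) : (M'.ph ^ 5) d = d := by
  obtain ⟨ha, hb, hc⟩ := patch_map M hord hP
  obtain ⟨hC, h0, hone, hcov, hnot⟩ := patch_curve M hord hP
  by_cases hd : (d : D) ∈ pcurve M x
  · have key : ∀ (n : ℕ) (e : Sset M (pcurve M x)) (i : Fin 5), (e : D) = psi M x (fbF i) 0 →
        (((M'.ph ^ n) e : Sset M (pcurve M x)) : D) =
          psi M x (fbF ((fun a => a + 1)^[n] i)) 0 := by
      intro n
      induction n with
      | zero => intro e i h; exact h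
      | succ n ih =>
        intro e i h
        rw [pow_succ, Equiv.Perm.mul_apply, Function.iterate_succ_apply]
        apply ih
        have hmem : (e : D) ∈ pcurve M x := by
          rw [h]
          exact ⟨fbF i, (fbF_rng i).1, (fbF_rng i).2, rfl⟩
        rw [(c3 e hmem).1, h, ← ha]
        obtain ⟨t1, t2, -, -⟩ := fb_tab i
        obtain ⟨t1', -, -, -⟩ := fb_tab (i + 1)
        have e2 := hb (fbF i) 1 t1 (by rw [t2]; exact t1')
        rw [t2] at e2
        rw [zero_add, e2, ← ha]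
        rfl
    obtain ⟨f, hf1, hf2, hf3⟩ := hd
    obtain ⟨i, rfl⟩ := fb_F_surj f hf1 hf2
    apply Subtype.ext
    rw [key 5 d i hf3, hf3]
    congr 2
    exact fin5_iter5 i
  · have key : ∀ (n : ℕ), (((M'.ph ^ n) d : Sset M (pcurve M x)) : D) = (M.ph ^ n) (d : D) ∧
        Rea M (pcurve M x) ((M.ph ^ n) (d : D)) := by
      intro n
      induction n with
      | zero => exact ⟨rfl, d.2.resolve_right hd⟩
      | succ n ih =>
        rw [pow_succ', Equiv.Perm.mul_apply, pow_succ', Equiv.Perm.mul_apply]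
        have h1 : (((M'.ph ^ n) d : Sset M (pcurve M x)) : D) ∉ pcurve M x := by
          rw [ih.1]
          rintro ⟨f, hf1, hf2, hf3⟩
          refine hnot f 0 (by rintro rfl; exact absurd hf2 (by decide)) ?_
          rw [← hf3]
          exact ih.2
        rw [(c2 _ h1).1, ih.1]
        exact ⟨rfl, Rea.ph ih.2⟩
    apply Subtype.ext
    rw [(key 5).1, hord]

theorem cap_card (M : PMap D) (hord : ∀ d, (M.ph ^ 5) d = d) {s : Bool} {x : D} {G : Set D}
    (hP : Patch M s x G) : Fintype.card (Sset M (pcurve M x)) < Fintype.card D := by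
  obtain ⟨ha, hb, hc⟩ := patch_map M hord hP
  obtain ⟨hC, h0, hone, hcov, hnot⟩ := patch_curve M hord hP
  have h1 : psi M x 0 0 ∉ Sset M (pcurve M x) := by
    rintro (h1 | ⟨f, hf1, hf2, hf3⟩)
    · exact hnot 0 0 (by decide) h1
    · have hf : f ≠ 11 := by rintro rfl; exact absurd hf2 (by decide)
      have h2 := hc 0 0 (by decide)
      rw [hf3, hc f 0 hf] at h2
      have h3 := (FD_inj s _ h2).1
      subst h3
      exact absurd hf1 (by decide)
  exact Fintype.card_subtype_lt h1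

theorem fill_aux (n : ℕ) : ∀ (D : Type) [Fintype D] (M : PMap D) (_ : D),
    Fintype.card D = n → (∀ d, (M.ph ^ 5) d = d) → Filled M := by
  induction n using Nat.strong_induction_on with
  | _ n ih =>
    intro D _ M g hn hord
    obtain ⟨s, x, hP⟩ := exists_patch M g (fun d _ => hord d)
    obtain ⟨hC, h0, hone, hcov, hnot⟩ := patch_curve M hord hP
    by_cases hA : ∃ h ∈ pcurve M x, Adj M s h
    · exact fill_base M hord hP hA
    · push Not at hA
      obtain ⟨M', c1, c2, c3⟩ := surgery M hC hA _ h0 hone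
      refine fill_step M hord hP M' c1 c2 c3 ?_
      exact ih _ (hn ▸ cap_card M hord hP) (Sset M (pcurve M x)) M' ⟨_, Or.inr h0⟩ rfl
        (cap_pent M hord hP M' c2 c3)

end

end Pool.Agent.Helper275.Pent
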