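import Pool.Agent.Helper275.Pent.Fil

set_option autoImplicit false

/-!
Sharper form of the filling: all the solids lie on the same side of the oriented surface, and
solids glued along a facet lie on opposite sides of it.
-/

namespace Pool.Agent.Helper275.Pent

open scoped Matrix Classical

noncomputable section

variable {D : Type} [Fintype D]

/-- the surface is the boundary of a union of dodecahedra, all on the side `s0` -/
def FilledS (M : PMap D) (s0 : Bool) : Prop :=
  ∃ (I : Type) (_ : Finite I) (Q : I → Fr) (s : I → Bool) (m : I × Fin 12 → Option (I × Fin 12))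
    (fac : D → I × Fin 12),
    (∀ a b, m a = some b → m b = some a) ∧ (∀ a, m a ≠ some a) ∧
    (∀ i f j f', m (i, f) = some (j, f') → fverts (s i) (Q i) f = fverts (s j) (Q j) f') ∧
    (∀ d, m (fac d) = none) ∧ (∀ a, m a = none → ∃ d, fac d = a) ∧
    (∀ d e, fac d = fac e ↔ M.ph.SameCycle d e) ∧
    (∀ d, {z | ∃ k : ℕ, z = (M.fr ((M.ph ^ k) d)).o} =
      fverts (s (fac d).1) (Q (fac d).1) (fac d).2) ∧
    (∀ t d e, t ∈ convexHull ℝ (fverts (s (fac d).1) (Q (fac d).1) (fac d).2) →
      t ∈ convexHull ℝ (fverts (s (fac e).1) (Q (fac e).1) (fac e).2) →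
      (RelM M t d e ↔ RelB Q s m t (fac d).1 (fac e).1)) ∧
    (∀ i, s i = s0) ∧
    (∀ i f j f', m (i, f) = some (j, f') →
      ∃ k k', FD s0 (Q j) f' k' = kapF (FD s0 (Q i) f k)) ∧
    (∀ d, ∃ k, M.fr d = FD s0 (Q (fac d).1) (fac d).2 k)

/-- the third edge of the solid on the side `s` at each corner is an edge of the surface at the
same vertex -/
def Th (M : PMap D) (s : Bool) : Prop :=
  ∀ d, ∃ e, (M.ph * M.gl).SameCycle d e ∧ (M.fr e).u = (rhoF (tauF s (M.fr d))).u

theorem fillS_base (M : PMap D) (hord : ∀ d, (M.ph ^ 5) d = d) {s : Bool} {x : D} {G : Set D}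
    (hP : Patch M s x G) (h : ∃ h ∈ pcurve M x, Adj M s h) : FilledS M s ∧ Th M s := by
  obtain ⟨ha, -, -⟩ := patch_map M hord hP
  obtain ⟨hb, hc⟩ := fb_full M hord hP h
  have hcov : ∀ d, ∃ f j, d = psi M x f j := by
    have h1 := M.conn {d | ∃ f j, d = psi M x f j} ⟨psi M x 0 0, 0, 0, rfl⟩
      (by
        rintro _ ⟨f, j, rfl⟩
        exact ⟨f, j + 1, (ha f j).symm⟩)
      (by
        rintro _ ⟨f, j, rfl⟩
        exact ⟨_, _, hb f j⟩)
    intro d
    have h2 : d ∈ {d | ∃ f j, d = psi M x f j} := by rw [h1]; exact Set.mem_univ d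
    exact h2
  have hinj : ∀ f j f' j', psi M x f j = psi M x f' j' → f = f' ∧ j = j' := by
    intro f j f' j' he
    apply fb_FD_inj s (M.fr x)
    rw [← hc, ← hc, he]
  have hiter : ∀ (f : Fin 12) (j : Fin 5) (n : ℕ),
      (M.ph ^ n) (psi M x f j) = psi M x f ((fun a => a + 1)^[n] j) := by
    intro f j n
    induction n with
    | zero => rfl
    | succ n ih =>
      rw [Function.iterate_succ_apply', ha, ← ih, pow_succ']
      rfl
  choose gf gj hg using hcov
  have hgf : ∀ f j, gf (psi M x f j) = f := by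
    intro f j
    exact (hinj _ _ _ _ (hg (psi M x f j))).1.symm
  have hth : Th M s := by
    intro d
    refine ⟨(M.ph * M.gl) d, ⟨1, by simp⟩, ?_⟩
    rw [sg_apply, M.fr_ph]
    congr 2
    rw [hg d, hb, hc, hc, FD_gD]
  refine ⟨⟨Unit, inferInstance, fun _ => M.fr x, fun _ => s, fun _ => none,
    fun d => ((), gf d), ?_, ?_, ?_, ?_, ?_, ?_, ?_, ?_, fun _ => rfl, ?_, ?_⟩, hth⟩
  · intro a b hab
    exact absurd hab (by simp)
  · intro a
    simp
  · intro i f j f' hh
    exact absurd hh (by simp)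
  · intro d
    rfl
  · rintro ⟨⟨⟩, f⟩ -
    exact ⟨psi M x f 0, congrArg (Prod.mk ()) (hgf f 0)⟩
  · intro d e
    constructor
    · intro hfe
      have hfe' : gf d = gf e := congrArg Prod.snd hfe
      obtain ⟨n, hn⟩ := fb_cyc (gj d) (gj e)
      refine ⟨(n.val : ℤ), ?_⟩
      rw [zpow_natCast]
      conv_lhs => rw [hg d]
      rw [hiter, hn, hfe']
      exact (hg e).symm
    · intro hse
      obtain ⟨n, hn⟩ := sameCycle_pow M hse
      have h1 : gf e = gf d := by
        rw [← hn]
        conv_lhs => rw [hg d]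
        rw [hiter, hgf]
      simp only [h1]
  · intro d
    ext z
    simp only [fverts, Set.mem_range]
    constructor
    · rintro ⟨k, hk⟩
      have hk' : z = (M.fr ((M.ph ^ k) d)).o := hk
      refine ⟨(fun a => a + 1)^[k] (gj d), ?_⟩
      rw [hk']
      conv_rhs => rw [hg d]
      rw [hiter, hc, FD_o]
    · rintro ⟨j', hj'⟩
      obtain ⟨n, hn⟩ := fb_cyc (gj d) j'
      refine ⟨n.val, ?_⟩
      rw [← hj']
      conv_rhs => rw [hg d]
      rw [hiter, hn, hc, FD_o]
  · intro t d e hd he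
    constructor
    · intro _
      exact Relation.EqvGen.refl _
    · intro _
      have hd' : t ∈ convexHull ℝ (fverts s (M.fr x) (gf d)) := hd
      have he' : t ∈ convexHull ℝ (fverts s (M.fr x) (gf e)) := he
      have hchain : ∀ f j j', RelM M t (psi M x f j) (psi M x f j') := by
        intro f j j'
        obtain ⟨n, hn⟩ := fb_cyc j j'
        have := fb_RelM_ph M t (psi M x f j) n.val
        rwa [hiter, hn] at this
      rw [hg d, hg e]
      by_cases hfe : gf d = gf e
      · rw [hfe]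
        exact hchain _ _ _
      · obtain ⟨j, hj1, hj2⟩ := dod_inter s (M.fr x) (gf d) (gf e) hfe t hd' he'
        refine Relation.EqvGen.trans _ _ _ (hchain _ _ j) ?_
        have h1 : RelM M t (psi M x (gf d) j) (M.gl (psi M x (gf d) j)) := by
          refine Relation.EqvGen.rel _ _ (Or.inr ⟨rfl, ?_⟩)
          rw [hc, fb_FD_u, FD_o]
          exact hj2
        refine Relation.EqvGen.trans _ _ _ h1 ?_
        rw [hb, hj1]
        exact hchain _ _ _
  · intro i f j f' hh
    exact absurd hh (by simp)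
  · intro d
    refine ⟨gj d, ?_⟩
    rw [← hc, ← hg]

theorem fillS_step (M : PMap D) (hord : ∀ d, (M.ph ^ 5) d = d) {s : Bool} {x : D} {G : Set D}
    (hP : Patch M s x G) (M' : PMap (Sset M (pcurve M x)))
    (c1 : ∀ d, ((M'.gl d : Sset M (pcurve M x)) : D) = M.gl d)
    (c2 : ∀ d : Sset M (pcurve M x), (d : D) ∉ pcurve M x →
      ((M'.ph d : Sset M (pcurve M x)) : D) = M.ph d ∧ M'.fr d = M.fr d)
    (c3 : ∀ d : Sset M (pcurve M x), (d : D) ∈ pcurve M x →
      ((M'.ph d : Sset M (pcurve M x)) : D) = M.ph (M.gl (M.ph d)) ∧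
        M'.fr d = Dd s (M.fr d))
    (hF : FilledS M' s) : FilledS M s := by
  obtain ⟨hUH, hback, hgl, hfr, ⟨cap, hcapH, hcap, hcapv⟩, hseg⟩ :=
    fill_prep M hord hP M' c1 c2 c3
  obtain ⟨pm1, pm2, pm3⟩ := patch_map M hord hP
  obtain ⟨hC, h0, hone, hcov, hnot⟩ := patch_curve M hord hP
  obtain ⟨I, hI, Q, sd, m, fac', F1, F2, F3, F4, F5, F6, F7, F8, F9, F10, F11⟩ := hF
  have c2' : ∀ d : Sset M (pcurve M x), (d : D) ∉ pcurve M x →
      ((M'.ph d : Sset M (pcurve M x)) : D) = M.ph d := fun d hd => (c2 d hd).1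
  -- the facet of the cap
  have ha0 : m (fac' cap) = none := F4 cap
  have hv : fverts s (M.fr x) 11 = fverts (sd (fac' cap).1) (Q (fac' cap).1) (fac' cap).2 := by
    rw [← hcapv]
    exact F7 cap
  -- powers of `ph`
  have hpow : ∀ (n : ℕ) (p : Sset M (pcurve M x)), Rea M (pcurve M x) p →
      Rea M (pcurve M x) ((M'.ph ^ n) p : Sset M (pcurve M x)) ∧
      (((M'.ph ^ n) p : Sset M (pcurve M x)) : D) = (M.ph ^ n) p := by
    intro n p hp
    induction n with
    | zero => exact ⟨hp, rfl⟩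
    | succ n ih =>
      rw [pow_succ', Equiv.Perm.mul_apply, c2' _ (hUH _ ih.1)]
      refine ⟨Rea.ph ih.1, ?_⟩
      rw [ih.2, pow_succ', Equiv.Perm.mul_apply]
  have hReapow : ∀ (n : ℕ) (d : D), Rea M (pcurve M x) d → Rea M (pcurve M x) ((M.ph ^ n) d) := by
    intro n d hd
    induction n with
    | zero => exact hd
    | succ n ih =>
      rw [pow_succ', Equiv.Perm.mul_apply]
      exact Rea.ph ih
  have hReacyc : ∀ d e : D, M.ph.SameCycle d e → Rea M (pcurve M x) d →
      Rea M (pcurve M x) e := by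
    intro d e hde hd
    obtain ⟨n, -, hn⟩ := hde.exists_pow_eq'
    rw [← hn]
    exact hReapow n d hd
  -- faces of the patch
  have hex : ∀ d, ∃ f : Fin 12, ¬ Rea M (pcurve M x) d → f ≠ 11 ∧ ∃ j, d = psi M x f j := by
    intro d
    rcases hcov d with h | ⟨f, j, h1, h2⟩
    · exact ⟨0, fun h' => absurd h h'⟩
    · exact ⟨f, fun _ => ⟨h1, j, h2⟩⟩
  choose fi hfi using hex
  have hinj := psi_face M s x pm1 pm3
  have hUne : ∀ p : Sset M (pcurve M x), Rea M (pcurve M x) p → fac' p ≠ fac' cap := by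
    intro p hp h
    have h1 := (F6 p cap).1 h
    exact hUH _ hp ((hcap p).2 h1.symm)
  have hHeq : ∀ p : Sset M (pcurve M x), (p : D) ∈ pcurve M x → fac' p = fac' cap := by
    intro p hp
    exact (F6 p cap).2 ((hcap p).1 hp).symm
  -- the new labelling
  let fac : D → Option I × Fin 12 := fun d =>
    if h : Rea M (pcurve M x) d then (some (fac' ⟨d, Or.inl h⟩).1, (fac' ⟨d, Or.inl h⟩).2)
    else (none, fi d)
  have hfacU : ∀ d (h : Rea M (pcurve M x) d),
      fac d = (some (fac' ⟨d, Or.inl h⟩).1, (fac' ⟨d, Or.inl h⟩).2) := by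
    intro d h
    simp only [fac, dif_pos h]
  have hfacP : ∀ d, ¬ Rea M (pcurve M x) d → fac d = (none, fi d) := by
    intro d h
    simp only [fac, dif_neg h]
  -- the frame of the cap
  have hkap : ∃ k k', FD s (Q (fac' cap).1) (fac' cap).2 k' = kapF (FD s (M.fr x) 11 k) := by
    obtain ⟨k', hk'⟩ := F11 cap
    obtain ⟨f, h1, h2, h3⟩ := hcapH
    obtain ⟨i, rfl⟩ := fb_F_surj f h1 h2
    obtain ⟨t1, -, t3, -⟩ := fb_tab i
    refine ⟨-i, k', ?_⟩
    have h4 := FD_gD s (M.fr x) (fbF i) 0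
    rw [t3] at h4
    rw [h4, ← hk', (c3 cap ⟨fbF i, h1, h2, h3⟩).2, h3, pm3 _ _ t1, ← kapF_Dd, kapF_kapF]
  refine ⟨Option I, inferInstance, fun u => u.elim (M.fr x) Q, fun u => u.elim s sd,
    m2 m (fac' cap), fac, ?_, ?_, ?_, ?_, ?_, ?_, ?_, ?_, ?_, ?_, ?_⟩
  · -- symmetric
    rintro ⟨u, f⟩ b hab
    rcases u with _ | i
    · rw [m2_none] at hab
      obtain ⟨h1, h2⟩ := hab
      rw [h2, m2_some]
      exact Or.inl ⟨rfl, by rw [h1]⟩
    · rw [m2_some] at hab
      rcases hab with ⟨h1, h2⟩ | ⟨h1, c, h2, h3⟩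
      · rw [h2, m2_none]
        refine ⟨rfl, ?_⟩
        rw [← h1]
      · rw [h3, m2_some]
        refine Or.inr ⟨?_, (i, f), F1 _ _ h2, rfl⟩
        intro h4
        have h5 := F1 _ _ h2
        rw [show c = fac' cap from h4, ha0] at h5
        exact absurd h5 (by simp)
  · -- no fixed facet
    rintro ⟨u, f⟩ hab
    rcases u with _ | i
    · rw [m2_none] at hab
      exact absurd (congrArg Prod.fst hab.2) (by simp)
    · rw [m2_some] at hab
      rcases hab with ⟨h1, h2⟩ | ⟨h1, c, h2, h3⟩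
      · exact absurd (congrArg Prod.fst h2) (by simp)
      · have h4 : i = c.1 := Option.some.inj (congrArg Prod.fst h3)
        have h5 : f = c.2 := congrArg Prod.snd h3
        apply F2 (i, f)
        rw [h2, h4, h5]
  · -- vertices of glued facets
    intro u f v f' hab
    rcases u with _ | i
    · rw [m2_none] at hab
      obtain ⟨h1, h2⟩ := hab
      have h3 : v = some (fac' cap).1 := congrArg Prod.fst h2
      have h4 : f' = (fac' cap).2 := congrArg Prod.snd h2
      rw [h3, h4, h1]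
      exact hv
    · rw [m2_some] at hab
      rcases hab with ⟨h1, h2⟩ | ⟨h1, c, h2, h3⟩
      · have h3 : v = none := congrArg Prod.fst h2
        have h4 : f' = 11 := congrArg Prod.snd h2
        have h5 : i = (fac' cap).1 := congrArg Prod.fst h1
        have h6 : f = (fac' cap).2 := congrArg Prod.snd h1
        rw [h3, h4, h5, h6]
        exact hv.symm
      · have h4 : v = some c.1 := congrArg Prod.fst h3
        have h5 : f' = c.2 := congrArg Prod.snd h3
        rw [h4, h5]
        exact F3 i f c.1 c.2 h2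
  · -- faces are free facets
    intro d
    by_cases hd : Rea M (pcurve M x) d
    · rw [hfacU d hd]
      rcases hm : m2 m (fac' cap) (some (fac' ⟨d, Or.inl hd⟩).1, (fac' ⟨d, Or.inl hd⟩).2) with
        _ | b
      · rfl
      · rw [m2_some] at hm
        rcases hm with ⟨h1, h2⟩ | ⟨h1, c, h2, h3⟩
        · exact absurd h1 (hUne _ hd)
        · have h4 := F4 ⟨d, Or.inl hd⟩
          have h5 : m (fac' ⟨d, Or.inl hd⟩) = some c := h2
          rw [h4] at h5
          exact absurd h5 (by simp)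
    · rw [hfacP d hd]
      rcases hm : m2 m (fac' cap) (none, fi d) with _ | b
      · rfl
      · rw [m2_none] at hm
        exact absurd hm.1 (hfi d hd).1
  · -- free facets are faces
    rintro ⟨u, f⟩ hm
    rcases u with _ | i
    · have hf : f ≠ 11 := by
        intro hf
        have h1 : m2 m (fac' cap) (none, f) = some (some (fac' cap).1, (fac' cap).2) := by
          rw [m2_none]
          exact ⟨hf, rfl⟩
        rw [hm] at h1
        exact absurd h1 (by simp)
      refine ⟨psi M x f 0, ?_⟩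
      have h1 := hnot f 0 hf
      obtain ⟨h2, j, h3⟩ := hfi _ h1
      have h4 : f = fi (psi M x f 0) := hinj _ _ _ _ hf h2 h3
      rw [hfacP _ h1, ← h4]
    · have hne : (i, f) ≠ fac' cap := by
        intro hf
        have h1 : m2 m (fac' cap) (some i, f) = some (none, 11) := by
          rw [m2_some]
          exact Or.inl ⟨hf, rfl⟩
        rw [hm] at h1
        exact absurd h1 (by simp)
      have hmi : m (i, f) = none := by
        rcases h : m (i, f) with _ | c
        · rfl
        · have h1 : m2 m (fac' cap) (some i, f) = some (some c.1, c.2) := by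
            rw [m2_some]
            exact Or.inr ⟨hne, c, h, rfl⟩
          rw [hm] at h1
          exact absurd h1 (by simp)
      obtain ⟨⟨d, hd⟩, h1⟩ := F5 _ hmi
      rcases hd with hd | hd
      · refine ⟨d, ?_⟩
        rw [hfacU d hd, h1]
      · exact absurd (h1.symm.trans (hHeq ⟨d, Or.inr hd⟩ hd)) hne
  · -- faces and facets
    intro d e
    by_cases hd : Rea M (pcurve M x) d
    · by_cases he : Rea M (pcurve M x) e
      · rw [hfacU d hd, hfacU e he]
        constructor
        · intro h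
          have h1 : (fac' ⟨d, Or.inl hd⟩).1 = (fac' ⟨e, Or.inl he⟩).1 :=
            Option.some.inj (congrArg Prod.fst h)
          have h2 : (fac' ⟨d, Or.inl hd⟩).2 = (fac' ⟨e, Or.inl he⟩).2 := (Prod.mk.inj h).2
          obtain ⟨n, -, hn⟩ := ((F6 _ _).1 (Prod.ext h1 h2)).exists_pow_eq'
          refine ⟨(n : ℤ), ?_⟩
          rw [zpow_natCast]
          have h3 := (hpow n ⟨d, Or.inl hd⟩ hd).2
          rw [hn] at h3
          exact h3.symm
        · intro h
          obtain ⟨n, -, hn⟩ := h.exists_pow_eq'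
          have h1 : fac' ⟨d, Or.inl hd⟩ = fac' ⟨e, Or.inl he⟩ := by
            rw [F6]
            refine ⟨(n : ℤ), ?_⟩
            rw [zpow_natCast]
            apply Subtype.ext
            rw [(hpow n ⟨d, Or.inl hd⟩ hd).2]
            exact hn
          rw [h1]
      · rw [hfacU d hd, hfacP e he]
        constructor
        · intro h
          exact absurd (congrArg Prod.fst h) (by simp)
        · intro h
          exact absurd (hReacyc _ _ h hd) he
    · by_cases he : Rea M (pcurve M x) e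
      · rw [hfacP d hd, hfacU e he]
        constructor
        · intro h
          exact absurd (congrArg Prod.fst h) (by simp)
        · intro h
          exact absurd (hReacyc _ _ h.symm he) hd
      · rw [hfacP d hd, hfacP e he]
        obtain ⟨h1, j, h2⟩ := hfi d hd
        obtain ⟨h3, k, h4⟩ := hfi e he
        constructor
        · intro h
          have h5 : fi d = fi e := congrArg Prod.snd h
          rw [← h5] at h4
          refine ⟨((k - j).val : ℤ), ?_⟩
          rw [zpow_natCast, h2, psi_pow M x pm1, ofNat5_val, add_sub_cancel]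
          exact h4.symm
        · intro h
          obtain ⟨n, -, hn⟩ := h.exists_pow_eq'
          rw [h2, psi_pow M x pm1] at hn
          rw [hinj _ _ _ _ h1 h3 (hn.trans h4)]
  · -- vertices
    intro d
    by_cases hd : Rea M (pcurve M x) d
    · rw [hfacU d hd]
      have h1 := F7 ⟨d, Or.inl hd⟩
      rw [show fverts ((fun u => Option.elim u s sd) (some (fac' ⟨d, Or.inl hd⟩).1))
        ((fun u => Option.elim u (M.fr x) Q) (some (fac' ⟨d, Or.inl hd⟩).1))
        (fac' ⟨d, Or.inl hd⟩).2 = fverts (sd (fac' ⟨d, Or.inl hd⟩).1)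
          (Q (fac' ⟨d, Or.inl hd⟩).1) (fac' ⟨d, Or.inl hd⟩).2 from rfl, ← h1]
      ext z
      constructor
      · rintro ⟨k, hk⟩
        refine ⟨k, ?_⟩
        rw [(hfr _).1, (hpow k ⟨d, Or.inl hd⟩ hd).2]
        exact hk
      · rintro ⟨k, hk⟩
        refine ⟨k, ?_⟩
        rw [(hfr _).1, (hpow k ⟨d, Or.inl hd⟩ hd).2] at hk
        exact hk
    · rw [hfacP d hd]
      obtain ⟨h1, j, h2⟩ := hfi d hd
      have h3 : ∀ k, (M.fr ((M.ph ^ k) d)).o = dp s (M.fr x) (vt (fi d) (j + Fin.ofNat 5 k)) := by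
        intro k
        conv_lhs => rw [h2]
        rw [psi_pow M x pm1, pm3 _ _ h1, FD_o]
      ext z
      constructor
      · rintro ⟨k, hk⟩
        exact ⟨j + Fin.ofNat 5 k, (hk.trans (h3 k)).symm⟩
      · rintro ⟨i, hi⟩
        refine ⟨(i - j).val, ?_⟩
        rw [h3, ofNat5_val, add_sub_cancel]
        exact hi.symm
  · -- identifications
    intro t d e hd1 he1
    obtain ⟨B1, B2, B3⟩ := relB_new Q sd m (M.fr x) s (fac' cap) ha0 hv t
    by_cases hd : Rea M (pcurve M x) d
    · by_cases he : Rea M (pcurve M x) e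
      · rw [hfacU d hd] at hd1 ⊢
        rw [hfacU e he] at he1 ⊢
        rw [show (RelB (fun u => Option.elim u (M.fr x) Q) (fun u => Option.elim u s sd)
          (m2 m (fac' cap)) t (some (fac' ⟨d, Or.inl hd⟩).1, (fac' ⟨d, Or.inl hd⟩).2).1
          (some (fac' ⟨e, Or.inl he⟩).1, (fac' ⟨e, Or.inl he⟩).2).1 ↔ _) from B1 _ _]
        rw [← F8 t ⟨d, Or.inl hd⟩ ⟨e, Or.inl he⟩ hd1 he1]
        constructor
        · intro h
          exact (relM_down M M' c1 c2' hUH hback hgl hfr cap hcap _ hseg t h).1 hd he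
        · intro h
          exact (relM_up M pm1 pm2 pm3 M' c1 c2' hUH hfr cap hcap t h).1 hd he
      · rw [hfacU d hd] at hd1 ⊢
        rw [hfacP e he] at he1 ⊢
        obtain ⟨h1, j, h2⟩ := hfi e he
        rw [show (RelB (fun u => Option.elim u (M.fr x) Q) (fun u => Option.elim u s sd)
          (m2 m (fac' cap)) t (some (fac' ⟨d, Or.inl hd⟩).1, (fac' ⟨d, Or.inl hd⟩).2).1
          ((none : Option I), fi e).1 ↔ _) from B3 _]
        constructor
        · intro h
          obtain ⟨g1, g2⟩ :=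
            (relM_down M M' c1 c2' hUH hback hgl hfr cap hcap _ hseg t h).2.1 hd he
          refine ⟨g1, ?_⟩
          rw [← F8 t ⟨d, Or.inl hd⟩ cap hd1 (by rw [← hv]; exact g1)]
          exact g2
        · rintro ⟨g1, g2⟩
          rw [← F8 t ⟨d, Or.inl hd⟩ cap hd1 (by rw [← hv]; exact g1)] at g2
          obtain ⟨f, j', k1, k2, k3⟩ :=
            (relM_up M pm1 pm2 pm3 M' c1 c2' hUH hfr cap hcap t g2).2.1 hd hcapH
          refine relM_trans k3 ?_
          rw [h2]
          exact relM_patch M pm1 pm2 pm3 t f (fi e) j' j k1 h1 k2 he1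
    · by_cases he : Rea M (pcurve M x) e
      · rw [hfacP d hd] at hd1 ⊢
        rw [hfacU e he] at he1 ⊢
        obtain ⟨h1, j, h2⟩ := hfi d hd
        rw [show (RelB (fun u => Option.elim u (M.fr x) Q) (fun u => Option.elim u s sd)
          (m2 m (fac' cap)) t ((none : Option I), fi d).1
          (some (fac' ⟨e, Or.inl he⟩).1, (fac' ⟨e, Or.inl he⟩).2).1 ↔ _) from B2 _]
        constructor
        · intro h
          obtain ⟨g1, g2⟩ :=
            (relM_down M M' c1 c2' hUH hback hgl hfr cap hcap _ hseg t h).2.2 he hd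
          refine ⟨g1, ?_⟩
          rw [← F8 t cap ⟨e, Or.inl he⟩ (by rw [← hv]; exact g1) he1]
          exact relM_symm g2
        · rintro ⟨g1, g2⟩
          rw [← F8 t cap ⟨e, Or.inl he⟩ (by rw [← hv]; exact g1) he1] at g2
          obtain ⟨f, j', k1, k2, k3⟩ :=
            (relM_up M pm1 pm2 pm3 M' c1 c2' hUH hfr cap hcap t g2).2.2 he hcapH
          refine relM_trans ?_ (relM_symm k3)
          rw [h2]
          exact relM_patch M pm1 pm2 pm3 t (fi d) f j j' h1 k1 hd1 k2
      · rw [hfacP d hd] at hd1 ⊢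
        rw [hfacP e he] at he1 ⊢
        obtain ⟨h1, j, h2⟩ := hfi d hd
        obtain ⟨h3, k, h4⟩ := hfi e he
        constructor
        · intro _
          exact Relation.EqvGen.refl _
        · intro _
          rw [h2, h4]
          exact relM_patch M pm1 pm2 pm3 t (fi d) (fi e) j k h1 h3 hd1 he1
  · -- sides
    intro u
    rcases u with _ | i
    · rfl
    · exact F9 i
  · -- frames of glued facets
    intro u f v f' hab
    rcases u with _ | i
    · rw [m2_none] at hab
      obtain ⟨h1, h2⟩ := hab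
      have h3 : v = some (fac' cap).1 := congrArg Prod.fst h2
      have h4 : f' = (fac' cap).2 := congrArg Prod.snd h2
      rw [h3, h4, h1]
      exact hkap
    · rw [m2_some] at hab
      rcases hab with ⟨h1, h2⟩ | ⟨h1, c, h2, h3⟩
      · have h3 : v = none := congrArg Prod.fst h2
        have h4 : f' = 11 := congrArg Prod.snd h2
        have h5 : i = (fac' cap).1 := congrArg Prod.fst h1
        have h6 : f = (fac' cap).2 := congrArg Prod.snd h1
        rw [h3, h4, h5, h6]
        obtain ⟨k, k', hk⟩ := hkap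
        refine ⟨k', k, ?_⟩
        show FD s (M.fr x) 11 k = kapF (FD s (Q (fac' cap).1) (fac' cap).2 k')
        rw [hk, kapF_kapF]
      · have h4 : v = some c.1 := congrArg Prod.fst h3
        have h5 : f' = c.2 := congrArg Prod.snd h3
        rw [h4, h5]
        exact F10 i f c.1 c.2 h2
  · -- frames of the faces
    intro d
    by_cases hd : Rea M (pcurve M x) d
    · rw [hfacU d hd]
      obtain ⟨k, hk⟩ := F11 ⟨d, Or.inl hd⟩
      refine ⟨k, ?_⟩
      rw [(c2 ⟨d, Or.inl hd⟩ (hUH _ hd)).2] at hk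
      exact hk
    · rw [hfacP d hd]
      obtain ⟨h1, j, h2⟩ := hfi d hd
      refine ⟨j, ?_⟩
      conv_lhs => rw [h2]
      exact pm3 _ _ h1

theorem tauF_not_Dd (s : Bool) (P : Fr) : tauF (!s) (Dd s P) = kapF P := by
  rw [← kapF_Dd, Dd_Dd]

/-- vertices of the capped surface are parts of vertices of the surface -/
theorem cap_cycle (M : PMap D) {H : Set D} (M' : PMap (Sset M H))
    (c1 : ∀ d, ((M'.gl d : Sset M H) : D) = M.gl d)
    (c2 : ∀ d : Sset M H, (d : D) ∉ H → ((M'.ph d : Sset M H) : D) = M.ph d)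
    (c3 : ∀ d : Sset M H, (d : D) ∈ H →
      ((M'.ph d : Sset M H) : D) = M.ph (M.gl (M.ph d)))
    (d e : Sset M H) (h : (M'.ph * M'.gl).SameCycle d e) :
    (M.ph * M.gl).SameCycle (d : D) (e : D) := by
  have step : ∀ d : Sset M H, (M.ph * M.gl).SameCycle (d : D)
      (((M'.ph * M'.gl) d : Sset M H) : D) := by
    intro d
    by_cases hg : ((M'.gl d : Sset M H) : D) ∈ H
    · refine ⟨2, ?_⟩
      have h1 := c3 _ hg
      rw [c1] at h1
      have h2 : (((M'.ph * M'.gl) d : Sset M H) : D) = (M.ph * M.gl) ((M.ph * M.gl) d) := h1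
      rw [h2]
      rfl
    · refine ⟨1, ?_⟩
      have h1 := c2 _ hg
      rw [c1] at h1
      have h2 : (((M'.ph * M'.gl) d : Sset M H) : D) = (M.ph * M.gl) d := h1
      rw [h2]
      simp
  obtain ⟨n, -, rfl⟩ := h.exists_pow_eq'
  clear h
  induction n with
  | zero => exact Equiv.Perm.SameCycle.refl _ _
  | succ n ih =>
    rw [pow_succ', Equiv.Perm.mul_apply]
    exact ih.trans (step _)

theorem fb_tab2 : ∀ i : Fin 5, fbF i ≠ 11 ∧ gD (fbF i) 4 = (fbF (i - 1), 1) ∧
    gD (fbF i) 0 = (11, -i) ∧ gD 11 (-i + 1) = (fbF (i - 1), 0) := by decide +kernel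

theorem th_step (M : PMap D) (hord : ∀ d, (M.ph ^ 5) d = d) {s s' : Bool} {x : D} {G : Set D}
    (hP : Patch M s x G) (M' : PMap (Sset M (pcurve M x)))
    (c1 : ∀ d, ((M'.gl d : Sset M (pcurve M x)) : D) = M.gl d)
    (c2 : ∀ d : Sset M (pcurve M x), (d : D) ∉ pcurve M x →
      ((M'.ph d : Sset M (pcurve M x)) : D) = M.ph d ∧ M'.fr d = M.fr d)
    (c3 : ∀ d : Sset M (pcurve M x), (d : D) ∈ pcurve M x →
      ((M'.ph d : Sset M (pcurve M x)) : D) = M.ph (M.gl (M.ph d)) ∧
        M'.fr d = Dd s (M.fr d))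
    (hT : Th M' s') : s' = s ∧ Th M s := by
  obtain ⟨hUH, hback, hgl, hfr, ⟨cap, hcapH, hcap, hcapv⟩, hseg⟩ :=
    fill_prep M hord hP M' c1 c2 c3
  obtain ⟨pm1, pm2, pm3⟩ := patch_map M hord hP
  obtain ⟨hC, h0, hone, hcov, hnot⟩ := patch_curve M hord hP
  have cc' := cap_cycle M M' c1 (fun d hd => (c2 d hd).1) (fun d hd => (c3 d hd).1)
  have hs : s' = s := by
    by_contra hne
    have hs' : s' = !s := by
      cases s <;> cases s' <;> simp_all
    subst hs'
    obtain ⟨e, he1, he2⟩ := hT cap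
    have h1 := cc' _ _ he1
    rw [(hfr e).2, (c3 cap hcapH).2, tauF_not_Dd] at he2
    have h2 : (rhoF (kapF (M.fr cap))).u = (M.fr cap).v := by
      simp [rhoF, kapF]
    rw [h2] at he2
    obtain ⟨f, f1, f2, f3⟩ := hcapH
    obtain ⟨i, rfl⟩ := fb_F_surj f f1 f2
    obtain ⟨t1, t2, t3, t4⟩ := fb_tab2 i
    obtain ⟨t1', -, -, -⟩ := fb_tab2 (i - 1)
    -- the dart of the patch in the same direction
    have e1 : M.gl (psi M x (fbF i) 4) = psi M x (fbF (i - 1)) 1 := by
      have := pm2 (fbF i) 4 t1 (by rw [t2]; exact t1')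
      rwa [t2] at this
    have e2 : M.ph (psi M x (fbF i) 4) = psi M x (fbF i) 0 := (pm1 (fbF i) 4).symm
    have e3 : (M.ph * M.gl) (psi M x (fbF (i - 1)) 1) = psi M x (fbF i) 0 := by
      rw [← e1, sg_apply, M.gl_gl, e2]
    have e4 : (M.fr (psi M x (fbF (i - 1)) 1)).u = (M.fr cap).v := by
      rw [f3, ← e2, ← e1, M.fr_ph, M.fr_u]
      rfl
    have e5 : (M.ph * M.gl).SameCycle (e : D) (psi M x (fbF (i - 1)) 1) := by
      refine h1.symm.trans ?_
      rw [f3, ← e3]
      exact (Equiv.Perm.SameCycle.symm ⟨1, by simp⟩)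
    have e6 := M.inj _ _ e5 (he2.trans e4.symm)
    rcases e.2 with h3 | h3
    · rw [e6] at h3
      exact hnot _ _ t1' h3
    · rw [e6] at h3
      obtain ⟨g, g1, g2, g3⟩ := h3
      have hg : g ≠ 11 := by rintro rfl; exact absurd g2 (by decide)
      have h4 := pm3 (fbF (i - 1)) 1 t1'
      rw [g3, pm3 g 0 hg] at h4
      have h5 := (FD_inj s _ h4).2
      exact absurd h5 (by decide)
  subst hs
  refine ⟨rfl, ?_⟩
  intro d
  rcases hcov d with hd | ⟨f, j, hf, rfl⟩
  · obtain ⟨e, he1, he2⟩ := hT ⟨d, Or.inl hd⟩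
    refine ⟨e, cc' _ _ he1, ?_⟩
    rw [← (hfr e).2, he2, (c2 ⟨d, Or.inl hd⟩ (hUH _ hd)).2]
  · by_cases hb : (gD f j).1 = 11
    · obtain ⟨i, rfl, rfl⟩ := fb_11 f j hf hb
      obtain ⟨t1, t2, t3, t4⟩ := fb_tab2 i
      obtain ⟨t1', -, -, -⟩ := fb_tab2 (i - 1)
      have e1 : M.gl (psi M x (fbF i) 4) = psi M x (fbF (i - 1)) 1 := by
        have := pm2 (fbF i) 4 t1 (by rw [t2]; exact t1')
        rwa [t2] at this
      have e2 : M.ph (psi M x (fbF i) 4) = psi M x (fbF i) 0 := (pm1 (fbF i) 4).symm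
      have e3 : (M.ph * M.gl) (psi M x (fbF (i - 1)) 1) = psi M x (fbF i) 0 := by
        rw [← e1, sg_apply, M.gl_gl, e2]
      have e4 : (M.ph * M.gl) (M.gl (psi M x (fbF (i - 1)) 0)) = psi M x (fbF (i - 1)) 1 := by
        rw [sg_apply, M.gl_gl]
        exact (pm1 (fbF (i - 1)) 0).symm
      refine ⟨M.gl (psi M x (fbF (i - 1)) 0), ?_, ?_⟩
      · refine Equiv.Perm.SameCycle.symm ⟨2, ?_⟩
        rw [← e3, ← e4]
        rfl
      · rw [M.fr_u, pm3 _ _ t1', pm3 _ _ t1, ← FD_gD, t3, ← FD_ph]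
        have h6 := FD_gD s' (M.fr x) 11 (-i + 1)
        rw [t4] at h6
        rw [h6]
        simp [tauF]
    · refine ⟨(M.ph * M.gl) (psi M x f j), ⟨1, by simp⟩, ?_⟩
      rw [sg_apply, M.fr_ph, pm2 f j hf hb, pm3 _ _ hb, pm3 _ _ hf, FD_gD]

theorem fillS_aux (n : ℕ) : ∀ (D : Type) [Fintype D] (M : PMap D) (_ : D),
    Fintype.card D = n → (∀ d, (M.ph ^ 5) d = d) → ∃ s, FilledS M s ∧ Th M s := by
  induction n using Nat.strong_induction_on with
  | _ n ih =>
    intro D _ M g hn hord
    obtain ⟨s, x, hP⟩ := exists_patch M g (fun d _ => hord d)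
    obtain ⟨hC, h0, hone, hcov, hnot⟩ := patch_curve M hord hP
    by_cases hA : ∃ h ∈ pcurve M x, Adj M s h
    · exact ⟨s, fillS_base M hord hP hA⟩
    · push Not at hA
      obtain ⟨M', c1, c2, c3⟩ := surgery M hC hA _ h0 hone
      obtain ⟨s', hF, hT⟩ := ih _ (hn ▸ cap_card M hord hP) (Sset M (pcurve M x)) M'
        ⟨_, Or.inr h0⟩ rfl (cap_pent M hord hP M' c2 c3)
      obtain ⟨rfl, hT'⟩ := th_step M hord hP M' c1 c2 c3 hT
      exact ⟨s', fillS_step M hord hP M' c1 c2 c3 hF, hT'⟩

end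

end Pool.Agent.Helper275.Pent
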