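import Pool.Agent.Helper275.Pent.Tr2

set_option autoImplicit false

namespace Pool.Agent.Helper275.Pent

open scoped Matrix Topology Classical

noncomputable section

theorem main (M : Surf) (hS : Nonempty (M.Space ≃ₜ Metric.sphere (0 : E3) 1))
    (f : M.Space → E3) (hf : Continuous f) (hiso : ∀ x, Isometry fun t : P => f (M.pt x t))
    (hinj : ∀ z, ∃ U ∈ 𝓝 z, Set.InjOn f U) :
    ∃ (B : Solid) (F : B.Space → E3), Continuous F ∧
      (∀ i, Isometry fun t : Dod => F (B.pt i t)) ∧ B.Proper F ∧ IsBoundary M f B F := by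
  choose A hA using fun x => isom_extend _ (hiso x)
  have := M.fin
  have : Fintype (M.X × ZMod 5) := Fintype.ofFinite _
  obtain ⟨ε, p, h1, h2, h3⟩ := make_map M hS f A hA hinj
  have hne : Nonempty M.Space := by
    obtain ⟨e⟩ := hS
    obtain ⟨z, hz⟩ := (NormedSpace.sphere_nonempty (x := (0 : E3)) (r := 1)).mpr zero_le_one
    exact ⟨e.symm ⟨z, hz⟩⟩
  obtain ⟨z⟩ := hne
  obtain ⟨⟨x, t⟩, -⟩ := Quot.exists_rep z
  obtain ⟨s0, hF, -⟩ := fillS_aux _ _ p (x, 0) rfl (fun d => by rw [h1]; exact phA_five ε d)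
  obtain ⟨I, hI, T, m, Φ, q1, q2, q3, q4, q5, q6, q7, q8⟩ := fill_E3 M A ε p h1 h2 h3 s0 hF
  exact make_boundary M f hf A hA I hI T m Φ q1 q2 q3 q4 q5 q6 q7 q8

end

end Pool.Agent.Helper275.Pent
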