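import Mathlib

set_option autoImplicit false

/-!
Frames of regular pentagons of side 1 in `ℝ³`: a vertex `o` of the pentagon and the two unit
vectors `u`, `v` from `o` to the next and to the previous vertex.
-/

namespace Pool.Agent.Helper275.Pent

open scoped Matrix

abbrev V := Fin 3 → ℝ

noncomputable def s5 : ℝ := Real.sqrt 5

theorem s5_sq : s5 * s5 = 5 := Real.mul_self_sqrt (by norm_num)

theorem s5_pos : 0 < s5 := Real.sqrt_pos.mpr (by norm_num)

theorem s5_gt : 2 < s5 := by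
  have h := s5_sq
  have h0 := s5_pos
  nlinarith

theorem s5_lt : s5 < 9 / 4 := by
  have h := s5_sq
  have h0 := s5_pos
  nlinarith

/-- cosine of 108 degrees -/
noncomputable def cc : ℝ := (1 - s5) / 4

theorem dot_comm' (a b : V) : a ⬝ᵥ b = b ⬝ᵥ a := dotProduct_comm a b

theorem cross_cross_left (u v : V) : u ⨯₃ (u ⨯₃ v) = (u ⬝ᵥ v) • u - (u ⬝ᵥ u) • v := by
  ext i
  fin_cases i <;>
    simp [crossProduct, dotProduct, Fin.sum_univ_three] <;> ring

theorem cross_cross_right (u v : V) : v ⨯₃ (u ⨯₃ v) = (v ⬝ᵥ v) • u - (u ⬝ᵥ v) • v := by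
  ext i
  fin_cases i <;>
    simp [crossProduct, dotProduct, Fin.sum_univ_three] <;> ring

theorem cross_dot_self (u v : V) :
    (u ⨯₃ v) ⬝ᵥ (u ⨯₃ v) = (u ⬝ᵥ u) * (v ⬝ᵥ v) - (u ⬝ᵥ v) * (u ⬝ᵥ v) := by
  simp [crossProduct, dotProduct, Fin.sum_univ_three]
  ring

theorem cross_dot_left (u v : V) : (u ⨯₃ v) ⬝ᵥ u = 0 := by
  simp [crossProduct, dotProduct, Fin.sum_univ_three]
  ring

theorem cross_dot_right (u v : V) : (u ⨯₃ v) ⬝ᵥ v = 0 := by
  simp [crossProduct, dotProduct, Fin.sum_univ_three]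
  ring

theorem left_dot_cross (u v : V) : u ⬝ᵥ (u ⨯₃ v) = 0 := by
  rw [dot_comm', cross_dot_left]

theorem right_dot_cross (u v : V) : v ⬝ᵥ (u ⨯₃ v) = 0 := by
  rw [dot_comm', cross_dot_right]

theorem cross_self' (u : V) : u ⨯₃ u = 0 := cross_self u

theorem cross_anti (u v : V) : v ⨯₃ u = - (u ⨯₃ v) := by
  rw [cross_anticomm]

/-- frames of regular pentagons of side one -/
@[ext]
structure Fr where
  o : V
  u : V
  v : V
  hu : u ⬝ᵥ u = 1
  hv : v ⬝ᵥ v = 1
  huv : u ⬝ᵥ v = cc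

namespace Fr

/-- normal vector -/
noncomputable def w (P : Fr) : V := P.u ⨯₃ P.v

theorem hvu (P : Fr) : P.v ⬝ᵥ P.u = cc := by rw [dot_comm', P.huv]
theorem hwu (P : Fr) : P.w ⬝ᵥ P.u = 0 := cross_dot_left _ _
theorem hwv (P : Fr) : P.w ⬝ᵥ P.v = 0 := cross_dot_right _ _
theorem huw (P : Fr) : P.u ⬝ᵥ P.w = 0 := left_dot_cross _ _
theorem hvw (P : Fr) : P.v ⬝ᵥ P.w = 0 := right_dot_cross _ _
theorem hww (P : Fr) : P.w ⬝ᵥ P.w = 1 - cc * cc := by
  unfold w
  rw [cross_dot_self, P.hu, P.hv, P.huv]; ring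
theorem cuw (P : Fr) : P.u ⨯₃ P.w = cc • P.u - P.v := by
  unfold w
  rw [cross_cross_left, P.hu, P.huv, one_smul]
theorem cvw (P : Fr) : P.v ⨯₃ P.w = P.u - cc • P.v := by
  unfold w
  rw [cross_cross_right, P.hv, P.huv, one_smul]

/-- linear combination in the basis `u, v, w` of a frame -/
noncomputable def lin (P : Fr) (a b c : ℝ) : V := a • P.u + b • P.v + c • P.w

theorem lin_dot (P : Fr) (a b c a' b' c' : ℝ) :
    P.lin a b c ⬝ᵥ P.lin a' b' c'
      = a * a' + b * b' + (a * b' + b * a') * cc + c * c' * (1 - cc * cc) := by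
  unfold lin
  simp only [add_dotProduct, dotProduct_add, smul_dotProduct, dotProduct_smul, smul_eq_mul,
    P.hu, P.hv, P.huv, P.hvu, P.hwu, P.hwv, P.huw, P.hvw, P.hww]
  ring

theorem lin_cross (P : Fr) (a b c a' b' c' : ℝ) :
    P.lin a b c ⨯₃ P.lin a' b' c'
      = P.lin ((a * c' - a' * c) * cc + (b * c' - b' * c))
          (-(a * c' - a' * c) - (b * c' - b' * c) * cc) (a * b' - a' * b) := by
  have h1 : P.v ⨯₃ P.u = - P.w := cross_anti _ _
  have h2 : P.w ⨯₃ P.u = -(cc • P.u - P.v) := by rw [cross_anti, P.cuw]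
  have h3 : P.w ⨯₃ P.v = -(P.u - cc • P.v) := by rw [cross_anti, P.cvw]
  have h4 : P.u ⨯₃ P.v = P.w := rfl
  have h5 : P.w ⨯₃ P.w = 0 := cross_self' _
  unfold lin
  simp only [map_add, map_smul, LinearMap.add_apply, LinearMap.smul_apply, h1, h2, h3, h4, h5,
    P.cuw, P.cvw, cross_self']
  module

theorem lin_u (P : Fr) : P.u = P.lin 1 0 0 := by simp [lin]
theorem lin_v (P : Fr) : P.v = P.lin 0 1 0 := by simp [lin]
theorem lin_w (P : Fr) : P.w = P.lin 0 0 1 := by simp [lin]

end Fr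

theorem cc_sq : cc * cc = (3 - s5) / 8 := by
  unfold cc
  have := s5_sq
  linear_combination (1 / 16) * this

theorem one_sub_cc_sq : 1 - cc * cc = (5 + s5) / 8 := by rw [cc_sq]; ring

theorem one_sub_cc_sq_pos : 0 < 1 - cc * cc := by
  rw [one_sub_cc_sq]; have := s5_pos; positivity

/-- `lin` is injective -/
theorem Fr.lin_inj (P : Fr) {a b c a' b' c' : ℝ} (h : P.lin a b c = P.lin a' b' c') :
    a = a' ∧ b = b' ∧ c = c' := by
  have h1 : P.lin (a - a') (b - b') (c - c') = 0 := by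
    have : P.lin (a - a') (b - b') (c - c') = P.lin a b c - P.lin a' b' c' := by
      unfold Fr.lin; module
    rw [this, h, sub_self]
  have h2 : P.lin (a - a') (b - b') (c - c') ⬝ᵥ P.lin (a - a') (b - b') (c - c') = 0 := by
    rw [h1]; simp
  rw [P.lin_dot] at h2
  have hp := one_sub_cc_sq_pos
  have hcc : cc * cc = (3 - s5) / 8 := cc_sq
  have h5 := s5_gt
  set x := a - a'
  set y := b - b'
  set z := c - c'
  have h3 : (x + y * cc) ^ 2 + (1 - cc * cc) * (y ^ 2 + z ^ 2) = 0 := by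
    linear_combination h2
  have hq : 0 ≤ (1 - cc * cc) * (y ^ 2 + z ^ 2) := by positivity
  have h4 : (x + y * cc) ^ 2 = 0 := by
    have := sq_nonneg (x + y * cc)
    linarith
  have h6 : y ^ 2 + z ^ 2 = 0 := by
    have : (1 - cc * cc) * (y ^ 2 + z ^ 2) = 0 := by linarith
    rcases mul_eq_zero.mp this with h | h
    · exact absurd h hp.ne'
    · exact h
  have hy : y = 0 := by nlinarith [sq_nonneg y, sq_nonneg z]
  have hz : z = 0 := by nlinarith [sq_nonneg y, sq_nonneg z]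
  have hx : x = 0 := by
    rw [hy] at h4
    have : x + 0 * cc = 0 := by simpa using h4
    linarith
  exact ⟨sub_eq_zero.mp hx, sub_eq_zero.mp hy, sub_eq_zero.mp hz⟩

/-- sign of a Boolean -/
noncomputable def sg (s : Bool) : ℝ := if s then 1 else -1

theorem sg_sq (s : Bool) : sg s * sg s = 1 := by cases s <;> simp [sg]
theorem sg_not (s : Bool) : sg (!s) = - sg s := by cases s <;> simp [sg]

/-- next vertex of the pentagon -/
noncomputable def rhoF (P : Fr) : Fr where
  o := P.o + P.u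
  u := ((s5 - 1) / 2) • P.u + P.v
  v := - P.u
  hu := by
    simp only [add_dotProduct, dotProduct_add, smul_dotProduct, dotProduct_smul, smul_eq_mul,
      P.hu, P.hv, P.huv, P.hvu, cc]
    linear_combination 0 * s5_sq
  hv := by simp [P.hu]
  huv := by
    simp only [add_dotProduct, smul_dotProduct, dotProduct_neg, smul_eq_mul, P.hu, P.hvu, cc]
    ring

/-- previous vertex of the pentagon -/
noncomputable def rhoI (P : Fr) : Fr where
  o := P.o + P.v
  u := - P.v
  v := P.u + ((s5 - 1) / 2) • P.v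
  hu := by simp [P.hv]
  hv := by
    simp only [add_dotProduct, dotProduct_add, smul_dotProduct, dotProduct_smul, smul_eq_mul,
      P.hu, P.hv, P.huv, P.hvu, cc]
    linear_combination 0 * s5_sq
  huv := by
    simp only [dotProduct_add, dotProduct_smul, neg_dotProduct, smul_eq_mul, P.hv, P.hvu, cc]
    ring

noncomputable def rho : Equiv.Perm Fr where
  toFun := rhoF
  invFun := rhoI
  left_inv P := by
    ext1
    · simp [rhoF, rhoI]
    · simp [rhoF, rhoI]
    · simp [rhoF, rhoI]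
  right_inv P := by
    ext1
    · simp [rhoF, rhoI]
    · simp [rhoF, rhoI]
    · simp [rhoF, rhoI]

/-- the same pentagon with the opposite orientation, based at the other end of the edge -/
noncomputable def kapF (P : Fr) : Fr where
  o := P.o + P.u
  u := - P.u
  v := ((s5 - 1) / 2) • P.u + P.v
  hu := by simp [P.hu]
  hv := (rhoF P).hu
  huv := by rw [dot_comm']; simpa [rhoF] using (rhoF P).huv

theorem kapF_kapF (P : Fr) : kapF (kapF P) = P := by
  ext1
  · simp [kapF]
  · simp [kapF]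
  · simp [kapF]

/-- the neighbour pentagon along the edge `o, o+u` in the dodecahedron on the side `s` -/
noncomputable def tauF (s : Bool) (P : Fr) : Fr where
  o := P.o + P.u
  u := - P.u
  v := P.lin ((3 * s5 - 5) / 10) (-(s5 / 5)) (2 * sg s * (s5 / 5))
  hu := by simp [P.hu]
  hv := by
    rw [P.lin_dot, one_sub_cc_sq]
    have h1 := s5_sq
    have h2 := sg_sq s
    unfold cc
    linear_combination ((2 * (s5 / 5)) * (2 * (s5 / 5)) * ((5 + s5) / 8)) * h2 +
      ((1 / 20 : ℝ) + 3 * s5 / 100 + (1 / 10 : ℝ) + s5 / 50) * h1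
  huv := by
    rw [P.lin_u, ← neg_one_smul ℝ, smul_dotProduct, P.lin_dot]
    have h1 := s5_sq
    unfold cc
    simp only [smul_eq_mul]
    linear_combination (- 1 / 20 : ℝ) * h1

theorem w_rho (P : Fr) : (rhoF P).w = P.w := by
  unfold Fr.w rhoF
  simp only [map_add, map_smul, map_neg, LinearMap.add_apply, LinearMap.smul_apply,
    LinearMap.neg_apply, cross_self', smul_zero, zero_add, neg_zero]
  rw [cross_anti]; simp

theorem w_kap (P : Fr) : (kapF P).w = - P.w := by
  unfold Fr.w kapF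
  simp only [map_add, map_smul, map_neg, LinearMap.add_apply, LinearMap.smul_apply,
    LinearMap.neg_apply, cross_self', smul_zero, zero_add, neg_zero]

theorem Fr.w_ne (P : Fr) : P.w ≠ 0 := by
  intro h
  have h1 := P.hww
  rw [h] at h1
  have h2 := one_sub_cc_sq_pos
  simp at h1
  linarith

theorem w_tau (s : Bool) (P : Fr) : (tauF s P).w
    = P.lin (-(2 * sg s * (s5 / 5)) * cc) (2 * sg s * (s5 / 5)) (s5 / 5) := by
  have h : (tauF s P).w = P.lin (-1) 0 0 ⨯₃
      P.lin ((3 * s5 - 5) / 10) (-(s5 / 5)) (2 * sg s * (s5 / 5)) := by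
    unfold Fr.w tauF
    congr 2
    simp [Fr.lin]
  rw [h, P.lin_cross]
  congr 1 <;> ring

theorem tauF_tauF (s : Bool) (P : Fr) : tauF s (tauF s P) = P := by
  ext1
  · simp [tauF]
  · simp [tauF]
  · have h : (tauF s (tauF s P)).v = ((3 * s5 - 5) / 10) • (tauF s P).u
        + (-(s5 / 5)) • (tauF s P).v + (2 * sg s * (s5 / 5)) • (tauF s P).w := rfl
    rw [h, w_tau]
    have h1 := s5_sq
    have h2 := sg_sq s
    have e1 : (tauF s P).u = P.lin (-1) 0 0 := by simp [tauF, Fr.lin]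
    have e2 : (tauF s P).v = P.lin ((3 * s5 - 5) / 10) (-(s5 / 5)) (2 * sg s * (s5 / 5)) := rfl
    rw [e1, e2]
    have e3 : ∀ x y z : ℝ, x • P.lin (-1) 0 0
        + y • P.lin ((3 * s5 - 5) / 10) (-(s5 / 5)) (2 * sg s * (s5 / 5))
        + z • P.lin (-(2 * sg s * (s5 / 5)) * cc) (2 * sg s * (s5 / 5)) (s5 / 5)
        = P.lin (-x + y * ((3 * s5 - 5) / 10) - z * (2 * sg s * (s5 / 5)) * cc)
          (-(y * (s5 / 5)) + z * (2 * sg s * (s5 / 5)))
          (y * (2 * sg s * (s5 / 5)) + z * (s5 / 5)) := by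
      intro x y z
      unfold Fr.lin
      module
    rw [e3, P.lin_v]
    congr 1
    · unfold cc
      linear_combination (- ((2 * (s5 / 5)) * (2 * (s5 / 5)) * ((1 - s5) / 4))) * h2
        + (- 1 / 10 + s5 / 25) * h1
    · linear_combination ((2 * (s5 / 5)) * (2 * (s5 / 5))) * h2 + (1 / 5 : ℝ) * h1
    · ring

noncomputable def kap : Equiv.Perm Fr := Function.Involutive.toPerm kapF kapF_kapF
noncomputable def tau (s : Bool) : Equiv.Perm Fr := Function.Involutive.toPerm (tauF s) (tauF_tauF s)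

theorem kap_rho (P : Fr) : kapF (rhoF P) = rhoI (kapF P) := by
  ext1
  · simp only [kapF, rhoF, rhoI]
  · simp only [kapF, rhoF, rhoI]
  · simp only [kapF, rhoF, rhoI]; module

theorem kap_tau (s : Bool) (P : Fr) : kapF (tauF s P) = tauF (!s) (kapF P) := by
  ext1
  · simp [kapF, tauF]
  · simp [kapF, tauF]
  · have h : (tauF (!s) (kapF P)).v = ((3 * s5 - 5) / 10) • (kapF P).u
        + (-(s5 / 5)) • (kapF P).v + (2 * sg (!s) * (s5 / 5)) • (kapF P).w := rfl
    rw [h, w_kap, sg_not]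
    simp only [kapF, tauF, Fr.lin]
    have h1 := s5_sq
    have e : ∀ a b c a' b' c' : ℝ, a = a' → b = b' → c = c' →
        a • P.u + b • P.v + c • P.w = a' • P.u + b' • P.v + c' • P.w := by
      intro a b c a' b' c' h1 h2 h3; rw [h1, h2, h3]
    have l1 : ((s5 - 1) / 2) • -P.u + (((3 * s5 - 5) / 10) • P.u + (-(s5 / 5)) • P.v
        + (2 * sg s * (s5 / 5)) • P.w) = (-((s5 - 1) / 2) + (3 * s5 - 5) / 10) • P.u
        + (-(s5 / 5)) • P.v + (2 * sg s * (s5 / 5)) • P.w := by module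
    have l2 : ((3 * s5 - 5) / 10) • -P.u + (-(s5 / 5)) • (((s5 - 1) / 2) • P.u + P.v)
        + (2 * -sg s * (s5 / 5)) • -P.w = (-((3 * s5 - 5) / 10) - (s5 / 5) * ((s5 - 1) / 2)) • P.u
        + (-(s5 / 5)) • P.v + (2 * sg s * (s5 / 5)) • P.w := by module
    rw [l1, l2]
    apply e
    · linear_combination (1 / 10 : ℝ) * h1
    · rfl
    · rfl

theorem rho_pow5 (P : Fr) : rhoF (rhoF (rhoF (rhoF (rhoF P)))) = P := by
  have h1 := s5_sq
  have e : ∀ a b a' b' : ℝ, a = a' → b = b' →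
      a • P.u + b • P.v = a' • P.u + b' • P.v := by
    intro a b a' b' h1 h2; rw [h1, h2]
  have e0 : ∀ a b : ℝ, a = 0 → b = 0 → P.o + (a • P.u + b • P.v) = P.o := by
    intro a b h1 h2; rw [h1, h2]; simp
  set k := (s5 - 1) / 2 with hk
  have hkk : k * k = 1 - k := by rw [hk]; linear_combination (1 / 4 : ℝ) * h1
  ext1
  · simp only [rhoF, ← hk]
    have : P.o + P.u + (k • P.u + P.v) + (k • (k • P.u + P.v) + -P.u)
        + (k • (k • (k • P.u + P.v) + -P.u) + -(k • P.u + P.v))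
        + (k • (k • (k • (k • P.u + P.v) + -P.u) + -(k • P.u + P.v))
          + -(k • (k • P.u + P.v) + -P.u))
        = P.o + ((1 + k + k * k - 1 + k * k * k - k - k + k * (k * k * k - k - k) - (k * k - 1)) • P.u
          + (1 + k + k * k - 1 + k * (k * k - 1) - k) • P.v) := by module
    rw [this]
    apply e0
    · have h3 : k * k * k = 2 * k - 1 := by linear_combination (k - 1) * hkk
      linear_combination (k + 1) * h3
    · have h3 : k * k * k = 2 * k - 1 := by linear_combination (k - 1) * hkk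
      linear_combination h3 + hkk
  · simp only [rhoF, ← hk]
    have : k • (k • (k • (k • (k • P.u + P.v) + -P.u) + -(k • P.u + P.v)) + -(k • (k • P.u + P.v) + -P.u))
        + -(k • (k • (k • P.u + P.v) + -P.u) + -(k • P.u + P.v))
        = (k * (k * (k * k * k - k - k) - (k * k - 1)) - (k * k * k - k - k)) • P.u
          + (k * (k * (k * k - 1) - k) - (k * k - 1)) • P.v := by module
    rw [this]
    have h3 : k * k * k = 2 * k - 1 := by linear_combination (k - 1) * hkk
    have : P.u = (1 : ℝ) • P.u + (0 : ℝ) • P.v := by simp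
    conv_rhs => rw [this]
    apply e
    · rw [h3]; ring_nf
      linear_combination (-1 : ℝ) * h3 - hkk
    · ring_nf
      linear_combination (k - 2) * h3 + (2 * k - 3) * hkk
  · simp only [rhoF, ← hk]
    have : -(k • (k • (k • (k • P.u + P.v) + -P.u) + -(k • P.u + P.v)) + -(k • (k • P.u + P.v) + -P.u))
        = (-(k * (k * k * k - k - k) - (k * k - 1))) • P.u
          + (-(k * (k * k - 1) - k)) • P.v := by module
    rw [this]
    have h3 : k * k * k = 2 * k - 1 := by linear_combination (k - 1) * hkk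
    have : P.v = (0 : ℝ) • P.u + (1 : ℝ) • P.v := by simp
    conv_rhs => rw [this]
    apply e
    · rw [h3]; ring_nf
      linear_combination hkk
    · linear_combination (-1 : ℝ) * h3

/-- third edge direction at the vertex `o`, on the side `s` -/
noncomputable def Fr.R (P : Fr) (s : Bool) : V :=
  P.lin (-(s5 / 5)) (-(s5 / 5)) (2 * sg s * (s5 / 5))

/-- the next corner at the same vertex, across the edge `o, o+u`, is `rhoF Q` where `Q` is the
frame of the neighbour along this edge -/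
theorem tau_next (s : Bool) (P : Fr) : (rhoF (tauF s P)).u = P.R s := by
  simp only [rhoF, tauF, Fr.R, Fr.lin]
  have l1 : ((s5 - 1) / 2) • -P.u + (((3 * s5 - 5) / 10) • P.u + (-(s5 / 5)) • P.v
      + (2 * sg s * (s5 / 5)) • P.w) = (-((s5 - 1) / 2) + (3 * s5 - 5) / 10) • P.u
      + (-(s5 / 5)) • P.v + (2 * sg s * (s5 / 5)) • P.w := by module
  rw [l1]
  congr 3
  ring

theorem tau_iff (s : Bool) (P Q : Fr) (ho : Q.o = P.o + P.u) (hu : Q.u = -P.u) :
    Q = tauF s P ↔ (rhoF Q).u = P.R s := by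
  constructor
  · intro h
    rw [h, tau_next]
  · intro h
    have h1 : (rhoF Q).u = ((s5 - 1) / 2) • Q.u + Q.v := rfl
    have h2 : (rhoF (tauF s P)).u = ((s5 - 1) / 2) • (tauF s P).u + (tauF s P).v := rfl
    rw [← tau_next, h1, h2, hu] at h
    have h3 : (tauF s P).u = - P.u := rfl
    rw [h3] at h
    ext1
    · exact ho
    · exact hu
    · exact add_left_cancel h

theorem R_dot_R (P : Fr) : P.R true ⬝ᵥ P.R false = -(s5 / 5) := by
  unfold Fr.R
  rw [P.lin_dot, one_sub_cc_sq]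
  unfold cc sg
  have h1 := s5_sq
  simp only [if_true, if_false, Bool.false_eq_true]
  linear_combination (-1 / 50 - s5 / 50 + (1 / 50 - s5 / 50)) * h1

theorem R_dot_R' (P : Fr) (s : Bool) : P.R s ⬝ᵥ P.R (!s) = -(s5 / 5) := by
  cases s
  · rw [dot_comm']; exact R_dot_R P
  · exact R_dot_R P

theorem R_dot_self (P : Fr) (s : Bool) : P.R s ⬝ᵥ P.R s = 1 := by
  unfold Fr.R
  rw [P.lin_dot, one_sub_cc_sq]
  unfold cc
  have h1 := s5_sq
  have h2 := sg_sq s
  linear_combination ((2 * (s5 / 5)) * (2 * (s5 / 5)) * ((5 + s5) / 8)) * h2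
    + (1 / 5 : ℝ) * h1

theorem R_ne (P : Fr) {s s' : Bool} (h : s ≠ s') : P.R s ≠ P.R s' := by
  have hs : s' = !s := by cases s <;> cases s' <;> simp_all
  subst hs
  intro h1
  have h2 := R_dot_R' P s
  rw [← h1, R_dot_self] at h2
  have := s5_pos
  linarith

theorem R_dot_R_ne (P : Fr) {s s' : Bool} (h : s ≠ s') : P.R s ⬝ᵥ P.R s' ≠ cc := by
  have hs : s' = !s := by cases s <;> cases s' <;> simp_all
  subst hs
  rw [R_dot_R']
  unfold cc
  have := s5_lt
  have := s5_gt
  intro h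
  linarith

/-- the third direction is one of two -/
theorem R_unique (P : Fr) (x : V) (h1 : x ⬝ᵥ x = 1) (hu : x ⬝ᵥ P.u = cc) (hv : x ⬝ᵥ P.v = cc) :
    x = P.R true ∨ x = P.R false := by
  have hp := one_sub_cc_sq_pos
  have h5 := s5_sq
  set g := (x ⬝ᵥ P.w) / (1 - cc * cc) with hg
  set y := x - P.lin (-(s5 / 5)) (-(s5 / 5)) g with hy
  have e1 : y ⬝ᵥ P.u = 0 := by
    rw [hy, sub_dotProduct, hu]
    conv_lhs => rw [P.lin_u]
    rw [P.lin_dot]
    unfold cc
    linear_combination (-1 / 20 : ℝ) * h5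
  have e2 : y ⬝ᵥ P.v = 0 := by
    rw [hy, sub_dotProduct, hv]
    conv_lhs => rw [P.lin_v]
    rw [P.lin_dot]
    unfold cc
    linear_combination (-1 / 20 : ℝ) * h5
  have e3 : y ⬝ᵥ P.w = 0 := by
    rw [hy, sub_dotProduct]
    have : P.lin (-(s5 / 5)) (-(s5 / 5)) g ⬝ᵥ P.w = g * (1 - cc * cc) := by
      conv_lhs => rw [P.lin_w]
      rw [P.lin_dot]; ring
    rw [this, hg, div_mul_cancel₀ _ hp.ne']
    ring
  have e4 : y ⨯₃ P.w = 0 := by
    have : y ⨯₃ P.w = (y ⬝ᵥ P.v) • P.u - (y ⬝ᵥ P.u) • P.v := by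
      unfold Fr.w
      ext i
      fin_cases i <;>
        simp [crossProduct, dotProduct, Fin.sum_univ_three] <;> ring
    rw [this, e1, e2]; simp
  have e5 : (y ⬝ᵥ y) * (P.w ⬝ᵥ P.w) = 0 := by
    have := cross_dot_self y P.w
    rw [e4, e3] at this
    simp only [zero_dotProduct, mul_zero, sub_zero] at this
    exact this.symm
  have e6 : y = 0 := by
    rw [P.hww] at e5
    rcases mul_eq_zero.mp e5 with h | h
    · exact dotProduct_self_eq_zero.mp h
    · exact absurd h hp.ne'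
  have e7 : x = P.lin (-(s5 / 5)) (-(s5 / 5)) g := by
    rw [hy] at e6
    exact sub_eq_zero.mp e6
  rw [e7, P.lin_dot, one_sub_cc_sq] at h1
  unfold cc at h1
  have e8 : (g - 2 * (s5 / 5)) * (g + 2 * (s5 / 5)) = 0 := by
    have e9 : (5 + s5) * ((g - 2 * (s5 / 5)) * (g + 2 * (s5 / 5))) = 0 := by
      linear_combination 8 * h1 + (-8/5 + 0 * s5) * h5
    rcases mul_eq_zero.mp e9 with h | h
    · have := s5_pos; linarith
    · exact h
  rcases mul_eq_zero.mp e8 with h | h
  · left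
    have : g = 2 * (s5 / 5) := by linarith
    rw [e7, this]
    simp [Fr.R, sg]
  · right
    have : g = 2 * (-1) * (s5 / 5) := by linarith
    rw [e7, this]
    simp [Fr.R, sg]

/-- if `P'` is the next corner and `P'.u = P.R s` then `P'.R s = P.v` -/
theorem R_tri (P P' : Fr) (s : Bool) (hv : P'.v = P.u) (hu : P'.u = P.R s) : P'.R s = P.v := by
  have hw : P'.w = P.lin (-(2 * sg s * (s5 / 5)) * cc) (2 * sg s * (s5 / 5)) (s5 / 5) := by
    unfold Fr.w
    rw [hv, hu]
    have : P.u ⨯₃ P.v = P.w := rfl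
    unfold Fr.R
    conv_lhs => rw [P.lin_u]
    rw [P.lin_cross]
    congr 1 <;> ring
  have h : P'.R s = (-(s5 / 5)) • P'.u + (-(s5 / 5)) • P'.v + (2 * sg s * (s5 / 5)) • P'.w := rfl
  rw [h, hw, hv, hu]
  unfold Fr.R
  have e3 : (-(s5 / 5)) • P.lin (-(s5 / 5)) (-(s5 / 5)) (2 * sg s * (s5 / 5))
      + (-(s5 / 5)) • P.u + (2 * sg s * (s5 / 5)) •
        P.lin (-(2 * sg s * (s5 / 5)) * cc) (2 * sg s * (s5 / 5)) (s5 / 5)
      = P.lin ((s5 / 5) * (s5 / 5) - (s5 / 5)
          - (2 * sg s * (s5 / 5)) * ((2 * sg s * (s5 / 5)) * cc))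
        ((s5 / 5) * (s5 / 5) + (2 * sg s * (s5 / 5)) * (2 * sg s * (s5 / 5))) 0 := by
    unfold Fr.lin
    module
  rw [e3, P.lin_v]
  have h1 := s5_sq
  have h2 := sg_sq s
  congr 1
  · unfold cc
    linear_combination (- ((2 * (s5 / 5)) * (2 * (s5 / 5)) * ((1 - s5) / 4))) * h2
      + (0 + s5 / 25) * h1
  · linear_combination ((2 * (s5 / 5)) * (2 * (s5 / 5))) * h2 + (1 / 5 : ℝ) * h1

end Pool.Agent.Helper275.Pent
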