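import Pool.Agent.Helper275.Pent.Geo

set_option autoImplicit false

/-!
More relations between the operations on frames.
-/

namespace Pool.Agent.Helper275.Pent

open scoped Matrix

/-- golden ratio minus one -/
noncomputable def kk : ℝ := (s5 - 1) / 2

theorem lin_ext (P : Fr) {a b c a' b' c' : ℝ} (h1 : a = a') (h2 : b = b') (h3 : c = c') :
    a • P.u + b • P.v + c • P.w = a' • P.u + b' • P.v + c' • P.w := by
  rw [h1, h2, h3]

/-- turning the facet around its edge across the solid angle -/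
noncomputable def Dd (s : Bool) (P : Fr) : Fr where
  o := P.o
  u := P.u
  v := P.R s
  hu := P.hu
  hv := R_dot_self P s
  huv := by
    unfold Fr.R
    conv_lhs => rw [P.lin_u]
    rw [P.lin_dot]
    have h1 := s5_sq
    unfold cc
    linear_combination (1 / 20 : ℝ) * h1

theorem tau_v (s : Bool) (P : Fr) : (tauF s P).v = P.R s + kk • P.u := by
  simp only [tauF, Fr.R, Fr.lin, kk]
  have l2 : (-(s5 / 5)) • P.u + (-(s5 / 5)) • P.v + (2 * sg s * (s5 / 5)) • P.w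
      + ((s5 - 1) / 2) • P.u = (-(s5 / 5) + (s5 - 1) / 2) • P.u + (-(s5 / 5)) • P.v
      + (2 * sg s * (s5 / 5)) • P.w := by module
  rw [l2]
  apply lin_ext <;> ring

theorem rho_u (P : Fr) : (rhoF P).u = kk • P.u + P.v := rfl

theorem kap_tau_eq (s : Bool) (P : Fr) : kapF (tauF s P) = Dd s P := by
  ext1
  · simp [kapF, tauF, Dd]
  · simp [kapF, tauF, Dd]
  · have : (kapF (tauF s P)).v = kk • (tauF s P).u + (tauF s P).v := rfl
    rw [this, tau_v]
    have h2 : (tauF s P).u = - P.u := rfl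
    rw [h2]
    simp only [Dd]
    module

theorem R_not (P : Fr) (s : Bool) : P.R (!s) = (-(2 * (s5 / 5))) • (P.u + P.v) - P.R s := by
  unfold Fr.R Fr.lin
  rw [sg_not]
  module

theorem w_Dd (s : Bool) (P : Fr) : (Dd s P).w = P.lin (2 * sg s * (s5 / 5) * cc)
    (-(2 * sg s * (s5 / 5))) (-(s5 / 5)) := by
  have h : (Dd s P).w = P.lin 1 0 0 ⨯₃ P.lin (-(s5 / 5)) (-(s5 / 5)) (2 * sg s * (s5 / 5)) := by
    unfold Fr.w Dd
    congr 2
    simp [Fr.lin]
  rw [h, P.lin_cross]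
  congr 1 <;> ring

theorem Dd_Dd (s : Bool) (P : Fr) : Dd (!s) (Dd s P) = P := by
  rw [← kap_tau_eq, ← kap_tau_eq, kap_tau (!s), kapF_kapF, Bool.not_not, tauF_tauF] 

theorem Dd_Dd' (s : Bool) (P : Fr) : Dd s (Dd (!s) P) = P := by
  have := Dd_Dd (!s) P
  rwa [Bool.not_not] at this

/-- swapping the two edges of a corner -/
noncomputable def Kf (P : Fr) : Fr where
  o := P.o
  u := P.v
  v := P.u
  hu := P.hv
  hv := P.hu
  huv := P.hvu

theorem Kf_Kf (P : Fr) : Kf (Kf P) = P := by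
  ext1 <;> rfl

theorem rho_kap (P : Fr) : rhoF (kapF P) = Kf P := by
  ext1
  · simp [rhoF, kapF, Kf]
  · simp only [rhoF, kapF, Kf]; module
  · simp [rhoF, kapF, Kf]

theorem R_rho (s : Bool) (P : Fr) : (rhoF P).R s = P.R s + kk • P.u := by
  have h : (rhoF P).R s = (-(s5 / 5)) • (rhoF P).u + (-(s5 / 5)) • (rhoF P).v
    + (2 * sg s * (s5 / 5)) • (rhoF P).w := rfl
  rw [h, w_rho]
  simp only [rhoF, Fr.R, Fr.lin, kk]
  have h1 := s5_sq
  have l1 : (-(s5 / 5)) • (((s5 - 1) / 2) • P.u + P.v) + (-(s5 / 5)) • -P.u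
      + (2 * sg s * (s5 / 5)) • P.w = (-(s5 / 5) * ((s5 - 1) / 2) + s5 / 5) • P.u
      + (-(s5 / 5)) • P.v + (2 * sg s * (s5 / 5)) • P.w := by module
  have l2 : (-(s5 / 5)) • P.u + (-(s5 / 5)) • P.v + (2 * sg s * (s5 / 5)) • P.w
      + ((s5 - 1) / 2) • P.u = (-(s5 / 5) + (s5 - 1) / 2) • P.u + (-(s5 / 5)) • P.v
      + (2 * sg s * (s5 / 5)) • P.w := by module
  rw [l1, l2]
  apply lin_ext
  · linear_combination (-1 / 10 : ℝ) * h1
  · rfl
  · rfl

theorem R_kap (s : Bool) (P : Fr) : (kapF P).R (!s) = P.R s + kk • P.u := by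
  have h : (kapF P).R (!s) = (-(s5 / 5)) • (kapF P).u + (-(s5 / 5)) • (kapF P).v
    + (2 * sg (!s) * (s5 / 5)) • (kapF P).w := rfl
  rw [h, w_kap, sg_not]
  simp only [kapF, Fr.R, Fr.lin, kk]
  have h1 := s5_sq
  have l1 : (-(s5 / 5)) • -P.u + (-(s5 / 5)) • (((s5 - 1) / 2) • P.u + P.v)
      + (2 * -sg s * (s5 / 5)) • -P.w = (s5 / 5 - (s5 / 5) * ((s5 - 1) / 2)) • P.u
      + (-(s5 / 5)) • P.v + (2 * sg s * (s5 / 5)) • P.w := by module
  have l2 : (-(s5 / 5)) • P.u + (-(s5 / 5)) • P.v + (2 * sg s * (s5 / 5)) • P.w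
      + ((s5 - 1) / 2) • P.u = (-(s5 / 5) + (s5 - 1) / 2) • P.u + (-(s5 / 5)) • P.v
      + (2 * sg s * (s5 / 5)) • P.w := by module
  rw [l1, l2]
  apply lin_ext
  · linear_combination (-1 / 10 : ℝ) * h1
  · rfl
  · rfl

theorem R_tau (s : Bool) (P : Fr) : (tauF s P).R s = kk • P.u + P.v := by
  have h : (tauF s P).R s = (-(s5 / 5)) • (tauF s P).u + (-(s5 / 5)) • (tauF s P).v
    + (2 * sg s * (s5 / 5)) • (tauF s P).w := rfl
  rw [h, w_tau]
  have h1 := s5_sq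
  have h2 := sg_sq s
  simp only [tauF, Fr.lin, kk]
  have e3 : ∀ k : ℝ, (-k) • -P.u + (-k) • (((3 * s5 - 5) / 10) • P.u + (-k) • P.v
      + (2 * sg s * k) • P.w) + (2 * sg s * k) • ((-(2 * sg s * k) * cc) • P.u
        + (2 * sg s * k) • P.v + k • P.w)
      = (k - k * ((3 * s5 - 5) / 10) - (2 * sg s * k) * (2 * sg s * k) * cc) • P.u
        + (k * k + (2 * sg s * k) * (2 * sg s * k)) • P.v + (0 : ℝ) • P.w := by
    intro k
    module
  have e4 : ((s5 - 1) / 2) • P.u + P.v = ((s5 - 1) / 2) • P.u + (1 : ℝ) • P.v + (0 : ℝ) • P.w := by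
    module
  rw [e3, e4]
  apply lin_ext
  · unfold cc
    linear_combination (- ((2 * (s5 / 5)) * (2 * (s5 / 5)) * ((1 - s5) / 4))) * h2
      + (- 1 / 10 + s5 / 25) * h1
  · linear_combination ((2 * (s5 / 5)) * (2 * (s5 / 5))) * h2 + (1 / 5 : ℝ) * h1
  · rfl

/-- the three facets at a vertex close up -/
theorem rho_tau_cube (s : Bool) (P : Fr) :
    rhoF (tauF s (rhoF (tauF s (rhoF (tauF s P))))) = P := by
  have hv : ∀ Q : Fr, (rhoF (tauF s Q)).v = Q.u := by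
    intro Q; simp [rhoF, tauF]
  have ho : ∀ Q : Fr, (rhoF (tauF s Q)).o = Q.o := by
    intro Q; simp [rhoF, tauF]
  have hu : ∀ Q : Fr, (rhoF (tauF s Q)).u = Q.R s := fun Q => tau_next s Q
  have hR : ∀ Q : Fr, (rhoF (tauF s Q)).R s = Q.v := by
    intro Q
    exact R_tri Q _ s (hv Q) (hu Q)
  ext1
  · rw [ho, ho, ho]
  · rw [hu, hR, hv]
  · rw [hv, hu, hR]

theorem w_tau_ne (s : Bool) (P : Fr) : (tauF s P).w ≠ P.w := by
  rw [w_tau, P.lin_w]
  intro h
  have := P.lin_inj h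
  have h1 := this.2.2
  have h2 := s5_lt
  linarith

end Pool.Agent.Helper275.Pent
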