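import Pool.Agent.Helper275.Pent.Geo2

set_option autoImplicit false

namespace Pool.Agent.Helper275.Pent

noncomputable section


/-- an element of `ℤ[φ, i]`, with `φ = (1+√5)/2` -/
def oel (a b c d : ℤ) : ℂ :=
  (((a : ℝ) + (b : ℝ) * ((1 + s5) / 2) : ℝ) : ℂ) +
    (((c : ℝ) + (d : ℝ) * ((1 + s5) / 2) : ℝ) : ℂ) * Complex.I

/-- `t` lies in the ring `A = ℤ[φ, i, 1/(2+i)]` and its residue (φ ↦ 3, i ↦ 2) is `r` -/
def InA (t : ℂ) (r : ZMod 5) : Prop :=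
  ∃ (j : ℕ) (a b c d : ℤ), (2 + Complex.I) ^ j * t = oel a b c d ∧
    (-1 : ZMod 5) ^ j * ((a + 3 * b + 2 * c + d : ℤ) : ZMod 5) = r

theorem InA_s5_sq : s5 * s5 = 5 := Real.mul_self_sqrt (by norm_num)

theorem InA_s5_sqC : ((s5 : ℝ) : ℂ) * ((s5 : ℝ) : ℂ) = 5 := by
  rw [← Complex.ofReal_mul, InA_s5_sq]; norm_num

theorem InA_s5_irr : Irrational s5 := by
  have h : Nat.Prime 5 := by norm_num
  have := h.irrational_sqrt
  simpa [s5] using this

theorem InA_re (a b a' b' : ℤ)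
    (h : (a : ℝ) + (b : ℝ) * ((1 + s5) / 2) = (a' : ℝ) + (b' : ℝ) * ((1 + s5) / 2)) :
    a = a' ∧ b = b' := by
  by_cases hb : b = b'
  · subst hb
    refine ⟨?_, rfl⟩
    have : (a : ℝ) = a' := by linarith
    exact_mod_cast this
  · exfalso
    have hb' : ((b - b' : ℤ) : ℝ) ≠ 0 := by
      have : b - b' ≠ 0 := sub_ne_zero.2 hb
      exact_mod_cast this
    have hs : s5 = ((((2 * (a' - a) - (b - b') : ℤ) : ℚ) / ((b - b' : ℤ) : ℚ) : ℚ) : ℝ) := by
      push_cast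
      push_cast at hb'
      rw [eq_div_iff hb']
      linarith
    exact InA_s5_irr ⟨_, hs.symm⟩

theorem InA_oel_inj {a b c d a' b' c' d' : ℤ} (h : oel a b c d = oel a' b' c' d') :
    a = a' ∧ b = b' ∧ c = c' ∧ d = d' := by
  unfold oel at h
  have h1 := congrArg Complex.re h
  have h2 := congrArg Complex.im h
  simp only [Complex.add_re, Complex.ofReal_re, Complex.mul_re, Complex.I_re, mul_zero,
    Complex.ofReal_im, Complex.I_im, add_zero,
    Complex.add_im, Complex.mul_im, mul_one, zero_add, sub_self] at h1 h2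
  obtain ⟨r1, r2⟩ := InA_re _ _ _ _ h1
  obtain ⟨r3, r4⟩ := InA_re _ _ _ _ h2
  exact ⟨r1, r2, r3, r4⟩

theorem InA_step (a b c d : ℤ) :
    (2 + Complex.I) * oel a b c d = oel (2 * a - c) (2 * b - d) (a + 2 * c) (b + 2 * d) := by
  unfold oel
  push_cast
  linear_combination
    ((c : ℂ) + (d : ℂ) * ((1 + (s5 : ℂ)) / 2)) * Complex.I_mul_I

theorem InA_pow (k : ℕ) (a b c d : ℤ) : ∃ a' b' c' d' : ℤ,
    (2 + Complex.I) ^ k * oel a b c d = oel a' b' c' d' ∧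
    ((a' + 3 * b' + 2 * c' + d' : ℤ) : ZMod 5) =
      (-1) ^ k * ((a + 3 * b + 2 * c + d : ℤ) : ZMod 5) := by
  induction k generalizing a b c d with
  | zero => exact ⟨a, b, c, d, by simp, by simp⟩
  | succ k ih =>
    obtain ⟨a', b', c', d', h1, h2⟩ := ih (2 * a - c) (2 * b - d) (a + 2 * c) (b + 2 * d)
    refine ⟨a', b', c', d', ?_, ?_⟩
    · rw [pow_succ, mul_assoc, InA_step, h1]
    · rw [h2, pow_succ, mul_assoc]
      congr 1
      have : (5 : ZMod 5) = 0 := by decide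
      push_cast
      linear_combination ((a : ZMod 5) + 2 * b + c) * this

theorem InA_raise {t : ℂ} {r : ZMod 5} {j : ℕ} {a b c d : ℤ}
    (h : (2 + Complex.I) ^ j * t = oel a b c d)
    (hr : (-1 : ZMod 5) ^ j * ((a + 3 * b + 2 * c + d : ℤ) : ZMod 5) = r) (k : ℕ) :
    ∃ a' b' c' d' : ℤ, (2 + Complex.I) ^ (j + k) * t = oel a' b' c' d' ∧
      (-1 : ZMod 5) ^ (j + k) * ((a' + 3 * b' + 2 * c' + d' : ℤ) : ZMod 5) = r := by
  obtain ⟨a', b', c', d', h1, h2⟩ := InA_pow k a b c d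
  refine ⟨a', b', c', d', ?_, ?_⟩
  · rw [← h1, ← h]; ring
  · rw [h2, ← hr, pow_add]
    have : (-1 : ZMod 5) ^ k * (-1) ^ k = 1 := by
      rw [← mul_pow]; simp
    linear_combination ((-1 : ZMod 5) ^ j * ((a + 3 * b + 2 * c + d : ℤ) : ZMod 5)) * this

theorem InA_common {t t' : ℂ} {r r' : ZMod 5} (h : InA t r) (h' : InA t' r') :
    ∃ (j : ℕ) (a b c d a' b' c' d' : ℤ),
      ((2 + Complex.I) ^ j * t = oel a b c d ∧
        (-1 : ZMod 5) ^ j * ((a + 3 * b + 2 * c + d : ℤ) : ZMod 5) = r) ∧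
      ((2 + Complex.I) ^ j * t' = oel a' b' c' d' ∧
        (-1 : ZMod 5) ^ j * ((a' + 3 * b' + 2 * c' + d' : ℤ) : ZMod 5) = r') := by
  obtain ⟨j, a, b, c, d, h1, h2⟩ := h
  obtain ⟨j', a', b', c', d', h1', h2'⟩ := h'
  obtain ⟨a1, b1, c1, d1, g1, g2⟩ := InA_raise h1 h2 j'
  obtain ⟨a2, b2, c2, d2, g1', g2'⟩ := InA_raise h1' h2' j
  rw [add_comm j' j] at g1' g2'
  exact ⟨j + j', a1, b1, c1, d1, a2, b2, c2, d2, ⟨g1, g2⟩, ⟨g1', g2'⟩⟩

theorem InA_unique {t : ℂ} {r r' : ZMod 5} (h : InA t r) (h' : InA t r') : r = r' := by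
  obtain ⟨j, a, b, c, d, a', b', c', d', ⟨h1, h2⟩, ⟨h3, h4⟩⟩ := InA_common h h'
  obtain ⟨r1, r2, r3, r4⟩ := InA_oel_inj (h1.symm.trans h3)
  subst r1 r2 r3 r4
  exact h2.symm.trans h4

theorem InA_add {t t' : ℂ} {r r' : ZMod 5} (h : InA t r) (h' : InA t' r') :
    InA (t + t') (r + r') := by
  obtain ⟨j, a, b, c, d, a', b', c', d', ⟨h1, h2⟩, ⟨h3, h4⟩⟩ := InA_common h h'
  refine ⟨j, a + a', b + b', c + c', d + d', ?_, ?_⟩
  · rw [mul_add, h1, h3]
    unfold oel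
    push_cast
    ring
  · rw [← h2, ← h4]
    push_cast
    ring

theorem InA_mul_oel (a b c d a' b' c' d' : ℤ) :
    oel a b c d * oel a' b' c' d' =
      oel (a * a' + b * b' - (c * c' + d * d'))
        (a * b' + b * a' + b * b' - (c * d' + d * c' + d * d'))
        (a * c' + b * d' + (c * a' + d * b'))
        (a * d' + b * c' + b * d' + (c * b' + d * a' + d * b')) := by
  unfold oel
  push_cast
  have h5 := InA_s5_sqC
  have hI := Complex.I_mul_I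
  linear_combination ((b : ℂ) * b' / 4 + (b : ℂ) * d' / 4 * Complex.I
      + (d : ℂ) * b' / 4 * Complex.I - (d : ℂ) * d' / 4) * h5
    + (((c : ℂ) + (d : ℂ) * ((1 + (s5 : ℂ)) / 2)) *
      ((c' : ℂ) + (d' : ℂ) * ((1 + (s5 : ℂ)) / 2))) * hI

theorem InA_mul {t t' : ℂ} {r r' : ZMod 5} (h : InA t r) (h' : InA t' r') :
    InA (t * t') (r * r') := by
  obtain ⟨j, a, b, c, d, h1, h2⟩ := h
  obtain ⟨j', a', b', c', d', h3, h4⟩ := h'
  refine ⟨j + j', a * a' + b * b' - (c * c' + d * d'),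
    a * b' + b * a' + b * b' - (c * d' + d * c' + d * d'),
    a * c' + b * d' + (c * a' + d * b'),
    a * d' + b * c' + b * d' + (c * b' + d * a' + d * b'), ?_, ?_⟩
  · have : (2 + Complex.I) ^ (j + j') * (t * t') =
        ((2 + Complex.I) ^ j * t) * ((2 + Complex.I) ^ j' * t') := by ring
    rw [this, h1, h3, InA_mul_oel]
  · rw [← h2, ← h4, pow_add]
    have : (5 : ZMod 5) = 0 := by decide
    push_cast
    linear_combination ((-1 : ZMod 5) ^ j * (-1) ^ j' *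
      (-((b : ZMod 5) * b' + b * c' + c * b' + c * c' + c * d' + d * c' + d * d'))) * this

theorem InA_int (n : ℤ) : InA (n : ℂ) (n : ZMod 5) := by
  refine ⟨0, n, 0, 0, 0, ?_, ?_⟩
  · unfold oel; push_cast; ring
  · push_cast; ring

theorem InA_phi : InA ((((1 + s5) / 2 : ℝ)) : ℂ) 3 := by
  refine ⟨0, 0, 1, 0, 0, ?_, ?_⟩
  · unfold oel; push_cast; ring
  · push_cast; ring

theorem InA_I : InA Complex.I 2 := by
  refine ⟨0, 0, 0, 1, 0, ?_, ?_⟩
  · unfold oel; push_cast; ring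
  · push_cast; ring

theorem InA_s5 : InA ((s5 : ℝ) : ℂ) 0 := by
  refine ⟨0, -1, 2, 0, 0, ?_, ?_⟩
  · unfold oel; push_cast; ring
  · push_cast
    have : (5 : ZMod 5) = 0 := by decide
    linear_combination this

theorem InA_divaux (X Y : ℤ) (h : (5 : ℤ) ∣ X + 3 * Y) : ∃ p q : ℤ,
    ((X : ℂ) + (Y : ℂ) * ((1 + (s5 : ℂ)) / 2)) =
      (s5 : ℂ) * ((p : ℂ) + (q : ℂ) * ((1 + (s5 : ℂ)) / 2)) := by
  obtain ⟨k, hk⟩ := h
  refine ⟨Y - k, 2 * k - Y, ?_⟩
  have hX : X = 5 * k - 3 * Y := by linarith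
  subst hX
  have h5 := InA_s5_sqC
  push_cast
  linear_combination (-(2 * (k : ℂ) - Y) / 2) * h5

/-- elements of residue 0 are divisible by `√5` in `A` -/
theorem InA_div {t : ℂ} (h : InA t 0) : ∃ r, InA (t / (s5 : ℝ)) r := by
  obtain ⟨j, a, b, c, d, h1, h2⟩ := h
  have h0 : ((a + 3 * b + 2 * c + d : ℤ) : ZMod 5) = 0 := by
    have : (-1 : ZMod 5) ^ j * (-1) ^ j = 1 := by
      rw [← mul_pow]; simp
    calc ((a + 3 * b + 2 * c + d : ℤ) : ZMod 5)
        = ((-1 : ZMod 5) ^ j * (-1) ^ j) * ((a + 3 * b + 2 * c + d : ℤ) : ZMod 5) := by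
          rw [this, one_mul]
      _ = 0 := by rw [mul_assoc, h2, mul_zero]
  have h0' : (5 : ℤ) ∣ a + 3 * b + 2 * c + d := (ZMod.intCast_zmod_eq_zero_iff_dvd _ 5).1 h0
  obtain ⟨p, q, hpq⟩ := InA_divaux (2 * a - c) (2 * b - d) (by omega)
  obtain ⟨p', q', hpq'⟩ := InA_divaux (a + 2 * c) (b + 2 * d) (by omega)
  have hs : ((s5 : ℝ) : ℂ) ≠ 0 := by
    intro h
    have := InA_s5_sqC
    rw [h] at this
    norm_num at this
  refine ⟨_, j + 1, p, q, p', q', ?_, rfl⟩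
  have e1 : (2 + Complex.I) ^ (j + 1) * (t / (s5 : ℝ)) =
      ((2 + Complex.I) * ((2 + Complex.I) ^ j * t)) / (s5 : ℝ) := by ring
  rw [e1, h1, InA_step, div_eq_iff hs]
  unfold oel
  push_cast
  push_cast at hpq hpq'
  linear_combination hpq + Complex.I * hpq'

end

end Pool.Agent.Helper275.Pent
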