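import Pool.Agent.Helper275.Pent.InA

set_option autoImplicit false



namespace Pool.Agent.Helper275.Pent

open scoped Matrix

noncomputable section

/-- complex functional adapted to a frame: `u ↦ 0`, `v ↦ 1`, `w ↦ i` -/
def mu (P : Fr) (x : V) : ℂ :=
  (((x ⬝ᵥ (P.v - cc • P.u)) / (1 - cc * cc) : ℝ) : ℂ) +
    (((x ⬝ᵥ P.w) / (1 - cc * cc) : ℝ) : ℂ) * Complex.I

theorem mu_add (P : Fr) (x y : V) : mu P (x + y) = mu P x + mu P y := by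
  unfold mu
  simp only [add_dotProduct, add_div]
  push_cast
  ring

theorem mu_smul (P : Fr) (a : ℝ) (x : V) : mu P (a • x) = (a : ℂ) * mu P x := by
  unfold mu
  simp only [smul_dotProduct, smul_eq_mul, mul_div_assoc]
  push_cast
  ring

theorem mu_neg (P : Fr) (x : V) : mu P (-x) = - mu P x := by
  have := mu_smul P (-1) x
  simpa using this

theorem mu_sub (P : Fr) (x y : V) : mu P (x - y) = mu P x - mu P y := by
  rw [sub_eq_add_neg, mu_add, mu_neg]; ring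

theorem dot_expand_gen (u v x y : V) :
    ((u ⨯₃ v) ⬝ᵥ (u ⨯₃ v)) * (x ⬝ᵥ y) =
      (v ⬝ᵥ v) * ((x ⬝ᵥ u) * (y ⬝ᵥ u)) + (u ⬝ᵥ u) * ((x ⬝ᵥ v) * (y ⬝ᵥ v))
        - (u ⬝ᵥ v) * ((x ⬝ᵥ u) * (y ⬝ᵥ v) + (x ⬝ᵥ v) * (y ⬝ᵥ u))
        + (x ⬝ᵥ (u ⨯₃ v)) * (y ⬝ᵥ (u ⨯₃ v)) := by
  simp only [cross_apply, dotProduct, Fin.sum_univ_three, Matrix.cons_val_zero, Matrix.cons_val_one,
    Matrix.cons_val]
  ring

theorem dot_expand (Q : Fr) (x y : V) :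
    (1 - cc * cc) * (x ⬝ᵥ y) =
      (x ⬝ᵥ Q.u) * (y ⬝ᵥ Q.u) + (x ⬝ᵥ Q.v) * (y ⬝ᵥ Q.v)
        - cc * ((x ⬝ᵥ Q.u) * (y ⬝ᵥ Q.v) + (x ⬝ᵥ Q.v) * (y ⬝ᵥ Q.u))
        + (x ⬝ᵥ Q.w) * (y ⬝ᵥ Q.w) := by
  have h := dot_expand_gen Q.u Q.v x y
  have hw : (Q.u ⨯₃ Q.v) = Q.w := rfl
  rw [hw, Q.hww, Q.hu, Q.hv, Q.huv, one_mul, one_mul] at h
  exact h

theorem mu_iso_aux (P Q : Fr) :
    mu P Q.u ^ 2 + mu P Q.v ^ 2 - 2 * (cc : ℂ) * (mu P Q.u * mu P Q.v) + mu P Q.w ^ 2 = 0 := by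
  have hK : (1 - cc * cc : ℝ) ≠ 0 := one_sub_cc_sq_pos.ne'
  have hK' : (((1 - cc * cc : ℝ)) : ℂ) ≠ 0 := by exact_mod_cast hK
  obtain ⟨X, hX⟩ : ∃ X : V, X = P.v - cc • P.u := ⟨_, rfl⟩
  obtain ⟨Y, hY⟩ : ∃ Y : V, Y = P.w := ⟨_, rfl⟩
  have hXX : X ⬝ᵥ X = 1 - cc * cc := by
    rw [hX]
    simp only [sub_dotProduct, dotProduct_sub, smul_dotProduct, dotProduct_smul, smul_eq_mul,
      P.hu, P.hv, P.huv, P.hvu]
    ring
  have hYY : Y ⬝ᵥ Y = 1 - cc * cc := by rw [hY, P.hww]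
  have hXY : X ⬝ᵥ Y = 0 := by
    rw [hX, hY]
    simp only [sub_dotProduct, smul_dotProduct, smul_eq_mul, P.hvw, P.huw]
    ring
  have h1 := dot_expand Q X X
  have h2 := dot_expand Q Y Y
  have h3 := dot_expand Q X Y
  rw [hXX] at h1
  rw [hYY] at h2
  rw [hXY] at h3
  have hmu : ∀ z : V, mu P z = ((((X ⬝ᵥ z : ℝ)) : ℂ) + ((Y ⬝ᵥ z : ℝ) : ℂ) * Complex.I) /
      ((1 - cc * cc : ℝ) : ℂ) := by
    intro z
    unfold mu
    rw [← hX, ← hY, dot_comm' z X, dot_comm' z Y]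
    push_cast
    field_simp
  rw [hmu, hmu, hmu]
  have h1c := congrArg (fun t : ℝ => (t : ℂ)) h1
  have h2c := congrArg (fun t : ℝ => (t : ℂ)) h2
  have h3c := congrArg (fun t : ℝ => (t : ℂ)) h3
  push_cast at h1c h2c h3c
  have hI : Complex.I * Complex.I = -1 := Complex.I_mul_I
  have key : ((((X ⬝ᵥ Q.u : ℝ)) : ℂ) + ((Y ⬝ᵥ Q.u : ℝ) : ℂ) * Complex.I) ^ 2 +
      ((((X ⬝ᵥ Q.v : ℝ)) : ℂ) + ((Y ⬝ᵥ Q.v : ℝ) : ℂ) * Complex.I) ^ 2 -
      2 * (cc : ℂ) * (((((X ⬝ᵥ Q.u : ℝ)) : ℂ) + ((Y ⬝ᵥ Q.u : ℝ) : ℂ) * Complex.I) *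
        ((((X ⬝ᵥ Q.v : ℝ)) : ℂ) + ((Y ⬝ᵥ Q.v : ℝ) : ℂ) * Complex.I)) +
      ((((X ⬝ᵥ Q.w : ℝ)) : ℂ) + ((Y ⬝ᵥ Q.w : ℝ) : ℂ) * Complex.I) ^ 2 = 0 := by
    linear_combination (((Y ⬝ᵥ Q.u : ℝ) : ℂ) ^ 2 + ((Y ⬝ᵥ Q.v : ℝ) : ℂ) ^ 2 -
      2 * (cc : ℂ) * (((Y ⬝ᵥ Q.u : ℝ) : ℂ) * ((Y ⬝ᵥ Q.v : ℝ) : ℂ)) + ((Y ⬝ᵥ Q.w : ℝ) : ℂ) ^ 2) * hI
      - h1c + h2c - 2 * Complex.I * h3c
  have hdiv : ∀ a b c k : ℂ, k ≠ 0 → (a / k) ^ 2 + (b / k) ^ 2 - 2 * (cc : ℂ) * (a / k * (b / k)) +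
      (c / k) ^ 2 = (a ^ 2 + b ^ 2 - 2 * (cc : ℂ) * (a * b) + c ^ 2) / k ^ 2 := by
    intro a b c k hk
    field_simp
  rw [hdiv _ _ _ _ hK', key, zero_div]

/-- isotropy of the functional, in the coordinates of any frame -/
theorem mu_iso (P Q : Fr) (s : Bool) :
    2 * (mu P Q.u * mu P Q.v + mu P Q.v * mu P (Q.R s) + mu P (Q.R s) * mu P Q.u)
      + ((s5 : ℝ) : ℂ) * (mu P Q.u ^ 2 + mu P Q.v ^ 2 + mu P (Q.R s) ^ 2) = 0 := by
  have h0 := mu_iso_aux P Q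
  have hR : mu P (Q.R s) = -((s5 : ℂ) / 5) * mu P Q.u + -((s5 : ℂ) / 5) * mu P Q.v +
      (2 * (sg s : ℂ) * ((s5 : ℂ) / 5)) * mu P Q.w := by
    unfold Fr.R Fr.lin
    rw [mu_add, mu_add, mu_smul, mu_smul, mu_smul]
    push_cast
    ring
  have hp : (s5 : ℂ) * (s5 : ℂ) = 5 := by exact_mod_cast s5_sq
  have hσ : (sg s : ℂ) * (sg s : ℂ) = 1 := by exact_mod_cast sg_sq s
  have hcc : (cc : ℂ) = (1 - (s5 : ℂ)) / 4 := by
    unfold cc
    push_cast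
    ring
  rw [hcc] at h0
  rw [hR]
  generalize mu P Q.u = U at *
  generalize mu P Q.v = W at *
  generalize mu P Q.w = M at *
  generalize (s5 : ℂ) = p at *
  generalize (sg s : ℂ) = σ at *
  linear_combination (4 * p / 5) * h0 + (-(2 / 5) * (U * W) + (p / 25) * (U + W) ^ 2 -
    (4 * σ * p / 25) * (U + W) * M + (4 * σ ^ 2 * p / 25) * M ^ 2) * hp + (4 * p / 5) * M ^ 2 * hσ

/-- the state of the solid on the side `s` of the frame `Q` -/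
def St (P Q : Fr) (s : Bool) (k : ℤ) (a b c : ZMod 5) : Prop :=
  InA (((s5 : ℝ) : ℂ) ^ k * mu P Q.u) a ∧ InA (((s5 : ℝ) : ℂ) ^ k * mu P Q.v) b ∧
    InA (((s5 : ℝ) : ℂ) ^ k * mu P (Q.R s)) c ∧ ¬ (a = 0 ∧ b = 0 ∧ c = 0)

theorem sj_p2 : ((s5 : ℝ) : ℂ) * ((s5 : ℝ) : ℂ) = 5 := by
  rw [← Complex.ofReal_mul, s5_sq]
  norm_num

theorem sj_p0 : ((s5 : ℝ) : ℂ) ≠ 0 := by
  rw [Complex.ofReal_ne_zero]
  exact s5_pos.ne'

theorem sj_congr {t t' : ℂ} {r r' : ZMod 5} (h : InA t r) (h1 : t = t') (h2 : r = r') :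
    InA t' r' := by
  rw [← h1, ← h2]
  exact h

theorem sj_neg {t : ℂ} {r : ZMod 5} (h : InA t r) : InA (-t) (-r) := by
  have h1 := InA_mul (InA_int (-1)) h
  exact sj_congr h1 (by push_cast; ring) (by push_cast; ring)

theorem sj_kk : InA (((kk : ℝ)) : ℂ) 2 := by
  have h1 := InA_add InA_phi (InA_int (-1))
  refine sj_congr h1 ?_ ?_
  · unfold kk
    push_cast
    ring
  · push_cast
    ring

theorem sj_kkmul {x y : ℂ} {a b : ZMod 5} (hx : InA x a) (hy : InA y b) :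
    InA (((kk : ℝ) : ℂ) * x + y) (2 * a + b) := InA_add (InA_mul sj_kk hx) hy

theorem sj_mu_u (P : Fr) : mu P P.u = 0 := by
  unfold mu
  have h1 : P.u ⬝ᵥ (P.v - cc • P.u) = 0 := by
    rw [dotProduct_sub, dotProduct_smul, P.huv, P.hu, smul_eq_mul]
    ring
  rw [h1, P.huw]
  simp

theorem sj_mu_v (P : Fr) : mu P P.v = 1 := by
  unfold mu
  have h1 : P.v ⬝ᵥ (P.v - cc • P.u) = 1 - cc * cc := by
    rw [dotProduct_sub, dotProduct_smul, P.hv, P.hvu, smul_eq_mul]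
  rw [h1, P.hvw, div_self one_sub_cc_sq_pos.ne']
  simp

theorem sj_mu_w (P : Fr) : mu P P.w = Complex.I := by
  unfold mu
  have h1 : P.w ⬝ᵥ (P.v - cc • P.u) = 0 := by
    rw [dotProduct_sub, dotProduct_smul, P.hwv, P.hwu, smul_eq_mul]
    ring
  rw [h1, P.hww, div_self one_sub_cc_sq_pos.ne']
  simp

theorem sj_zmod2 {x : ZMod 5} (h : 2 * x = 0) : x = 0 := by
  revert h
  revert x
  decide

theorem sj_down {a b c : ZMod 5} (hc : c ≠ 0) (h : 2 * (b * c + c * a) + c * c = 0) :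
    a + b ≠ 0 ∧ -2 * (a + b) - c = 0 := by
  revert h hc
  revert a b c
  decide

theorem St_base (P : Fr) : St P P true 1 0 0 3 := by
  have hp2 := sj_p2
  refine ⟨?_, ?_, ?_, ?_⟩
  · rw [sj_mu_u, mul_zero]
    have := InA_int 0
    simpa using this
  · rw [sj_mu_v, mul_one, zpow_one]
    exact InA_s5
  · have h1 : mu P (P.R true) = -((s5 / 5 : ℝ) : ℂ) + 2 * ((s5 / 5 : ℝ) : ℂ) * Complex.I := by
      unfold Fr.R Fr.lin
      rw [mu_add, mu_add, mu_smul, mu_smul, mu_smul, sj_mu_u, sj_mu_v, sj_mu_w]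
      unfold sg
      push_cast
      simp
    have h2 := InA_add (InA_int (-1)) (InA_mul (InA_int 2) InA_I)
    refine sj_congr h2 ?_ ?_
    · rw [h1, zpow_one]
      push_cast
      linear_combination (1 / 5 - 2 / 5 * Complex.I) * hp2
    · decide
  · decide

theorem St_rho {P Q : Fr} {s : Bool} {k : ℤ} {a b c : ZMod 5} (h : St P Q s k a b c) :
    St P (rhoF Q) s k (2 * a + b) (-a) (c + 2 * a) := by
  obtain ⟨h1, h2, h3, h4⟩ := h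
  refine ⟨?_, ?_, ?_, ?_⟩
  · refine sj_congr (sj_kkmul h1 h2) ?_ rfl
    rw [rho_u, mu_add, mu_smul]
    ring
  · refine sj_congr (sj_neg h1) ?_ rfl
    have : (rhoF Q).v = - Q.u := rfl
    rw [this, mu_neg]
    ring
  · refine sj_congr (sj_kkmul h1 h3) ?_ (by ring)
    rw [R_rho, mu_add, mu_smul]
    ring
  · rintro ⟨e1, e2, e3⟩
    apply h4
    have e4 : a = 0 := neg_eq_zero.mp e2
    rw [e4] at e1 e3
    refine ⟨e4, by simpa using e1, by simpa using e3⟩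

theorem St_tau {P Q : Fr} {s : Bool} {k : ℤ} {a b c : ZMod 5} (h : St P Q s k a b c) :
    St P (tauF s Q) s k (-a) (c + 2 * a) (2 * a + b) := by
  obtain ⟨h1, h2, h3, h4⟩ := h
  refine ⟨?_, ?_, ?_, ?_⟩
  · refine sj_congr (sj_neg h1) ?_ rfl
    have : (tauF s Q).u = - Q.u := rfl
    rw [this, mu_neg]
    ring
  · refine sj_congr (sj_kkmul h1 h3) ?_ (by ring)
    rw [tau_v, mu_add, mu_smul]
    ring
  · refine sj_congr (sj_kkmul h1 h2) ?_ rfl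
    rw [R_tau, mu_add, mu_smul]
    ring
  · rintro ⟨e1, e2, e3⟩
    apply h4
    have e4 : a = 0 := neg_eq_zero.mp e1
    rw [e4] at e2 e3
    refine ⟨e4, by simpa using e3, by simpa using e2⟩

theorem St_kap {P Q : Fr} {s : Bool} {k : ℤ} {a b c : ZMod 5} (h : St P Q s k a b c) :
    St P (kapF Q) (!s) k (-a) (2 * a + b) (c + 2 * a) := by
  obtain ⟨h1, h2, h3, h4⟩ := h
  refine ⟨?_, ?_, ?_, ?_⟩
  · refine sj_congr (sj_neg h1) ?_ rfl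
    have : (kapF Q).u = - Q.u := rfl
    rw [this, mu_neg]
    ring
  · refine sj_congr (sj_kkmul h1 h2) ?_ rfl
    have : (kapF Q).v = kk • Q.u + Q.v := rfl
    rw [this, mu_add, mu_smul]
    ring
  · refine sj_congr (sj_kkmul h1 h3) ?_ (by ring)
    rw [R_kap, mu_add, mu_smul]
    ring
  · rintro ⟨e1, e2, e3⟩
    apply h4
    have e4 : a = 0 := neg_eq_zero.mp e1
    rw [e4] at e2 e3
    refine ⟨e4, by simpa using e2, by simpa using e3⟩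

theorem St_quad {P Q : Fr} {s : Bool} {k : ℤ} {a b c : ZMod 5} (h : St P Q s k a b c) :
    a * b + b * c + c * a = 0 := by
  obtain ⟨h1, h2, h3, _⟩ := h
  have hiso := mu_iso P Q s
  have hA := InA_add (InA_mul (InA_int 2) (InA_add (InA_add (InA_mul h1 h2) (InA_mul h2 h3))
    (InA_mul h3 h1))) (InA_mul InA_s5 (InA_add (InA_add (InA_mul h1 h1) (InA_mul h2 h2))
    (InA_mul h3 h3)))
  have hz : InA (0 : ℂ) 0 := by
    have := InA_int 0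
    simpa using this
  have hA' := sj_congr hA (t' := 0) (r' := 2 * (a * b + b * c + c * a)) (by
    push_cast
    linear_combination (((s5 : ℝ) : ℂ) ^ k) ^ 2 * hiso) (by push_cast; ring)
  exact sj_zmod2 (InA_unique hA' hz)

theorem St_up {P Q : Fr} {s : Bool} {k : ℤ} {a b c : ZMod 5} (h : St P Q s k a b c)
    (hab : a + b ≠ 0) : St P Q (!s) (k + 1) 0 0 (-2 * (a + b)) := by
  obtain ⟨h1, h2, h3, _⟩ := h
  have hp0 := sj_p0
  have hp2 := sj_p2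
  have hz : ((s5 : ℝ) : ℂ) ^ (k + 1) = ((s5 : ℝ) : ℂ) * ((s5 : ℝ) : ℂ) ^ k := by
    rw [zpow_add_one₀ hp0]
    ring
  refine ⟨?_, ?_, ?_, ?_⟩
  · refine sj_congr (InA_mul InA_s5 h1) ?_ (by ring)
    rw [hz]
    ring
  · refine sj_congr (InA_mul InA_s5 h2) ?_ (by ring)
    rw [hz]
    ring
  · refine sj_congr (InA_add (InA_mul (InA_int (-2)) (InA_add h1 h2))
      (sj_neg (InA_mul InA_s5 h3))) ?_ (by push_cast; ring)
    rw [R_not, mu_sub, mu_smul, mu_add, hz]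
    push_cast
    linear_combination ((2 / 5) * (((s5 : ℝ) : ℂ) ^ k) * (mu P Q.u + mu P Q.v)) * hp2
  · rintro ⟨_, _, e⟩
    apply hab
    have : (2 : ZMod 5) * (a + b) = 0 := by
      have e2 : (2 : ZMod 5) * (a + b) = -(-2 * (a + b)) := by ring
      rw [e2, e, neg_zero]
    exact sj_zmod2 this

theorem St_down {P Q : Fr} {s : Bool} {k : ℤ} {c : ZMod 5} (h : St P Q s k 0 0 c) :
    ∃ a' b' c', St P Q (!s) (k - 1) a' b' c' ∧ a' + b' ≠ 0 := by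
  obtain ⟨h1, h2, h3, h4⟩ := h
  have hp0 := sj_p0
  have hp2 := sj_p2
  have hc : c ≠ 0 := fun hc => h4 ⟨rfl, rfl, hc⟩
  have hz : ((s5 : ℝ) : ℂ) ^ k = ((s5 : ℝ) : ℂ) * ((s5 : ℝ) : ℂ) ^ (k - 1) := by
    rw [zpow_sub_one₀ hp0]
    field_simp
  obtain ⟨a', ha'⟩ := InA_div h1
  obtain ⟨b', hb'⟩ := InA_div h2
  have ha : InA (((s5 : ℝ) : ℂ) ^ (k - 1) * mu P Q.u) a' := by
    refine sj_congr ha' ?_ rfl
    rw [hz]
    field_simp
  have hb : InA (((s5 : ℝ) : ℂ) ^ (k - 1) * mu P Q.v) b' := by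
    refine sj_congr hb' ?_ rfl
    rw [hz]
    field_simp
  have hiso := mu_iso P Q s
  have h0 : InA (0 : ℂ) 0 := by
    have := InA_int 0
    simpa using this
  have hA := InA_add (InA_add (InA_mul (InA_int 2) (InA_add (InA_add
    (InA_mul InA_s5 (InA_mul ha hb)) (InA_mul hb h3)) (InA_mul h3 ha)))
    (InA_mul h3 h3)) (InA_mul (InA_int 5) (InA_add (InA_mul ha ha) (InA_mul hb hb)))
  have hA' := sj_congr hA (t' := 0) (r' := 2 * (b' * c + c * a') + c * c) (by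
    rw [hz]
    set q : ℂ := ((s5 : ℝ) : ℂ) ^ (k - 1)
    set p : ℂ := ((s5 : ℝ) : ℂ)
    push_cast
    have e : p * (2 * (p * (q * mu P Q.u * (q * mu P Q.v)) + q * mu P Q.v * (p * q * mu P (Q.R s))
        + p * q * mu P (Q.R s) * (q * mu P Q.u)) + p * q * mu P (Q.R s) * (p * q * mu P (Q.R s))
        + 5 * (q * mu P Q.u * (q * mu P Q.u) + q * mu P Q.v * (q * mu P Q.v))) = 0 := by
      linear_combination (p * p * q ^ 2) * hiso
        - (p * q ^ 2 * (mu P Q.u ^ 2 + mu P Q.v ^ 2)) * hp2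
    rcases mul_eq_zero.mp e with h | h
    · exact absurd h hp0
    · exact h) (by
    have e5 : (((5 : ℤ) : ZMod 5)) = 0 := by decide
    rw [e5]
    push_cast
    ring)
  obtain ⟨hab, hsum⟩ := sj_down hc (InA_unique hA' h0)
  have hR : InA (((s5 : ℝ) : ℂ) ^ k * mu P (Q.R (!s))) 0 := by
    refine sj_congr (InA_add (InA_mul (InA_int (-2)) (InA_add ha hb)) (sj_neg h3)) ?_ ?_
    · rw [R_not, mu_sub, mu_smul, mu_add, hz]
      push_cast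
      linear_combination ((2 / 5) * (((s5 : ℝ) : ℂ) ^ (k - 1)) * (mu P Q.u + mu P Q.v)) * hp2
    · rw [← hsum]
      push_cast
      ring
  obtain ⟨c', hc'⟩ := InA_div hR
  refine ⟨a', b', c', ⟨ha, hb, ?_, ?_⟩, hab⟩
  · refine sj_congr hc' ?_ rfl
    rw [hz]
    field_simp
  · rintro ⟨e1, e2, _⟩
    apply hab
    rw [e1, e2, add_zero]

theorem InA_lt_aux {t : ℂ} {k k' : ℤ} {a a' : ZMod 5} (h : InA (((s5 : ℝ) : ℂ) ^ k * t) a)
    (hk : k < k') (h' : InA (((s5 : ℝ) : ℂ) ^ k' * t) a') : a' = 0 := by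
  have hs : ((s5 : ℝ) : ℂ) ≠ 0 := by exact_mod_cast s5_pos.ne'
  obtain ⟨n, hn⟩ : ∃ n : ℕ, k' = k + ((n + 1 : ℕ) : ℤ) := by
    refine ⟨(k' - k - 1).toNat, ?_⟩
    push_cast
    omega
  have key : ∀ m : ℕ, InA (((s5 : ℝ) : ℂ) ^ (m + 1) * (((s5 : ℝ) : ℂ) ^ k * t)) 0 := by
    intro m
    induction m with
    | zero =>
      have := InA_mul InA_s5 h
      simpa using this
    | succ m ih =>
      have := InA_mul InA_s5 ih
      rw [zero_mul, ← mul_assoc, ← pow_succ'] at this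
      exact this
  have h2 : ((s5 : ℝ) : ℂ) ^ k' * t = ((s5 : ℝ) : ℂ) ^ (n + 1) * (((s5 : ℝ) : ℂ) ^ k * t) := by
    rw [hn, zpow_add₀ hs, zpow_natCast]
    ring
  rw [h2] at h'
  exact InA_unique h' (key n)

theorem St_unique {P Q : Fr} {s : Bool} {k k' : ℤ} {a b c a' b' c' : ZMod 5}
    (h : St P Q s k a b c) (h' : St P Q s k' a' b' c') :
    k = k' ∧ a = a' ∧ b = b' ∧ c = c' := by
  obtain ⟨h1, h2, h3, h4⟩ := h
  obtain ⟨h1', h2', h3', h4'⟩ := h'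
  rcases lt_trichotomy k k' with hk | hk | hk
  · exact absurd ⟨InA_lt_aux h1 hk h1', InA_lt_aux h2 hk h2', InA_lt_aux h3 hk h3'⟩ h4'
  · subst hk
    exact ⟨rfl, InA_unique h1 h1', InA_unique h2 h2', InA_unique h3 h3'⟩
  · exact absurd ⟨InA_lt_aux h1' hk h1, InA_lt_aux h2' hk h2, InA_lt_aux h3' hk h3⟩ h4

/-- direction level comparison -/
theorem InA_lt {t : ℂ} {k k' : ℤ} {a a' : ZMod 5} (h : InA (((s5 : ℝ) : ℂ) ^ k * t) a)
    (hk : k < k') (h' : InA (((s5 : ℝ) : ℂ) ^ k' * t) a') : a' = 0 :=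
  InA_lt_aux h hk h'

/-- climbing along a chain -/
theorem St_chain {P Q : Fr} {s : Bool} {k : ℤ} {c : ZMod 5} (h : St P Q s k 0 0 c) (j : ℕ) :
    ∃ c', St P ((Dd s)^[j] Q) s (k + j) 0 0 c' := by
  induction j with
  | zero => exact ⟨c, by simpa using h⟩
  | succ j ih =>
    obtain ⟨c', hc'⟩ := ih
    have h1 := St_tau hc'
    have hne : c' ≠ 0 := by
      intro hc0
      exact hc'.2.2.2 ⟨rfl, rfl, hc0⟩
    have h2 := St_up h1 (by simpa using hne)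
    have h3 := St_kap h2
    rw [kap_tau_eq, Bool.not_not] at h3
    rw [Function.iterate_succ_apply']
    refine ⟨(-2 * (-0 + (c' + 2 * 0))) + 2 * 0, ?_⟩
    have e : k + ((j + 1 : ℕ) : ℤ) = k + j + 1 := by push_cast; ring
    rw [e]
    simpa using h3

end

end Pool.Agent.Helper275.Pent
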