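import Pool.Agent.Helper275.Pent.Geo2

set_option autoImplicit false

namespace Pool.Agent.Helper275.Pent

open scoped Matrix Classical

noncomputable section

/-- connected map of faces (cycles of `ph`) glued along edges (`gl`), realised by frames -/
structure PMap (D : Type) [Fintype D] where
  ph : Equiv.Perm D
  gl : Equiv.Perm D
  gl_gl : ∀ d, gl (gl d) = d
  gl_ne : ∀ d, gl d ≠ d
  fr : D → Fr
  fr_ph : ∀ d, fr (ph d) = rhoF (fr d)
  fr_o : ∀ d, (fr (gl d)).o = (fr d).o + (fr d).u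
  fr_u : ∀ d, (fr (gl d)).u = -(fr d).u
  nofold : ∀ d, fr (gl d) ≠ kapF (fr d)
  inj : ∀ d e, (ph * gl).SameCycle d e → (fr d).u = (fr e).u → d = e
  conn : ∀ S : Set D, S.Nonempty → (∀ d ∈ S, ph d ∈ S) → (∀ d ∈ S, gl d ∈ S) → S = Set.univ
  dsc : ∀ c : D → ZMod 2, (∀ d, c (gl d) = c d) →
      (∀ d, ∑ e ∈ Finset.univ.filter (fun e => (ph * gl).SameCycle d e), c e = 0) →
      ∃ f : D → ZMod 2, (∀ d, f (ph d) = f d) ∧ ∀ d, c d = f d + f (gl d)

end

end Pool.Agent.Helper275.Pent
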