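import Pool.Agent.Helper275.Pent.Lvl
import Pool.Agent.Helper275.Pent.Abs
import Pool.Agent.Helper275.Pent.MapDef

set_option autoImplicit false

namespace Pool.Agent.Helper275.Pent

open scoped Matrix Classical

noncomputable section

variable {D : Type} [Fintype D]

/-- the neighbour across the edge is the one of the solid on the side `s` -/
def Adj (M : PMap D) (s : Bool) (d : D) : Prop := M.fr (M.gl d) = tauF s (M.fr d)

/-- the dihedral angle is a multiple of the angle of the solid -/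
def Good (M : PMap D) (d : D) : Prop :=
  ∃ (s : Bool) (j : ℕ), M.fr (M.gl d) = kapF ((Dd s)^[j] (M.fr d))

/-- angle not a multiple of the angle of the solid -/
def Bad (M : PMap D) (d : D) : Prop := ¬ Good M d

/-- next bad dart around the vertex, and whether the two directions make the angle 108° -/
def T0 (M : PMap D) (d : D) : Prop :=
  ∃ e, IsNext (M.ph * M.gl) (Bad M) d e ∧ (M.fr d).u ⬝ᵥ (M.fr e).u = cc

/-- same region -/
def SameReg (M : PMap D) (d e : D) : Prop := Relation.EqvGen (rr M.ph M.gl (Bad M)) d e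

/-- complete belt avoiding `G` -/
def CBelt (M : PMap D) (G : Set D) : Prop :=
  ∃ (s : Bool) (E : Set D) (idx : D → ZMod 5), E.Nonempty ∧ (∀ d ∈ E, d ∉ G) ∧
    (∀ d ∈ E, M.ph d ∈ E ∧ idx (M.ph d) = idx d + 1) ∧
    (∀ d ∈ E, idx d ≠ 0 → Adj M s d ∧ M.gl d ∈ E ∧ idx (M.gl d) = -(idx d)⁻¹)

theorem kapF_Dd (s : Bool) (P : Fr) : kapF (Dd s P) = tauF s P := by
  rw [← kap_tau_eq, kapF_kapF]

theorem Dd_kapF (s : Bool) (P : Fr) : Dd (!s) (kapF P) = kapF (Dd s P) := by
  rw [kapF_Dd, ← kap_tau_eq, kap_tau, Bool.not_not, kapF_kapF]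

theorem good_gl (M : PMap D) (d : D) : Good M (M.gl d) ↔ Good M d := by
  have key : ∀ e, Good M e → Good M (M.gl e) := by
    rintro e ⟨s, j, h⟩
    refine ⟨s, j, ?_⟩
    rw [M.gl_gl]
    have h1 : ∀ (n : ℕ) (Q : Fr), (Dd (!s))^[n] (kapF Q) = kapF ((Dd s)^[n] Q) := by
      intro n
      induction n with
      | zero => intro Q; rfl
      | succ n ih =>
        intro Q
        rw [Function.iterate_succ_apply', Function.iterate_succ_apply', ih, Dd_kapF]
    have h2 : ∀ (n : ℕ) (Q : Fr), (Dd (!s))^[n] ((Dd s)^[n] Q) = Q := by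
      intro n
      induction n with
      | zero => intro Q; rfl
      | succ n ih =>
        intro Q
        rw [Function.iterate_succ_apply, Function.iterate_succ_apply', Dd_Dd, ih]
    rw [← h1, h, kapF_kapF, h2]
  constructor
  · intro h
    have := key _ h
    rwa [M.gl_gl] at this
  · exact key d

theorem bad_gl (M : PMap D) (d : D) : Bad M (M.gl d) ↔ Bad M d := not_congr (good_gl M d)

theorem Adj.good {M : PMap D} {s : Bool} {d : D} (h : Adj M s d) : Good M d :=
  ⟨s, 1, by rw [Function.iterate_one, kapF_Dd]; exact h⟩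

theorem Adj.gl {M : PMap D} {s : Bool} {d : D} (h : Adj M s d) : Adj M s (M.gl d) := by
  unfold Adj at *
  rw [M.gl_gl, h, tauF_tauF]

theorem adj_gl (M : PMap D) (s : Bool) (d : D) : Adj M s (M.gl d) ↔ Adj M s d :=
  ⟨fun h => by have := h.gl; rwa [M.gl_gl] at this, fun h => h.gl⟩

theorem sg_apply (M : PMap D) (d : D) : (M.ph * M.gl) d = M.ph (M.gl d) := rfl

/-- direction of the next edge around the vertex -/
theorem fr_sg_v (M : PMap D) (d : D) : (M.fr (M.ph (M.gl d))).v = (M.fr d).u := by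
  rw [M.fr_ph]
  show -(M.fr (M.gl d)).u = _
  rw [M.fr_u, neg_neg]

theorem fr_sg_adj (M : PMap D) {s : Bool} {d : D} (h : Adj M s d) :
    M.fr (M.ph (M.gl d)) = rhoF (tauF s (M.fr d)) := by
  rw [M.fr_ph, h]

/-- two consecutive convex edges at a vertex close up -/
theorem close3 (M : PMap D) {s : Bool} {d : D} (h1 : Adj M s d)
    (h2 : Adj M s (M.ph (M.gl d))) :
    M.ph (M.gl (M.ph (M.gl (M.ph (M.gl d))))) = d ∧
      Adj M s (M.ph (M.gl (M.ph (M.gl d)))) := by
  have e1 := fr_sg_adj M h1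
  have e2 := fr_sg_adj M h2
  have e3 : M.fr (M.ph (M.gl (M.ph (M.gl d)))) = tauF s (rhoI (M.fr d)) := by
    rw [e2, e1]
    have := rho_tau_cube s (tauF s (rhoI (M.fr d)))
    rw [tauF_tauF] at this
    have h3 : rhoF (rhoI (M.fr d)) = M.fr d := rho.right_inv (M.fr d)
    rw [h3] at this
    exact this
  have e4 : (M.fr (M.gl (M.ph.symm d))).u = (M.fr d).v := by
    have h4 : M.fr d = rhoF (M.fr (M.ph.symm d)) := by
      rw [← M.fr_ph, Equiv.apply_symm_apply]
    rw [M.fr_u]
    conv_rhs => rw [h4]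
    rfl
  have e5 : (M.fr (M.ph (M.gl (M.ph (M.gl d))))).u = (M.fr (M.gl (M.ph.symm d))).u := by
    rw [e3, e4]
    simp [tauF, rhoI]
  have e6 : (M.ph * M.gl).SameCycle (M.ph (M.gl (M.ph (M.gl d)))) (M.gl (M.ph.symm d)) := by
    refine ⟨-3, ?_⟩
    have h7 : (M.ph * M.gl) ((M.ph * M.gl) ((M.ph * M.gl) (M.gl (M.ph.symm d))))
        = M.ph (M.gl (M.ph (M.gl d))) := by
      simp [M.gl_gl]
    have h8 : ((M.ph * M.gl) ^ (3 : ℤ)) (M.gl (M.ph.symm d)) = M.ph (M.gl (M.ph (M.gl d))) := by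
      rw [← h7]; rfl
    rw [← h8, ← Equiv.Perm.mul_apply, ← zpow_add]
    simp
  have e7 := M.inj _ _ e6 e5
  constructor
  · rw [e7, M.gl_gl]; simp
  · unfold Adj
    rw [e3, tauF_tauF, e7, M.gl_gl]
    have h4 : M.fr d = rhoF (M.fr (M.ph.symm d)) := by
      rw [← M.fr_ph, Equiv.apply_symm_apply]
    rw [h4]
    exact (rho.left_inv (M.fr (M.ph.symm d))).symm

end

end Pool.Agent.Helper275.Pent
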