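import Pool.Agent.Helper275.Pent.FilS

set_option autoImplicit false

namespace Pool.Agent.Helper275.Pent

open scoped Matrix

noncomputable section

theorem w_iter (P : Fr) (n : ℕ) : (rhoF^[n] P).w = P.w := by
  induction n with
  | zero => rfl
  | succ n ih => rw [Function.iterate_succ_apply', w_rho, ih]

theorem FD_w (s : Bool) (Q : Fr) (f : Fin 12) (k : Fin 5) : (FD s Q f k).w = (FD s Q f 0).w := by
  have h : ∀ n : ℕ, (FD s Q f (Fin.ofNat 5 n)).w = (FD s Q f 0).w := by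
    intro n
    induction n with
    | zero => rfl
    | succ n ih => rw [ofNat5_succ, FD_ph, w_rho, ih]
  have := h k.val
  rwa [ofNat5_val] at this

theorem lev_ge (f : Fin 12) (a : Fin 20) :
    0 ≤ ev (((FD5 f 0).w).dot ((cr a).sub (cr (vt f 0)))) := by
  obtain ⟨h1, h2⟩ := lev_nonneg f a
  have h1' : (0 : ℝ) ≤ ((((FD5 f 0).w).dot ((cr a).sub (cr (vt f 0)))).a : ℚ) := by
    exact_mod_cast h1
  have h2' : (0 : ℝ) ≤ ((((FD5 f 0).w).dot ((cr a).sub (cr (vt f 0)))).b : ℚ) := by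
    exact_mod_cast h2
  unfold ev
  exact add_nonneg h1' (mul_nonneg h2' s5_pos.le)

theorem lev_gt (f : Fin 12) (a : Fin 20) (ha : ∀ i, vt f i ≠ a) :
    0 < ev (((FD5 f 0).w).dot ((cr a).sub (cr (vt f 0)))) := by
  obtain ⟨h1, h2⟩ := lev_nonneg f a
  have h3 := lev_pos f a ha
  have h3' : (0 : ℝ) < ((((FD5 f 0).w).dot ((cr a).sub (cr (vt f 0)))).a : ℚ) := by
    exact_mod_cast h3
  have h2' : (0 : ℝ) ≤ ((((FD5 f 0).w).dot ((cr a).sub (cr (vt f 0)))).b : ℚ) := by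
    exact_mod_cast h2
  unfold ev
  exact add_pos_of_pos_of_nonneg h3' (mul_nonneg h2' s5_pos.le)

/-- two dodecahedra glued along a facet with opposite orientations lie on opposite sides of it -/
theorem opp_inter (s : Bool) (Q Q' : Fr) (q r : Fin 12) (k k' : Fin 5)
    (h : FD s Q' r k' = kapF (FD s Q q k)) (hv : fverts s Q q = fverts s Q' r) (t : V)
    (ht : t ∈ convexHull ℝ (Set.range (dp s Q))) (ht' : t ∈ convexHull ℝ (Set.range (dp s Q'))) :
    t ∈ convexHull ℝ (fverts s Q q) := by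
  set N := evL Q s (FD5 q 0).w with hN
  have hN' : evL Q' s (FD5 r 0).w = -N := by
    have e1 := (Rep.FD Q s q 0).2.2.2
    have e2 := (Rep.FD Q' s r 0).2.2.2
    rw [hN, ← e1, ← e2, ← FD_w s Q' r k', h, w_kap, FD_w, smul_neg]
  obtain ⟨w, hw, hw1, hwt⟩ := hull_rep _ _ ht
  obtain ⟨w', hw', hw1', hwt'⟩ := hull_rep _ _ ht'
  -- the base points are in the same plane
  have h0 : N ⬝ᵥ (dp s Q' (vt r 0) - dp s Q (vt q 0)) = 0 := by
    have h1 : dp s Q' (vt r 0) ∈ fverts s Q q := by rw [hv]; exact ⟨0, rfl⟩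
    obtain ⟨j, hj⟩ := h1
    have hj' : dp s Q (vt q j) = dp s Q' (vt r 0) := hj
    rw [← hj', hN, lev_eval, lev_zero]
    simp [ev]
  have h1 : N ⬝ᵥ (t - dp s Q (vt q 0)) =
      ∑ a, w a * ev (((FD5 q 0).w).dot ((cr a).sub (cr (vt q 0)))) := by
    rw [← hwt, dot_rep _ _ hw1]
    exact Finset.sum_congr rfl fun a _ => by rw [hN, lev_eval]
  have h2 : 0 ≤ -(N ⬝ᵥ (t - dp s Q' (vt r 0))) := by
    rw [← neg_dotProduct, ← hN', ← hwt', dot_rep _ _ hw1']
    exact Finset.sum_nonneg fun a _ => by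
      rw [lev_eval]
      exact mul_nonneg (hw' a) (lev_ge r a)
  have h3 : N ⬝ᵥ (t - dp s Q (vt q 0)) =
      N ⬝ᵥ (t - dp s Q' (vt r 0)) + N ⬝ᵥ (dp s Q' (vt r 0) - dp s Q (vt q 0)) := by
    rw [← dotProduct_add]
    congr 1
    abel
  have h4 : ∑ a, w a * ev (((FD5 q 0).w).dot ((cr a).sub (cr (vt q 0)))) = 0 := by
    have h5 : 0 ≤ ∑ a, w a * ev (((FD5 q 0).w).dot ((cr a).sub (cr (vt q 0)))) :=
      Finset.sum_nonneg fun a _ => mul_nonneg (hw a) (lev_ge q a)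
    rw [← h1] at h5 ⊢
    linarith
  have h5 := (Finset.sum_eq_zero_iff_of_nonneg
    (fun a _ => mul_nonneg (hw a) (lev_ge q a))).mp h4
  have h6 : ∀ a, (∀ i, vt q i ≠ a) → w a = 0 := by
    intro a ha
    rcases mul_eq_zero.mp (h5 a (Finset.mem_univ a)) with h | h
    · exact h
    · exact absurd h (lev_gt q a ha).ne'
  have h7 : t = ∑ a, w a • (if w a = 0 then dp s Q (vt q 0) else dp s Q a) := by
    rw [← hwt]
    refine Finset.sum_congr rfl fun a _ => ?_
    by_cases ha : w a = 0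
    · rw [if_pos ha, ha, zero_smul, zero_smul]
    · rw [if_neg ha]
  rw [h7]
  refine (convex_convexHull ℝ _).sum_mem (fun a _ => hw a) hw1 fun a _ => ?_
  by_cases ha : w a = 0
  · rw [if_pos ha]
    exact subset_convexHull _ _ ⟨0, rfl⟩
  · rw [if_neg ha]
    have h8 : ∃ i, vt q i = a := by
      by_contra hc
      push Not at hc
      exact ha (h6 a hc)
    obtain ⟨i, rfl⟩ := h8
    exact subset_convexHull _ _ ⟨i, rfl⟩

end

end Pool.Agent.Helper275.Pent
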