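import Pool.Agent.Helper275.Pent.Stm

set_option autoImplicit false



namespace Pool.Agent.Helper275.Pent

open scoped Matrix Classical

theorem exists_patch_aux (n : ℕ) : ∀ (D : Type) [Fintype D] (M : PMap D) (g : D),
    Fintype.card D = n → (∀ d, ¬ M.ph.SameCycle g d → (M.ph ^ 5) d = d) →
    ∃ s x, Patch M s x {d | M.ph.SameCycle g d} := by
  induction n using Nat.strong_induction_on with
  | _ n ih =>
  intro D _ M g hcard hord
  set G : Set D := {d | M.ph.SameCycle g d} with hG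
  obtain ⟨s, E, idx, ⟨d0, hd0⟩, hEG, h1, h2⟩ := exists_cbelt M g
  have hGph : ∀ d, d ∈ G ↔ M.ph d ∈ G := fun d => Equiv.Perm.sameCycle_apply_right.symm
  -- a dart of index zero
  have Epow : ∀ k ∈ E, ∀ j : ℕ, (M.ph ^ j) k ∈ E ∧ idx ((M.ph ^ j) k) = idx k + (j : ZMod 5) := by
    intro k kE j
    induction j with
    | zero => exact ⟨kE, by simp⟩
    | succ j ih =>
      rw [pow_succ', Equiv.Perm.mul_apply]
      obtain ⟨a, b⟩ := h1 _ ih.1
      refine ⟨a, ?_⟩
      rw [b, ih.2]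
      push_cast
      ring
  obtain ⟨h0, hE0, hi0⟩ : ∃ h0 ∈ E, idx h0 = 0 := by
    obtain ⟨a, b⟩ := Epow d0 hd0 (-(idx d0)).val
    refine ⟨_, a, ?_⟩
    rw [b, ZMod.natCast_zmod_val]
    ring
  -- the opposite dart
  obtain ⟨k0, hk⟩ : ∃ k0, M.ph (M.ph k0) = M.gl (M.ph (M.ph h0)) :=
    ⟨M.ph.symm (M.ph.symm (M.gl (M.ph (M.ph h0)))), by simp⟩
  have hk0 : k0 ∈ E ∧ idx k0 = 0 := by
    obtain ⟨p1, p2⟩ := h1 h0 hE0
    rw [hi0, zero_add] at p2
    obtain ⟨q1, q2⟩ := h1 _ p1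
    rw [p2] at q2
    have q3 : idx (M.ph (M.ph h0)) = 2 := by rw [q2]; decide
    obtain ⟨r1, r2, r3⟩ := h2 _ q1 (by rw [q3]; decide)
    rw [q3, zmod5_inv2] at r3
    have kE2 : M.ph (M.ph k0) ∈ E := by rw [hk]; exact r2
    have kE1 : M.ph k0 ∈ E := belt_symm M E (fun d hd => (h1 d hd).1) _ kE2
    have kE : k0 ∈ E := belt_symm M E (fun d hd => (h1 d hd).1) _ kE1
    refine ⟨kE, ?_⟩
    have e1 := (h1 _ kE1).2
    have e2 := (h1 _ kE).2
    rw [hk, r3, e2] at e1
    generalize idx k0 = t at e1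
    revert t; decide
  -- choice of the side
  obtain ⟨h, hE, hi, hGR⟩ : ∃ h ∈ E, idx h = 0 ∧
      ∀ d ∈ G, ¬ Rea M {h' | (M.ph * M.gl * M.ph).SameCycle h h'} d := by
    by_cases hc : ∀ d ∈ G, ¬ Rea M {h' | (M.ph * M.gl * M.ph).SameCycle h0 h'} d
    · exact ⟨h0, hE0, hi0, hc⟩
    · push Not at hc
      obtain ⟨d, hdG, hd⟩ := hc
      refine ⟨k0, hk0.1, hk0.2, ?_⟩
      intro e heG
      have hde : M.ph.SameCycle d e := (show M.ph.SameCycle g d from hdG).symm.trans heG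
      obtain ⟨m, rfl⟩ := same_pow hde
      have hRea : ∀ m : ℕ, Rea M {h' | (M.ph * M.gl * M.ph).SameCycle h0 h'} ((M.ph ^ m) d) := by
        intro m
        induction m with
        | zero => exact hd
        | succ m ih =>
          rw [pow_succ', Equiv.Perm.mul_apply]
          exact Rea.ph ih
      exact belt_disj M s E idx h1 h2 h0 k0 hE0 hi0 hk _ (hRea m)
  set H : Set D := {h' | (M.ph * M.gl * M.ph).SameCycle h h'} with hHd
  obtain ⟨hH, hHE⟩ := belt_curve M s E idx h1 h2 h hE hi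
  have hmem : h ∈ H := Equiv.Perm.SameCycle.refl _ _
  have hone : ∀ h' ∈ H, (M.ph * M.gl * M.ph).SameCycle h h' := fun h' hh' => hh'
  by_cases hA : ∃ h' ∈ H, Adj M s h'
  · obtain ⟨h', hh', ha⟩ := hA
    obtain ⟨e1, e2⟩ := hHE h' hh'
    exact ⟨s, M.gl h', patch_of_cap M s E G idx hEG hGph hord h1 h2 h' e1 e2 ha
      (fun hc => hGR _ hc (Rea.base hh'))⟩
  · push Not at hA
    obtain ⟨M', m1, m2, m3⟩ := surgery M hH hA h hmem hone
    have hphS : M.ph h ∉ Sset M H := by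
      rintro (hc | hc)
      · exact rea_not M hH (d := M.ph h) ⟨1, by simp⟩ hmem h hone hc
      · exact hH.ph_not h hmem hc
    have hlt : Fintype.card (Sset M H) < n := by
      rw [← hcard]
      exact Fintype.card_lt_of_injective_of_notMem (fun x : Sset M H => (x : D))
        Subtype.val_injective (b := M.ph h) (by
          rintro ⟨x, hx⟩
          exact hphS (hx ▸ x.2))
    set g' : Sset M H := ⟨h, Or.inr hmem⟩ with hg'
    have hHcyc : ∀ d : Sset M H, (d : D) ∈ H → M'.ph.SameCycle g' d := by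
      intro d hd
      obtain ⟨m, hm⟩ := same_pow (show (M.ph * M.gl * M.ph).SameCycle h d from hd)
      have key : ∀ m : ℕ, ((((M'.ph ^ m) g' : Sset M H)) : D) = ((M.ph * M.gl * M.ph) ^ m) h ∧
          ((M.ph * M.gl * M.ph) ^ m) h ∈ H := by
        intro m
        induction m with
        | zero => exact ⟨rfl, hmem⟩
        | succ m ih =>
          obtain ⟨i1, i2⟩ := ih
          rw [pow_succ', pow_succ', Equiv.Perm.mul_apply, Equiv.Perm.mul_apply]
          have hin : (((M'.ph ^ m) g' : Sset M H) : D) ∈ H := by rw [i1]; exact i2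
          have h3 := (m3 _ hin).1
          refine ⟨?_, ?_⟩
          · rw [h3, i1]; rfl
          · exact hH.nxt _ i2
      have : (M'.ph ^ m) g' = d := Subtype.ext (by rw [(key m).1, hm])
      rw [← this]
      exact ⟨(m : ℤ), by simp⟩
    have hnH : ∀ d : Sset M H, ¬ M'.ph.SameCycle g' d → (d : D) ∉ H :=
      fun d hd hc => hd (hHcyc d hc)
    have hnG : ∀ d : Sset M H, ¬ M'.ph.SameCycle g' d → (d : D) ∉ G := by
      intro d hd hc
      rcases d.2 with hr | hr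
      · exact hGR _ hc hr
      · exact hnH d hd hr
    have L : ∀ d : Sset M H, ¬ M'.ph.SameCycle g' d → ∀ i : ℕ,
        ¬ M'.ph.SameCycle g' ((M'.ph ^ i) d) ∧ (((M'.ph ^ i) d : Sset M H) : D) = (M.ph ^ i) (d : D) := by
      intro d hd i
      induction i with
      | zero => exact ⟨hd, rfl⟩
      | succ i ih =>
        obtain ⟨i1, i2⟩ := ih
        rw [pow_succ', Equiv.Perm.mul_apply, pow_succ', Equiv.Perm.mul_apply]
        refine ⟨fun hc => i1 (Equiv.Perm.sameCycle_apply_right.mp hc), ?_⟩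
        rw [(m2 _ (hnH _ i1)).1, i2]
    obtain ⟨s', x', hP⟩ := ih _ hlt (Sset M H) M' g' rfl (by
      intro d hd
      apply Subtype.ext
      rw [(L d hd 5).2]
      exact hord _ (hnG d hd))
    refine ⟨s', (x' : D), ?_⟩
    intro i j
    have hx' : ¬ M'.ph.SameCycle g' x' := (hP 0 0).1
    obtain ⟨a1, a2⟩ := L x' hx' i
    obtain ⟨-, b0, -, adj1, -⟩ := hP i 0
    obtain ⟨-, b1, c1, -, adj2⟩ := hP i j
    have b0' : ¬ M'.ph.SameCycle g' (M'.gl ((M'.ph ^ i) x')) := b0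
    have b1' : ¬ M'.ph.SameCycle g' ((M'.ph ^ j) (M'.gl ((M'.ph ^ i) x'))) := b1
    have c1' : ¬ M'.ph.SameCycle g' (M'.gl ((M'.ph ^ j) (M'.gl ((M'.ph ^ i) x')))) := c1
    have vb : ((((M'.ph ^ j) (M'.gl ((M'.ph ^ i) x')) : Sset M H)) : D)
        = (M.ph ^ j) (M.gl ((M.ph ^ i) (x' : D))) := by
      rw [(L _ b0' j).2, m1, a2]
    have vc : (((M'.gl ((M'.ph ^ j) (M'.gl ((M'.ph ^ i) x'))) : Sset M H)) : D)
        = M.gl ((M.ph ^ j) (M.gl ((M.ph ^ i) (x' : D)))) := by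
      rw [m1, vb]
    have adjT : ∀ d : Sset M H, ¬ M'.ph.SameCycle g' d → ¬ M'.ph.SameCycle g' (M'.gl d) →
        Adj M' s' d → Adj M s' (d : D) := by
      intro d hd hgd ha
      have e1 := (m2 _ (hnH _ hd)).2
      have e2 := (m2 _ (hnH _ hgd)).2
      unfold Adj at ha ⊢
      rw [e1, e2, m1] at ha
      exact ha
    refine ⟨?_, ?_, ?_, ?_, ?_⟩
    · rw [← a2]; exact hnG _ a1
    · rw [← vb]; exact hnG _ b1'
    · rw [← vc]; exact hnG _ c1'
    · rw [← a2]; exact adjT _ a1 b0' adj1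
    · rw [← vb]; exact adjT _ b1' c1' adj2

theorem exists_patch {D : Type} [Fintype D] (M : PMap D) (g : D)
    (h : ∀ d, ¬ M.ph.SameCycle g d → (M.ph ^ 5) d = d) :
    ∃ s x, Patch M s x {d | M.ph.SameCycle g d} :=
  exists_patch_aux _ D M g rfl h

end Pool.Agent.Helper275.Pent
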