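import Pool.Agent.Helper275.Pent.Geo

set_option autoImplicit false

namespace Pool.Agent.Helper275.Pent

open scoped Matrix

noncomputable section

/-- `x` is a unit vector making the angle 108° with both `y` and `z` -/
def IsThird (y z x : V) : Prop := x ⬝ᵥ x = 1 ∧ x ⬝ᵥ y = cc ∧ x ⬝ᵥ z = cc

/-- vectors reachable from `v` by turning around `u0` -/
inductive Star (u0 : V) (v : V) : V → Prop
  | base : Star u0 v v
  | step {z x : V} : Star u0 v z → IsThird u0 z x → Star u0 v x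

/-- corners reachable from `(u0, v0)` by swapping and turning -/
inductive Rch (u0 v0 : V) : V → V → Prop
  | base : Rch u0 v0 u0 v0
  | swap {y z : V} : Rch u0 v0 y z → Rch u0 v0 z y
  | turn {y z x : V} : Rch u0 v0 y z → IsThird y z x → Rch u0 v0 y x

theorem s5_ne : s5 ≠ 0 := s5_pos.ne'
theorem s5_irr : Irrational s5 := by
  have := Nat.Prime.irrational_sqrt (show Nat.Prime 5 by norm_num)
  simpa [s5] using this

theorem rep_unique {m n m' n' : ℤ} (h : (m:ℝ) + n * s5 = m' + n' * s5) : m = m' := by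
  by_cases hn : n = n'
  · subst hn
    have : (m:ℝ) = m' := by linarith
    exact_mod_cast this
  · exfalso
    have hne : ((n:ℝ) - n') ≠ 0 := by
      intro h0
      apply hn
      have : (n:ℝ) = n' := by linarith
      exact_mod_cast this
    have h1 : s5 = ((m' - m : ℤ) : ℝ) / ((n - n' : ℤ) : ℝ) := by
      push_cast
      rw [eq_div_iff hne]
      linarith
    apply s5_irr
    exact ⟨((m' - m : ℤ) : ℚ) / ((n - n' : ℤ) : ℚ), by rw [h1]; push_cast; ring⟩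

theorem pow_rep (s : ℕ) (hs : 1 ≤ s) : ∃ c d : ℤ, s5 ^ s = 5 * c + d * s5 := by
  induction s, hs using Nat.le_induction with
  | base => exact ⟨0, 1, by simp⟩
  | succ s hs ih =>
    obtain ⟨c, d, h⟩ := ih
    refine ⟨d, 5 * c, ?_⟩
    rw [pow_succ, h]
    push_cast
    have := s5_sq
    linear_combination (d:ℝ) * this

/-- deep vectors -/
def Deep (u0 x : V) : Prop :=
  ∃ s : ℕ, 1 ≤ s ∧ ∃ m n : ℤ, 4 * s5 ^ s * (u0 ⬝ᵥ x) = m + n * s5 ∧ ¬ (5:ℤ) ∣ m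

theorem deep_ne_cc {u0 x : V} (h : Deep u0 x) : u0 ⬝ᵥ x ≠ cc := by
  obtain ⟨s, hs, m, n, h1, h2⟩ := h
  intro h3
  obtain ⟨c, d, hcd⟩ := pow_rep s hs
  rw [h3, cc] at h1
  have h4 : ((5 * (c - d) : ℤ) : ℝ) + ((d - 5 * c : ℤ) : ℝ) * s5 = m + n * s5 := by
    rw [← h1]
    push_cast
    have := s5_sq
    rw [hcd]
    linear_combination (d:ℝ) * this
  have h5 := rep_unique h4
  exact h2 ⟨c - d, h5.symm⟩

theorem deep_ne_one {u0 x : V} (h : Deep u0 x) : u0 ⬝ᵥ x ≠ 1 := by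
  obtain ⟨s, hs, m, n, h1, h2⟩ := h
  intro h3
  obtain ⟨c, d, hcd⟩ := pow_rep s hs
  rw [h3] at h1
  have h4 : ((5 * (4 * c) : ℤ) : ℝ) + ((4 * d : ℤ) : ℝ) * s5 = m + n * s5 := by
    rw [← h1]
    push_cast
    rw [hcd]
    ring
  have h5 := rep_unique h4
  exact h2 ⟨4 * c, h5.symm⟩

theorem cc_ne_one : cc ≠ 1 := by
  unfold cc
  have := s5_pos
  intro h
  linarith

/-- the other third vector -/
def far (y z x : V) : V := (-(2 / s5)) • (y + z) - x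

structure Tri (y z x : V) : Prop where
  yy : y ⬝ᵥ y = 1
  zz : z ⬝ᵥ z = 1
  xx : x ⬝ᵥ x = 1
  yz : y ⬝ᵥ z = cc
  yx : y ⬝ᵥ x = cc
  zx : z ⬝ᵥ x = cc

theorem kfact : (-(2 / s5)) * (1 + cc) = 2 * cc := by
  unfold cc
  have := s5_ne
  have h := s5_sq
  field_simp
  linear_combination h

theorem far_tri {y z x : V} (h : Tri y z x) : Tri y z (far y z x) := by
  have hk := kfact
  have hzy : z ⬝ᵥ y = cc := by rw [dotProduct_comm]; exact h.yz
  have hxy : x ⬝ᵥ y = cc := by rw [dotProduct_comm]; exact h.yx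
  have hxz : x ⬝ᵥ z = cc := by rw [dotProduct_comm]; exact h.zx
  refine ⟨h.yy, h.zz, ?_, h.yz, ?_, ?_⟩
  · simp only [far, sub_dotProduct, dotProduct_sub, smul_dotProduct, dotProduct_smul,
      add_dotProduct, dotProduct_add, smul_eq_mul, h.yy, h.zz, h.xx, h.yz, h.yx, h.zx, hzy, hxy, hxz]
    linear_combination (2 * (-(2 / s5))) * hk
  · simp only [far, dotProduct_sub, dotProduct_smul, dotProduct_add, smul_eq_mul, h.yy, h.yz, h.yx]
    linear_combination hk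
  · simp only [far, dotProduct_sub, dotProduct_smul, dotProduct_add, smul_eq_mul, h.zz, hzy, h.zx]
    linear_combination hk

theorem cc_sq_ne : 1 - cc ^ 2 ≠ 0 := by
  unfold cc
  have h := s5_sq
  have h2 := s5_pos
  have : 1 - ((1 - s5) / 4) ^ 2 = (5 + s5) / 8 := by
    linear_combination (-(1:ℝ)/16) * h
  rw [this]
  positivity

theorem third_unique {y z x x1 : V} (h : Tri y z x) (h1 : IsThird y z x1) :
    x1 = x ∨ x1 = far y z x := by
  by_cases hx : x1 = x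
  · left; exact hx
  · right
    obtain ⟨a1, a2, a3⟩ := h1
    have a2' : y ⬝ᵥ x1 = cc := by rw [dotProduct_comm]; exact a2
    have a3' : z ⬝ᵥ x1 = cc := by rw [dotProduct_comm]; exact a3
    have hf := far_tri h
    set u := x1 - x with hu
    set v := x1 - far y z x with hv
    have hu0 : u ≠ 0 := sub_ne_zero.mpr hx
    have yu : y ⬝ᵥ u = 0 := by rw [hu, dotProduct_sub, a2', h.yx, sub_self]
    have zu : z ⬝ᵥ u = 0 := by rw [hu, dotProduct_sub, a3', h.zx, sub_self]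
    have yv : y ⬝ᵥ v = 0 := by rw [hv, dotProduct_sub, a2', hf.yx, sub_self]
    have zv : z ⬝ᵥ v = 0 := by rw [hv, dotProduct_sub, a3', hf.zx, sub_self]
    have hxy : x ⬝ᵥ y = cc := by rw [dotProduct_comm]; exact h.yx
    have hxz : x ⬝ᵥ z = cc := by rw [dotProduct_comm]; exact h.zx
    have uv : u ⬝ᵥ v = 0 := by
      simp only [hu, hv, far, sub_dotProduct, dotProduct_sub, dotProduct_smul,
        dotProduct_add, smul_eq_mul, h.xx, a1, a2, a3, hxy, hxz, dotProduct_comm x1 x]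
      ring
    have uu : u ⬝ᵥ u ≠ 0 := by
      intro h0
      exact hu0 (dotProduct_self_eq_zero.mp h0)
    have hdet : (Matrix.of ![y, z, u]).det ≠ 0 := by
      intro hd
      have hG : (Matrix.of ![y, z, u]).det ^ 2 = (y ⬝ᵥ y) * (z ⬝ᵥ z) * (u ⬝ᵥ u)
          + 2 * (y ⬝ᵥ z) * (z ⬝ᵥ u) * (y ⬝ᵥ u) - (y ⬝ᵥ y) * (z ⬝ᵥ u) ^ 2 - (z ⬝ᵥ z) * (y ⬝ᵥ u) ^ 2
          - (u ⬝ᵥ u) * (y ⬝ᵥ z) ^ 2 := by
        rw [Matrix.det_fin_three]
        simp only [Matrix.of_apply, Matrix.cons_val_zero, Matrix.cons_val_one, Matrix.cons_val,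
          dotProduct, Fin.sum_univ_three]
        ring
      rw [hd, yu, zu, h.yy, h.zz, h.yz] at hG
      have : (1 - cc ^ 2) * (u ⬝ᵥ u) = 0 := by linarith
      rcases mul_eq_zero.mp this with h5 | h5
      · exact cc_sq_ne h5
      · exact uu h5
    have hMv : (Matrix.of ![y, z, u]) *ᵥ v = 0 := by
      ext i
      fin_cases i
      · simpa [Matrix.mulVec] using yv
      · simpa [Matrix.mulVec] using zv
      · simpa [Matrix.mulVec] using uv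
    have hv0 : v = 0 := Matrix.eq_zero_of_mulVec_eq_zero hdet hMv
    exact sub_eq_zero.mp hv0

/-- outer corners with their near third vector -/
inductive Out (u0 v0 : V) : ℕ → V → V → V → Prop
  | base {y z : V} : Star u0 v0 y → IsThird u0 y z → Out u0 v0 0 y z u0
  | s1 {t : ℕ} {y z x : V} : Out u0 v0 t y z x → Out u0 v0 (t+1) y (far y z x) z
  | s2 {t : ℕ} {y z x : V} : Out u0 v0 t y z x → Out u0 v0 (t+1) (far y z x) y z
  | s3 {t : ℕ} {y z x : V} : Out u0 v0 t y z x → Out u0 v0 (t+1) z (far y z x) y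
  | s4 {t : ℕ} {y z x : V} : Out u0 v0 t y z x → Out u0 v0 (t+1) (far y z x) z y

def Cls (u0 v0 y z : V) : Prop :=
  (y = u0 ∧ Star u0 v0 z) ∨ (z = u0 ∧ Star u0 v0 y) ∨ (∃ t x, Out u0 v0 t y z x)

section
variable {u0 v0 : V} (hu : u0 ⬝ᵥ u0 = 1) (hv : v0 ⬝ᵥ v0 = 1) (huv : u0 ⬝ᵥ v0 = cc)
include hv huv

theorem star_fact {y : V} (h : Star u0 v0 y) : y ⬝ᵥ y = 1 ∧ u0 ⬝ᵥ y = cc := by
  cases h with
  | base => exact ⟨hv, huv⟩
  | step h1 h2 => exact ⟨h2.1, by rw [dotProduct_comm]; exact h2.2.1⟩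

include hu

theorem out_tri {t : ℕ} {y z x : V} (h : Out u0 v0 t y z x) : Tri y z x := by
  induction h with
  | base h1 h2 =>
    obtain ⟨a, b⟩ := star_fact hv huv h1
    refine ⟨a, h2.1, hu, ?_, ?_, ?_⟩
    · rw [dotProduct_comm]; exact h2.2.2
    · rw [dotProduct_comm]; exact b
    · exact h2.2.1
  | s1 h ih =>
    have hf := far_tri ih
    exact ⟨hf.yy, hf.xx, hf.zz, hf.yx, hf.yz, by rw [dotProduct_comm]; exact hf.zx⟩
  | s2 h ih =>
    have hf := far_tri ih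
    exact ⟨hf.xx, hf.yy, hf.zz, by rw [dotProduct_comm]; exact hf.yx, by rw [dotProduct_comm]; exact hf.zx, hf.yz⟩
  | s3 h ih =>
    have hf := far_tri ih
    exact ⟨hf.zz, hf.xx, hf.yy, hf.zx, by rw [dotProduct_comm]; exact hf.yz, by rw [dotProduct_comm]; exact hf.yx⟩
  | s4 h ih =>
    have hf := far_tri ih
    exact ⟨hf.xx, hf.zz, hf.yy, by rw [dotProduct_comm]; exact hf.zx, by rw [dotProduct_comm]; exact hf.yx,
      by rw [dotProduct_comm]; exact hf.yz⟩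

theorem out_symm {t : ℕ} {y z x : V} (h : Out u0 v0 t y z x) : Out u0 v0 t z y x := by
  have ht := out_tri hu hv huv h
  cases h with
  | base h1 h2 =>
    refine Out.base (Star.step h1 h2) ⟨ht.yy, ht.yx, ht.yz⟩
  | s1 h => exact Out.s2 h
  | s2 h => exact Out.s1 h
  | s3 h => exact Out.s4 h
  | s4 h => exact Out.s3 h

theorem out_arith {t : ℕ} {y z x : V} (h : Out u0 v0 t y z x) :
    ∃ a b a' b' a'' b'' : ℤ, 4 * s5 ^ t * (u0 ⬝ᵥ y) = a + b * s5 ∧ 4 * s5 ^ t * (u0 ⬝ᵥ z) = a' + b' * s5 ∧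
      4 * s5 ^ t * (u0 ⬝ᵥ x) = a'' + b'' * s5 ∧ ¬ (5:ℤ) ∣ (a + a') := by
  have key : ∀ (t : ℕ) (y z x : V) (a b a' b' a'' b'' : ℤ),
      4 * s5 ^ t * (u0 ⬝ᵥ y) = a + b * s5 → 4 * s5 ^ t * (u0 ⬝ᵥ z) = a' + b' * s5 →
      4 * s5 ^ t * (u0 ⬝ᵥ x) = a'' + b'' * s5 → 
      4 * s5 ^ (t+1) * (u0 ⬝ᵥ far y z x)
        = ((-2 * (a + a') - 5 * b'' : ℤ) : ℝ) + ((-2 * (b + b') - a'' : ℤ) : ℝ) * s5 ∧
      4 * s5 ^ (t+1) * (u0 ⬝ᵥ y) = ((5 * b : ℤ) : ℝ) + ((a : ℤ) : ℝ) * s5 ∧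
      4 * s5 ^ (t+1) * (u0 ⬝ᵥ z) = ((5 * b' : ℤ) : ℝ) + ((a' : ℤ) : ℝ) * s5 := by
    intro t y z x a b a' b' a'' b'' e1 e2 e3
    have hs := s5_sq
    have hne := s5_ne
    refine ⟨?_, ?_, ?_⟩
    · simp only [far, dotProduct_sub, dotProduct_smul, dotProduct_add, smul_eq_mul]
      have e4 : 4 * s5 ^ (t+1) * (-(2 / s5) * (u0 ⬝ᵥ y + u0 ⬝ᵥ z) - u0 ⬝ᵥ x)
          = -2 * (4 * s5 ^ t * (u0 ⬝ᵥ y) + 4 * s5 ^ t * (u0 ⬝ᵥ z)) - s5 * (4 * s5 ^ t * (u0 ⬝ᵥ x)) := by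
        rw [pow_succ]
        field_simp
      rw [e4, e1, e2, e3]
      push_cast
      linear_combination (-(b'':ℝ)) * hs
    · have e4 : 4 * s5 ^ (t+1) * (u0 ⬝ᵥ y) = s5 * (4 * s5 ^ t * (u0 ⬝ᵥ y)) := by ring
      rw [e4, e1]
      push_cast
      linear_combination (b:ℝ) * hs
    · have e4 : 4 * s5 ^ (t+1) * (u0 ⬝ᵥ z) = s5 * (4 * s5 ^ t * (u0 ⬝ᵥ z)) := by ring
      rw [e4, e2]
      push_cast
      linear_combination (b':ℝ) * hs
  induction h with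
  | base h1 h2 =>
    obtain ⟨_, b⟩ := star_fact hv huv h1
    obtain ⟨_, b'⟩ := star_fact hv huv (Star.step h1 h2)
    refine ⟨1, -1, 1, -1, 4, 0, ?_, ?_, ?_, by norm_num⟩
    · rw [b]; unfold cc; push_cast; ring
    · rw [b']; unfold cc; push_cast; ring
    · rw [hu]; push_cast; ring
  | s1 h ih =>
    obtain ⟨a, b, a', b', a'', b'', e1, e2, e3, hd⟩ := ih
    obtain ⟨k1, k2, k3⟩ := key _ _ _ _ _ _ _ _ _ _ e1 e2 e3
    exact ⟨_, _, _, _, _, _, k2, k1, k3, by omega⟩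
  | s2 h ih =>
    obtain ⟨a, b, a', b', a'', b'', e1, e2, e3, hd⟩ := ih
    obtain ⟨k1, k2, k3⟩ := key _ _ _ _ _ _ _ _ _ _ e1 e2 e3
    exact ⟨_, _, _, _, _, _, k1, k2, k3, by omega⟩
  | s3 h ih =>
    obtain ⟨a, b, a', b', a'', b'', e1, e2, e3, hd⟩ := ih
    obtain ⟨k1, k2, k3⟩ := key _ _ _ _ _ _ _ _ _ _ e1 e2 e3
    exact ⟨_, _, _, _, _, _, k3, k1, k2, by omega⟩
  | s4 h ih =>
    obtain ⟨a, b, a', b', a'', b'', e1, e2, e3, hd⟩ := ih
    obtain ⟨k1, k2, k3⟩ := key _ _ _ _ _ _ _ _ _ _ e1 e2 e3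
    exact ⟨_, _, _, _, _, _, k1, k3, k2, by omega⟩

theorem far_deep {t : ℕ} {y z x : V} (h : Out u0 v0 t y z x) : Deep u0 (far y z x) := by
  obtain ⟨a, b, a', b', a'', b'', e1, e2, e3, hd⟩ := out_arith hu hv huv h
  refine ⟨t + 1, by omega, -2 * (a + a') - 5 * b'', -2 * (b + b') - a'', ?_, by omega⟩
  have hs := s5_sq
  have hne := s5_ne
  simp only [far, dotProduct_sub, dotProduct_smul, dotProduct_add, smul_eq_mul]
  have e4 : 4 * s5 ^ (t+1) * (-(2 / s5) * (u0 ⬝ᵥ y + u0 ⬝ᵥ z) - u0 ⬝ᵥ x)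
      = -2 * (4 * s5 ^ t * (u0 ⬝ᵥ y) + 4 * s5 ^ t * (u0 ⬝ᵥ z)) - s5 * (4 * s5 ^ t * (u0 ⬝ᵥ x)) := by
    rw [pow_succ]
    field_simp
  rw [e4, e1, e2, e3]
  push_cast
  linear_combination (-(b'':ℝ)) * hs

theorem out_kind {t : ℕ} {y z x : V} (h : Out u0 v0 t y z x) :
    (Star u0 v0 y ∨ Deep u0 y) ∧ (Star u0 v0 z ∨ Deep u0 z) := by
  induction h with
  | base h1 h2 => exact ⟨Or.inl h1, Or.inl (Star.step h1 h2)⟩
  | s1 h ih => exact ⟨ih.1, Or.inr (far_deep hu hv huv h)⟩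
  | s2 h ih => exact ⟨Or.inr (far_deep hu hv huv h), ih.1⟩
  | s3 h ih => exact ⟨ih.2, Or.inr (far_deep hu hv huv h)⟩
  | s4 h ih => exact ⟨Or.inr (far_deep hu hv huv h), ih.2⟩

theorem out_near {t : ℕ} {y z x : V} (h : Out u0 v0 t y z x) :
    Cls u0 v0 y x ∧ Cls u0 v0 z x := by
  cases h with
  | base h1 h2 => exact ⟨Or.inr (Or.inl ⟨rfl, h1⟩), Or.inr (Or.inl ⟨rfl, Star.step h1 h2⟩)⟩
  | s1 h => exact ⟨Or.inr (Or.inr ⟨_, _, h⟩), Or.inr (Or.inr ⟨_, _, Out.s4 h⟩)⟩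
  | s2 h => exact ⟨Or.inr (Or.inr ⟨_, _, Out.s4 h⟩), Or.inr (Or.inr ⟨_, _, h⟩)⟩
  | s3 h => exact ⟨Or.inr (Or.inr ⟨_, _, out_symm hu hv huv h⟩), Or.inr (Or.inr ⟨_, _, Out.s2 h⟩)⟩
  | s4 h => exact ⟨Or.inr (Or.inr ⟨_, _, Out.s2 h⟩), Or.inr (Or.inr ⟨_, _, out_symm hu hv huv h⟩)⟩

theorem rch_cls {y z : V} (h : Rch u0 v0 y z) : Cls u0 v0 y z := by
  induction h with
  | base => exact Or.inl ⟨rfl, Star.base⟩
  | swap h ih =>
    rcases ih with ⟨h1, h2⟩ | ⟨h1, h2⟩ | ⟨t, x, h1⟩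
    · exact Or.inr (Or.inl ⟨h1, h2⟩)
    · exact Or.inl ⟨h1, h2⟩
    · exact Or.inr (Or.inr ⟨t, x, out_symm hu hv huv h1⟩)
  | turn h h3 ih =>
    rcases ih with ⟨h1, h2⟩ | ⟨h1, h2⟩ | ⟨t, x, h1⟩
    · subst h1
      exact Or.inl ⟨rfl, Star.step h2 h3⟩
    · subst h1
      exact Or.inr (Or.inr ⟨0, _, Out.base h2 ⟨h3.1, h3.2.2, h3.2.1⟩⟩)
    · rcases third_unique (out_tri hu hv huv h1) h3 with h4 | h4
      · rw [h4]
        exact (out_near hu hv huv h1).1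
      · rw [h4]
        exact Or.inr (Or.inr ⟨_, _, Out.s1 h1⟩)

end

theorem vert_tree {u0 v0 : V} (hu : u0 ⬝ᵥ u0 = 1) (hv : v0 ⬝ᵥ v0 = 1) (huv : u0 ⬝ᵥ v0 = cc)
    {y z : V} (h : Rch u0 v0 y z) :
    (y = u0 → Star u0 v0 z) ∧ (u0 ⬝ᵥ y = cc → Star u0 v0 y) := by
  have hc := rch_cls hu hv huv h
  constructor
  · intro hy
    rcases hc with ⟨h1, h2⟩ | ⟨h1, h2⟩ | ⟨t, x, h1⟩
    · exact h2
    · exfalso
      have := (star_fact hv huv h2).2
      rw [hy, hu] at this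
      exact cc_ne_one this.symm
    · exfalso
      rcases (out_kind hu hv huv h1).1 with h3 | h3
      · have := (star_fact hv huv h3).2
        rw [hy, hu] at this
        exact cc_ne_one this.symm
      · exact deep_ne_one h3 (by rw [hy, hu])
  · intro hy
    rcases hc with ⟨h1, h2⟩ | ⟨h1, h2⟩ | ⟨t, x, h1⟩
    · exfalso
      rw [h1, hu] at hy
      exact cc_ne_one hy.symm
    · exact h2
    · rcases (out_kind hu hv huv h1).1 with h3 | h3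
      · exact h3
      · exact absurd hy (deep_ne_cc h3)

end

end Pool.Agent.Helper275.Pent
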