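import Pool.Agent.Helper275.Pent.Map
import Pool.Agent.Helper275.Pent.Vert

set_option autoImplicit false



namespace Pool.Agent.Helper275.Pent

open scoped Matrix Classical

noncomputable section

theorem region_sum {D : Type} [Fintype D] (r : D → D → Prop) (f : D → D) (S : Set D) (g : D)
    (h : ∀ d, ¬ Relation.EqvGen r g d → 4 ≤ Set.ncard {e | e ∈ S ∧ Relation.EqvGen r d (f e)}) :
    4 * (Nat.card (Quot r)) ≤ Set.ncard S + 4 := by
  classical
  have : Fintype (Quot r) := Fintype.ofFinite _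
  have h0 : ∀ q : Quot r, q ≠ Quot.mk r g →
      4 ≤ (S.toFinset.filter (fun e => Quot.mk r (f e) = q)).card := by
    intro q hq
    induction q using Quot.ind with
    | mk d =>
      have h1 : ¬ Relation.EqvGen r g d := by
        intro h2
        exact hq (Quot.eqvGen_sound h2).symm
      have h3 := h d h1
      refine h3.trans ?_
      rw [← Set.ncard_coe_finset]
      apply Set.ncard_le_ncard _ (Set.toFinite _)
      rintro e ⟨he1, he2⟩
      simp only [Finset.coe_filter, Set.mem_toFinset, Set.mem_ofPred_eq]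
      exact ⟨he1, (Quot.eqvGen_sound he2).symm⟩
  have h1 : S.toFinset.card = ∑ q : Quot r, (S.toFinset.filter (fun e => Quot.mk r (f e) = q)).card :=
    Finset.card_eq_sum_card_fiberwise (fun _ _ => Finset.mem_univ _)
  have h2 : ∑ q ∈ (Finset.univ : Finset (Quot r)).erase (Quot.mk r g), 4
      ≤ ∑ q : Quot r, (S.toFinset.filter (fun e => Quot.mk r (f e) = q)).card := by
    calc ∑ q ∈ (Finset.univ : Finset (Quot r)).erase (Quot.mk r g), 4
        ≤ ∑ q ∈ (Finset.univ : Finset (Quot r)).erase (Quot.mk r g),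
            (S.toFinset.filter (fun e => Quot.mk r (f e) = q)).card :=
          Finset.sum_le_sum (fun q hq => h0 q (Finset.ne_of_mem_erase hq))
      _ ≤ _ := Finset.sum_le_sum_of_subset (Finset.erase_subset _ _)
  rw [Finset.sum_const, Finset.card_erase_of_mem (Finset.mem_univ _), Finset.card_univ,
    smul_eq_mul] at h2
  have h3 : Set.ncard S = S.toFinset.card := Set.ncard_eq_toFinset_card' S
  rw [Nat.card_eq_fintype_card, h3, h1]
  omega

variable {D : Type} [Fintype D]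

/-! ### vertices -/

theorem R_dot_u (P : Fr) (s : Bool) : P.R s ⬝ᵥ P.u = cc := by
  rw [dot_comm']
  exact (Dd s P).huv

theorem R_dot_v (P : Fr) (s : Bool) : P.R s ⬝ᵥ P.v = cc := by
  unfold Fr.R
  conv_lhs => rw [P.lin_v]
  rw [P.lin_dot]
  have h1 := s5_sq
  unfold cc
  linear_combination (1 / 20 : ℝ) * h1

theorem R_third (P : Fr) (s : Bool) : IsThird P.u P.v (P.R s) :=
  ⟨R_dot_self P s, R_dot_u P s, R_dot_v P s⟩

theorem Dd_it_u (s : Bool) (P : Fr) (j : ℕ) : ((Dd s)^[j] P).u = P.u := by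
  induction j with
  | zero => rfl
  | succ j ih => rw [Function.iterate_succ_apply']; exact ih

theorem Dd_it_o (s : Bool) (P : Fr) (j : ℕ) : ((Dd s)^[j] P).o = P.o := by
  induction j with
  | zero => rfl
  | succ j ih => rw [Function.iterate_succ_apply']; exact ih

theorem star_Dd (s : Bool) (P : Fr) (j : ℕ) : Star P.u P.v ((Dd s)^[j] P).v := by
  induction j with
  | zero => exact Star.base
  | succ j ih =>
    rw [Function.iterate_succ_apply']
    refine Star.step ih ?_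
    have h := R_third ((Dd s)^[j] P) s
    rw [Dd_it_u] at h
    exact h

theorem Dd_of_star (P : Fr) {w : V} (h : Star P.u P.v w) :
    ∃ (s : Bool) (j : ℕ), ((Dd s)^[j] P).v = w := by
  induction h with
  | base => exact ⟨true, 0, rfl⟩
  | step hz hx ih =>
    obtain ⟨s, j, hj⟩ := ih
    rename_i z x
    have hu := Dd_it_u s P j
    have h1 : ∃ s'' : Bool, x = ((Dd s)^[j] P).R s'' := by
      rcases R_unique ((Dd s)^[j] P) x hx.1 (by rw [hu]; exact hx.2.1)
        (by rw [hj]; exact hx.2.2) with h | h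
      · exact ⟨true, h⟩
      · exact ⟨false, h⟩
    obtain ⟨s'', hs''⟩ := h1
    by_cases hss : s'' = s
    · refine ⟨s, j + 1, ?_⟩
      rw [Function.iterate_succ_apply', hs'', hss]
      rfl
    · have hs' : s'' = !s := by cases s <;> cases s'' <;> simp_all
      cases j with
      | zero =>
        refine ⟨s'', 1, ?_⟩
        rw [hs'']
        rfl
      | succ j =>
        refine ⟨s, j, ?_⟩
        have h2 : Dd (!s) ((Dd s)^[j + 1] P) = (Dd s)^[j] P := by
          rw [Function.iterate_succ_apply', Dd_Dd]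
        rw [← h2, hs'', hs']
        rfl

theorem good_star (M : PMap D) {e : D} (h : Good M e) :
    Star (M.fr e).u (M.fr e).v (M.fr (M.ph (M.gl e))).u := by
  obtain ⟨s, j, hj⟩ := h
  rw [M.fr_ph, hj, rho_kap]
  exact star_Dd s (M.fr e) j

theorem good_of_star (M : PMap D) {e : D}
    (h : Star (M.fr e).u (M.fr e).v (M.fr (M.ph (M.gl e))).u) : Good M e := by
  obtain ⟨s, j, hj⟩ := Dd_of_star (M.fr e) h
  refine ⟨s, j, ?_⟩
  have hu := Dd_it_u s (M.fr e) j
  have ho := Dd_it_o s (M.fr e) j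
  ext1
  · rw [M.fr_o]
    show _ = ((Dd s)^[j] (M.fr e)).o + ((Dd s)^[j] (M.fr e)).u
    rw [hu, ho]
  · rw [M.fr_u]
    show _ = -((Dd s)^[j] (M.fr e)).u
    rw [hu]
  · show _ = ((s5 - 1) / 2) • ((Dd s)^[j] (M.fr e)).u + ((Dd s)^[j] (M.fr e)).v
    rw [hj, hu, M.fr_ph]
    show _ = ((s5 - 1) / 2) • (M.fr e).u + (((s5 - 1) / 2) • (M.fr (M.gl e)).u + (M.fr (M.gl e)).v)
    rw [M.fr_u]
    module

theorem Star.trans' {u v w x : V} (h1 : Star u v w) (h2 : Star u w x) : Star u v x := by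
  induction h2 with
  | base => exact h1
  | step _ hx ih => exact Star.step ih hx

theorem Star.inv' {u v w : V} (h : Star u v w) (hv : v ⬝ᵥ v = 1) (huv : u ⬝ᵥ v = cc) :
    w ⬝ᵥ w = 1 ∧ u ⬝ᵥ w = cc := by
  induction h with
  | base => exact ⟨hv, huv⟩
  | step _ hx _ => exact ⟨hx.1, by rw [dot_comm']; exact hx.2.1⟩

theorem Star.symm' {u v w : V} (h : Star u v w) (hv : v ⬝ᵥ v = 1) (huv : u ⬝ᵥ v = cc) :
    Star u w v := by
  induction h with
  | base => exact Star.base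
  | step hz hx ih =>
    rename_i z x
    have h1 := hz.inv' hv huv
    have h2 : IsThird u x z := ⟨h1.1, by rw [dot_comm']; exact h1.2, by
      rw [dot_comm']; exact hx.2.2⟩
    exact (Star.step Star.base h2).trans' ih

theorem Rch.star' {u0 v0 y z x : V} (h : Rch u0 v0 y z) (hs : Star y z x) : Rch u0 v0 y x := by
  induction hs with
  | base => exact h
  | step _ hx ih => exact Rch.turn ih hx

/-- edge directions around a vertex -/
def aa (M : PMap D) (d : D) (i : ℕ) : V := (M.fr (((M.ph * M.gl) ^ i) d)).u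

theorem aa_v (M : PMap D) (d : D) (i : ℕ) :
    (M.fr (((M.ph * M.gl) ^ (i + 1)) d)).v = aa M d i := by
  rw [pow_succ', Equiv.Perm.mul_apply, sg_apply, fr_sg_v]
  rfl

theorem aa_unit (M : PMap D) (d : D) (i : ℕ) : aa M d i ⬝ᵥ aa M d i = 1 :=
  (M.fr (((M.ph * M.gl) ^ i) d)).hu

theorem aa_dot (M : PMap D) (d : D) (i : ℕ) : aa M d i ⬝ᵥ aa M d (i + 1) = cc := by
  have h := (M.fr (((M.ph * M.gl) ^ (i + 1)) d)).huv
  rw [aa_v] at h
  rw [dot_comm']
  exact h

theorem aa_star (M : PMap D) (d : D) (i : ℕ) (h : Good M (((M.ph * M.gl) ^ (i + 1)) d)) :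
    Star (aa M d (i + 1)) (aa M d i) (aa M d (i + 2)) := by
  have h1 := good_star M h
  rw [aa_v] at h1
  have h2 : M.ph (M.gl (((M.ph * M.gl) ^ (i + 1)) d)) = ((M.ph * M.gl) ^ (i + 2)) d := by
    rw [pow_succ' _ (i + 1), Equiv.Perm.mul_apply, sg_apply]
  rw [h2] at h1
  exact h1

theorem aa_star' (M : PMap D) (d : D) (i : ℕ) (h : Good M (((M.ph * M.gl) ^ (i + 1)) d)) :
    Star (aa M d (i + 1)) (aa M d (i + 2)) (aa M d i) := by
  apply (aa_star M d i h).symm' (aa_unit M d i)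
  rw [dot_comm']
  exact aa_dot M d i

theorem rch_fwd (M : PMap D) (d : D) (m : ℕ)
    (h : ∀ i, 0 < i → i < m + 1 → Good M (((M.ph * M.gl) ^ i) d)) :
    Rch (aa M d 0) (aa M d 1) (aa M d m) (aa M d (m + 1)) := by
  induction m with
  | zero => exact Rch.base
  | succ m ih =>
    have h1 := ih (fun i hi hi2 => h i hi (by omega))
    exact h1.swap.star' (aa_star M d m (h (m + 1) (by omega) (by omega)))

theorem rch_bwd (M : PMap D) (e : D) (n : ℕ)
    (h : ∀ i, 0 < i → i < n + 1 → Good M (((M.ph * M.gl) ^ i) e)) :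
    Rch (aa M e (n + 1)) (aa M e n) (aa M e 1) (aa M e 0) := by
  have key : ∀ k, k ≤ n → Rch (aa M e (n + 1)) (aa M e n) (aa M e (n - k + 1)) (aa M e (n - k)) := by
    intro k
    induction k with
    | zero => intro _; exact Rch.base
    | succ k ih =>
      intro hk
      have h1 := ih (by omega)
      obtain ⟨j, hj⟩ : ∃ j, n - k = j + 1 := ⟨n - k - 1, by omega⟩
      have hj2 : n - (k + 1) = j := by omega
      rw [hj] at h1
      rw [hj2]
      exact h1.swap.star' (aa_star' M e j (h (j + 1) (by omega) (by omega)))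
  have := key n le_rfl
  rwa [Nat.sub_self] at this

theorem next_fwd (M : PMap D) {d e : D} (h1 : IsNext (M.ph * M.gl) (Bad M) d e)
    (hc : (M.fr d).u ⬝ᵥ (M.fr e).u = cc) :
    Star (M.fr d).u (M.fr (M.ph (M.gl d))).u (M.fr e).u := by
  obtain ⟨m, hm, he, _, hall⟩ := h1
  obtain ⟨m, rfl⟩ : ∃ m', m = m' + 1 := ⟨m - 1, by omega⟩
  have h2 := rch_fwd M d m (fun i hi hi2 => not_not.1 (hall i hi hi2))
  have ha0 : aa M d 0 = (M.fr d).u := rfl
  have ha1 : aa M d 1 = (M.fr (M.ph (M.gl d))).u := rfl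
  have ham : aa M d (m + 1) = (M.fr e).u := by rw [he]; rfl
  have h3 := (vert_tree (aa_unit M d 0) (aa_unit M d 1) (aa_dot M d 0) h2.swap).2
    (by rw [ha0, ham]; exact hc)
  rw [ha0, ha1, ham] at h3
  exact h3

theorem next_bwd (M : PMap D) {d e : D} (h1 : IsNext (M.ph * M.gl) (Bad M) e d)
    (hc : (M.fr d).u ⬝ᵥ (M.fr e).u = cc) :
    Star (M.fr d).u (M.fr d).v (M.fr e).u := by
  obtain ⟨m, hm, he, _, hall⟩ := h1
  obtain ⟨m, rfl⟩ : ∃ m', m = m' + 1 := ⟨m - 1, by omega⟩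
  have h2 := rch_bwd M e m (fun i hi hi2 => not_not.1 (hall i hi hi2))
  have ha0 : aa M e 0 = (M.fr e).u := rfl
  have ham : aa M e (m + 1) = (M.fr d).u := by rw [he]; rfl
  have hamv : aa M e m = (M.fr d).v := by rw [he, aa_v]
  have hdot : aa M e (m + 1) ⬝ᵥ aa M e m = cc := by rw [dot_comm']; exact aa_dot M e m
  have h3 := (vert_tree (aa_unit M e (m + 1)) (aa_unit M e m) hdot h2.swap).2
    (by rw [ha0, ham]; exact hc)
  rw [ha0, ham, hamv] at h3
  exact h3

theorem next_concl (M : PMap D) {d : D} {w : V} (hd : Bad M d)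
    (h1 : Star (M.fr d).u (M.fr (M.ph (M.gl d))).u w) (h2 : Star (M.fr d).u (M.fr d).v w) :
    False := by
  apply hd
  apply good_of_star
  refine h2.trans' (h1.symm' (M.fr (M.ph (M.gl d))).hu ?_)
  exact aa_dot M d 0

theorem next_ne (M : PMap D) {d : D} (hd : Bad M d)
    (h : IsNext (M.ph * M.gl) (Bad M) d d) : False := by
  obtain ⟨m, hm, he, _, hall⟩ := h
  obtain ⟨m, rfl⟩ : ∃ m', m = m' + 1 := ⟨m - 1, by omega⟩
  have h2 := rch_fwd M d m (fun i hi hi2 => not_not.1 (hall i hi hi2))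
  have ha1 : aa M d 1 = (M.fr (M.ph (M.gl d))).u := rfl
  have ham : aa M d (m + 1) = (M.fr d).u := by
    show (M.fr (((M.ph * M.gl) ^ (m + 1)) d)).u = _
    rw [← he]
  have hamv : aa M d m = (M.fr d).v := by rw [← aa_v, ← he]
  have h3 := (vert_tree (aa_unit M d 0) (aa_unit M d 1) (aa_dot M d 0) h2.swap).1 ham
  rw [ha1, hamv] at h3
  exact next_concl M hd h3 Star.base

theorem next_two (M : PMap D) {d e : D} (h1 : IsNext (M.ph * M.gl) (Bad M) d e)
    (h2 : IsNext (M.ph * M.gl) (Bad M) e d) (hc : (M.fr d).u ⬝ᵥ (M.fr e).u = cc) : False :=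
  next_concl M h2.choose_spec.2.2.1 (next_fwd M h1 hc) (next_bwd M h2 hc)

theorem next_three (M : PMap D) {d e f : D} (h1 : IsNext (M.ph * M.gl) (Bad M) d e)
    (h2 : IsNext (M.ph * M.gl) (Bad M) e f) (h3 : IsNext (M.ph * M.gl) (Bad M) f d)
    (c1 : (M.fr d).u ⬝ᵥ (M.fr e).u = cc) (c2 : (M.fr e).u ⬝ᵥ (M.fr f).u = cc)
    (c3 : (M.fr f).u ⬝ᵥ (M.fr d).u = cc) : False := by
  refine next_concl M h3.choose_spec.2.2.1 ((next_fwd M h1 c1).step ?_)
    (next_bwd M h3 (by rw [dot_comm']; exact c3))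
  exact ⟨(M.fr f).hu, c3, by rw [dot_comm']; exact c2⟩

/-! ### belts -/

theorem rho_iter5 (P : Fr) (n : ℕ) : rhoF^[n + 5] P = rhoF^[n] P := by
  rw [Function.iterate_add_apply]
  congr 1
  exact rho_pow5 P

theorem u_lin_ne (P : Fr) (a b : ℝ) (hb : b ≠ 0) : a • P.u + b • P.v ≠ -P.u := by
  intro h
  have e1 : P.lin a b 0 = a • P.u + b • P.v := by
    unfold Fr.lin
    rw [zero_smul, add_zero]
  have e2 : P.lin (-1) 0 0 = -P.u := by
    unfold Fr.lin
    rw [zero_smul, zero_smul, add_zero, add_zero, neg_one_smul]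
  have h1 : P.lin a b 0 = P.lin (-1) 0 0 := by rw [e1, e2, h]
  exact hb (P.lin_inj h1).2.1

theorem dir_ne (P : Fr) (n : ℕ) : (rhoF^[n] P).u ≠ - P.u := by
  induction n using Nat.strong_induction_on with
  | _ n ih =>
  by_cases hn : 5 ≤ n
  · obtain ⟨m, rfl⟩ : ∃ m, n = m + 5 := ⟨n - 5, by omega⟩
    rw [rho_iter5]
    exact ih m (by omega)
  · push Not at hn
    have h1 := s5_sq
    have hgt := s5_gt
    have hkk : ((s5 - 1) / 2) * ((s5 - 1) / 2) = 1 - (s5 - 1) / 2 := by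
      linear_combination (1 / 4 : ℝ) * h1
    set k : ℝ := (s5 - 1) / 2 with hk
    have hk0 : 0 < k := by rw [hk]; linarith
    interval_cases n
    · intro h
      have e1 : P.lin 1 0 0 = P.lin (-1) 0 0 := by
        have e2 : P.lin (-1) 0 0 = -P.u := by
          unfold Fr.lin
          rw [zero_smul, zero_smul, add_zero, add_zero, neg_one_smul]
        rw [e2, ← P.lin_u]
        exact h
      have := (P.lin_inj e1).1
      norm_num at this
    · have e : (rhoF^[1] P).u = k • P.u + (1 : ℝ) • P.v := by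
        change k • P.u + P.v = _
        rw [one_smul]
      rw [e]
      exact u_lin_ne P _ _ one_ne_zero
    · have e : (rhoF^[2] P).u = (k * k - 1) • P.u + k • P.v := by
        change k • (k • P.u + P.v) + -P.u = _
        module
      rw [e]
      exact u_lin_ne P _ _ hk0.ne'
    · have e : (rhoF^[3] P).u = (k * (k * k - 1) - k) • P.u + (k * k - 1) • P.v := by
        change k • (k • (k • P.u + P.v) + -P.u) + -(k • P.u + P.v) = _
        module
      rw [e]
      apply u_lin_ne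
      rw [hkk]
      intro h
      linarith
    · have e : (rhoF^[4] P).u = (k * (k * (k * k - 1) - k) - (k * k - 1)) • P.u
          + (k * (k * k - 1) - k) • P.v := by
        change k • (k • (k • (k • P.u + P.v) + -P.u) + -(k • P.u + P.v))
          + -(k • (k • P.u + P.v) + -P.u) = _
        module
      rw [e]
      apply u_lin_ne
      rw [hkk]
      intro h
      have : k * (1 - k - 1) - k = -(k * k) - k := by ring
      rw [this, hkk] at h
      linarith

theorem step_G1 (M : PMap D) (P : Fr) (s : Bool) (N : ℤ) (R : Set D)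
    (hRg : ∀ d ∈ R, Good M d → M.gl d ∈ R)
    (hmax : ∀ d ∈ R, ∀ s' k a b c, St P (M.fr d) s' k a b c → k ≤ N)
    (d : D) (hd : d ∈ R) {a b c : ZMod 5} (hSt : St P (M.fr d) s (N - 1) a b c)
    (hab : a + b ≠ 0) (ha : a ≠ 0) (hg : Good M d) : Adj M s d := by
  have : Fact (Nat.Prime 5) := ⟨by norm_num⟩
  have hgR := hRg d hd hg
  obtain ⟨s', j, hj⟩ := hg
  rcases Nat.eq_zero_or_pos j with rfl | hj0
  · exact absurd hj (M.nofold d)
  by_cases hs : s' = s
  · subst hs
    rcases Nat.lt_or_ge j 2 with hj2 | hj2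
    · have hj1 : j = 1 := by omega
      subst hj1
      unfold Adj
      rw [hj, Function.iterate_one, kapF_Dd]
    · exfalso
      have h1 := St_tau hSt
      have hq := St_quad hSt
      have hne : -a + (c + 2 * a) ≠ 0 := by
        intro h
        have hc : c = -a := by linear_combination h
        rw [hc] at hq
        have h2 : a * a = 0 := by linear_combination -hq
        rcases mul_eq_zero.1 h2 with h3 | h3 <;> exact ha h3
      have h2 := St_up h1 hne
      rw [sub_add_cancel] at h2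
      have h3 := St_kap h2
      rw [kap_tau_eq, Bool.not_not] at h3
      have h4 : (-(0 : ZMod 5)) = 0 := neg_zero
      have h5 : (2 * (0 : ZMod 5) + 0) = 0 := by ring
      rw [h4, h5] at h3
      obtain ⟨c', h6⟩ := St_chain h3 (j - 1)
      have h7 := St_kap h6
      have h8 : (Dd s')^[j - 1] (Dd s' (M.fr d)) = (Dd s')^[j] (M.fr d) := by
        rw [← Function.iterate_succ_apply]
        congr 2
        omega
      rw [h8, ← hj] at h7
      have h9 := hmax _ hgR _ _ _ _ _ h7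
      have h10 : ((j - 1 : ℕ) : ℤ) = (j : ℤ) - 1 := by omega
      omega
  · exfalso
    have hs' : s' = !s := by cases s' <;> cases s <;> simp_all
    subst hs'
    have h2 := St_up hSt hab
    rw [sub_add_cancel] at h2
    obtain ⟨c', h6⟩ := St_chain h2 j
    have h7 := St_kap h6
    rw [← hj] at h7
    have h9 := hmax _ hgR _ _ _ _ _ h7
    omega

theorem z5aux : ∀ x : ZMod 5, (x = 1 ∨ x = 2 ∨ x = 3) → x ≠ 0 ∧ x + 1 ≠ 0 ∧ x + 1 ≠ 1 := by
  decide

theorem R_dot_vb (P : Fr) (s : Bool) : P.v ⬝ᵥ P.R s = cc := by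
  unfold Fr.R
  conv_lhs => rw [P.lin_v]
  rw [P.lin_dot]
  have h1 := s5_sq
  unfold cc
  linear_combination (1 / 20 : ℝ) * h1

theorem belt_alt (M : PMap D) (P : Fr) (s : Bool) (N : ℤ) (R E G : Set D)
    (hR : ∀ d ∈ R, M.ph d ∈ R) (hRg : ∀ d ∈ R, Good M d → M.gl d ∈ R)
    (hmax : ∀ d ∈ R, ∀ s' k a b c, St P (M.fr d) s' k a b c → k ≤ N)
    (hER : E ⊆ R) (hEne : E.Nonempty)
    (hEn : ∀ d ∈ E, ∃ a b c, St P (M.fr d) s (N - 1) a b c ∧ a + b ≠ 0)
    (hEph : ∀ d, d ∈ E ↔ M.ph d ∈ E)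
    (hEgl : ∀ d ∈ E, Good M d → (∃ a b c, St P (M.fr d) s (N - 1) a b c ∧ a ≠ 0) → M.gl d ∈ E)
    (hG : ∀ d ∈ E, d ∉ G) :
    CBelt M G ∨
      (3 ≤ Set.ncard {e | Bad M e ∧ T0 M e ∧ M.gl e ∈ E ∧
          ∃ a b c, St P (M.fr (M.gl e)) s (N - 1) a b c ∧ a ≠ 0} ∧
        4 ≤ Set.ncard {d | d ∈ E ∧ Bad M d}) := by
  have : Fact (Nat.Prime 5) := ⟨by norm_num⟩
  have hch : ∀ d : D, ∃ t : ZMod 5 × ZMod 5 × ZMod 5, d ∈ E →
      St P (M.fr d) s (N - 1) t.1 t.2.1 t.2.2 ∧ t.1 + t.2.1 ≠ 0 := by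
    intro d
    by_cases hd : d ∈ E
    · obtain ⟨a, b, c, h1, h2⟩ := hEn d hd
      exact ⟨(a, b, c), fun _ => ⟨h1, h2⟩⟩
    · exact ⟨(0, 0, 0), fun h => absurd h hd⟩
  choose t ht using hch
  set A : D → ZMod 5 := fun d => (t d).1 with hA
  set B : D → ZMod 5 := fun d => (t d).2.1 with hB
  set C : D → ZMod 5 := fun d => (t d).2.2 with hC
  have hSt : ∀ d ∈ E, St P (M.fr d) s (N - 1) (A d) (B d) (C d) := fun d hd => (ht d hd).1
  have hS0 : ∀ d ∈ E, A d + B d ≠ 0 := fun d hd => (ht d hd).2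
  set idx : D → ZMod 5 := fun d => A d * (A d + B d)⁻¹ with hidxdef
  set dl : D → ZMod 5 := fun d => A d + B d with hdldef
  have hidx0 : ∀ d ∈ E, idx d ≠ 0 → A d ≠ 0 := by
    intro d _ h hA0
    apply h
    rw [hidxdef]
    change A d * (A d + B d)⁻¹ = 0
    rw [hA0, zero_mul]
  -- behaviour under `ph`
  have hphE : ∀ d ∈ E, M.ph d ∈ E := fun d hd => (hEph d).1 hd
  have hphv : ∀ d ∈ E, A (M.ph d) = 2 * A d + B d ∧ B (M.ph d) = -A d := by
    intro d hd
    have h1 := St_rho (hSt d hd)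
    rw [← M.fr_ph] at h1
    obtain ⟨-, h2, h3, -⟩ := St_unique (hSt _ (hphE d hd)) h1
    exact ⟨h2, h3⟩
  have hdlph : ∀ d ∈ E, dl (M.ph d) = dl d := by
    intro d hd
    obtain ⟨h1, h2⟩ := hphv d hd
    change A (M.ph d) + B (M.ph d) = A d + B d
    rw [h1, h2]; ring
  have hidxph : ∀ d ∈ E, idx (M.ph d) = idx d + 1 := by
    intro d hd
    obtain ⟨h1, h2⟩ := hphv d hd
    have hS := hS0 d hd
    change A (M.ph d) * (A (M.ph d) + B (M.ph d))⁻¹ = A d * (A d + B d)⁻¹ + 1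
    rw [h1, h2]
    have e : 2 * A d + B d + -A d = A d + B d := by ring
    rw [e]
    field_simp
    ring
  -- good darts
  have hadj : ∀ d ∈ E, idx d ≠ 0 → Good M d → Adj M s d := by
    intro d hd hi hg
    exact step_G1 M P s N R hRg hmax d (hER hd) (hSt d hd) (hS0 d hd) (hidx0 d hd hi) hg
  have hglE : ∀ d ∈ E, idx d ≠ 0 → Good M d → M.gl d ∈ E := by
    intro d hd hi hg
    exact hEgl d hd hg ⟨A d, B d, C d, hSt d hd, hidx0 d hd hi⟩
  have hglv : ∀ d ∈ E, idx d ≠ 0 → Good M d →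
      idx (M.gl d) = -(idx d)⁻¹ ∧ dl (M.gl d) = (idx d) ^ 2 * dl d := by
    intro d hd hi hg
    have hE' := hglE d hd hi hg
    have ha := hadj d hd hi hg
    have h1 := St_tau (hSt d hd)
    rw [← ha] at h1
    obtain ⟨-, h2, h3, -⟩ := St_unique (hSt _ hE') h1
    have hq := St_quad (hSt d hd)
    have hS := hS0 d hd
    have hA0 := hidx0 d hd hi
    have hc : (A d + B d) * (A d + C d) = A d * A d := by linear_combination hq
    have hac : A d + C d = A d * A d * (A d + B d)⁻¹ := by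
      rw [← hc]
      field_simp
    have hsum : A (M.gl d) + B (M.gl d) = A d + C d := by
      rw [h2, h3]; ring
    constructor
    · change A (M.gl d) * (A (M.gl d) + B (M.gl d))⁻¹ = -(A d * (A d + B d)⁻¹)⁻¹
      rw [hsum, hac, h2]
      field_simp
    · change A (M.gl d) + B (M.gl d) = (A d * (A d + B d)⁻¹) ^ 2 * (A d + B d)
      rw [hsum, hac]
      field_simp
  by_cases hall : ∀ d ∈ E, idx d ≠ 0 → Good M d
  · left
    refine ⟨s, E, idx, hEne, hG, fun d hd => ⟨hphE d hd, hidxph d hd⟩, ?_⟩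
    intro d hd hi
    exact ⟨hadj d hd hi (hall d hd hi), hglE d hd hi (hall d hd hi),
      (hglv d hd hi (hall d hd hi)).1⟩
  · right
    push Not at hall
    obtain ⟨d1, hd1, hi1, hb1⟩ := hall
    have hz1 := z5aux
    have hrun : ∀ d ∈ E, Bad M d → (idx d = 1 ∨ idx d = 2 ∨ idx d = 3) →
        Bad M (M.ph d) ∨ Bad M (M.ph (M.gl (M.ph d))) := by
      intro d hd hb hi
      by_contra hno
      push Not at hno
      obtain ⟨hno1, hno2⟩ := hno
      have hg1 : Good M (M.ph d) := not_not.1 hno1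
      have hg2 : Good M (M.ph (M.gl (M.ph d))) := not_not.1 hno2
      obtain ⟨-, hx1, hx2⟩ := hz1 _ hi
      have hcE := hphE d hd
      have hci : idx (M.ph d) ≠ 0 := by rw [hidxph d hd]; exact hx1
      have hc1 : idx (M.ph d) ≠ 1 := by rw [hidxph d hd]; exact hx2
      have hAc := hadj _ hcE hci hg1
      have hgcE := hglE _ hcE hci hg1
      have heE := hphE _ hgcE
      have hei : idx (M.ph (M.gl (M.ph d))) ≠ 0 := by
        rw [hidxph _ hgcE, (hglv _ hcE hci hg1).1]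
        intro h
        apply hc1
        have h2 : (idx (M.ph d))⁻¹ = 1 := by linear_combination -h
        exact inv_eq_one.1 h2
      have hAe := hadj _ heE hei hg2
      obtain ⟨h3, h4⟩ := close3 M hAc hAe
      have h5 : M.gl (M.ph (M.gl (M.ph (M.gl (M.ph d))))) = d := M.ph.injective h3
      have h6 := h4.gl
      rw [h5] at h6
      exact hb h6.good
    have hself : ∀ d ∈ E, M.gl (M.ph (M.ph (M.ph d))) ≠ d := by
      intro d _ h
      have h1 := M.fr_u (M.ph (M.ph (M.ph d)))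
      rw [h] at h1
      have h2 : M.fr (M.ph (M.ph (M.ph d))) = rhoF^[3] (M.fr d) := by
        rw [M.fr_ph, M.fr_ph, M.fr_ph]; rfl
      rw [h2] at h1
      apply dir_ne (M.fr d) 3
      rw [h1, neg_neg]
    obtain ⟨hc1, hc2⟩ := belt_count M.ph M.gl (Bad M) E idx dl M.gl_gl (bad_gl M) hEph hidxph
      hdlph hS0 (fun d hd hi hb => by
        have hg : Good M d := not_not.1 hb
        exact ⟨hglE d hd hi hg, (hglv d hd hi hg).1, (hglv d hd hi hg).2⟩)
      hrun hself ⟨d1, hd1, hb1, hi1⟩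
    refine ⟨?_, ?_⟩
    · refine hc1.trans ?_
      rw [← Set.ncard_image_of_injective _ M.gl.injective]
      apply Set.ncard_le_ncard _ (Set.toFinite _)
      rintro _ ⟨d, ⟨hd, hb, hi⟩, rfl⟩
      obtain ⟨hx0, hx1, -⟩ := hz1 _ hi
      have hgg : M.gl (M.gl d) = d := M.gl_gl d
      refine ⟨(bad_gl M d).2 hb, ?_, by rw [hgg]; exact hd, A d, B d, C d, by
        rw [hgg]; exact hSt d hd, hidx0 d hd hx0⟩
      have hv : (M.fr (M.gl d)).u = (M.fr (M.ph d)).v := by
        rw [M.fr_u, M.fr_ph]; rfl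
      have hsg1 : (M.ph * M.gl) (M.gl d) = M.ph d := by
        rw [sg_apply, hgg]
      by_cases hbp : Bad M (M.ph d)
      · refine ⟨M.ph d, ⟨1, one_pos, ?_, hbp, ?_⟩, ?_⟩
        · rw [pow_one, hsg1]
        · intro i hi0 hi1
          omega
        · rw [hv]; exact (M.fr (M.ph d)).hvu
      · have hbn : Bad M (M.ph (M.gl (M.ph d))) := (hrun d hd hb hi).resolve_left hbp
        have hgp : Good M (M.ph d) := not_not.1 hbp
        have hci : idx (M.ph d) ≠ 0 := by rw [hidxph d hd]; exact hx1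
        have hAc := hadj _ (hphE d hd) hci hgp
        refine ⟨M.ph (M.gl (M.ph d)), ⟨2, two_pos, ?_, hbn, ?_⟩, ?_⟩
        · rw [pow_two, Equiv.Perm.mul_apply, hsg1, sg_apply]
        · intro i hi0 hi1
          have : i = 1 := by omega
          subst this
          rw [pow_one, hsg1]
          exact hbp
        · rw [hv, fr_sg_adj M hAc, tau_next]
          exact R_dot_vb _ _
    · refine hc2.trans ?_
      apply Set.ncard_le_ncard _ (Set.toFinite _)
      rintro d ⟨hd, hb, -⟩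
      exact ⟨hd, hb⟩

/-! auxiliary lemmas for `reg_ge4` -/

theorem bool_ne {s s' : Bool} (h : ¬ s' = s) : s' = !s := by
  revert s s'; decide

theorem rg_quad0 {P Q : Fr} {s : Bool} {k : ℤ} {a b c : ZMod 5} (h : St P Q s k a b c)
    (hab : a + b = 0) : a = 0 ∧ b = 0 := by
  have key : ∀ a b c : ZMod 5, a * b + b * c + c * a = 0 → a + b = 0 → a = 0 ∧ b = 0 := by decide
  exact key a b c (St_quad h) hab

theorem rg_quad1 {P Q : Fr} {s : Bool} {k : ℤ} {a b c : ZMod 5} (h : St P Q s k a b c)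
    (hac : a + c = 0) : a = 0 ∧ c = 0 := by
  have key : ∀ a b c : ZMod 5, a * b + b * c + c * a = 0 → a + c = 0 → a = 0 ∧ c = 0 := by decide
  exact key a b c (St_quad h) hac

theorem rg_flip {P Q : Fr} {s : Bool} {k : ℤ} {a b c : ZMod 5} (h : St P Q s k a b c) :
    ∃ k' a' b' c', St P Q (!s) k' a' b' c' := by
  by_cases hab : a + b = 0
  · obtain ⟨rfl, rfl⟩ := rg_quad0 h hab
    obtain ⟨a', b', c', h', _⟩ := St_down h
    exact ⟨_, _, _, _, h'⟩
  · exact ⟨_, _, _, _, St_up h hab⟩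

def Lq (P Q : Fr) : Prop := ∀ s : Bool, ∃ (k : ℤ) (a b c : ZMod 5), St P Q s k a b c

theorem Lq_of {P Q : Fr} {s : Bool} {k : ℤ} {a b c : ZMod 5} (h : St P Q s k a b c) : Lq P Q := by
  intro s'
  by_cases hs : s' = s
  · rw [hs]; exact ⟨_, _, _, _, h⟩
  · rw [bool_ne hs]; exact rg_flip h

theorem Lq_rho {P Q : Fr} (h : Lq P Q) : Lq P (rhoF Q) := by
  obtain ⟨k, a, b, c, h1⟩ := h true
  exact Lq_of (St_rho h1)

theorem Lq_rho' {P Q : Fr} (h : Lq P (rhoF Q)) : Lq P Q := by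
  have := Lq_rho (Lq_rho (Lq_rho (Lq_rho h)))
  rwa [rho_pow5] at this

theorem Lq_kap {P Q : Fr} (h : Lq P Q) : Lq P (kapF Q) := by
  obtain ⟨k, a, b, c, h1⟩ := h true
  exact Lq_of (St_kap h1)

theorem Lq_tau {P Q : Fr} (s : Bool) (h : Lq P Q) : Lq P (tauF s Q) := by
  obtain ⟨k, a, b, c, h1⟩ := h s
  exact Lq_of (St_tau h1)

theorem Lq_Dd {P Q : Fr} (s : Bool) (h : Lq P Q) : Lq P (Dd s Q) := by
  rw [← kap_tau_eq]
  exact Lq_kap (Lq_tau s h)

theorem Lq_Dd_iter {P Q : Fr} (s : Bool) (h : Lq P Q) (j : ℕ) : Lq P ((Dd s)^[j] Q) := by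
  induction j with
  | zero => exact h
  | succ j ih =>
    rw [Function.iterate_succ_apply']
    exact Lq_Dd s ih

theorem Lq_good (M : PMap D) {P : Fr} {d : D} (hg : Good M d) (h : Lq P (M.fr d)) :
    Lq P (M.fr (M.gl d)) := by
  obtain ⟨s, j, hj⟩ := hg
  rw [hj]
  exact Lq_kap (Lq_Dd_iter s h j)

theorem eqv_inv {α : Type} {r : α → α → Prop} {p : α → Prop} (h : ∀ a b, r a b → (p a ↔ p b))
    {a b : α} (hab : Relation.EqvGen r a b) : p a ↔ p b := by
  induction hab with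
  | rel x y h' => exact h x y h'
  | refl x => exact Iff.rfl
  | symm x y _ ih => exact ih.symm
  | trans x y z _ _ ih1 ih2 => exact ih1.trans ih2

theorem Lq_reg (M : PMap D) {P : Fr} {d e : D} (h : SameReg M d e) :
    Lq P (M.fr d) ↔ Lq P (M.fr e) := by
  refine eqv_inv (p := fun d => Lq P (M.fr d)) ?_ h
  rintro a b (rfl | ⟨rfl, hb⟩)
  · rw [M.fr_ph]
    exact ⟨Lq_rho, Lq_rho'⟩
  · have hg : Good M a := not_not.mp hb
    refine ⟨Lq_good M hg, fun h => ?_⟩
    have := Lq_good M ((good_gl M a).2 hg) h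
    rwa [M.gl_gl] at this

theorem rg_far {P Q : Fr} {s : Bool} {k : ℤ} {a b c : ZMod 5} (h : St P Q s k a b c)
    (hab : a + b ≠ 0) (j : ℕ) :
    ∃ a' b' c', St P (kapF ((Dd (!s))^[j] Q)) s (k + 1 + j) a' b' c' := by
  obtain ⟨c', hc'⟩ := St_chain (St_up h hab) j
  have := St_kap hc'
  rw [Bool.not_not] at this
  exact ⟨_, _, _, this⟩

theorem rg_near {P Q : Fr} {s : Bool} {k : ℤ} {a b c : ZMod 5} (h : St P Q s k a b c)
    (hac : a + c ≠ 0) (j : ℕ) :
    ∃ a' b' c', St P (kapF ((Dd s)^[j + 1] Q)) (!s) (k + 1 + j) a' b' c' := by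
  have h1 := St_tau h
  have h2 := St_up h1 (by intro h0; apply hac; linear_combination h0)
  have h3 := St_kap h2
  rw [kap_tau_eq, Bool.not_not] at h3
  simp only [neg_zero, mul_zero, add_zero] at h3
  obtain ⟨c', hc'⟩ := St_chain h3 j
  rw [← Function.iterate_succ_apply] at hc'
  exact ⟨_, _, _, St_kap hc'⟩

theorem rg_max (M : PMap D) (P : Fr) (R : Set D) (x0 : D) (hx0 : x0 ∈ R)
    (hL : ∀ d ∈ R, Lq P (M.fr d)) :
    ∃ (N : ℤ) (x : D) (s : Bool) (a b c : ZMod 5), x ∈ R ∧ St P (M.fr x) s N a b c ∧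
      ∀ d ∈ R, ∀ s' k a b c, St P (M.fr d) s' k a b c → k ≤ N := by
  have hL' : ∀ p : D × Bool, ∃ k : ℤ, p.1 ∈ R → ∃ a b c, St P (M.fr p.1) p.2 k a b c := by
    intro p
    by_cases hp : p.1 ∈ R
    · obtain ⟨k, a, b, c, h⟩ := hL p.1 hp p.2
      exact ⟨k, fun _ => ⟨a, b, c, h⟩⟩
    · exact ⟨0, fun h => absurd h hp⟩
  choose k hk using hL'
  have hne : (Finset.univ.filter (fun p : D × Bool => p.1 ∈ R)).Nonempty :=
    ⟨(x0, true), by simp [hx0]⟩
  obtain ⟨x, hx, hmax⟩ := Finset.exists_max_image _ k hne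
  have hxR : x.1 ∈ R := by simpa using hx
  obtain ⟨a, b, c, h⟩ := hk x hxR
  refine ⟨k x, x.1, x.2, a, b, c, hxR, h, ?_⟩
  intro d hd s' k' a' b' c' h'
  obtain ⟨a2, b2, c2, h2⟩ := hk (d, s') hd
  have := (St_unique h' h2).1
  rw [this]
  exact hmax (d, s') (by simpa using hd)

theorem ph_closed (M : PMap D) (S : Set D) (h : ∀ d ∈ S, M.ph d ∈ S) (d : D) :
    d ∈ S ↔ M.ph d ∈ S := by
  refine ⟨h d, fun hd => ?_⟩
  have h1 : ∀ n : ℕ, ∀ e ∈ S, (M.ph ^ n) e ∈ S := by
    intro n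
    induction n with
    | zero => intro e he; simpa using he
    | succ n ih =>
      intro e he
      rw [pow_succ', Equiv.Perm.mul_apply]
      exact h _ (ih e he)
  have h2 : (M.ph ^ (orderOf M.ph - 1)) (M.ph d) = d := by
    have h3 : M.ph ^ (orderOf M.ph - 1) * M.ph = 1 := by
      rw [← pow_succ, Nat.sub_add_cancel (orderOf_pos M.ph), pow_orderOf_eq_one]
    have h4 := congrArg (fun f : Equiv.Perm D => f d) h3
    simpa using h4
  rw [← h2]
  exact h1 _ _ hd

/-- the component of `x` in the belt -/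
inductive Ecl (M : PMap D) (P : Fr) (s : Bool) (N : ℤ) (x : D) : D → Prop
  | base : Ecl M P s N x x
  | ph {d : D} : Ecl M P s N x d → Ecl M P s N x (M.ph d)
  | gl {d : D} : Ecl M P s N x d → Good M d →
      (∃ a b c, St P (M.fr d) s (N - 1) a b c ∧ a ≠ 0) → Ecl M P s N x (M.gl d)

theorem rg_G1 (M : PMap D) {P : Fr} {s : Bool} {N : ℤ} {d : D} (hg : Good M d)
    (hmax : ∀ s' k a b c, St P (M.fr (M.gl d)) s' k a b c → k ≤ N)
    {a b c : ZMod 5} (h : St P (M.fr d) s (N - 1) a b c) (hab : a + b ≠ 0) (ha : a ≠ 0) :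
    Adj M s d := by
  obtain ⟨s', j, hj⟩ := hg
  rcases Nat.eq_zero_or_pos j with h0 | h0
  · subst h0
    exact absurd hj (M.nofold d)
  · by_cases hs : s' = s
    · rw [hs] at hj
      obtain ⟨i, rfl⟩ : ∃ i, j = i + 1 := ⟨j - 1, by omega⟩
      rcases Nat.eq_zero_or_pos i with hi | hi
      · subst hi
        unfold Adj
        rw [hj, Function.iterate_one, kapF_Dd]
      · exfalso
        have hac : a + c ≠ 0 := fun h0 => ha (rg_quad1 h h0).1
        obtain ⟨a', b', c', h'⟩ := rg_near h hac i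
        rw [← hj] at h'
        have := hmax _ _ _ _ _ h'
        omega
    · have hs2 : s' = !s := bool_ne hs
      rw [hs2] at hj
      exfalso
      obtain ⟨a', b', c', h'⟩ := rg_far h hab j
      rw [← hj] at h'
      have := hmax _ _ _ _ _ h'
      omega

theorem rg_G2 (M : PMap D) {P P' : Fr} {s : Bool} {N : ℤ} {d : D} (hg : Good M d)
    (hmax : ∀ s' k a b c, St P (M.fr (M.gl d)) s' k a b c → k ≤ N)
    (hmax1 : ∀ s' k a b c, St P' (M.fr (M.gl d)) s' k a b c → k ≤ 2)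
    {a b c a' b' c' : ZMod 5} (h : St P (M.fr d) s (N - 1) a b c)
    (h' : St P' (M.fr d) s 1 a' b' c')
    (hne : ∀ t : ZMod 5, ¬ (a' = t * a ∧ b' = t * b ∧ c' = t * c)) : Adj M s d := by
  obtain ⟨s', j, hj⟩ := hg
  rcases Nat.eq_zero_or_pos j with h0 | h0
  · subst h0
    exact absurd hj (M.nofold d)
  · by_cases hs : s' = s
    · rw [hs] at hj
      obtain ⟨i, rfl⟩ : ∃ i, j = i + 1 := ⟨j - 1, by omega⟩
      rcases Nat.eq_zero_or_pos i with hi | hi
      · subst hi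
        unfold Adj
        rw [hj, Function.iterate_one, kapF_Dd]
      · exfalso
        by_cases hac : a + c = 0
        · obtain ⟨ha0, hc0⟩ := rg_quad1 h hac
          have hac' : a' + c' ≠ 0 := by
            intro hac'
            obtain ⟨ha0', hc0'⟩ := rg_quad1 h' hac'
            have hb0 : b ≠ 0 := fun hb => h.2.2.2 ⟨ha0, hb, hc0⟩
            have key : ∀ b b' : ZMod 5, b ≠ 0 → ∃ t, b' = t * b := by decide
            obtain ⟨t, ht⟩ := key b b' hb0
            apply hne t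
            rw [ha0, hc0, ha0', hc0', mul_zero]
            exact ⟨rfl, ht, rfl⟩
          obtain ⟨a2, b2, c2, h2⟩ := rg_near h' hac' i
          rw [← hj] at h2
          have := hmax1 _ _ _ _ _ h2
          omega
        · obtain ⟨a2, b2, c2, h2⟩ := rg_near h hac i
          rw [← hj] at h2
          have := hmax _ _ _ _ _ h2
          omega
    · have hs2 : s' = !s := bool_ne hs
      rw [hs2] at hj
      exfalso
      by_cases hab : a + b = 0
      · obtain ⟨ha0, hb0⟩ := rg_quad0 h hab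
        have hab' : a' + b' ≠ 0 := by
          intro hab'
          obtain ⟨ha0', hb0'⟩ := rg_quad0 h' hab'
          have hc0 : c ≠ 0 := fun hc => h.2.2.2 ⟨ha0, hb0, hc⟩
          have key : ∀ b b' : ZMod 5, b ≠ 0 → ∃ t, b' = t * b := by decide
          obtain ⟨t, ht⟩ := key c c' hc0
          apply hne t
          rw [ha0, hb0, ha0', hb0', mul_zero]
          exact ⟨rfl, rfl, ht⟩
        obtain ⟨a2, b2, c2, h2⟩ := rg_far h' hab' j
        rw [← hj] at h2
        have := hmax1 _ _ _ _ _ h2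
        omega
      · obtain ⟨a2, b2, c2, h2⟩ := rg_far h hab j
        rw [← hj] at h2
        have := hmax _ _ _ _ _ h2
        omega

theorem reg_ph (M : PMap D) {d0 d : D} (h : SameReg M d0 d) : SameReg M d0 (M.ph d) :=
  Relation.EqvGen.trans _ _ _ h (Relation.EqvGen.rel _ _ (Or.inl rfl))

theorem reg_gl (M : PMap D) {d0 d : D} (h : SameReg M d0 d) (hg : Good M d) :
    SameReg M d0 (M.gl d) :=
  Relation.EqvGen.trans _ _ _ h (Relation.EqvGen.rel _ _ (Or.inr ⟨rfl, not_not.mpr hg⟩))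

theorem rg_ext (M : PMap D) (G : Set D) (hC : ¬ CBelt M G) (d0 : D)
    (hd0 : ∀ d, SameReg M d0 d → d ∉ G) (P : Fr) (hP : Lq P (M.fr d0)) :
    ∃ (N : ℤ) (s : Bool) (x : D) (E : Set D), SameReg M d0 x ∧
      (∀ d, SameReg M d0 d → ∀ s' k a b c, St P (M.fr d) s' k a b c → k ≤ N) ∧
      (∃ a b c, St P (M.fr x) s (N - 1) a b c ∧ a + b ≠ 0) ∧
      (∀ d ∈ E, SameReg M d0 d) ∧
      (∀ Φ : Fr → Prop, Φ (M.fr x) → (∀ Q, Φ Q → Φ (rhoF Q)) → (∀ Q, Φ Q → Φ (tauF s Q)) →
        ∀ d ∈ E, Φ (M.fr d)) ∧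
      3 ≤ Set.ncard {e | Bad M e ∧ T0 M e ∧ M.gl e ∈ E ∧
          ∃ a b c, St P (M.fr (M.gl e)) s (N - 1) a b c ∧ a ≠ 0} ∧
        4 ≤ Set.ncard {d | d ∈ E ∧ Bad M d} := by
  obtain ⟨N, x, s1, a, b, c, hxR, hx, hmax⟩ := rg_max M P {d | SameReg M d0 d} d0
    (Relation.EqvGen.refl _) (fun d hd => (Lq_reg M hd).1 hP)
  obtain ⟨s, rfl⟩ : ∃ s, s1 = !s := ⟨!s1, by simp⟩
  have hab : a + b = 0 := by
    by_contra hab
    have h1 := hmax x hxR _ _ _ _ _ (St_up hx hab)
    omega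
  obtain ⟨rfl, rfl⟩ := rg_quad0 hx hab
  obtain ⟨a', b', c', h', hab'⟩ := St_down hx
  rw [Bool.not_not] at h'
  have hE : ∀ d, Ecl M P s N x d → SameReg M d0 d ∧
      (∃ a b c, St P (M.fr d) s (N - 1) a b c ∧ a + b ≠ 0) ∧
      (∀ Φ : Fr → Prop, Φ (M.fr x) → (∀ Q, Φ Q → Φ (rhoF Q)) → (∀ Q, Φ Q → Φ (tauF s Q)) →
        Φ (M.fr d)) := by
    intro d hd
    induction hd with
    | base => exact ⟨hxR, ⟨a', b', c', h', hab'⟩, fun Φ h0 _ _ => h0⟩
    | @ph d _ ih =>
      obtain ⟨ih1, ⟨a, b, c, ih2, ih3⟩, ih4⟩ := ih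
      refine ⟨reg_ph M ih1, ?_, ?_⟩
      · rw [M.fr_ph]
        refine ⟨_, _, _, St_rho ih2, ?_⟩
        intro h0; apply ih3; linear_combination h0
      · intro Φ h0 h1 h2
        rw [M.fr_ph]
        exact h1 _ (ih4 Φ h0 h1 h2)
    | @gl d _ hg hne ih =>
      obtain ⟨ih1, ⟨a, b, c, ih2, ih3⟩, ih4⟩ := ih
      obtain ⟨a2, b2, c2, hst2, ha2⟩ := hne
      obtain ⟨_, rfl, rfl, rfl⟩ := St_unique ih2 hst2
      have hgl := reg_gl M ih1 hg
      have hadj : Adj M s d := rg_G1 M hg (fun s' k a b c h => hmax _ hgl s' k a b c h) ih2 ih3 ha2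
      refine ⟨hgl, ?_, ?_⟩
      · rw [hadj]
        refine ⟨_, _, _, St_tau ih2, ?_⟩
        intro h0
        exact ha2 (rg_quad1 ih2 (by linear_combination h0)).1
      · intro Φ h0 h1 h2
        rw [hadj]
        exact h2 _ (ih4 Φ h0 h1 h2)
  have halt := belt_alt M P s N {d | SameReg M d0 d} {d | Ecl M P s N x d} G
    (fun d hd => reg_ph M hd) (fun d hd hg => reg_gl M hd hg) hmax
    (fun d hd => (hE d hd).1) ⟨x, Ecl.base⟩ (fun d hd => (hE d hd).2.1)
    (ph_closed M _ (fun d hd => Ecl.ph hd)) (fun d hd hg hne => Ecl.gl hd hg hne)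
    (fun d hd => hd0 d (hE d hd).1)
  rcases halt with hb | ⟨hb1, hb2⟩
  · exact absurd hb hC
  · exact ⟨N, s, x, {d | Ecl M P s N x d}, hxR, hmax, ⟨a', b', c', h', hab'⟩,
      fun d hd => (hE d hd).1, fun Φ h0 h1 h2 d hd => (hE d hd).2.2 Φ h0 h1 h2, hb1, hb2⟩

theorem rg_base (Q : Fr) (s : Bool) : ∃ P, St P Q s 1 0 0 3 := by
  cases s
  · refine ⟨kapF Q, ?_⟩
    have h := St_kap (St_base (kapF Q))
    rw [kapF_kapF] at h
    simpa using h
  · exact ⟨Q, St_base Q⟩

theorem v_dot_R (P : Fr) (s : Bool) : P.v ⬝ᵥ P.R s = cc := by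
  unfold Fr.R
  conv_lhs => rw [P.lin_v]
  rw [P.lin_dot]
  have h1 := s5_sq
  unfold cc
  linear_combination (1 / 20 : ℝ) * h1

/-- if all good darts of the region are convex, the bad ones give corners of angle 108° -/
theorem rg_T0 (M : PMap D) {d0 : D} {s : Bool} (hA : ∀ d, SameReg M d0 d → Good M d → Adj M s d)
    {d : D} (hd : SameReg M d0 d) (hb : Bad M d) : T0 M (M.gl d) := by
  have hsg : (M.ph * M.gl) (M.gl d) = M.ph d := by
    rw [sg_apply, M.gl_gl]
  have hu : (M.fr (M.gl d)).u = (M.fr (M.ph d)).v := by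
    rw [M.fr_u, M.fr_ph]; rfl
  by_cases h1 : Bad M (M.ph d)
  · refine ⟨M.ph d, ⟨1, one_pos, ?_, h1, ?_⟩, ?_⟩
    · rw [pow_one, hsg]
    · intro i hi hi'; omega
    · rw [hu]; exact (M.fr (M.ph d)).hvu
  · have h1g : Good M (M.ph d) := not_not.mp h1
    have h1R := reg_ph M hd
    have h1A := hA _ h1R h1g
    have h2R : SameReg M d0 (M.ph (M.gl (M.ph d))) := reg_ph M (reg_gl M h1R h1g)
    by_cases h2 : Bad M (M.ph (M.gl (M.ph d)))
    · refine ⟨M.ph (M.gl (M.ph d)), ⟨2, two_pos, ?_, h2, ?_⟩, ?_⟩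
      · rw [pow_two, Equiv.Perm.mul_apply, hsg, sg_apply]
      · intro i hi hi'
        have : i = 1 := by omega
        subst this
        rw [pow_one, hsg]
        exact h1
      · rw [hu, fr_sg_adj M h1A, tau_next]
        exact v_dot_R _ _
    · exfalso
      have h2g : Good M (M.ph (M.gl (M.ph d))) := not_not.mp h2
      obtain ⟨h3, h4⟩ := close3 M h1A (hA _ h2R h2g)
      have h5 : M.ph (M.gl (M.ph (M.gl (M.ph d)))) = M.gl d := by
        have h6 := M.ph.injective h3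
        have h7 := congrArg M.gl h6
        rwa [M.gl_gl] at h7
      rw [h5] at h4
      exact hb ((good_gl M d).1 h4.good)

theorem reg_ge4 (M : PMap D) (G : Set D) (hC : ¬ CBelt M G) (d0 : D)
    (hd0 : ∀ d, SameReg M d0 d → d ∉ G) :
    4 ≤ Set.ncard {e | (Bad M e ∧ T0 M e) ∧ SameReg M d0 (M.ph (M.gl e))} := by
  have hL0 : Lq (M.fr d0) (M.fr d0) := Lq_of (St_base (M.fr d0))
  obtain ⟨N, s, x, E, hxR, hmax, hxab, hER, hEind, hc1, hc2⟩ :=
    rg_ext M G hC d0 hd0 (M.fr d0) hL0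
  obtain ⟨P', hP'⟩ := rg_base (M.fr x) s
  have hE' : ∀ d ∈ E, ∃ a b c, St P' (M.fr d) s 1 a b c := by
    refine hEind (fun Q => ∃ a b c, St P' Q s 1 a b c) ⟨_, _, _, hP'⟩ ?_ ?_
    · rintro Q ⟨a, b, c, h⟩
      exact ⟨_, _, _, St_rho h⟩
    · rintro Q ⟨a, b, c, h⟩
      exact ⟨_, _, _, St_tau h⟩
  have hL1 : Lq P' (M.fr d0) := (Lq_reg M hxR).2 (Lq_of hP')
  obtain ⟨N1, s1, x1, E1, hxR1, hmax1, hxab1, hER1, hEind1, hc11, hc21⟩ :=
    rg_ext M G hC d0 hd0 P' hL1
  by_cases hN1 : 3 ≤ N1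
  · -- two disjoint families of corners
    have hdis : Disjoint {e | Bad M e ∧ T0 M e ∧ M.gl e ∈ E ∧
          ∃ a b c, St (M.fr d0) (M.fr (M.gl e)) s (N - 1) a b c ∧ a ≠ 0}
        {e | Bad M e ∧ T0 M e ∧ M.gl e ∈ E1 ∧
          ∃ a b c, St P' (M.fr (M.gl e)) s1 (N1 - 1) a b c ∧ a ≠ 0} := by
      rw [Set.disjoint_left]
      rintro e ⟨_, _, he, _⟩ ⟨_, _, _, a1, b1, c1, hst1, ha1⟩
      obtain ⟨a, b, c, hst⟩ := hE' _ he
      exact ha1 (InA_lt hst.1 (by omega) hst1.1)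
    have hun := Set.ncard_union_eq hdis (Set.toFinite _) (Set.toFinite _)
    have hsub : {e | Bad M e ∧ T0 M e ∧ M.gl e ∈ E ∧
          ∃ a b c, St (M.fr d0) (M.fr (M.gl e)) s (N - 1) a b c ∧ a ≠ 0} ∪
        {e | Bad M e ∧ T0 M e ∧ M.gl e ∈ E1 ∧
          ∃ a b c, St P' (M.fr (M.gl e)) s1 (N1 - 1) a b c ∧ a ≠ 0} ⊆
        {e | (Bad M e ∧ T0 M e) ∧ SameReg M d0 (M.ph (M.gl e))} := by
      rintro e (⟨h1, h2, h3, _⟩ | ⟨h1, h2, h3, _⟩)
      · exact ⟨⟨h1, h2⟩, reg_ph M (hER _ h3)⟩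
      · exact ⟨⟨h1, h2⟩, reg_ph M (hER1 _ h3)⟩
    have hle := Set.ncard_le_ncard hsub (Set.toFinite _)
    omega
  · -- the whole region is convex
    set T : Set D := {d | SameReg M d0 d ∧ ∃ a b c a' b' c' : ZMod 5,
      St (M.fr d0) (M.fr d) s (N - 1) a b c ∧ St P' (M.fr d) s 1 a' b' c' ∧
      ∀ t : ZMod 5, ¬ (a' = t * a ∧ b' = t * b ∧ c' = t * c)} with hT
    have hxT : x ∈ T := by
      obtain ⟨a, b, c, h, hab⟩ := hxab
      refine ⟨hxR, a, b, c, 0, 0, 3, h, hP', ?_⟩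
      rintro t ⟨h1, h2, h3⟩
      have key : ∀ a b c t : ZMod 5, 0 = t * a → 0 = t * b → 3 = t * c → a + b = 0 := by decide
      exact hab (key a b c t h1 h2 h3)
    have hTph : ∀ d ∈ T, M.ph d ∈ T := by
      rintro d ⟨hd, a, b, c, a', b', c', h, h', hne⟩
      have e := St_rho h
      have e' := St_rho h'
      rw [← M.fr_ph] at e e'
      refine ⟨reg_ph M hd, _, _, _, _, _, _, e, e', ?_⟩
      rintro t ⟨h1, h2, h3⟩
      apply hne t
      have e1 : a' = t * a := by linear_combination -h2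
      refine ⟨e1, ?_, ?_⟩
      · linear_combination h1 - 2 * e1
      · linear_combination h3 - 2 * e1
    have hTgl : ∀ d ∈ T, Good M d → Adj M s d ∧ M.gl d ∈ T := by
      rintro d ⟨hd, a, b, c, a', b', c', h, h', hne⟩ hg
      have hgl := reg_gl M hd hg
      have hadj : Adj M s d := by
        exact rg_G2 M hg (fun s' k a b c h => hmax _ hgl s' k a b c h)
          (fun s' k a b c h => (hmax1 _ hgl s' k a b c h).trans (by omega)) h h' hne
      have e := St_tau h
      have e' := St_tau h'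
      rw [← show M.fr (M.gl d) = tauF s (M.fr d) from hadj] at e e'
      refine ⟨hadj, hgl, _, _, _, _, _, _, e, e', ?_⟩
      rintro t ⟨h1, h2, h3⟩
      apply hne t
      have e1 : a' = t * a := by linear_combination -h1
      refine ⟨e1, ?_, ?_⟩
      · linear_combination h3 - 2 * e1
      · linear_combination h2 - 2 * e1
    have hTR : ∀ d, SameReg M d0 d → d ∈ T := by
      intro d hd
      have hinv : ∀ a b, rr M.ph M.gl (Bad M) a b → (a ∈ T ↔ b ∈ T) := by
        rintro a b (rfl | ⟨rfl, hb⟩)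
        · exact ph_closed M T hTph a
        · have hg : Good M a := not_not.mp hb
          refine ⟨fun h => (hTgl a h hg).2, fun h => ?_⟩
          have := (hTgl _ h ((good_gl M a).2 hg)).2
          rwa [M.gl_gl] at this
      have hxd : SameReg M x d := Relation.EqvGen.trans _ _ _ (Relation.EqvGen.symm _ _ hxR) hd
      exact (eqv_inv (p := fun d => d ∈ T) hinv hxd).1 hxT
    have hA : ∀ d, SameReg M d0 d → Good M d → Adj M s d :=
      fun d hd hg => (hTgl d (hTR d hd) hg).1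
    have hinj : Function.Injective M.gl := M.gl.injective
    rw [← Set.ncard_image_of_injective {d | d ∈ E ∧ Bad M d} hinj] at hc2
    refine hc2.trans (Set.ncard_le_ncard ?_ (Set.toFinite _))
    rintro _ ⟨d, ⟨hdE, hdB⟩, rfl⟩
    refine ⟨⟨(bad_gl M d).2 hdB, rg_T0 M hA (hER d hdE) hdB⟩, ?_⟩
    rw [M.gl_gl]
    exact reg_ph M (hER d hdE)

theorem sq0 : ∀ a : ZMod 5, a * a = 0 → a = 0 := by decide

theorem bool_ne2 {a b : Bool} (h : ¬ a = b) : a = !b := by cases a <;> cases b <;> simp_all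

theorem St_flip {P Q : Fr} {s : Bool} {k : ℤ} {a b c : ZMod 5} (h : St P Q s k a b c) :
    ∃ k' a' b' c', St P Q (!s) k' a' b' c' := by
  by_cases hab : a + b = 0
  · have h1 := St_quad h
    have hb : b = -a := by linear_combination hab
    subst hb
    have h2 : a * a = 0 := by linear_combination -h1
    have ha : a = 0 := sq0 a h2
    subst ha
    rw [neg_zero] at h
    obtain ⟨a', b', c', h4, _⟩ := St_down h
    exact ⟨_, _, _, _, h4⟩
  · exact ⟨_, _, _, _, St_up h hab⟩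

def HasL (P Q : Fr) : Prop := ∀ s, ∃ k a b c, St P Q s k a b c

theorem hasL_of {P Q : Fr} {s : Bool} {k : ℤ} {a b c : ZMod 5} (h : St P Q s k a b c) :
    HasL P Q := by
  intro t
  by_cases ht : t = s
  · subst ht; exact ⟨_, _, _, _, h⟩
  · have : t = !s := bool_ne2 ht
    subst this
    exact St_flip h

theorem hasL_rho {P Q : Fr} (h : HasL P Q) : HasL P (rhoF Q) := by
  obtain ⟨k, a, b, c, h1⟩ := h true
  exact hasL_of (St_rho h1)

theorem hasL_kap {P Q : Fr} (h : HasL P Q) : HasL P (kapF Q) := by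
  obtain ⟨k, a, b, c, h1⟩ := h true
  exact hasL_of (St_kap h1)

theorem hasL_tau {P Q : Fr} (s : Bool) (h : HasL P Q) : HasL P (tauF s Q) := by
  obtain ⟨k, a, b, c, h1⟩ := h s
  exact hasL_of (St_tau h1)

theorem hasL_Dd {P Q : Fr} (s : Bool) (h : HasL P Q) : HasL P (Dd s Q) := by
  rw [← kap_tau_eq]
  exact hasL_kap (hasL_tau s h)

theorem hasL_Dd_iter {P Q : Fr} (s : Bool) (h : HasL P Q) (j : ℕ) : HasL P ((Dd s)^[j] Q) := by
  induction j with
  | zero => exact h
  | succ n ih => rw [Function.iterate_succ_apply']; exact hasL_Dd s ih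

/-- rho keeps the sum -/
theorem sum_rho_iter {P Q : Fr} {s : Bool} {k : ℤ} (n : ℕ)
    (h : ∃ a b c, St P Q s k a b c ∧ a + b ≠ 0) :
    ∃ a b c, St P (rhoF^[n] Q) s k a b c ∧ a + b ≠ 0 := by
  induction n with
  | zero => exact h
  | succ n ih =>
    obtain ⟨a, b, c, h1, h2⟩ := ih
    rw [Function.iterate_succ_apply']
    refine ⟨_, _, _, St_rho h1, ?_⟩
    intro h3
    exact h2 (by linear_combination h3)

theorem zero_rho_iter {P Q : Fr} {s : Bool} {k : ℤ} (n : ℕ)
    (h : ∃ c, St P Q s k 0 0 c) :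
    ∃ c, St P (rhoF^[n] Q) s k 0 0 c := by
  induction n with
  | zero => exact h
  | succ n ih =>
    obtain ⟨c, h1⟩ := ih
    rw [Function.iterate_succ_apply']
    have h2 := St_rho h1
    simp only [mul_zero, add_zero, neg_zero] at h2
    exact ⟨_, h2⟩

theorem St_kap0 {P Q : Fr} {s : Bool} {k : ℤ} {c : ZMod 5} (h : St P Q s k 0 0 c) :
    St P (kapF Q) (!s) k 0 0 c := by
  have h2 := St_kap h
  simpa only [mul_zero, add_zero, neg_zero] using h2

theorem fr_ph_pow (M : PMap D) (d : D) (n : ℕ) : M.fr ((M.ph ^ n) d) = rhoF^[n] (M.fr d) := by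
  induction n with
  | zero => rfl
  | succ n ih =>
    rw [Function.iterate_succ_apply', ← ih, ← M.fr_ph, pow_succ']
    rfl

theorem sameCycle_pow (M : PMap D) {g d : D} (h : M.ph.SameCycle g d) : ∃ n : ℕ, (M.ph ^ n) g = d := by
  obtain ⟨n, _, h1⟩ := h.exists_pow_eq' 
  exact ⟨n, h1⟩

theorem cbelt_of_good (M : PMap D) (g : D) (hg : ∀ d, Good M d) :
    CBelt M {d | M.ph.SameCycle g d} := by
  -- choice of the base frame
  obtain ⟨s0, j0, hj0⟩ := hg g
  have hj1 : j0 ≠ 0 := by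
    rintro rfl
    exact M.nofold g hj0
  obtain ⟨P, hP⟩ : ∃ P : Fr, ∃ c, St P (M.fr g) s0 1 0 0 c := by
    cases s0 with
    | true => exact ⟨M.fr g, 3, St_base _⟩
    | false =>
      refine ⟨kapF (M.fr g), 3, ?_⟩
      have h1 := St_kap0 (St_base (kapF (M.fr g)))
      rwa [kapF_kapF] at h1
  obtain ⟨c0, hP⟩ := hP
  -- all darts have levels
  have hall : ∀ d s, ∃ k a b c, St P (M.fr d) s k a b c := by
    have h1 : {d | HasL P (M.fr d)} = Set.univ := by
      apply M.conn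
      · exact ⟨g, hasL_of hP⟩
      · intro d hd
        show HasL P (M.fr (M.ph d))
        rw [M.fr_ph]
        exact hasL_rho hd
      · intro d hd
        show HasL P (M.fr (M.gl d))
        obtain ⟨s, j, h2⟩ := hg d
        rw [h2]
        exact hasL_kap (hasL_Dd_iter s hd j)
    intro d
    have : d ∈ {d | HasL P (M.fr d)} := by rw [h1]; trivial
    exact this
  choose lev la lb lc hlev using hall
  have : Nonempty D := ⟨g⟩
  obtain ⟨⟨x, t⟩, hx⟩ := Finite.exists_max (fun p : D × Bool => lev p.1 p.2)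
  set N := lev x t with hN
  have hmax : ∀ d s' k a b c, St P (M.fr d) s' k a b c → k ≤ N := by
    intro d s' k a b c h
    have h1 := (St_unique h (hlev d s')).1
    rw [h1]
    exact hx (d, s')
  -- the level is at least two
  have hN2 : 2 ≤ N := by
    obtain ⟨c', h1⟩ := St_chain hP j0
    have h2 := St_kap0 h1
    rw [← hj0] at h2
    have h3 := hmax _ _ _ _ _ _ h2
    have : (1 : ℤ) ≤ j0 := by exact_mod_cast Nat.one_le_iff_ne_zero.mpr hj1
    linarith
  have hxt := hlev x t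
  have hab : la x t + lb x t = 0 := by
    by_contra hne
    have := hmax _ _ _ _ _ _ (St_up hxt hne)
    omega
  have hquad := St_quad hxt
  have ha0 : la x t = 0 := by
    have hb : lb x t = - la x t := by linear_combination hab
    rw [hb] at hquad
    have h2 : la x t * la x t = 0 := by linear_combination -hquad
    exact sq0 _ h2
  have hb0 : lb x t = 0 := by rw [ha0] at hab; simpa using hab
  rw [ha0, hb0] at hxt
  obtain ⟨a', b', c', hd1, hd2⟩ := St_down hxt
  set s := !t with hs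
  have hst : (!s) = t := by rw [hs]; simp
  let E : Set D := {d | ∃ a b c, St P (M.fr d) s (N - 1) a b c ∧ a + b ≠ 0}
  have key := belt_alt M P s N Set.univ E {d | M.ph.SameCycle g d}
    (fun d _ => trivial) (fun d _ _ => trivial)
    (fun d _ s' k a b c h => hmax d s' k a b c h)
    (fun d _ => trivial) ⟨x, a', b', c', hd1, hd2⟩
    (fun d hd => hd) ?_ ?_ ?_
  · rcases key with h | ⟨h, _⟩
    · exact h
    · exfalso
      have : {e | Bad M e ∧ T0 M e ∧ M.gl e ∈ E ∧
          ∃ a b c, St P (M.fr (M.gl e)) s (N - 1) a b c ∧ a ≠ 0} = ∅ := by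
        ext e
        simp only [Set.mem_ofPred_eq, Set.mem_empty_iff_false, iff_false]
        rintro ⟨h1, _⟩
        exact h1 (hg e)
      rw [this, Set.ncard_empty] at h
      omega
  · intro d
    constructor
    · intro hd
      show ∃ a b c, St P (M.fr (M.ph d)) s (N - 1) a b c ∧ a + b ≠ 0
      rw [M.fr_ph]
      exact sum_rho_iter 1 hd
    · intro hd
      have hd' : ∃ a b c, St P (M.fr (M.ph d)) s (N - 1) a b c ∧ a + b ≠ 0 := hd
      rw [M.fr_ph] at hd'
      have h4 := sum_rho_iter 4 hd'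
      have h5 : rhoF^[4] (rhoF (M.fr d)) = M.fr d := rho_pow5 (M.fr d)
      rw [h5] at h4
      exact h4
  · rintro d hd hgd ⟨a, b, c, h1, h2⟩
    obtain ⟨a1, b1, c1, h3, h4⟩ := hd
    obtain ⟨-, e1, e2, e3⟩ := St_unique h3 h1
    subst e1 e2 e3
    have hac : a1 + c1 ≠ 0 := by
      intro h5
      have h6 := St_quad h1
      have h7 : c1 = -a1 := by linear_combination h5
      rw [h7] at h6
      have h8 : a1 * a1 = 0 := by linear_combination -h6
      exact h2 (sq0 _ h8)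
    obtain ⟨s', j, hj⟩ := hgd
    by_cases hss : s' = s
    · rw [hss] at hj
      rcases j with _ | j
      · exact absurd hj (M.nofold d)
      · have h5 := St_tau h1
        have h6 : -a1 + (c1 + 2 * a1) ≠ 0 := by
          intro h7; exact hac (by linear_combination h7)
        rcases j with _ | j
        · show ∃ a b c, St P (M.fr (M.gl d)) s (N - 1) a b c ∧ a + b ≠ 0
          have h8 : M.fr (M.gl d) = tauF s (M.fr d) := by
            rw [hj]
            exact kapF_Dd s (M.fr d)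
          rw [h8]
          exact ⟨_, _, _, h5, h6⟩
        · exfalso
          have h7 := St_kap0 (St_up h5 h6)
          rw [kap_tau_eq, Bool.not_not] at h7
          obtain ⟨c', h8⟩ := St_chain h7 (j + 1)
          have h9 := St_kap0 h8
          rw [← Function.iterate_succ_apply, ← hj] at h9
          have h10 := hmax _ _ _ _ _ _ h9
          push_cast at h10
          linarith [Int.natCast_nonneg j]
    · have hs' : s' = !s := bool_ne2 hss
      rw [hs'] at hj
      have h5 := St_up h1 h4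
      obtain ⟨c', h8⟩ := St_chain h5 j
      have h9 := St_kap0 h8
      rw [← hj] at h9
      have h10 := hmax _ _ _ _ _ _ h9
      have hj0' : j = 0 := by
        have : (j : ℤ) ≤ 0 := by linarith
        exact_mod_cast le_antisymm this (Int.natCast_nonneg j)
      subst hj0'
      exact absurd hj (M.nofold d)
  · rintro d ⟨a, b, c, h1, h2⟩ hd
    obtain ⟨n, hn⟩ := sameCycle_pow M hd
    obtain ⟨c1, h3⟩ := zero_rho_iter n ⟨c0, hP⟩
    rw [← fr_ph_pow, hn] at h3
    by_cases hss : s = s0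
    · subst hss
      obtain ⟨-, e1, e2, -⟩ := St_unique h1 h3
      exact h2 (by rw [e1, e2, add_zero])
    · have hs' : s = !s0 := bool_ne2 hss
      obtain ⟨a2, b2, c2, h4, _⟩ := St_down h3
      rw [hs'] at h1
      obtain ⟨e, -⟩ := St_unique h1 h4
      omega

theorem exists_cbelt (M : PMap D) (g : D) : CBelt M {d | M.ph.SameCycle g d} := by
  by_contra hC
  by_cases hbad : ∃ d, Bad M d
  swap
  · apply hC
    apply cbelt_of_good
    intro d
    by_contra h
    exact hbad ⟨d, h⟩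
  -- next bad dart
  have hex : ∀ d, ∃ e, Bad M d → IsNext (M.ph * M.gl) (Bad M) d e := by
    intro d
    by_cases hd : Bad M d
    · obtain ⟨e, he, -⟩ := exists_next (M.ph * M.gl) (Bad M) d hd
      exact ⟨e, fun _ => he⟩
    · exact ⟨d, fun h => absurd h hd⟩
  choose nb hnb using hex
  have hnbbad : ∀ d, Bad M d → Bad M (nb d) := by
    intro d hd
    obtain ⟨m, _, _, h, _⟩ := hnb d hd
    exact h
  have hV := vertex_count (M.ph * M.gl) (Bad M) (fun d => (M.fr d).u ⬝ᵥ (M.fr (nb d)).u = cc) nb hnb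
    (by
      intro d hd h
      have := hnb d hd
      rw [h] at this
      exact next_ne M hd this)
    (by
      intro d hd h ht
      have h2 := hnb (nb d) (hnbbad d hd)
      rw [h] at h2
      exact next_two M (hnb d hd) h2 ht)
    (by
      rintro d hd h ⟨t1, t2, t3⟩
      have h2 := hnb (nb d) (hnbbad d hd)
      have h3 := hnb (nb (nb d)) (hnbbad _ (hnbbad d hd))
      rw [h] at h3 t3
      exact next_three M (hnb d hd) h2 h3 t1 t2 t3)
  have hset : {d | Bad M d ∧ (M.fr d).u ⬝ᵥ (M.fr (nb d)).u = cc} = {e | Bad M e ∧ T0 M e} := by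
    ext d
    simp only [Set.mem_ofPred_eq]
    constructor
    · rintro ⟨h1, h2⟩
      exact ⟨h1, nb d, hnb d h1, h2⟩
    · rintro ⟨h1, e, h2, h3⟩
      refine ⟨h1, ?_⟩
      have := (exists_next (M.ph * M.gl) (Bad M) d h1).unique h2 (hnb d h1)
      rw [← this]
      exact h3
  rw [hset] at hV
  have hphcyc : ∀ e, M.ph.SameCycle g e → Relation.EqvGen (rr M.ph M.gl (Bad M)) g e := by
    intro e he
    obtain ⟨n, hn⟩ := sameCycle_pow M he
    subst hn
    clear he
    induction n with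
    | zero => exact Relation.EqvGen.refl _
    | succ n ih =>
      refine Relation.EqvGen.trans _ _ _ ih ?_
      apply Relation.EqvGen.rel
      left
      rw [pow_succ']
      rfl
  have hR := region_sum (rr M.ph M.gl (Bad M)) (fun e => M.ph (M.gl e)) {e | Bad M e ∧ T0 M e} g
    (by
      intro d hd
      refine reg_ge4 M _ hC d ?_
      intro d' hd' hG
      apply hd
      exact Relation.EqvGen.trans _ _ _ (hphcyc d' hG) (Relation.EqvGen.symm _ _ hd'))
  have hE := coarse_euler M.ph M.gl M.gl_gl M.gl_ne M.conn M.dsc (Bad M) (bad_gl M) hbad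
  omega

/-! ### surgery -/

/-- darts reachable from the outside of the curve `H` without crossing it -/
inductive Rea (M : PMap D) (H : Set D) : D → Prop
  | base {h : D} : h ∈ H → Rea M H (M.gl h)
  | ph {d : D} : Rea M H d → Rea M H (M.ph d)
  | gl {d : D} : Rea M H d → M.gl d ∉ H → Rea M H (M.gl d)

/-- darts of the surface cut along `H` and capped -/
def Sset (M : PMap D) (H : Set D) : Set D := {d | Rea M H d ∨ d ∈ H}

/-- closed curve of edges along the spokes of a belt -/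
structure Curve (M : PMap D) (s : Bool) (H : Set D) : Prop where
  ne : H.Nonempty
  adj : ∀ h ∈ H, Adj M s (M.ph h)
  nxt : ∀ h ∈ H, M.ph (M.gl (M.ph h)) ∈ H
  ph_not : ∀ h ∈ H, M.ph h ∉ H
  gp_not : ∀ h ∈ H, M.gl (M.ph h) ∉ H
  gl_not : ∀ h ∈ H, M.gl h ∉ H

theorem sum_sub {D : Type} [Fintype D] (S : Set D) [Fintype S] (F : D → ZMod 2)
    (g : S → ZMod 2) (h1 : ∀ e : S, F e = g e) (h2 : ∀ e, e ∉ S → F e = 0) :
    ∑ e, F e = ∑ e, g e := by
  rw [← Finset.sum_congr rfl (fun e _ => h1 e), Finset.sum_set_coe]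
  symm
  exact Finset.sum_subset (Finset.subset_univ _) (fun x _ hx => h2 x (by simpa using hx))

theorem T_mem_iff (M : PMap D) {s : Bool} {H : Set D} (hH : Curve M s H) (d : D) :
    M.ph (M.gl (M.ph d)) ∈ H ↔ d ∈ H := by
  constructor
  · intro h
    have hm : Set.MapsTo (M.ph * M.gl * M.ph : Equiv.Perm D) H H := fun x hx => hH.nxt x hx
    have h2 := Equiv.Perm.perm_symm_mapsTo_of_mapsTo (M.ph * M.gl * M.ph : Equiv.Perm D) hm h
    have h3 : (M.ph * M.gl * M.ph : Equiv.Perm D).symm (M.ph (M.gl (M.ph d))) = d :=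
      (M.ph * M.gl * M.ph : Equiv.Perm D).symm_apply_apply d
    rwa [h3] at h2
  · exact hH.nxt d

theorem curve_sep (M : PMap D) {s : Bool} {H : Set D} (hH : Curve M s H) :
    ∃ f : D → ZMod 2, (∀ d, f (M.ph d) = f d) ∧
      ∀ d, f d + f (M.gl d) = if d ∈ H ∨ M.gl d ∈ H then 1 else 0 := by
  suffices hsum : ∀ d, ∑ e ∈ Finset.univ.filter (fun e => (M.ph * M.gl).SameCycle d e),
      (if e ∈ H ∨ M.gl e ∈ H then (1 : ZMod 2) else 0) = 0 by
    obtain ⟨f, hf1, hf2⟩ := M.dsc (fun d => if d ∈ H ∨ M.gl d ∈ H then 1 else 0)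
      (by intro d; simp only [M.gl_gl, or_comm]) hsum
    exact ⟨f, hf1, fun d => (hf2 d).symm⟩
  · intro d
    have hc : ∀ e : D, (if e ∈ H ∨ M.gl e ∈ H then (1 : ZMod 2) else 0)
        = (if e ∈ H then 1 else 0) + (if M.gl e ∈ H then 1 else 0) := by
      intro e
      by_cases h1 : e ∈ H
      · have h2 := hH.gl_not e h1
        simp [h1, h2]
      · by_cases h2 : M.gl e ∈ H
        · simp [h1, h2]
        · simp [h1, h2]
    rw [Finset.sum_congr rfl (fun e _ => hc e), Finset.sum_add_distrib]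
    have key : ∑ e ∈ Finset.univ.filter (fun e => (M.ph * M.gl).SameCycle d e),
        (if M.gl e ∈ H then (1 : ZMod 2) else 0)
        = ∑ e ∈ Finset.univ.filter (fun e => (M.ph * M.gl).SameCycle d e),
        (if e ∈ H then (1 : ZMod 2) else 0) := by
      rw [Finset.sum_filter, Finset.sum_filter]
      rw [← Equiv.sum_comp ((M.ph * M.gl) * (M.ph * M.gl))
        (fun e => if (M.ph * M.gl).SameCycle d e then (if e ∈ H then (1 : ZMod 2) else 0) else 0)]
      refine Finset.sum_congr rfl fun e _ => ?_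
      have e1 : (M.ph * M.gl).SameCycle d (((M.ph * M.gl) * (M.ph * M.gl)) e) ↔
          (M.ph * M.gl).SameCycle d e := by
        rw [Equiv.Perm.mul_apply, Equiv.Perm.sameCycle_apply_right,
          Equiv.Perm.sameCycle_apply_right]
      have e2 : ((M.ph * M.gl) * (M.ph * M.gl)) e ∈ H ↔ M.gl e ∈ H := by
        show M.ph (M.gl (M.ph (M.gl e))) ∈ H ↔ M.gl e ∈ H
        exact T_mem_iff M hH (M.gl e)
      simp only [e1, e2]
    rw [key]
    exact CharTwo.add_self_eq_zero _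

theorem rea_not (M : PMap D) {s : Bool} {H : Set D} (hH : Curve M s H) {h d : D}
    (hh : M.ph.SameCycle h d) (hm : h ∈ H) (h0 : D)
    (hone : ∀ h ∈ H, (M.ph * M.gl * M.ph).SameCycle h0 h) : ¬ Rea M H d := by
  obtain ⟨f, hf1, hf2⟩ := curve_sep M hH
  have hph : ∀ (n : ℕ) (x : D), f ((M.ph ^ n) x) = f x := by
    intro n x
    induction n with
    | zero => rfl
    | succ n ih => rw [pow_succ', Equiv.Perm.mul_apply, hf1, ih]
  have hsc : ∀ x y : D, M.ph.SameCycle x y → f y = f x := by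
    intro x y hxy
    obtain ⟨n, -, hn⟩ := hxy.exists_pow_eq'
    rw [← hn, hph]
  have hT : ∀ x ∈ H, f (M.ph (M.gl (M.ph x))) = f x := by
    intro x hx
    have h1 := hf2 (M.ph x)
    rw [if_neg (by
      rintro (h | h)
      · exact hH.ph_not x hx h
      · exact hH.gp_not x hx h)] at h1
    rw [hf1, ← hf1 x]
    have h2 : f (M.gl (M.ph x)) = - f (M.ph x) := by
      linear_combination h1
    rw [h2, CharTwo.neg_eq]
  have hTn : ∀ (n : ℕ) (x : D), x ∈ H → ((M.ph * M.gl * M.ph) ^ n) x ∈ H ∧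
      f (((M.ph * M.gl * M.ph) ^ n) x) = f x := by
    intro n x hx
    induction n with
    | zero => exact ⟨hx, rfl⟩
    | succ n ih =>
      rw [pow_succ', Equiv.Perm.mul_apply]
      exact ⟨hH.nxt _ ih.1, (hT _ ih.1).trans ih.2⟩
  have hcon : ∀ x ∈ H, f x = f h := by
    intro x hx
    obtain ⟨n, -, hn⟩ := ((hone h hm).symm.trans (hone x hx)).exists_pow_eq'
    rw [← hn, (hTn n h hm).2]
  have hone' : (1 : ZMod 2) ≠ 0 := one_ne_zero
  have hrea : ∀ x, Rea M H x → f x = f h + 1 := by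
    intro x hx
    induction hx with
    | @base y hy =>
      have h1 := hf2 y
      rw [if_pos (Or.inl hy), hcon y hy] at h1
      have h2 : f (M.gl y) = 1 - f h := by linear_combination h1
      rw [h2, sub_eq_add_neg, CharTwo.neg_eq, add_comm]
    | ph _ ih => rw [hf1, ih]
    | @gl y _ hy2 ih =>
      have hyn : y ∉ H := by
        intro hyH
        rw [hcon y hyH] at ih
        exact hone' (by linear_combination -ih)
      have h1 := hf2 y
      rw [if_neg (by
        rintro (h | h)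
        · exact hyn h
        · exact hy2 h), ih] at h1
      have h2 : f (M.gl y) = - (f h + 1) := by linear_combination h1
      rw [h2, CharTwo.neg_eq]
  intro hd
  have h1 := hrea d hd
  rw [hsc h d hh] at h1
  exact hone' (by linear_combination -h1)

theorem surgery (M : PMap D) {s : Bool} {H : Set D} (hH : Curve M s H)
    (hcap : ∀ h ∈ H, ¬ Adj M s h) (h0 : D) (hh0 : h0 ∈ H)
    (hone : ∀ h ∈ H, (M.ph * M.gl * M.ph).SameCycle h0 h) :
    ∃ M' : PMap (Sset M H), (∀ d, ((M'.gl d : Sset M H) : D) = M.gl d) ∧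
      (∀ d : Sset M H, (d : D) ∉ H → ((M'.ph d : Sset M H) : D) = M.ph d ∧ M'.fr d = M.fr d) ∧
      (∀ d : Sset M H, (d : D) ∈ H → ((M'.ph d : Sset M H) : D) = M.ph (M.gl (M.ph d)) ∧
        M'.fr d = Dd s (M.fr d)) := by
  have hnot : ∀ d, Rea M H d → d ∉ H := fun d hd hdH =>
    rea_not M hH (Equiv.Perm.SameCycle.refl _ _) hdH h0 hone hd
  have hphn : ∀ h ∈ H, M.ph h ∉ Sset M H := by
    rintro h hh (h1 | h1)
    · exact rea_not M hH (d := M.ph h) ⟨1, by simp⟩ hh h0 hone h1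
    · exact hH.ph_not h hh h1
  have hgpn : ∀ h ∈ H, M.gl (M.ph h) ∉ Sset M H := by
    rintro h hh (h1 | h1)
    · apply hphn h hh
      left
      have := Rea.gl h1 (by rw [M.gl_gl]; exact hH.ph_not h hh)
      rwa [M.gl_gl] at this
    · exact hH.gp_not h hh h1
  have hglm : ∀ d, d ∈ Sset M H → M.gl d ∈ Sset M H := by
    rintro d (h1 | h1)
    · by_cases h2 : M.gl d ∈ H
      · exact Or.inr h2
      · exact Or.inl (Rea.gl h1 h2)
    · exact Or.inl (Rea.base h1)
  have hglr : ∀ d, d ∈ Sset M H → M.gl d ∉ H → Rea M H (M.gl d) := by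
    intro d hd h
    rcases hglm d hd with h1 | h1
    · exact h1
    · exact absurd h1 h
  -- gluing
  let gl' : Equiv.Perm (Sset M H) :=
    { toFun := fun d => ⟨M.gl d, hglm _ d.2⟩
      invFun := fun d => ⟨M.gl d, hglm _ d.2⟩
      left_inv := fun d => Subtype.ext (M.gl_gl d)
      right_inv := fun d => Subtype.ext (M.gl_gl d) }
  have hgl' : ∀ d : Sset M H, ((gl' d : Sset M H) : D) = M.gl d := fun d => rfl
  -- faces
  let pf : Sset M H → Sset M H := fun d =>
    if h : (d : D) ∈ H then ⟨M.ph (M.gl (M.ph d)), Or.inr (hH.nxt _ h)⟩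
    else ⟨M.ph d, Or.inl (Rea.ph (d.2.resolve_right h))⟩
  have hpf1 : ∀ d : Sset M H, (d : D) ∈ H → ((pf d : Sset M H) : D) = M.ph (M.gl (M.ph d)) := by
    intro d hd
    simp only [pf, dif_pos hd]
  have hpf2 : ∀ d : Sset M H, (d : D) ∉ H → ((pf d : Sset M H) : D) = M.ph d := by
    intro d hd
    simp only [pf, dif_neg hd]
  have hinj : Function.Injective pf := by
    intro d e hde
    have hde' : ((pf d : Sset M H) : D) = (pf e : Sset M H) := congrArg Subtype.val hde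
    by_cases hd : (d : D) ∈ H
    · by_cases he : (e : D) ∈ H
      · rw [hpf1 d hd, hpf1 e he] at hde'
        exact Subtype.ext (M.ph.injective (M.gl.injective (M.ph.injective hde')))
      · rw [hpf1 d hd, hpf2 e he] at hde'
        exact absurd (hde' ▸ hH.nxt _ hd) (hnot _ (Rea.ph (e.2.resolve_right he)))
    · by_cases he : (e : D) ∈ H
      · rw [hpf2 d hd, hpf1 e he] at hde'
        exact absurd (hde'.symm ▸ hH.nxt _ he) (hnot _ (Rea.ph (d.2.resolve_right hd)))
      · rw [hpf2 d hd, hpf2 e he] at hde'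
        exact Subtype.ext (M.ph.injective hde')
  let ph' : Equiv.Perm (Sset M H) := Equiv.ofBijective pf (Finite.injective_iff_bijective.1 hinj)
  have hph1 : ∀ d : Sset M H, (d : D) ∈ H → ((ph' d : Sset M H) : D) = M.ph (M.gl (M.ph d)) :=
    hpf1
  have hph2 : ∀ d : Sset M H, (d : D) ∉ H → ((ph' d : Sset M H) : D) = M.ph d := hpf2
  let fr' : Sset M H → Fr := fun d => if (d : D) ∈ H then Dd s (M.fr d) else M.fr d
  have hfr1 : ∀ d : Sset M H, (d : D) ∈ H → fr' d = Dd s (M.fr d) := fun d hd => if_pos hd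
  have hfr2 : ∀ d : Sset M H, (d : D) ∉ H → fr' d = M.fr d := fun d hd => if_neg hd
  have hfro : ∀ d : Sset M H, (fr' d).o = (M.fr d).o := by
    intro d
    by_cases hd : (d : D) ∈ H
    · rw [hfr1 d hd]; rfl
    · rw [hfr2 d hd]
  have hfru : ∀ d : Sset M H, (fr' d).u = (M.fr d).u := by
    intro d
    by_cases hd : (d : D) ∈ H
    · rw [hfr1 d hd]; rfl
    · rw [hfr2 d hd]
  -- first return
  have hsg1 : ∀ d : Sset M H, M.gl d ∈ H →
      (((ph' * gl') d : Sset M H) : D) = (M.ph * M.gl) ((M.ph * M.gl) d) := by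
    intro d hd
    rw [Equiv.Perm.mul_apply, hph1 (gl' d) hd]
    rfl
  have hsg2 : ∀ d : Sset M H, M.gl d ∉ H →
      (((ph' * gl') d : Sset M H) : D) = (M.ph * M.gl) d := by
    intro d hd
    rw [Equiv.Perm.mul_apply, hph2 (gl' d) hd]
    rfl
  have hsc1 : ∀ (n : ℕ) (d : Sset M H), (M.ph * M.gl).SameCycle d (((ph' * gl') ^ n) d : Sset M H) := by
    intro n d
    induction n with
    | zero => exact Equiv.Perm.SameCycle.refl _ _
    | succ n ih =>
      rw [pow_succ', Equiv.Perm.mul_apply]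
      by_cases h : M.gl ((((ph' * gl') ^ n) d : Sset M H) : D) ∈ H
      · rw [hsg1 _ h, Equiv.Perm.sameCycle_apply_right, Equiv.Perm.sameCycle_apply_right]
        exact ih
      · rw [hsg2 _ h, Equiv.Perm.sameCycle_apply_right]
        exact ih
  have hsc2 : ∀ d e : Sset M H, (ph' * gl').SameCycle d e → (M.ph * M.gl).SameCycle (d : D) e := by
    intro d e hde
    obtain ⟨n, -, hn⟩ := hde.exists_pow_eq'
    rw [← hn]
    exact hsc1 n d
  have hsc3 : ∀ (n : ℕ) (d e : Sset M H), ((M.ph * M.gl) ^ n) (d : D) = e →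
      (ph' * gl').SameCycle d e := by
    intro n
    induction n using Nat.strong_induction_on with
    | _ n ih =>
      intro d e hde
      rcases n with _ | n
      · have : d = e := Subtype.ext hde
        rw [this]
      · rw [pow_succ, Equiv.Perm.mul_apply] at hde
        by_cases h : M.gl (d : D) ∈ H
        · rcases n with _ | n
          · exfalso
            have h3 : M.ph (M.gl (d : D)) = e := hde
            exact hphn _ h (h3 ▸ e.2)
          · rw [pow_succ, Equiv.Perm.mul_apply, ← hsg1 d h] at hde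
            have := ih n (by omega) _ e hde
            rwa [Equiv.Perm.sameCycle_apply_left] at this
        · rw [← hsg2 d h] at hde
          have := ih n (by omega) _ e hde
          rwa [Equiv.Perm.sameCycle_apply_left] at this
  have hsc4 : ∀ d e : Sset M H, (M.ph * M.gl).SameCycle (d : D) e → (ph' * gl').SameCycle d e := by
    intro d e hde
    obtain ⟨n, -, hn⟩ := hde.exists_pow_eq'
    exact hsc3 n d e hn
  refine ⟨{ ph := ph', gl := gl', gl_gl := ?_, gl_ne := ?_, fr := fr', fr_ph := ?_, fr_o := ?_,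
            fr_u := ?_, nofold := ?_, inj := ?_, conn := ?_, dsc := ?_ }, ?_, ?_, ?_⟩
  · intro d
    exact Subtype.ext (M.gl_gl d)
  · intro d h
    exact M.gl_ne d (congrArg Subtype.val h)
  · intro d
    by_cases hd : (d : D) ∈ H
    · have hpd : ((ph' d : Sset M H) : D) ∈ H := by rw [hph1 d hd]; exact hH.nxt _ hd
      rw [hfr1 _ hpd, hfr1 d hd, hph1 d hd, M.fr_ph, hH.adj _ hd, M.fr_ph]
      have h1 := rho_tau_cube s (tauF s (M.fr d))
      rw [tauF_tauF] at h1
      rw [← kap_tau_eq, ← kap_tau_eq]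
      set Y := tauF s (rhoF (tauF s (rhoF (M.fr (d : D))))) with hY
      have h2 : rhoF Y = tauF s (M.fr (d : D)) := h1
      rw [← h2, kap_rho]
      have h3 : rhoF (rhoI (kapF Y)) = kapF Y := rho.right_inv (kapF Y)
      rw [h3]
    · have hpd : ((ph' d : Sset M H) : D) ∉ H := by
        rw [hph2 d hd]
        exact hnot _ (Rea.ph (d.2.resolve_right hd))
      rw [hfr2 _ hpd, hfr2 d hd, hph2 d hd, M.fr_ph]
  · intro d
    rw [hfro, hfro, hfru]
    exact M.fr_o d
  · intro d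
    rw [hfru, hfru]
    exact M.fr_u d
  · intro d
    by_cases hd : (d : D) ∈ H
    · have hg : ((gl' d : Sset M H) : D) ∉ H := hH.gl_not _ hd
      rw [hfr1 d hd, hfr2 _ hg, kapF_Dd]
      exact hcap _ hd
    · by_cases hg : ((gl' d : Sset M H) : D) ∈ H
      · rw [hfr2 d hd, hfr1 _ hg]
        intro h
        apply hcap _ hg
        unfold Adj
        have h1 := congrArg kapF h
        rw [kapF_Dd, kapF_kapF] at h1
        rw [hgl', M.gl_gl]
        exact h1.symm
      · rw [hfr2 d hd, hfr2 _ hg]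
        exact M.nofold d
  · intro d e hde hu
    rw [hfru, hfru] at hu
    exact Subtype.ext (M.inj _ _ (hsc2 d e hde) hu)
  · intro S hne hSp hSg
    have hmeet : ∃ x : Sset M H, x ∈ S ∧ (x : D) ∈ H := by
      by_contra hcon
      push Not at hcon
      have hu := M.conn {d | ∃ h : d ∈ Sset M H, (⟨d, h⟩ : Sset M H) ∈ S}
        (by obtain ⟨x, hx⟩ := hne; exact ⟨x, x.2, hx⟩)
        (by
          rintro d ⟨h, hd⟩
          have h1 := hph2 ⟨d, h⟩ (hcon _ hd)
          have h2 := hSp _ hd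
          refine ⟨by rw [← h1]; exact (ph' ⟨d, h⟩).2, ?_⟩
          have h3 : (⟨M.ph d, by rw [← h1]; exact (ph' ⟨d, h⟩).2⟩ : Sset M H) = ph' ⟨d, h⟩ :=
            Subtype.ext h1.symm
          rw [h3]
          exact h2)
        (by
          rintro d ⟨h, hd⟩
          exact ⟨hglm _ h, hSg _ hd⟩)
      have h3 : h0 ∈ {d | ∃ h : d ∈ Sset M H, (⟨d, h⟩ : Sset M H) ∈ S} := by rw [hu]; trivial
      obtain ⟨h4, h5⟩ := h3
      exact hcon _ h5 hh0
    obtain ⟨x, hxS, hxH⟩ := hmeet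
    have hTn : ∀ n : ℕ, ∃ h : ((M.ph * M.gl * M.ph) ^ n) (x : D) ∈ H,
        (⟨((M.ph * M.gl * M.ph) ^ n) (x : D), Or.inr h⟩ : Sset M H) ∈ S := by
      intro n
      induction n with
      | zero => exact ⟨hxH, hxS⟩
      | succ n ih =>
        obtain ⟨h1, h2⟩ := ih
        have h3 : ((M.ph * M.gl * M.ph) ^ (n + 1)) (x : D) =
            M.ph (M.gl (M.ph (((M.ph * M.gl * M.ph) ^ n) (x : D)))) := by
          rw [pow_succ', Equiv.Perm.mul_apply]; rfl
        have hmem : ((M.ph * M.gl * M.ph) ^ (n + 1)) (x : D) ∈ H := by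
          rw [h3]; exact hH.nxt _ h1
        refine ⟨hmem, ?_⟩
        have h4 := hSp _ h2
        have h5 := hph1 _ (show ((⟨((M.ph * M.gl * M.ph) ^ n) (x : D), Or.inr h1⟩ : Sset M H) : D) ∈ H from h1)
        have h6 : (⟨((M.ph * M.gl * M.ph) ^ (n + 1)) (x : D), Or.inr hmem⟩ : Sset M H)
            = ph' ⟨((M.ph * M.gl * M.ph) ^ n) (x : D), Or.inr h1⟩ :=
          Subtype.ext (h3.trans h5.symm)
        rw [h6]
        exact h4
    have hHS : ∀ y (hy : y ∈ H), (⟨y, Or.inr hy⟩ : Sset M H) ∈ S := by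
      intro y hy
      obtain ⟨n, -, hn⟩ := ((hone x hxH).symm.trans (hone y hy)).exists_pow_eq'
      obtain ⟨h1, h2⟩ := hTn n
      have : (⟨y, Or.inr hy⟩ : Sset M H) = ⟨((M.ph * M.gl * M.ph) ^ n) (x : D), Or.inr h1⟩ :=
        Subtype.ext hn.symm
      rw [this]
      exact h2
    have hRS : ∀ y (hy : Rea M H y), (⟨y, Or.inl hy⟩ : Sset M H) ∈ S := by
      intro y hy
      induction hy with
      | base h => exact hSg _ (hHS _ h)
      | @ph d hd ih =>
        have h4 := hSp _ ih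
        have h5 := hph2 ⟨d, Or.inl hd⟩ (hnot _ hd)
        have h6 : (⟨M.ph d, Or.inl (Rea.ph hd)⟩ : Sset M H) = ph' ⟨d, Or.inl hd⟩ :=
          Subtype.ext h5.symm
        rw [h6]
        exact h4
      | gl hd hn ih => exact hSg _ ih
    ext ⟨y, hy⟩
    simp only [Set.mem_univ, iff_true]
    rcases hy with hy | hy
    · exact hRS y hy
    · exact hHS y hy
  · intro c hc1 hc2
    let c0 : D → ZMod 2 := fun d => if h : d ∈ Sset M H then c ⟨d, h⟩ else 0
    have hc0 : ∀ d : Sset M H, c0 d = c d := by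
      intro d
      simp only [c0, dif_pos d.2]
    have hc0' : ∀ d, d ∉ Sset M H → c0 d = 0 := fun d hd => dif_neg hd
    obtain ⟨f, hf1, hf2⟩ := M.dsc c0
      (by
        intro d
        by_cases hd : d ∈ Sset M H
        · rw [show d = ((⟨d, hd⟩ : Sset M H) : D) from rfl, ← hgl', hc0, hc0, hc1]
        · have hg : M.gl d ∉ Sset M H := by
            intro h
            apply hd
            have := hglm _ h
            rwa [M.gl_gl] at this
          rw [hc0' _ hd, hc0' _ hg])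
      (by
        intro d
        by_cases hex : ∃ e : Sset M H, (M.ph * M.gl).SameCycle d e
        · obtain ⟨e0, he0⟩ := hex
          have h1 := hc2 e0
          rw [Finset.sum_filter] at h1 ⊢
          refine Eq.trans ?_ h1
          apply sum_sub (Sset M H)
          · intro e
            have h3 : (M.ph * M.gl).SameCycle d e ↔ (ph' * gl').SameCycle e0 e := by
              constructor
              · intro h
                exact hsc4 e0 e (he0.symm.trans h)
              · intro h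
                exact he0.trans (hsc2 _ _ h)
            by_cases h : (ph' * gl').SameCycle e0 e
            · rw [if_pos (h3.2 h), if_pos h, hc0]
            · rw [if_neg (fun h' => h (h3.1 h')), if_neg h]
          · intro e he
            rw [hc0' e he]
            simp
        · push Not at hex
          apply Finset.sum_eq_zero
          intro e he
          apply hc0'
          intro hS
          exact hex ⟨e, hS⟩ (Finset.mem_filter.1 he).2)
    refine ⟨fun d => f d, ?_, ?_⟩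
    · intro d
      by_cases hd : (d : D) ∈ H
      · show f ((ph' d : Sset M H) : D) = f d
        rw [hph1 d hd, hf1, ← hf1 d]
        have h1 := hf2 (M.ph d)
        rw [hc0' _ (hphn _ hd)] at h1
        have h2 : f (M.gl (M.ph (d : D))) = - f (M.ph (d : D)) := by linear_combination -h1
        rw [h2, CharTwo.neg_eq]
      · show f ((ph' d : Sset M H) : D) = f d
        rw [hph2 d hd, hf1]
    · intro d
      rw [← hc0 d]
      exact hf2 d
  · intro d
    rfl
  · intro d hd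
    exact ⟨hph2 d hd, hfr2 d hd⟩
  · intro d hd
    exact ⟨hph1 d hd, hfr1 d hd⟩

theorem kap_rhoI (P : Fr) : kapF (rhoI P) = rhoF (kapF P) := by
  have h := kap_rho (rhoI P)
  have h1 : rhoF (rhoI P) = P := rho.right_inv P
  rw [h1] at h
  rw [h]
  exact (rho.right_inv (kapF (rhoI P))).symm

theorem Dd_step (s : Bool) (Q : Fr) : Dd s (rhoF (tauF s (rhoF Q))) = rhoF (Dd s Q) := by
  have h := rho_tau_cube s (tauF s Q)
  rw [tauF_tauF] at h
  have h2 : tauF s (rhoF (tauF s (rhoF Q))) = rhoI (tauF s Q) := by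
    rw [← h]
    exact (rho.left_inv _).symm
  rw [← kap_tau_eq, h2, kap_rhoI, kap_tau_eq]

theorem zmod5_inv1 : -(1 : ZMod 5)⁻¹ = 4 := by
  rw [ZMod.inv_one]; decide

theorem zmod5_inv2 : -(2 : ZMod 5)⁻¹ = 2 := by
  rw [ZMod.inv_eq_of_mul_eq_one 5 2 3 (by decide)]; decide

/-- one step of the belt curve -/
theorem belt_step (M : PMap D) (s : Bool) (E : Set D) (idx : D → ZMod 5)
    (h1 : ∀ d ∈ E, M.ph d ∈ E ∧ idx (M.ph d) = idx d + 1)
    (h2 : ∀ d ∈ E, idx d ≠ 0 → Adj M s d ∧ M.gl d ∈ E ∧ idx (M.gl d) = -(idx d)⁻¹)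
    (h : D) (hE : h ∈ E) (hi : idx h = 0) :
    Adj M s (M.ph h) ∧ M.ph h ∈ E ∧ idx (M.ph h) = 1 ∧ M.gl (M.ph h) ∈ E ∧
      idx (M.gl (M.ph h)) = 4 ∧ M.ph (M.gl (M.ph h)) ∈ E ∧ idx (M.ph (M.gl (M.ph h))) = 0 := by
  obtain ⟨a1, a2⟩ := h1 h hE
  rw [hi, zero_add] at a2
  obtain ⟨b1, b2, b3⟩ := h2 _ a1 (by rw [a2]; decide)
  rw [a2, zmod5_inv1] at b3
  obtain ⟨c1, c2⟩ := h1 _ b2
  rw [b3] at c2
  exact ⟨b1, a1, a2, b2, b3, c1, by rw [c2]; decide⟩

theorem belt_E (M : PMap D) (s : Bool) (E : Set D) (idx : D → ZMod 5)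
    (h1 : ∀ d ∈ E, M.ph d ∈ E ∧ idx (M.ph d) = idx d + 1)
    (h2 : ∀ d ∈ E, idx d ≠ 0 → Adj M s d ∧ M.gl d ∈ E ∧ idx (M.gl d) = -(idx d)⁻¹)
    (h0 : D) (hE : h0 ∈ E) (hi : idx h0 = 0) (n : ℕ) :
    ((M.ph * M.gl * M.ph) ^ n) h0 ∈ E ∧ idx (((M.ph * M.gl * M.ph) ^ n) h0) = 0 ∧
      Dd s (M.fr (((M.ph * M.gl * M.ph) ^ n) h0)) = rhoF^[n] (Dd s (M.fr h0)) := by
  induction n with
  | zero => exact ⟨hE, hi, rfl⟩
  | succ n ih =>
    obtain ⟨i1, i2, i3⟩ := ih
    obtain ⟨b1, a1, a2, b2, b3, c1, c2⟩ := belt_step M s E idx h1 h2 _ i1 i2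
    have he : ((M.ph * M.gl * M.ph) ^ (n + 1)) h0
        = M.ph (M.gl (M.ph (((M.ph * M.gl * M.ph) ^ n) h0))) := by
      rw [pow_succ']; rfl
    rw [he]
    refine ⟨c1, c2, ?_⟩
    rw [Function.iterate_succ_apply', ← i3, ← Dd_step, M.fr_ph, b1, M.fr_ph]

theorem same_pow {D : Type} [Fintype D] {f : Equiv.Perm D} {a b : D} (h : f.SameCycle a b) :
    ∃ n : ℕ, (f ^ n) a = b := by
  obtain ⟨n, -, hn⟩ := h.exists_pow_eq'
  exact ⟨n, hn⟩

/-- the curve through a horizontal dart of a complete belt -/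
theorem belt_curve (M : PMap D) (s : Bool) (E : Set D) (idx : D → ZMod 5)
    (h1 : ∀ d ∈ E, M.ph d ∈ E ∧ idx (M.ph d) = idx d + 1)
    (h2 : ∀ d ∈ E, idx d ≠ 0 → Adj M s d ∧ M.gl d ∈ E ∧ idx (M.gl d) = -(idx d)⁻¹)
    (h0 : D) (hE : h0 ∈ E) (hi : idx h0 = 0) :
    Curve M s {h | (M.ph * M.gl * M.ph).SameCycle h0 h} ∧
      ∀ h, (M.ph * M.gl * M.ph).SameCycle h0 h → h ∈ E ∧ idx h = 0 := by
  have hmem : ∀ h, (M.ph * M.gl * M.ph).SameCycle h0 h → h ∈ E ∧ idx h = 0 := by
    intro h hh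
    obtain ⟨n, rfl⟩ := same_pow hh
    obtain ⟨a, b, -⟩ := belt_E M s E idx h1 h2 h0 hE hi n
    exact ⟨a, b⟩
  refine ⟨⟨⟨h0, Equiv.Perm.SameCycle.refl _ _⟩, ?_, ?_, ?_, ?_, ?_⟩, hmem⟩
  · intro h hh
    obtain ⟨a, b⟩ := hmem h hh
    exact (belt_step M s E idx h1 h2 h a b).1
  · intro h hh
    have : M.ph (M.gl (M.ph h)) = (M.ph * M.gl * M.ph) h := rfl
    rw [this]
    exact Equiv.Perm.sameCycle_apply_right.mpr hh
  · intro h hh hc
    obtain ⟨a, b⟩ := hmem h hh
    obtain ⟨c, d⟩ := hmem _ hc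
    rw [(belt_step M s E idx h1 h2 h a b).2.2.1] at d
    exact absurd d (by decide)
  · intro h hh hc
    obtain ⟨a, b⟩ := hmem h hh
    obtain ⟨c, d⟩ := hmem _ hc
    rw [(belt_step M s E idx h1 h2 h a b).2.2.2.2.1] at d
    exact absurd d (by decide)
  · intro h hh hc
    obtain ⟨a, b⟩ := hmem h hh
    have h3 : (M.ph * M.gl * M.ph).SameCycle h (M.gl h) := hh.symm.trans hc
    obtain ⟨n, hn⟩ := same_pow h3
    obtain ⟨-, -, e⟩ := belt_E M s E idx h1 h2 h a b n
    rw [hn] at e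
    apply dir_ne (Dd s (M.fr h)) n
    rw [← e]
    show (M.fr (M.gl h)).u = -(M.fr h).u
    exact M.fr_u h

theorem z2_add (a b : ZMod 2) (h : a + b = 0) : b = a := by
  revert a b; decide

theorem z2_add1 (a b : ZMod 2) (h : a + b = 1) : b = a + 1 := by
  revert a b; decide

theorem z2_ne (a : ZMod 2) : a ≠ a + 1 := by
  revert a; decide

/-- the normal of the opposite cap -/
theorem w_opp (s : Bool) (Q K : Fr) (h : rhoF (rhoF K) = tauF s (rhoF (rhoF Q))) :
    (Dd s K).w = - (Dd s Q).w := by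
  set T := rhoF (rhoF Q) with hT
  have hQ : Q = rhoI (rhoI T) := by
    rw [hT]
    have e1 : rhoI (rhoF (rhoF Q)) = rhoF Q := rho.left_inv _
    have e2 : rhoI (rhoF Q) = Q := rho.left_inv _
    rw [e1, e2]
  have hK : K = rhoI (rhoI (tauF s T)) := by
    rw [← h]
    have e1 : rhoI (rhoF (rhoF K)) = rhoF K := rho.left_inv _
    have e2 : rhoI (rhoF K) = K := rho.left_inv _
    rw [e1, e2]
  have wI : ∀ P : Fr, (rhoI P).w = P.w := by
    intro P
    have e1 : rhoF (rhoI P) = P := rho.right_inv _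
    rw [← w_rho (rhoI P), e1]
  have hKw : K.w = T.lin (-(2 * sg s * (s5 / 5)) * cc) (2 * sg s * (s5 / 5)) (s5 / 5) := by
    rw [hK, wI, wI, w_tau]
  have hQw : Q.w = T.w := by rw [hQ, wI, wI]
  have hKu : K.u = T.lin (1 - kk * ((3 * s5 - 5) / 10)) (-(kk * (-(s5 / 5))))
      (-(kk * (2 * sg s * (s5 / 5)))) := by
    rw [hK]
    simp only [rhoI, tauF, Fr.lin, kk]
    module
  have hKv : K.v = T.lin (-(kk) + (kk * kk - 1) * ((3 * s5 - 5) / 10)) ((kk * kk - 1) * (-(s5 / 5)))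
      ((kk * kk - 1) * (2 * sg s * (s5 / 5))) := by
    rw [hK]
    simp only [rhoI, tauF, Fr.lin, kk]
    module
  have hQu : Q.u = T.lin (-1) (-kk) 0 := by
    rw [hQ]
    simp only [rhoI, Fr.lin, kk]
    module
  have hQv : Q.v = T.lin kk (kk * kk - 1) 0 := by
    rw [hQ]
    simp only [rhoI, Fr.lin, kk]
    module
  rw [w_Dd, w_Dd]
  unfold Fr.lin
  rw [hKu, hKv, hKw, hQu, hQv, hQw]
  unfold Fr.lin
  have h1 := s5_sq
  have h2 := sg_sq s
  have key : ∀ a b c x1 x2 x3 y1 y2 y3 z1 z2 z3 p1 p2 q1 q2 : ℝ,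
      a * x1 + b * y1 + c * z1 = -(a * p1 + b * q1) →
      a * x2 + b * y2 + c * z2 = -(a * p2 + b * q2) →
      a * x3 + b * y3 + c * z3 = -c →
      a • (x1 • T.u + x2 • T.v + x3 • T.w) + b • (y1 • T.u + y2 • T.v + y3 • T.w)
        + c • (z1 • T.u + z2 • T.v + z3 • T.w)
      = -(a • (p1 • T.u + p2 • T.v + (0 : ℝ) • T.w) + b • (q1 • T.u + q2 • T.v + (0 : ℝ) • T.w)
        + c • T.w) := by
    intro a b c x1 x2 x3 y1 y2 y3 z1 z2 z3 p1 p2 q1 q2 e1 e2 e3
    have l1 : a • (x1 • T.u + x2 • T.v + x3 • T.w) + b • (y1 • T.u + y2 • T.v + y3 • T.w)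
        + c • (z1 • T.u + z2 • T.v + z3 • T.w)
        = (a * x1 + b * y1 + c * z1) • T.u + (a * x2 + b * y2 + c * z2) • T.v
          + (a * x3 + b * y3 + c * z3) • T.w := by module
    rw [l1, e1, e2, e3]
    module
  have hkk : kk * kk = 1 - kk := by unfold kk; linear_combination (1 / 4 : ℝ) * h1
  apply key
  · unfold cc kk
    linear_combination (sg s * s5 * (7 / 200 - 3 / 200 * s5)) * h1
  · unfold cc kk
    linear_combination (sg s * s5 * (-7 / 100 + s5 / 100)) * h1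
  · unfold cc kk
    linear_combination (7 / 50 * s5 ^ 2 + s5 ^ 3 / 25 - s5 ^ 4 / 50) * h2
      + (s5 * (1 / 25 - s5 / 50)) * h1

theorem curve_const (M : PMap D) {s : Bool} {H : Set D} (hH : Curve M s H) (f : D → ZMod 2)
    (hf1 : ∀ d, f (M.ph d) = f d)
    (hf2 : ∀ d, f d + f (M.gl d) = if d ∈ H ∨ M.gl d ∈ H then 1 else 0) (h : D) (hh : h ∈ H) (n : ℕ) :
    ((M.ph * M.gl * M.ph) ^ n) h ∈ H ∧ f (((M.ph * M.gl * M.ph) ^ n) h) = f h := by
  induction n with
  | zero => exact ⟨hh, rfl⟩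
  | succ n ih =>
    obtain ⟨i1, i2⟩ := ih
    have he : ((M.ph * M.gl * M.ph) ^ (n + 1)) h
        = M.ph (M.gl (M.ph (((M.ph * M.gl * M.ph) ^ n) h))) := by
      rw [pow_succ']; rfl
    rw [he]
    refine ⟨hH.nxt _ i1, ?_⟩
    have h3 := hf2 (M.ph (((M.ph * M.gl * M.ph) ^ n) h))
    rw [if_neg (not_or.mpr ⟨hH.ph_not _ i1, hH.gp_not _ i1⟩)] at h3
    rw [hf1, z2_add _ _ h3, hf1, i2]

/-- outside darts have the other colour -/
theorem rea_col (M : PMap D) {H : Set D} (f : D → ZMod 2) (c : ZMod 2)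
    (hf1 : ∀ d, f (M.ph d) = f d)
    (hf2 : ∀ d, f d + f (M.gl d) = if d ∈ H ∨ M.gl d ∈ H then 1 else 0)
    (hc : ∀ h ∈ H, f h = c) {d : D} (hd : Rea M H d) : f d = c + 1 := by
  induction hd with
  | @base h hh =>
    have h3 := hf2 h
    rw [if_pos (Or.inl hh)] at h3
    rw [z2_add1 _ _ h3, hc _ hh]
  | ph _ ih => rw [hf1, ih]
  | @gl d _ hn ih =>
    have h3 := hf2 d
    have h4 : d ∉ H := by
      intro h5
      have h6 := hc _ h5
      rw [ih] at h6
      exact z2_ne c h6.symm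
    rw [if_neg (not_or.mpr ⟨h4, hn⟩)] at h3
    rw [z2_add _ _ h3, ih]

theorem belt_symm (M : PMap D) (E : Set D) (h1 : ∀ d ∈ E, M.ph d ∈ E) (d : D)
    (hd : M.ph d ∈ E) : d ∈ E := by
  have h2 : ∀ n : ℕ, (M.ph ^ n) (M.ph d) ∈ E := by
    intro n
    induction n with
    | zero => exact hd
    | succ n ih =>
      rw [pow_succ']
      exact h1 _ ih
  have h3 := h2 (orderOf M.ph - 1)
  have h4 : (M.ph ^ (orderOf M.ph - 1)) (M.ph d) = d := by
    have h5 : 0 < orderOf M.ph := orderOf_pos M.ph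
    have h6 : (M.ph ^ (orderOf M.ph - 1)) (M.ph d) = (M.ph ^ (orderOf M.ph - 1 + 1)) d := by
      rw [pow_succ]; rfl
    rw [h6, Nat.sub_add_cancel h5, pow_orderOf_eq_one]
    rfl
  rwa [h4] at h3

theorem belt_disj (M : PMap D) (s : Bool) (E : Set D) (idx : D → ZMod 5)
    (h1 : ∀ d ∈ E, M.ph d ∈ E ∧ idx (M.ph d) = idx d + 1)
    (h2 : ∀ d ∈ E, idx d ≠ 0 → Adj M s d ∧ M.gl d ∈ E ∧ idx (M.gl d) = -(idx d)⁻¹)
    (h0 k0 : D) (hE : h0 ∈ E) (hi : idx h0 = 0) (hk : M.ph (M.ph k0) = M.gl (M.ph (M.ph h0)))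
    (d : D) (hd : Rea M {h | (M.ph * M.gl * M.ph).SameCycle h0 h} d) :
    ¬ Rea M {h | (M.ph * M.gl * M.ph).SameCycle k0 h} d := by
  -- the dart `k0`
  obtain ⟨p1, p2⟩ := h1 h0 hE
  rw [hi, zero_add] at p2
  obtain ⟨q1, q2⟩ := h1 _ p1
  rw [p2] at q2
  have q3 : idx (M.ph (M.ph h0)) = 2 := by rw [q2]; decide
  obtain ⟨r1, r2, r3⟩ := h2 _ q1 (by rw [q3]; decide)
  rw [q3, zmod5_inv2] at r3
  have kE2 : M.ph (M.ph k0) ∈ E := by rw [hk]; exact r2
  have kE1 : M.ph k0 ∈ E := belt_symm M E (fun d hd => (h1 d hd).1) _ kE2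
  have kE : k0 ∈ E := belt_symm M E (fun d hd => (h1 d hd).1) _ kE1
  have ki : idx k0 = 0 := by
    have e1 := (h1 _ kE1).2
    have e2 := (h1 _ kE).2
    rw [hk, r3, e2] at e1
    generalize idx k0 = t at e1
    revert t; decide
  obtain ⟨C0, m0⟩ := belt_curve M s E idx h1 h2 h0 hE hi
  obtain ⟨C1, m1⟩ := belt_curve M s E idx h1 h2 k0 kE ki
  set H0 : Set D := {h | (M.ph * M.gl * M.ph).SameCycle h0 h} with hH0
  set H1 : Set D := {h | (M.ph * M.gl * M.ph).SameCycle k0 h} with hH1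
  obtain ⟨f0, f01, f02⟩ := curve_sep M C0
  obtain ⟨f1, f11, f12⟩ := curve_sep M C1
  have hm0 : h0 ∈ H0 := Equiv.Perm.SameCycle.refl _ _
  have hm1 : k0 ∈ H1 := Equiv.Perm.SameCycle.refl _ _
  have c00 : ∀ h ∈ H0, f0 h = f0 h0 := by
    intro h hh
    obtain ⟨n, rfl⟩ := same_pow hh
    exact (curve_const M C0 f0 f01 f02 h0 hm0 n).2
  have c11 : ∀ h ∈ H1, f1 h = f1 k0 := by
    intro h hh
    obtain ⟨n, rfl⟩ := same_pow hh
    exact (curve_const M C1 f1 f11 f12 k0 hm1 n).2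
  -- crossing facts
  have nin0 : ∀ e, idx e ≠ 0 → e ∉ H0 := fun e he hc => he (m0 e hc).2
  have nin1 : ∀ e, idx e ≠ 0 → e ∉ H1 := fun e he hc => he (m1 e hc).2
  have base1 : f1 h0 = f1 k0 := by
    have h3 := f12 (M.ph (M.ph h0))
    rw [if_neg (not_or.mpr ⟨nin1 _ (by rw [q3]; decide), nin1 _ (by rw [r3]; decide)⟩)] at h3
    have h4 := z2_add _ _ h3
    rw [← hk, f11, f11, f11, f11] at h4
    exact h4.symm
  have base0 : f0 k0 = f0 h0 := by
    have h3 := f02 (M.ph (M.ph h0))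
    rw [if_neg (not_or.mpr ⟨nin0 _ (by rw [q3]; decide), nin0 _ (by rw [r3]; decide)⟩)] at h3
    have h4 := z2_add _ _ h3
    rw [← hk, f01, f01, f01, f01] at h4
    exact h4
  have gen : ∀ (f : D → ZMod 2) (H : Set D) (e0 : D), e0 ∈ E → idx e0 = 0 →
      (∀ e, idx e ≠ 0 → e ∉ H) → (∀ d, f (M.ph d) = f d) →
      (∀ d, f d + f (M.gl d) = if d ∈ H ∨ M.gl d ∈ H then 1 else 0) →
      ∀ n : ℕ, f (((M.ph * M.gl * M.ph) ^ n) e0) = f e0 := by
    intro f H e0 he0 hie0 hn g1 g2 n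
    induction n with
    | zero => rfl
    | succ n ih =>
      obtain ⟨i1, i2, -⟩ := belt_E M s E idx h1 h2 e0 he0 hie0 n
      obtain ⟨b1, a1, a2, b2, b3, c1, c2⟩ := belt_step M s E idx h1 h2 _ i1 i2
      have he : ((M.ph * M.gl * M.ph) ^ (n + 1)) e0
          = M.ph (M.gl (M.ph (((M.ph * M.gl * M.ph) ^ n) e0))) := by
        rw [pow_succ']; rfl
      have h3 := g2 (M.ph (((M.ph * M.gl * M.ph) ^ n) e0))
      rw [if_neg (not_or.mpr ⟨hn _ (by rw [a2]; decide), hn _ (by rw [b3]; decide)⟩)] at h3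
      rw [he, g1, z2_add _ _ h3, g1, ih]
  have c10 : ∀ h ∈ H0, f1 h = f1 k0 := by
    intro h hh
    obtain ⟨n, rfl⟩ := same_pow hh
    rw [gen f1 H1 h0 hE hi nin1 f11 f12 n, base1]
  have c01 : ∀ h ∈ H1, f0 h = f0 h0 := by
    intro h hh
    obtain ⟨n, rfl⟩ := same_pow hh
    rw [gen f0 H0 k0 kE ki nin0 f01 f02 n, base0]
  -- disjointness
  have wc : ∀ (e0 : D), e0 ∈ E → idx e0 = 0 → ∀ n : ℕ,
      (Dd s (M.fr (((M.ph * M.gl * M.ph) ^ n) e0))).w = (Dd s (M.fr e0)).w := by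
    intro e0 he0 hie0 n
    obtain ⟨-, -, e⟩ := belt_E M s E idx h1 h2 e0 he0 hie0 n
    rw [e]
    have : ∀ (m : ℕ) (P : Fr), (rhoF^[m] P).w = P.w := by
      intro m
      induction m with
      | zero => intro P; rfl
      | succ m ih => intro P; rw [Function.iterate_succ_apply, ih, w_rho]
    exact this n _
  have hdisj : ∀ e, e ∈ H0 → e ∉ H1 := by
    intro e he0 he1
    obtain ⟨n, hn⟩ := same_pow he0
    obtain ⟨m, hm⟩ := same_pow he1
    have e1 := wc h0 hE hi n
    have e2 := wc k0 kE ki m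
    rw [hn] at e1
    rw [hm, e1] at e2
    have e3 : (Dd s (M.fr k0)).w = - (Dd s (M.fr h0)).w := by
      apply w_opp
      rw [← M.fr_ph, ← M.fr_ph, ← M.fr_ph, ← M.fr_ph, hk]
      exact r1
    rw [e3] at e2
    have e4 : (Dd s (M.fr h0)).w = 0 := self_eq_neg.mp e2
    exact Fr.w_ne _ e4
  have factB : ∀ e, Rea M H1 e → e ∉ H0 ∧ M.gl e ∉ H0 := by
    intro e he
    have h3 := rea_col M f1 (f1 k0) f11 f12 c11 he
    constructor
    · intro h4
      rw [c10 _ h4] at h3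
      exact z2_ne _ h3
    · intro h4
      by_cases h5 : M.gl e ∈ H1
      · exact hdisj _ h4 h5
      · have h6 := rea_col M f1 (f1 k0) f11 f12 c11 (Rea.gl he h5)
        rw [c10 _ h4] at h6
        exact z2_ne _ h6
  have factC : ∀ e, Rea M H1 e → f0 e = f0 h0 := by
    intro e he
    induction he with
    | @base k hk1 =>
      have h3 := f02 k
      have h4 : k ∉ H0 := fun h => hdisj _ h hk1
      have h5 : M.gl k ∉ H0 := (factB _ (Rea.base hk1)).1
      rw [if_neg (not_or.mpr ⟨h4, h5⟩)] at h3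
      rw [z2_add _ _ h3, c01 _ hk1]
    | ph _ ih => rw [f01, ih]
    | @gl e he' hn ih =>
      have h3 := f02 e
      obtain ⟨h4, h5⟩ := factB _ he'
      rw [if_neg (not_or.mpr ⟨h4, h5⟩)] at h3
      rw [z2_add _ _ h3, ih]
  intro hd1
  have e1 := factC d hd1
  have e2 := rea_col M f0 (f0 h0) f01 f02 c00 hd
  rw [e1] at e2
  exact z2_ne _ e2

/-! ### patches of eleven faces -/

def Patch (M : PMap D) (s : Bool) (x : D) (G : Set D) : Prop :=
  ∀ i j : ℕ, (M.ph ^ i) x ∉ G ∧ (M.ph ^ j) (M.gl ((M.ph ^ i) x)) ∉ G ∧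
    M.gl ((M.ph ^ j) (M.gl ((M.ph ^ i) x))) ∉ G ∧ Adj M s ((M.ph ^ i) x) ∧
    Adj M s ((M.ph ^ j) (M.gl ((M.ph ^ i) x)))

theorem patch_of_cap (M : PMap D) (s : Bool) (E G : Set D) (idx : D → ZMod 5)
    (hGE : ∀ d ∈ E, d ∉ G) (hGph : ∀ d, d ∈ G ↔ M.ph d ∈ G)
    (hord : ∀ d, d ∉ G → (M.ph ^ 5) d = d)
    (h1 : ∀ d ∈ E, M.ph d ∈ E ∧ idx (M.ph d) = idx d + 1)
    (h2 : ∀ d ∈ E, idx d ≠ 0 → Adj M s d ∧ M.gl d ∈ E ∧ idx (M.gl d) = -(idx d)⁻¹)
    (h : D) (hE : h ∈ E) (hi : idx h = 0) (ha : Adj M s h) (hx : M.gl h ∉ G) :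
    Patch M s (M.gl h) G := by
  -- going backwards
  have back : ∀ n : ℕ, ∃ k ∈ E, idx k = 0 ∧ Adj M s k ∧ (M.ph ^ n) (M.gl k) = M.gl h := by
    intro n
    induction n with
    | zero => exact ⟨h, hE, hi, ha, rfl⟩
    | succ n ih =>
      obtain ⟨k, kE, ki, ka, kn⟩ := ih
      obtain ⟨b1, a1, a2, b2, b3, c1, c2⟩ := belt_step M s E idx h1 h2 k kE ki
      have h3 := close3 M (d := M.gl k) ka.gl (by rw [M.gl_gl]; exact b1)
      rw [M.gl_gl] at h3
      refine ⟨_, c1, c2, h3.2, ?_⟩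
      rw [pow_succ, Equiv.Perm.mul_apply, h3.1, kn]
  have fwd : ∀ (x : D) (hx : x ∉ G) (m : ℕ), (M.ph ^ (5 * m)) x = x := by
    intro x hx m
    induction m with
    | zero => rfl
    | succ m ih =>
      rw [Nat.mul_succ, pow_add, Equiv.Perm.mul_apply, hord x hx, ih]
  have notG : ∀ (x : D) (hx : x ∉ G) (i : ℕ), (M.ph ^ i) x ∉ G := by
    intro x hx i
    induction i with
    | zero => exact hx
    | succ i ih =>
      rw [pow_succ', Equiv.Perm.mul_apply]
      exact fun hc => ih ((hGph _).mpr hc)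
  have key : ∀ i : ℕ, ∃ k ∈ E, idx k = 0 ∧ Adj M s k ∧ M.gl k = (M.ph ^ i) (M.gl h) := by
    intro i
    obtain ⟨k, kE, ki, ka, kn⟩ := back (4 * i)
    refine ⟨k, kE, ki, ka, ?_⟩
    apply (M.ph ^ (4 * i)).injective
    rw [kn, ← Equiv.Perm.mul_apply, ← pow_add, show 4 * i + i = 5 * i by ring, fwd _ hx]
  have Epow : ∀ k ∈ E, ∀ j : ℕ, (M.ph ^ j) k ∈ E ∧ idx ((M.ph ^ j) k) = idx k + (j : ZMod 5) := by
    intro k kE j
    induction j with
    | zero => exact ⟨kE, by simp⟩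
    | succ j ih =>
      rw [pow_succ', Equiv.Perm.mul_apply]
      obtain ⟨a, b⟩ := h1 _ ih.1
      refine ⟨a, ?_⟩
      rw [b, ih.2]
      push_cast
      ring
  intro i j
  obtain ⟨k, kE, ki, ka, kn⟩ := key i
  have hgk : M.gl ((M.ph ^ i) (M.gl h)) = k := by rw [← kn, M.gl_gl]
  rw [hgk]
  obtain ⟨e1, e2⟩ := Epow k kE j
  rw [ki, zero_add] at e2
  have hkx : ∀ hj : idx ((M.ph ^ j) k) = 0, (M.ph ^ j) k = k := by
    intro hj
    rw [e2, ZMod.natCast_eq_zero_iff] at hj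
    obtain ⟨m, rfl⟩ := hj
    exact fwd k (hGE k kE) m
  refine ⟨notG _ hx i, hGE _ e1, ?_, ?_, ?_⟩
  · by_cases hj : idx ((M.ph ^ j) k) = 0
    · rw [hkx hj, kn]
      exact notG _ hx i
    · exact hGE _ (h2 _ e1 hj).2.1
  · rw [← kn]
    exact ka.gl
  · by_cases hj : idx ((M.ph ^ j) k) = 0
    · rw [hkx hj]
      exact ka
    · exact (h2 _ e1 hj).1

end

end Pool.Agent.Helper275.Pent
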