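import Pool.Agent.Helper275.Pent.Defs

set_option autoImplicit false

namespace Pool.Agent.Helper275.Pent

open scoped Topology

noncomputable section

/-! ### the model pentagon -/

/-- positive multiple of the distance to the line of the edge `i` -/
def lam (i : ZMod 5) (t : ℂ) : ℝ :=
  ((starRingEnd ℂ) (pv (i + 1) - pv i) * (t - pv i)).im


/-! helper lemmas for the pentagon -/

theorem j8042_q : (Real.sqrt 5) ^ 2 = 5 ∧ 2 < Real.sqrt 5 ∧ Real.sqrt 5 < 3 := by
  refine ⟨Real.sq_sqrt (by norm_num), ?_, ?_⟩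
  · rw [Real.lt_sqrt (by norm_num)]; norm_num
  · rw [Real.sqrt_lt' (by norm_num)]; norm_num

theorem j8042_sin_pos : 0 < Real.sin (Real.pi / 5) := by
  apply Real.sin_pos_of_pos_of_lt_pi
  · positivity
  · linarith [Real.pi_pos]

theorem j8042_sin_sq : Real.sin (Real.pi / 5) ^ 2 = (5 - Real.sqrt 5) / 8 := by
  have h := Real.sin_sq_add_cos_sq (Real.pi / 5)
  rw [Real.cos_pi_div_five] at h
  obtain ⟨hq, -, -⟩ := j8042_q
  linarith [hq, h, sq_nonneg (Real.sqrt 5), show ((1 + Real.sqrt 5) / 4) ^ 2 = (1 + 2 * Real.sqrt 5 + Real.sqrt 5 ^ 2) / 16 by ring]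

/-- the radius of the pentagon -/
def j8042_r : ℝ := 1 / (2 * Real.sin (Real.pi / 5))

theorem j8042_r_pos : 0 < j8042_r := by
  unfold j8042_r
  have := j8042_sin_pos
  positivity

theorem j8042_r_sq : j8042_r ^ 2 = (5 + Real.sqrt 5) / 10 := by
  unfold j8042_r
  have h0 := j8042_sin_pos
  have h := j8042_sin_sq
  obtain ⟨hq, -, hq3⟩ := j8042_q
  rw [div_pow, mul_pow, h]
  have : (5 - Real.sqrt 5) ≠ 0 := by linarith
  field_simp
  nlinarith

theorem j8042_pv (k : ZMod 5) : pv k =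
    ⟨Real.cos (2 * Real.pi * (k.val : ℝ) / 5) * j8042_r,
      Real.sin (2 * Real.pi * (k.val : ℝ) / 5) * j8042_r⟩ := by
  have h0 := j8042_sin_pos
  have h1 : (2 * (Real.pi : ℂ) * Complex.I * (k.val : ℂ) / 5) =
      ((2 * Real.pi * (k.val : ℝ) / 5 : ℝ) : ℂ) * Complex.I := by
    push_cast; ring
  unfold pv
  rw [h1, Complex.exp_mul_I, ← Complex.ofReal_cos, ← Complex.ofReal_sin]
  generalize Real.cos (2 * Real.pi * (k.val : ℝ) / 5) = c
  generalize Real.sin (2 * Real.pi * (k.val : ℝ) / 5) = s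
  unfold j8042_r
  generalize Real.sin (Real.pi / 5) = t
  apply Complex.ext
  · rw [Complex.div_ofReal_re]
    simp only [Complex.add_re, Complex.mul_re, Complex.ofReal_re, Complex.ofReal_im,
      Complex.I_re, Complex.I_im]
    ring
  · rw [Complex.div_ofReal_im]
    simp only [Complex.add_im, Complex.mul_im, Complex.ofReal_re, Complex.ofReal_im,
      Complex.I_re, Complex.I_im]
    ring

theorem j8042_cos2 : Real.cos (2 * Real.pi / 5) = (Real.sqrt 5 - 1) / 4 := by
  have : 2 * Real.pi / 5 = 2 * (Real.pi / 5) := by ring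
  rw [this, Real.cos_two_mul, Real.cos_pi_div_five]
  obtain ⟨hq, -, -⟩ := j8042_q
  linarith [hq, show ((1 + Real.sqrt 5) / 4) ^ 2 = (1 + 2 * Real.sqrt 5 + Real.sqrt 5 ^ 2) / 16 by ring]

theorem j8042_sin2 : Real.sin (2 * Real.pi / 5) * j8042_r = (1 + Real.sqrt 5) / 4 := by
  have : 2 * Real.pi / 5 = 2 * (Real.pi / 5) := by ring
  have h0 := j8042_sin_pos
  rw [this, Real.sin_two_mul, Real.cos_pi_div_five]
  unfold j8042_r
  field_simp

theorem j8042_sin1 : Real.sin (Real.pi / 5) * j8042_r = 1 / 2 := by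
  have h0 := j8042_sin_pos
  unfold j8042_r
  field_simp

theorem j8042_pv0 : pv 0 = ⟨j8042_r, 0⟩ := by
  rw [j8042_pv]; simp

theorem j8042_pv1 : pv 1 = ⟨(Real.sqrt 5 - 1) / 4 * j8042_r, (1 + Real.sqrt 5) / 4⟩ := by
  rw [j8042_pv]
  have h : ((1 : ZMod 5).val : ℝ) = 1 := by norm_num [show (1 : ZMod 5).val = 1 from rfl]
  rw [h, mul_one, j8042_cos2, j8042_sin2]

theorem j8042_pv2 : pv 2 = ⟨-(1 + Real.sqrt 5) / 4 * j8042_r, 1 / 2⟩ := by
  rw [j8042_pv]
  have h : ((2 : ZMod 5).val : ℝ) = 2 := by norm_num [show (2 : ZMod 5).val = 2 from rfl]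
  have h2 : 2 * Real.pi * 2 / 5 = Real.pi - Real.pi / 5 := by ring
  rw [h, h2, Real.cos_pi_sub, Real.sin_pi_sub, Real.cos_pi_div_five, j8042_sin1]
  congr 1; ring

theorem j8042_pv3 : pv 3 = ⟨-(1 + Real.sqrt 5) / 4 * j8042_r, -(1 / 2)⟩ := by
  rw [j8042_pv]
  have h : ((3 : ZMod 5).val : ℝ) = 3 := by norm_num [show (3 : ZMod 5).val = 3 from rfl]
  have h2 : 2 * Real.pi * 3 / 5 = Real.pi / 5 + Real.pi := by ring
  rw [h, h2, Real.cos_add_pi, Real.sin_add_pi, Real.cos_pi_div_five, neg_mul, neg_mul, j8042_sin1]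
  congr 1; ring

theorem j8042_pv4 : pv 4 = ⟨(Real.sqrt 5 - 1) / 4 * j8042_r, -((1 + Real.sqrt 5) / 4)⟩ := by
  rw [j8042_pv]
  have h : ((4 : ZMod 5).val : ℝ) = 4 := by norm_num [show (4 : ZMod 5).val = 4 from rfl]
  have h2 : 2 * Real.pi * 4 / 5 = 2 * Real.pi - 2 * Real.pi / 5 := by ring
  rw [h, h2, Real.cos_two_pi_sub, Real.sin_two_pi_sub, j8042_cos2, neg_mul, j8042_sin2]

theorem j8042_cases (i : ZMod 5) : i = 0 ∨ i = 1 ∨ i = 2 ∨ i = 3 ∨ i = 4 := by
  revert i; decide

theorem j8042_a0 : (0 : ZMod 5) + 1 = 1 := by decide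
theorem j8042_a1 : (1 : ZMod 5) + 1 = 2 := by decide
theorem j8042_a2 : (2 : ZMod 5) + 1 = 3 := by decide
theorem j8042_a3 : (3 : ZMod 5) + 1 = 4 := by decide
theorem j8042_a4 : (4 : ZMod 5) + 1 = 0 := by decide
theorem j8042_b0 : (0 : ZMod 5) + 2 = 2 := by decide
theorem j8042_b1 : (1 : ZMod 5) + 2 = 3 := by decide
theorem j8042_b2 : (2 : ZMod 5) + 2 = 4 := by decide
theorem j8042_b3 : (3 : ZMod 5) + 2 = 0 := by decide
theorem j8042_b4 : (4 : ZMod 5) + 2 = 1 := by decide
theorem j8042_c0 : (0 : ZMod 5) - 1 = 4 := by decide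
theorem j8042_c1 : (1 : ZMod 5) - 1 = 0 := by decide
theorem j8042_c2 : (2 : ZMod 5) - 1 = 1 := by decide
theorem j8042_c3 : (3 : ZMod 5) - 1 = 2 := by decide
theorem j8042_c4 : (4 : ZMod 5) - 1 = 3 := by decide

theorem j8042_mono : j8042_r * Real.sqrt 5 ^ 2 = 5 * j8042_r ∧
    2 * j8042_r < j8042_r * Real.sqrt 5 ∧ j8042_r * Real.sqrt 5 < 3 * j8042_r ∧
    j8042_r ^ 2 * Real.sqrt 5 = (5 * Real.sqrt 5 + 5) / 10 ∧
    j8042_r ^ 2 * Real.sqrt 5 ^ 2 = (5 + Real.sqrt 5) / 2 := by
  obtain ⟨hq, hq2, hq3⟩ := j8042_q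
  have hr := j8042_r_pos
  have hr2 := j8042_r_sq
  refine ⟨by rw [hq]; ring, by nlinarith, by nlinarith, ?_, ?_⟩
  · rw [hr2]; linarith [show (5 + Real.sqrt 5) / 10 * Real.sqrt 5 = (5 * Real.sqrt 5 + Real.sqrt 5 ^ 2) / 10 by ring]
  · rw [hr2, hq]; ring

theorem j8042_lam (a b c : ℂ) : ((starRingEnd ℂ) (b - a) * (c - a)).im =
    (b.re - a.re) * (c.im - a.im) - (b.im - a.im) * (c.re - a.re) := by
  simp [Complex.mul_im]
  ring

theorem pv_dist_one (i : ZMod 5) : dist (pv i) (pv (i + 1)) = 1 := by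
  have key : dist (pv i) (pv (i + 1)) ^ 2 = 1 := by
    obtain ⟨hq, hq2, hq3⟩ := j8042_q
    have hr2 := j8042_r_sq
    obtain ⟨m1, m2, m3, m4, m5⟩ := j8042_mono
    rw [dist_eq_norm, Complex.sq_norm, Complex.normSq_apply]
    rcases j8042_cases i with rfl | rfl | rfl | rfl | rfl <;>
    simp only [j8042_a0, j8042_a1, j8042_a2, j8042_a3, j8042_a4, j8042_pv0, j8042_pv1, j8042_pv2,
      j8042_pv3, j8042_pv4, Complex.sub_re, Complex.sub_im] <;>
    nlinarith [hq, hr2, m4, m5]
  have h0 : 0 ≤ dist (pv i) (pv (i + 1)) := dist_nonneg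
  nlinarith

theorem pv_dist_two (i : ZMod 5) : dist (pv i) (pv (i + 2)) = Real.goldenRatio := by
  have key : dist (pv i) (pv (i + 2)) ^ 2 = (3 + Real.sqrt 5) / 2 := by
    obtain ⟨hq, hq2, hq3⟩ := j8042_q
    have hr2 := j8042_r_sq
    obtain ⟨m1, m2, m3, m4, m5⟩ := j8042_mono
    rw [dist_eq_norm, Complex.sq_norm, Complex.normSq_apply]
    rcases j8042_cases i with rfl | rfl | rfl | rfl | rfl <;>
    simp only [j8042_b0, j8042_b1, j8042_b2, j8042_b3, j8042_b4, j8042_pv0, j8042_pv1, j8042_pv2,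
      j8042_pv3, j8042_pv4, Complex.sub_re, Complex.sub_im] <;>
    nlinarith [hq, hr2, m4, m5]
  have h0 : 0 ≤ dist (pv i) (pv (i + 2)) := dist_nonneg
  have h1 : Real.goldenRatio ^ 2 = (3 + Real.sqrt 5) / 2 := by
    rw [Real.goldenRatio_sq]; unfold Real.goldenRatio; ring
  have h2 : 0 ≤ Real.goldenRatio := Real.goldenRatio_pos.le
  exact (pow_left_inj₀ h0 h2 two_ne_zero).1 (key.trans h1.symm)

theorem pv_rec (i : ZMod 5) : pv (i + 2) - pv (i + 1) =
    ((Real.sqrt 5 - 1) / 2) • (pv (i + 1) - pv i) + (pv (i - 1) - pv i) := by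
  obtain ⟨hq, hq2, hq3⟩ := j8042_q
  obtain ⟨m1, m2, m3, m4, m5⟩ := j8042_mono
  apply Complex.ext
  · rw [Complex.add_re, Complex.smul_re, smul_eq_mul]
    rcases j8042_cases i with rfl | rfl | rfl | rfl | rfl <;>
    simp only [j8042_a0, j8042_a1, j8042_a2, j8042_a3, j8042_a4,
      j8042_b0, j8042_b1, j8042_b2, j8042_b3, j8042_b4,
      j8042_c0, j8042_c1, j8042_c2, j8042_c3, j8042_c4, j8042_pv0, j8042_pv1, j8042_pv2,
      j8042_pv3, j8042_pv4, Complex.sub_re, Complex.sub_im] <;>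
    nlinarith [hq, m1]
  · rw [Complex.add_im, Complex.smul_im, smul_eq_mul]
    rcases j8042_cases i with rfl | rfl | rfl | rfl | rfl <;>
    simp only [j8042_a0, j8042_a1, j8042_a2, j8042_a3, j8042_a4,
      j8042_b0, j8042_b1, j8042_b2, j8042_b3, j8042_b4,
      j8042_c0, j8042_c1, j8042_c2, j8042_c3, j8042_c4, j8042_pv0, j8042_pv1, j8042_pv2,
      j8042_pv3, j8042_pv4, Complex.sub_re, Complex.sub_im] <;>
    nlinarith [hq, m1]

theorem lam_cont (i : ZMod 5) : Continuous (lam i) := by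
  unfold lam
  exact Complex.continuous_im.comp (continuous_const.mul (continuous_id.sub continuous_const))

theorem lam_comb (i : ZMod 5) (a b : ℂ) (s : ℝ) :
    lam i ((1 - s) • a + s • b) = (1 - s) * lam i a + s * lam i b := by
  unfold lam
  simp only [Complex.mul_im, Complex.sub_im, Complex.sub_re, Complex.add_im, Complex.add_re,
    Complex.smul_im, Complex.smul_re, smul_eq_mul]
  ring

theorem lam_pv (i : ZMod 5) : lam i (pv i) = 0 ∧ lam i (pv (i + 1)) = 0 := by
  constructor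
  · simp [lam]
  · simp only [lam, Complex.mul_im, Complex.conj_re, Complex.conj_im]
    ring

theorem lam_pv_pos (i k : ZMod 5) (h1 : k ≠ i) (h2 : k ≠ i + 1) : 0 < lam i (pv k) := by
  obtain ⟨hq, hq2, hq3⟩ := j8042_q
  have hr := j8042_r_pos
  obtain ⟨m1, m2, m3, m4, m5⟩ := j8042_mono
  unfold lam
  rw [j8042_lam]
  rcases j8042_cases i with rfl | rfl | rfl | rfl | rfl <;>
  rcases j8042_cases k with rfl | rfl | rfl | rfl | rfl <;>
  first
    | exact absurd rfl h1
    | exact absurd (by decide) h2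
    | (simp only [j8042_a0, j8042_a1, j8042_a2, j8042_a3, j8042_a4, j8042_pv0, j8042_pv1,
        j8042_pv2, j8042_pv3, j8042_pv4]
       nlinarith [hq, m1, m2, m3, hr])

theorem q8043_pv_nonneg (i k : ZMod 5) : 0 ≤ lam i (pv k) := by
  by_cases h1 : k = i
  · subst h1
    exact (lam_pv k).1.ge
  · by_cases h2 : k = i + 1
    · subst h2
      exact (lam_pv i).2.ge
    · exact (lam_pv_pos i k h1 h2).le

theorem q8043_pv_zero (i k : ZMod 5) (h : lam i (pv k) = 0) : k = i ∨ k = i + 1 := by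
  by_contra hc
  push Not at hc
  exact (lam_pv_pos i k hc.1 hc.2).ne' h

theorem q8043_edge_zero (i : ZMod 5) (s : ℝ) : lam i (edgePt i s) = 0 := by
  unfold edgePt
  rw [lam_comb, (lam_pv i).1, (lam_pv i).2]
  ring

theorem q8043_edge_comb (i : ZMod 5) (s s' α β : ℝ) (h : α + β = 1) :
    α • edgePt i s + β • edgePt i s' = edgePt i (α * s + β * s') := by
  have hα : α = 1 - β := by linarith
  subst hα
  unfold edgePt
  simp only [Complex.real_smul]
  push_cast
  ring

theorem q8043_convex (i : ZMod 5) : Convex ℝ {t : ℂ | 0 ≤ lam i t ∧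
    (lam i t = 0 → ∃ s, 0 ≤ s ∧ s ≤ 1 ∧ t = edgePt i s)} := by
  rintro a ⟨ha0, ha⟩ b ⟨hb0, hb⟩ α β hα hβ h
  have hl : lam i (α • a + β • b) = α * lam i a + β * lam i b := by
    have hα' : α = 1 - β := by linarith
    rw [hα', lam_comb]
  refine ⟨?_, ?_⟩
  · rw [hl]
    positivity
  · intro h0
    rw [hl] at h0
    have h1 : 0 ≤ α * lam i a := by positivity
    have h2 : 0 ≤ β * lam i b := by positivity
    have h3 : α * lam i a = 0 := by linarith
    have h4 : β * lam i b = 0 := by linarith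
    rcases mul_eq_zero.1 h3 with h5 | h5
    · have hb1 : β = 1 := by linarith
      rcases mul_eq_zero.1 h4 with h6 | h6
      · linarith
      · obtain ⟨s, hs0, hs1, hs⟩ := hb h6
        refine ⟨s, hs0, hs1, ?_⟩
        rw [h5, hb1, zero_smul, one_smul, zero_add, hs]
    · obtain ⟨s, hs0, hs1, hs⟩ := ha h5
      rcases mul_eq_zero.1 h4 with h6 | h6
      · have ha1 : α = 1 := by linarith
        refine ⟨s, hs0, hs1, ?_⟩
        rw [h6, ha1, zero_smul, one_smul, add_zero, hs]
      · obtain ⟨s', hs0', hs1', hs'⟩ := hb h6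
        refine ⟨α * s + β * s', by positivity, ?_, ?_⟩
        · nlinarith
        · rw [hs, hs', q8043_edge_comb i s s' α β h]

theorem q8043_edge_end (i : ZMod 5) : edgePt i 0 = pv i ∧ edgePt i 1 = pv (i + 1) := by
  constructor
  · simp [edgePt]
  · simp [edgePt]

theorem q8043_sub (i : ZMod 5) : P ⊆ {t : ℂ | 0 ≤ lam i t ∧
    (lam i t = 0 → ∃ s, 0 ≤ s ∧ s ≤ 1 ∧ t = edgePt i s)} := by
  apply convexHull_min _ (q8043_convex i)
  rintro _ ⟨k, rfl⟩
  refine ⟨q8043_pv_nonneg i k, fun h => ?_⟩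
  rcases q8043_pv_zero i k h with h1 | h1
  · exact ⟨0, le_rfl, zero_le_one, by rw [(q8043_edge_end i).1, h1]⟩
  · exact ⟨1, zero_le_one, le_rfl, by rw [(q8043_edge_end i).2, h1]⟩

theorem lam_nonneg (i : ZMod 5) (t : ℂ) (ht : t ∈ P) : 0 ≤ lam i t := by
  exact (q8043_sub i ht).1

theorem lam_zero_iff (i : ZMod 5) (t : ℂ) (ht : t ∈ P) :
    lam i t = 0 ↔ ∃ s, 0 ≤ s ∧ s ≤ 1 ∧ t = edgePt i s := by
  constructor
  · intro h
    exact (q8043_sub i ht).2 h
  · rintro ⟨s, _, _, rfl⟩
    exact q8043_edge_zero i s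

theorem edgePt_mem (i : ZMod 5) (s : ℝ) (h0 : 0 ≤ s) (h1 : s ≤ 1) : edgePt i s ∈ P := by
  exact (convex_convexHull ℝ (Set.range pv)) (subset_convexHull _ _ ⟨i, rfl⟩)
    (subset_convexHull _ _ ⟨i + 1, rfl⟩) (by linarith) h0 (by ring)

theorem pv_mem (i : ZMod 5) : pv i ∈ P := subset_convexHull _ _ ⟨i, rfl⟩

theorem edgePt_inj (i : ZMod 5) {s s' : ℝ} (h : edgePt i s = edgePt i s') : s = s' := by
  have h1 : ((s : ℂ) - s') * (pv (i + 1) - pv i) = 0 := by
    unfold edgePt at h
    simp only [Complex.real_smul] at h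
    push_cast at h
    linear_combination h
  rcases mul_eq_zero.1 h1 with h2 | h2
  · have h3 : (s : ℂ) = s' := sub_eq_zero.1 h2
    exact_mod_cast h3
  · have h3 := pv_dist_one i
    rw [sub_eq_zero.1 h2, dist_self] at h3
    norm_num at h3

theorem edgePt_two (i j : ZMod 5) (s s' : ℝ) (h0 : 0 ≤ s) (h1 : s ≤ 1) (h0' : 0 ≤ s')
    (h1' : s' ≤ 1) (hij : i ≠ j) (h : edgePt i s = edgePt j s') :
    (j = i + 1 ∧ s = 1 ∧ s' = 0) ∨ (j = i - 1 ∧ s = 0 ∧ s' = 1) := by
  have hl : (1 - s) * lam j (pv i) + s * lam j (pv (i + 1)) = 0 := by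
    rw [← lam_comb]
    have := q8043_edge_zero j s'
    rw [← h] at this
    exact this
  have n1 := q8043_pv_nonneg j i
  have n2 := q8043_pv_nonneg j (i + 1)
  have m1 : 0 ≤ (1 - s) * lam j (pv i) := mul_nonneg (by linarith) n1
  have m2 : 0 ≤ s * lam j (pv (i + 1)) := mul_nonneg h0 n2
  have e1 : (1 - s) * lam j (pv i) = 0 := by linarith
  have e2 : s * lam j (pv (i + 1)) = 0 := by linarith
  rcases eq_or_lt_of_le h0 with hs | hs
  · -- s = 0
    subst hs
    right
    rw [sub_zero, one_mul] at e1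
    rcases q8043_pv_zero j i e1 with h2 | h2
    · exact absurd h2 hij
    · refine ⟨by rw [h2]; ring, rfl, ?_⟩
      apply edgePt_inj j
      rw [← h, (q8043_edge_end i).1, (q8043_edge_end j).2, h2]
  · rcases eq_or_lt_of_le h1 with hs1 | hs1
    · subst hs1
      left
      rw [one_mul] at e2
      rcases q8043_pv_zero j (i + 1) e2 with h2 | h2
      · refine ⟨h2.symm, rfl, ?_⟩
        apply edgePt_inj j
        rw [← h, (q8043_edge_end i).2, (q8043_edge_end j).1, h2]
      · exact absurd (add_right_cancel h2) hij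
    · exfalso
      have f1 : lam j (pv i) = 0 := by
        rcases mul_eq_zero.1 e1 with h2 | h2
        · linarith
        · exact h2
      have f2 : lam j (pv (i + 1)) = 0 := by
        rcases mul_eq_zero.1 e2 with h2 | h2
        · linarith
        · exact h2
      rcases q8043_pv_zero j i f1 with h2 | h2
      · exact hij h2
      · rcases q8043_pv_zero j (i + 1) f2 with h3 | h3
        · rw [h2] at h3
          have : ∀ j : ZMod 5, j + 1 + 1 ≠ j := by decide
          exact this j h3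
        · exact hij (add_right_cancel h3)

theorem zero_mem_P : (0 : ℂ) ∈ P := by
  have hc : Convex ℝ P := convex_convexHull ℝ _
  have hm : ∀ k, pv k ∈ P := fun k => subset_convexHull _ _ ⟨k, rfl⟩
  have h14 : (1 / 2 : ℝ) • pv 1 + (1 / 2 : ℝ) • pv 4 ∈ P :=
    hc (hm 1) (hm 4) (by norm_num) (by norm_num) (by norm_num)
  have h23 : (1 / 2 : ℝ) • pv 2 + (1 / 2 : ℝ) • pv 3 ∈ P :=
    hc (hm 2) (hm 3) (by norm_num) (by norm_num) (by norm_num)
  have h4 := hc h14 h23 (show (0:ℝ) ≤ 1 / 2 by norm_num) (show (0:ℝ) ≤ 1 / 2 by norm_num)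
    (by norm_num)
  have h5 := hc (hm 0) h4 (show (0:ℝ) ≤ 1 / 5 by norm_num) (show (0:ℝ) ≤ 4 / 5 by norm_num)
    (by norm_num)
  convert h5 using 1
  rw [j8042_pv0, j8042_pv1, j8042_pv2, j8042_pv3, j8042_pv4]
  apply Complex.ext
  · simp only [Complex.add_re, Complex.smul_re, smul_eq_mul, Complex.zero_re]
    ring
  · simp only [Complex.add_im, Complex.smul_im, smul_eq_mul, Complex.zero_im]
    ring

theorem lam_zero_pos (i : ZMod 5) : 0 < lam i 0 := by
  obtain ⟨hq, hq2, hq3⟩ := j8042_q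
  have hr := j8042_r_pos
  obtain ⟨m1, m2, m3, m4, m5⟩ := j8042_mono
  unfold lam
  rw [j8042_lam]
  rcases j8042_cases i with rfl | rfl | rfl | rfl | rfl <;>
  simp only [j8042_a0, j8042_a1, j8042_a2, j8042_a3, j8042_a4, j8042_pv0, j8042_pv1,
        j8042_pv2, j8042_pv3, j8042_pv4, Complex.zero_re, Complex.zero_im] <;>
  nlinarith [hq, m1, m2, m3, hr]

theorem pv_inj : Function.Injective pv := by
  intro a b hab
  by_contra hne
  by_cases h : b = a + 1
  · have := pv_dist_one a
    rw [← h, hab, dist_self] at this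
    norm_num at this
  · have h1 := lam_pv_pos a b (fun h => hne h.symm) h
    rw [← hab] at h1
    unfold lam at h1
    simp at h1

/-! ### isometries of the pentagon into space -/

theorem j8044_inner {F : Type*} [NormedAddCommGroup F] [InnerProductSpace ℝ F] (x y : F) :
    inner ℝ x y = (‖x‖ ^ 2 + ‖y‖ ^ 2 - ‖x - y‖ ^ 2) / 2 := by
  rw [norm_sub_sq_real]; ring

theorem j8044_coord (u v : ℂ) (hd : ((starRingEnd ℂ) u * v).im ≠ 0) (z : ℂ) :
    (-((starRingEnd ℂ) v * z).im / ((starRingEnd ℂ) u * v).im) • u +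
      (((starRingEnd ℂ) u * z).im / ((starRingEnd ℂ) u * v).im) • v = z := by
  simp only [Complex.mul_im, Complex.conj_re, Complex.conj_im] at hd ⊢
  apply Complex.ext
  · rw [Complex.add_re, Complex.smul_re, Complex.smul_re, smul_eq_mul, smul_eq_mul,
      div_mul_eq_mul_div, div_mul_eq_mul_div, ← add_div, div_eq_iff hd]
    ring
  · rw [Complex.add_im, Complex.smul_im, Complex.smul_im, smul_eq_mul, smul_eq_mul,
      div_mul_eq_mul_div, div_mul_eq_mul_div, ← add_div, div_eq_iff hd]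
    ring

/-- linear map with prescribed values on two vectors -/
def j8044_L (u v : ℂ) (U V : E3) : ℂ →ₗ[ℝ] E3 where
  toFun z := (-((starRingEnd ℂ) v * z).im / ((starRingEnd ℂ) u * v).im) • U +
    (((starRingEnd ℂ) u * z).im / ((starRingEnd ℂ) u * v).im) • V
  map_add' y z := by
    rw [mul_add, mul_add, Complex.add_im, Complex.add_im, neg_add, add_div, add_div, add_smul,
      add_smul]
    abel
  map_smul' r z := by
    have h1 : ∀ c : ℂ, (c * (r • z)).im = r * (c * z).im := by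
      intro c
      rw [mul_smul_comm, Complex.smul_im, smul_eq_mul]
    rw [h1, h1, RingHom.id_apply, smul_add, smul_smul, smul_smul]
    congr 2
    · ring
    · ring

theorem j8044_norm (u v : ℂ) (U V : E3) (hd : ((starRingEnd ℂ) u * v).im ≠ 0)
    (h1 : ‖U‖ = ‖u‖) (h2 : ‖V‖ = ‖v‖) (h3 : ‖U - V‖ = ‖u - v‖) (z : ℂ) :
    ‖j8044_L u v U V z‖ = ‖z‖ := by
  have hin : inner ℝ U V = inner ℝ u v := by
    rw [j8044_inner, j8044_inner, h1, h2, h3]
  have hz := j8044_coord u v hd z
  set a : ℝ := -((starRingEnd ℂ) v * z).im / ((starRingEnd ℂ) u * v).im with ha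
  set b : ℝ := ((starRingEnd ℂ) u * z).im / ((starRingEnd ℂ) u * v).im with hb
  have hL : j8044_L u v U V z = a • U + b • V := rfl
  have e1 : ‖a • U + b • V‖ ^ 2 = ‖z‖ ^ 2 := by
    rw [← hz, norm_add_sq_real, norm_add_sq_real, norm_smul, norm_smul, norm_smul, norm_smul,
      real_inner_smul_left, real_inner_smul_left, real_inner_smul_right, real_inner_smul_right,
      h1, h2, hin]
  rw [hL]
  exact (sq_eq_sq₀ (norm_nonneg _) (norm_nonneg _)).1 e1

theorem isom_extend (w : P → E3) (hw : Isometry w) :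
    ∃ A : ℂ →ᵃⁱ[ℝ] E3, ∀ t : P, w t = A t := by
  set O : P := ⟨pv 0, pv_mem 0⟩ with hO
  set Q1 : P := ⟨pv 1, pv_mem 1⟩ with hQ1
  set Q4 : P := ⟨pv 4, pv_mem 4⟩ with hQ4
  set u : ℂ := pv 1 - pv 0 with hu
  set v : ℂ := pv 4 - pv 0 with hv
  set U : E3 := w Q1 - w O with hU
  set V : E3 := w Q4 - w O with hV
  have hd : ((starRingEnd ℂ) u * v).im ≠ 0 := by
    have h1 := lam_pv_pos 0 4 (by decide) (by decide)
    unfold lam at h1
    rw [zero_add] at h1
    exact h1.ne'
  have hdist : ∀ s t : P, ‖w s - w t‖ = ‖(s : ℂ) - (t : ℂ)‖ := by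
    intro s t
    rw [← dist_eq_norm, hw.dist_eq, Subtype.dist_eq, dist_eq_norm]
  have h1 : ‖U‖ = ‖u‖ := hdist _ _
  have h2 : ‖V‖ = ‖v‖ := hdist _ _
  have h3 : ‖U - V‖ = ‖u - v‖ := by
    have e1 : U - V = w Q1 - w Q4 := by rw [hU, hV]; abel
    have e2 : u - v = pv 1 - pv 4 := by rw [hu, hv]; ring
    rw [e1, e2]
    exact hdist _ _
  have hnorm := j8044_norm u v U V hd h1 h2 h3
  let L := j8044_L u v U V
  let A : ℂ →ᵃⁱ[ℝ] E3 :=
    { toFun := fun z => L (z - pv 0) + w O
      linear := L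
      map_vadd' := fun p q => by
        show L (q + p - pv 0) + w O = L q + (L (p - pv 0) + w O)
        rw [add_sub_assoc, map_add, add_assoc]
      norm_map := hnorm }
  refine ⟨A, fun t => ?_⟩
  show w t = L ((t : ℂ) - pv 0) + w O
  -- the coordinates of `t`
  have hz := j8044_coord u v hd ((t : ℂ) - pv 0)
  set a : ℝ := -((starRingEnd ℂ) v * ((t : ℂ) - pv 0)).im / ((starRingEnd ℂ) u * v).im with ha
  set b : ℝ := ((starRingEnd ℂ) u * ((t : ℂ) - pv 0)).im / ((starRingEnd ℂ) u * v).im with hb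
  have hL : L ((t : ℂ) - pv 0) = a • U + b • V := rfl
  set x : E3 := w t - w O with hx
  have hxn : ‖x‖ = ‖(t : ℂ) - pv 0‖ := hdist _ _
  have hin : inner ℝ U V = inner ℝ u v := by
    rw [j8044_inner, j8044_inner, h1, h2, h3]
  have hxU : inner ℝ x U = inner ℝ ((t : ℂ) - pv 0) u := by
    rw [j8044_inner, j8044_inner, hxn, h1]
    have e1 : x - U = w t - w Q1 := by rw [hx, hU]; abel
    have e2 : (t : ℂ) - pv 0 - u = (t : ℂ) - pv 1 := by rw [hu]; ring
    rw [e1, e2, hdist t Q1]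
  have hxV : inner ℝ x V = inner ℝ ((t : ℂ) - pv 0) v := by
    rw [j8044_inner, j8044_inner, hxn, h2]
    have e1 : x - V = w t - w Q4 := by rw [hx, hV]; abel
    have e2 : (t : ℂ) - pv 0 - v = (t : ℂ) - pv 4 := by rw [hv]; ring
    rw [e1, e2, hdist t Q4]
  have hLn : ‖a • U + b • V‖ = ‖(t : ℂ) - pv 0‖ := by
    rw [← hL]; exact hnorm _
  have hxL : inner ℝ x (a • U + b • V) = ‖(t : ℂ) - pv 0‖ ^ 2 := by
    rw [inner_add_right, real_inner_smul_right, real_inner_smul_right, hxU, hxV,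
      ← real_inner_smul_right, ← real_inner_smul_right, ← inner_add_right, hz,
      real_inner_self_eq_norm_sq]
  have hy : ‖x - (a • U + b • V)‖ ^ 2 = 0 := by
    rw [norm_sub_sq_real, hxL, hxn, hLn]
    ring
  have hy' : x - (a • U + b • V) = 0 := by
    rw [← norm_eq_zero]
    exact pow_eq_zero_iff (two_ne_zero) |>.1 hy
  have hxe : x = a • U + b • V := sub_eq_zero.1 hy'
  rw [hL, ← hxe, hx]
  abel

/-! ### the surface and its map to space -/

/-- chains of faces whose images contain the point `z` -/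
def Ch (M : Surf) (A : M.X → (ℂ →ᵃⁱ[ℝ] E3)) (z : E3) (x y : M.X) : Prop :=
  Relation.EqvGen (fun x y => ∃ i s, 0 ≤ s ∧ s ≤ 1 ∧ z = A x (edgePt i s) ∧
    y = (M.g (x, i)).1) x y

theorem qi8045_fwd (M : Surf) (f : M.Space → E3) (A : M.X → (ℂ →ᵃⁱ[ℝ] E3))
    (hA : ∀ x (t : P), f (M.pt x t) = A x t) (a b : Σ _ : M.X, P)
    (h : Relation.EqvGen M.Glue a b) :
    A a.1 a.2 = A b.1 b.2 ∧ Ch M A (A a.1 a.2) a.1 b.1 := by
  induction h with
  | rel a b h =>
    have hpos : A a.1 a.2 = A b.1 b.2 := by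
      have h1 : M.pt a.1 a.2 = M.pt b.1 b.2 := Quot.sound h
      rw [← hA a.1 a.2, ← hA b.1 b.2, h1]
    obtain ⟨i, s, h0, h1, h2, h3, h4⟩ := h
    exact ⟨hpos, Relation.EqvGen.rel _ _ ⟨i, s, h0, h1, by rw [h2], h3⟩⟩
  | refl a => exact ⟨rfl, Relation.EqvGen.refl _⟩
  | symm a b _ ih =>
    refine ⟨ih.1.symm, ?_⟩
    rw [← ih.1]
    exact Relation.EqvGen.symm _ _ ih.2
  | trans a b c _ _ ih1 ih2 =>
    refine ⟨ih1.1.trans ih2.1, ?_⟩
    refine Relation.EqvGen.trans _ _ _ ih1.2 ?_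
    rw [ih1.1]
    exact ih2.2

theorem qi8045_bwd (M : Surf) (f : M.Space → E3) (A : M.X → (ℂ →ᵃⁱ[ℝ] E3))
    (hA : ∀ x (t : P), f (M.pt x t) = A x t) (z : E3) (x y : M.X) (h : Ch M A z x y) :
    (∀ t : P, A x t = z → ∃ t' : P, A y t' = z ∧ M.pt x t = M.pt y t') ∧
    (∀ t' : P, A y t' = z → ∃ t : P, A x t = z ∧ M.pt x t = M.pt y t') := by
  unfold Ch at h
  induction h with
  | rel x y h =>
    obtain ⟨i, s, h0, h1, hz, rfl⟩ := h
    have hs' : 0 ≤ (if M.flip (x, i) then 1 - s else s) ∧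
        (if M.flip (x, i) then 1 - s else s) ≤ 1 := by
      split_ifs
      · exact ⟨by linarith, by linarith⟩
      · exact ⟨h0, h1⟩
    set b : P := ⟨edgePt (M.g (x, i)).2 (if M.flip (x, i) then 1 - s else s),
      edgePt_mem _ _ hs'.1 hs'.2⟩ with hb
    set a : P := ⟨edgePt i s, edgePt_mem _ _ h0 h1⟩ with ha
    have hab : M.pt x a = M.pt (M.g (x, i)).1 b :=
      Quot.sound ⟨i, s, h0, h1, rfl, rfl, rfl⟩
    have hAa : A x a = z := hz.symm
    have hAb : A (M.g (x, i)).1 b = z := by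
      rw [← hA, ← hab, hA, hAa]
    constructor
    · intro t ht
      have : t = a := by
        apply Subtype.ext
        exact (A x).injective (ht.trans hAa.symm)
      exact ⟨b, hAb, by rw [this, hab]⟩
    · intro t' ht'
      have : t' = b := by
        apply Subtype.ext
        exact (A (M.g (x, i)).1).injective (ht'.trans hAb.symm)
      exact ⟨a, hAa, by rw [this, hab]⟩
  | refl x => exact ⟨fun t ht => ⟨t, ht, rfl⟩, fun t ht => ⟨t, ht, rfl⟩⟩
  | symm x y _ ih =>
    refine ⟨fun t ht => ?_, fun t ht => ?_⟩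
    · obtain ⟨t', h1, h2⟩ := ih.2 t ht
      exact ⟨t', h1, h2.symm⟩
    · obtain ⟨t', h1, h2⟩ := ih.1 t ht
      exact ⟨t', h1, h2.symm⟩
  | trans x y w _ _ ih1 ih2 =>
    refine ⟨fun t ht => ?_, fun t ht => ?_⟩
    · obtain ⟨t', h1, h2⟩ := ih1.1 t ht
      obtain ⟨t'', h3, h4⟩ := ih2.1 t' h1
      exact ⟨t'', h3, h2.trans h4⟩
    · obtain ⟨t', h1, h2⟩ := ih2.2 t ht
      obtain ⟨t'', h3, h4⟩ := ih1.2 t' h1
      exact ⟨t'', h3, h4.trans h2⟩

theorem quot_iff (M : Surf) (f : M.Space → E3) (A : M.X → (ℂ →ᵃⁱ[ℝ] E3))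
    (hA : ∀ x (t : P), f (M.pt x t) = A x t) (x y : M.X) (t t' : P) :
    M.pt x t = M.pt y t' ↔ A x t = A y t' ∧ Ch M A (A x t) x y := by
  constructor
  · intro h
    exact qi8045_fwd M f A hA ⟨x, t⟩ ⟨y, t'⟩ (Quot.eqvGen_exact h)
  · rintro ⟨h1, h2⟩
    obtain ⟨t'', h3, h4⟩ := (qi8045_bwd M f A hA _ x y h2).1 t rfl
    have : t'' = t' := by
      apply Subtype.ext
      exact (A y).injective (h3.trans h1)
    rw [h4, this]

theorem nfold_aff (A : ℂ →ᵃⁱ[ℝ] E3) (a b : ℂ) (s : ℝ) :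
    A ((1 - s) • a + s • b) = (1 - s) • A a + s • A b := by
  rw [← AffineMap.lineMap_apply_module, ← AffineMap.lineMap_apply_module]
  exact A.toAffineMap.apply_lineMap a b s

theorem nfold_mid_pos (i k : ZMod 5) (hk : k ≠ i) : 0 < lam k (edgePt i (1 / 2)) := by
  unfold edgePt
  rw [lam_comb]
  have h1 : 0 ≤ lam k (pv i) := lam_nonneg k _ (pv_mem i)
  have h2 : 0 ≤ lam k (pv (i + 1)) := lam_nonneg k _ (pv_mem (i + 1))
  by_cases h : i = k + 1
  · have h3 : 0 < lam k (pv (i + 1)) := by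
      apply lam_pv_pos
      · subst h
        intro h4
        have : (2 : ZMod 5) = 0 := by
          have h5 : k + 1 + 1 = k := h4
          have h6 : k + 1 + 1 = k + 2 := by ring
          rw [h6] at h5
          simpa using h5
        exact absurd this (by decide)
      · subst h
        intro h4
        have : (1 : ZMod 5) = 0 := by
          simpa using h4
        exact absurd this (by decide)
    linarith
  · have h3 : 0 < lam k (pv i) := lam_pv_pos k i (Ne.symm hk) h
    linarith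

theorem nfold_pos (i k : ZMod 5) (e : ℝ) (h0 : 0 < e) (h1 : e < 1) :
    0 < lam k ((1 - e) • edgePt i (1 / 2) + e • pv (i + 3)) := by
  rw [lam_comb]
  have h2 : 0 ≤ lam k (edgePt i (1 / 2)) :=
    lam_nonneg k _ (edgePt_mem i (1 / 2) (by norm_num) (by norm_num))
  have h3 : 0 ≤ lam k (pv (i + 3)) := lam_nonneg k _ (pv_mem _)
  by_cases hk : k = i
  · subst hk
    have h4 : 0 < lam k (pv (k + 3)) := by
      apply lam_pv_pos
      · intro h
        have : (3 : ZMod 5) = 0 := by simpa using h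
        exact absurd this (by decide)
      · intro h
        have : (3 : ZMod 5) = 1 := by simpa using h
        exact absurd this (by decide)
    have h5 : 0 < e * lam k (pv (k + 3)) := mul_pos h0 h4
    have h6 : 0 ≤ (1 - e) * lam k (edgePt k (1 / 2)) := mul_nonneg (by linarith) h2
    linarith
  · have h4 := nfold_mid_pos i k hk
    have h5 : 0 ≤ e * lam k (pv (i + 3)) := mul_nonneg h0.le h3
    have h6 : 0 < (1 - e) * lam k (edgePt i (1 / 2)) := mul_pos (by linarith) h4
    linarith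

theorem nfold_mem (i : ZMod 5) (e : ℝ) (h0 : 0 ≤ e) (h1 : e ≤ 1) :
    (1 - e) • edgePt i (1 / 2) + e • pv (i + 3) ∈ P :=
  (convex_convexHull ℝ _) (edgePt_mem i (1 / 2) (by norm_num) (by norm_num)) (pv_mem (i + 3))
    (by linarith) h0 (by linarith)

theorem nfold_cont (M : Surf) (x : M.X) : Continuous (M.pt x) := by
  have h1 : Continuous (fun t : P => (⟨x, t⟩ : Σ _ : M.X, P)) :=
    continuous_sigmaMk (σ := fun _ : M.X => (P : Type)) (i := x)
  have h2 : Continuous (Quot.mk M.Glue) := continuous_quot_mk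
  exact h2.comp h1

theorem nfold_glue (M : Surf) (f : M.Space → E3) (A : M.X → (ℂ →ᵃⁱ[ℝ] E3))
    (hA : ∀ x (t : P), f (M.pt x t) = A x t) (x : M.X) (i : ZMod 5) (s : ℝ) (h0 : 0 ≤ s)
    (h1 : s ≤ 1) : ∃ s', 0 ≤ s' ∧ s' ≤ 1 ∧
      A x (edgePt i s) = A (M.g (x, i)).1 (edgePt (M.g (x, i)).2 s') := by
  refine ⟨if M.flip (x, i) then 1 - s else s, ?_, ?_, ?_⟩
  · split_ifs <;> linarith
  · split_ifs <;> linarith
  · have hm : edgePt (M.g (x, i)).2 (if M.flip (x, i) then 1 - s else s) ∈ P := by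
      apply edgePt_mem
      · split_ifs <;> linarith
      · split_ifs <;> linarith
    have h2 : M.pt x ⟨edgePt i s, edgePt_mem i s h0 h1⟩ = M.pt (M.g (x, i)).1 ⟨_, hm⟩ :=
      Quot.sound ⟨i, s, h0, h1, rfl, rfl, rfl⟩
    have h3 := hA x ⟨edgePt i s, edgePt_mem i s h0 h1⟩
    have h4 := hA (M.g (x, i)).1 ⟨_, hm⟩
    rw [← h2, h3] at h4
    exact h4

/-- no fold along an edge -/
theorem li_fold (M : Surf) (f : M.Space → E3) (A : M.X → (ℂ →ᵃⁱ[ℝ] E3))
    (hA : ∀ x (t : P), f (M.pt x t) = A x t) (hinj : ∀ z, ∃ U ∈ 𝓝 z, Set.InjOn f U)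
    (x : M.X) (i : ZMod 5) :
    A x (pv (i + 3)) ≠ A (M.g (x, i)).1 (pv ((M.g (x, i)).2 + 3)) := by
  intro heq
  obtain ⟨y, j, hg⟩ : ∃ y j, M.g (x, i) = (y, j) := ⟨_, _, rfl⟩
  have hmid1 : edgePt i (1 / 2) ∈ P := edgePt_mem i _ (by norm_num) (by norm_num)
  have hmid2 : edgePt j (1 / 2) ∈ P := edgePt_mem j _ (by norm_num) (by norm_num)
  have hpt : M.pt x ⟨edgePt i (1 / 2), hmid1⟩ = M.pt y ⟨edgePt j (1 / 2), hmid2⟩ := by
    apply Quot.sound
    refine ⟨i, 1 / 2, by norm_num, by norm_num, rfl, ?_, ?_⟩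
    · simp only [hg]
    · simp only [hg]
      congr 1
      split_ifs <;> norm_num
  rw [hg] at heq
  simp only at heq
  have hmidA : A x (edgePt i (1 / 2)) = A y (edgePt j (1 / 2)) := by
    have h1 := hA x ⟨edgePt i (1 / 2), hmid1⟩
    have h2 := hA y ⟨edgePt j (1 / 2), hmid2⟩
    rw [← hpt, h1] at h2
    exact h2
  -- the sequences
  let e : ℕ → ℝ := fun n => 1 / ((n : ℝ) + 2)
  have he0 : ∀ n, 0 < e n := fun n => by positivity
  have he1 : ∀ n, e n < 1 := fun n => by
    change 1 / ((n : ℝ) + 2) < 1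
    rw [div_lt_one (by positivity)]
    have : (0 : ℝ) ≤ n := Nat.cast_nonneg n
    linarith
  have het : Filter.Tendsto e Filter.atTop (𝓝 0) := by
    have h1 : Filter.Tendsto (fun n : ℕ => (n : ℝ) + 2) Filter.atTop Filter.atTop :=
      Filter.tendsto_atTop_add_const_right _ _ tendsto_natCast_atTop_atTop
    have h2 := h1.inv_tendsto_atTop
    refine h2.congr (fun n => ?_)
    simp [e]
  have hlim : ∀ k : ZMod 5, Filter.Tendsto
      (fun n => (1 - e n) • edgePt k (1 / 2) + e n • pv (k + 3)) Filter.atTop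
      (𝓝 (edgePt k (1 / 2))) := by
    intro k
    have h1 : Filter.Tendsto (fun n => (1 - e n) • edgePt k (1 / 2) + e n • pv (k + 3))
        Filter.atTop (𝓝 (((1 : ℝ) - 0) • edgePt k (1 / 2) + (0 : ℝ) • pv (k + 3))) :=
      ((tendsto_const_nhds.sub het).smul tendsto_const_nhds).add (het.smul tendsto_const_nhds)
    simpa using h1
  let u : ℕ → P := fun n => ⟨_, nfold_mem i (e n) (he0 n).le (he1 n).le⟩
  let u' : ℕ → P := fun n => ⟨_, nfold_mem j (e n) (he0 n).le (he1 n).le⟩
  have hu : Filter.Tendsto u Filter.atTop (𝓝 ⟨edgePt i (1 / 2), hmid1⟩) :=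
    tendsto_subtype_rng.2 (hlim i)
  have hu' : Filter.Tendsto u' Filter.atTop (𝓝 ⟨edgePt j (1 / 2), hmid2⟩) :=
    tendsto_subtype_rng.2 (hlim j)
  obtain ⟨U, hU, hUinj⟩ := hinj (M.pt x ⟨edgePt i (1 / 2), hmid1⟩)
  have h1 : ∀ᶠ n in Filter.atTop, M.pt x (u n) ∈ U :=
    (((nfold_cont M x).tendsto _).comp hu).eventually hU
  have h2 : ∀ᶠ n in Filter.atTop, M.pt y (u' n) ∈ U := by
    rw [hpt] at hU
    exact (((nfold_cont M y).tendsto _).comp hu').eventually hU
  obtain ⟨n, hn1, hn2⟩ := (h1.and h2).exists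
  have hAe : A x (u n) = A y (u' n) := by
    change A x ((1 - e n) • edgePt i (1 / 2) + e n • pv (i + 3)) =
      A y ((1 - e n) • edgePt j (1 / 2) + e n • pv (j + 3))
    rw [nfold_aff, nfold_aff, hmidA, heq]
  have hpe : M.pt x (u n) = M.pt y (u' n) := by
    apply hUinj hn1 hn2
    rw [hA, hA, hAe]
  obtain ⟨-, hch⟩ := (quot_iff M f A hA x y (u n) (u' n)).1 hpe
  have hpos : ∀ k, 0 < lam k (u n) := fun k => nfold_pos i k (e n) (he0 n) (he1 n)
  have hne : ∀ k s, 0 ≤ s → s ≤ 1 → A x (u n) ≠ A x (edgePt k s) := by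
    intro k s hs0 hs1 h
    have h3 : (u n : ℂ) = edgePt k s := (A x).injective h
    have h4 : lam k (u n) = 0 := (lam_zero_iff k _ (u n).2).2 ⟨s, hs0, hs1, h3⟩
    exact absurd h4 (hpos k).ne'
  have hkey : ∀ a b, Ch M A (A x (u n)) a b → (a = x ↔ b = x) := by
    intro a b hab
    induction hab with
    | rel a b hr =>
      obtain ⟨k, s, hs0, hs1, hz, hb⟩ := hr
      constructor
      · intro hax
        exfalso
        subst hax
        exact hne k s hs0 hs1 hz
      · intro hbx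
        exfalso
        obtain ⟨s', hs0', hs1', hz'⟩ := nfold_glue M f A hA a k s hs0 hs1
        rw [← hb, hbx] at hz'
        exact hne _ s' hs0' hs1' (hz.trans hz')
    | refl a => exact Iff.rfl
    | symm a b _ ih => exact ih.symm
    | trans a b c _ _ ih1 ih2 => exact ih1.trans ih2
  have hyx : y = x := (hkey x y hch).1 rfl
  subst hyx
  have hmm : edgePt i (1 / 2) = edgePt j (1 / 2) := (A y).injective hmidA
  have hij : i = j := by
    by_contra hij
    rcases edgePt_two i j (1 / 2) (1 / 2) (by norm_num) (by norm_num) (by norm_num)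
      (by norm_num) hij hmm with ⟨-, h, -⟩ | ⟨-, h, -⟩
    · norm_num at h
    · norm_num at h
  subst hij
  exact M.g_ne _ hg

theorem h441_int (i j : ZMod 5) (s s' : ℝ) (h0 : 0 < s) (h1 : s < 1) (h0' : 0 ≤ s')
    (h1' : s' ≤ 1) (h : edgePt i s = edgePt j s') : j = i ∧ s' = s := by
  by_cases hij : i = j
  · subst hij
    exact ⟨rfl, (edgePt_inj i h).symm⟩
  · rcases edgePt_two i j s s' h0.le h1.le h0' h1' hij h with ⟨_, h2, _⟩ | ⟨_, h2, _⟩ <;> linarith

def h441T (M : Surf) (y : M.X × ZMod 5) (r : ℝ) : Set (Σ _ : M.X, P) :=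
  {a | a.1 = y.1 ∧ (a.2 : ℂ) = edgePt y.2 r}

theorem h441_F (M : Surf) (y : M.X × ZMod 5) (r : ℝ) (h0 : 0 < r) (h1 : r < 1)
    {a c : Σ _ : M.X, P} (ha : a ∈ h441T M y r) (hac : M.Glue a c) :
    c ∈ h441T M (M.g y) (if M.flip y then 1 - r else r) := by
  obtain ⟨i, s, hs0, hs1, ha2, hc1, hc2⟩ := hac
  obtain ⟨g1, g2⟩ := ha
  obtain ⟨rfl, rfl⟩ := h441_int _ _ _ _ h0 h1 hs0 hs1 (g2.symm.trans ha2)
  have hy : (a.1, y.2) = y := Prod.ext g1 rfl
  rw [hy] at hc1 hc2
  exact ⟨hc1, hc2⟩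

theorem h441_symm (M : Surf) {a c : Σ _ : M.X, P} (hac : M.Glue a c) : M.Glue c a := by
  obtain ⟨i, s, hs0, hs1, ha2, hc1, hc2⟩ := hac
  have hy : (c.1, (M.g (a.1, i)).2) = M.g (a.1, i) := Prod.ext hc1 rfl
  refine ⟨(M.g (a.1, i)).2, if M.flip (a.1, i) then 1 - s else s, ?_, ?_, hc2, ?_, ?_⟩
  · split_ifs <;> linarith
  · split_ifs <;> linarith
  · rw [hy, M.g_g]
  · rw [hy, M.g_g, M.flip_g]
    rw [ha2]
    congr 1
    split_ifs <;> ring

theorem h441_cls (M : Surf) (y : M.X × ZMod 5) (r : ℝ) (h0 : 0 < r) (h1 : r < 1)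
    {a c : Σ _ : M.X, P} (hac : Relation.EqvGen M.Glue a c) :
    (a ∈ h441T M y r ∨ a ∈ h441T M (M.g y) (if M.flip y then 1 - r else r)) ↔
    (c ∈ h441T M y r ∨ c ∈ h441T M (M.g y) (if M.flip y then 1 - r else r)) := by
  have key : ∀ a c : Σ _ : M.X, P, M.Glue a c →
      (a ∈ h441T M y r ∨ a ∈ h441T M (M.g y) (if M.flip y then 1 - r else r)) →
      (c ∈ h441T M y r ∨ c ∈ h441T M (M.g y) (if M.flip y then 1 - r else r)) := by
    intro a c hg h
    rcases h with h | h
    · exact Or.inr (h441_F M y r h0 h1 h hg)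
    · left
      have h3 := h441_F M (M.g y) _ (by split_ifs <;> linarith) (by split_ifs <;> linarith) h hg
      rw [M.g_g, M.flip_g] at h3
      have h4 : (if M.flip y = true then 1 - (if M.flip y = true then 1 - r else r)
        else (if M.flip y = true then 1 - r else r)) = r := by
        split_ifs <;> ring
      rw [h4] at h3
      exact h3
  induction hac with
  | rel a c h => exact ⟨key a c h, key c a (h441_symm M h)⟩
  | refl a => exact Iff.rfl
  | symm a c _ ih => exact ih.symm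
  | trans a b c _ _ ih1 ih2 => exact ih1.trans ih2

theorem h441_zero (e : ZMod 5) (b : Bool) :
    edgePt e (if b then 0 else 1 - 0) = pv (if b then e else e + 1) := by
  cases b <;> simp [edgePt]

theorem h441_lm (e : ZMod 5) (b : Bool) (s : ℝ) :
    edgePt e (if b then s else 1 - s) =
      AffineMap.lineMap (pv (if b then e else e + 1)) (pv (if b then e + 1 else e)) s := by
  rw [AffineMap.lineMap_apply_module]
  cases b
  · simp only [edgePt, Bool.false_eq_true, if_false]
    rw [sub_sub_cancel, add_comm]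
  · simp only [edgePt, if_true]

theorem h441_A (B : ℂ →ᵃⁱ[ℝ] E3) (a b : ℂ) (s : ℝ) :
    B (AffineMap.lineMap a b s) = AffineMap.lineMap (B a) (B b) s :=
  B.toAffineMap.apply_lineMap a b s

theorem h441_path (M : Surf) (x : M.X) (e : ZMod 5) (b : Bool) (U : Set M.Space)
    (hU : U ∈ 𝓝 (M.pt x ⟨pv (if b then e else e + 1), pv_mem _⟩)) :
    ∀ᶠ s in 𝓝 (0 : ℝ), ∀ (h0 : 0 ≤ s) (h1 : s ≤ 1),
      M.pt x ⟨edgePt e (if b then s else 1 - s), edgePt_mem _ _ (by split_ifs <;> linarith)
        (by split_ifs <;> linarith)⟩ ∈ U := by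
  have hmem : ∀ s : ℝ, edgePt e (if b then (Set.projIcc (0:ℝ) 1 zero_le_one s : ℝ)
      else 1 - (Set.projIcc (0:ℝ) 1 zero_le_one s : ℝ)) ∈ P := by
    intro s
    have h := (Set.projIcc (0:ℝ) 1 zero_le_one s).2
    apply edgePt_mem
    · split_ifs <;> linarith [h.1, h.2]
    · split_ifs <;> linarith [h.1, h.2]
  have hcont : Continuous fun s : ℝ => M.pt x ⟨_, hmem s⟩ := by
    have h1 : Continuous fun s : ℝ => (⟨_, hmem s⟩ : P) := by
      apply Continuous.subtype_mk
      have h2 : Continuous fun s : ℝ => ((Set.projIcc (0:ℝ) 1 zero_le_one s : Set.Icc (0:ℝ) 1) : ℝ) :=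
        continuous_subtype_val.comp continuous_projIcc
      unfold edgePt
      cases b
      · simp only [Bool.false_eq_true, if_false]
        fun_prop
      · simp only [if_true]
        fun_prop
    have h3 : Continuous fun t : P => M.pt x t :=
      continuous_quot_mk.comp continuous_sigmaMk
    exact h3.comp h1
  have h4 : M.pt x ⟨_, hmem 0⟩ = M.pt x ⟨pv (if b then e else e + 1), pv_mem _⟩ := by
    congr 1
    apply Subtype.ext
    show edgePt e (if b then (Set.projIcc (0:ℝ) 1 zero_le_one 0 : ℝ)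
      else 1 - (Set.projIcc (0:ℝ) 1 zero_le_one 0 : ℝ)) = _
    rw [Set.projIcc_left]
    exact h441_zero e b
  have h5 : ∀ᶠ s in 𝓝 (0 : ℝ), M.pt x ⟨_, hmem s⟩ ∈ U := by
    have h6 := hcont.continuousAt (x := (0 : ℝ))
    unfold ContinuousAt at h6
    beta_reduce at h6
    rw [h4] at h6
    exact h6 hU
  filter_upwards [h5] with s hs h0 h1
  have h7 : (Set.projIcc (0:ℝ) 1 zero_le_one s : ℝ) = s := by
    rw [Set.projIcc_of_mem zero_le_one ⟨h0, h1⟩]
  simp only [h7] at hs
  exact hs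


/-- distinct edges at a vertex of the surface have distinct directions -/
theorem li_edge (M : Surf) (f : M.Space → E3) (A : M.X → (ℂ →ᵃⁱ[ℝ] E3))
    (hA : ∀ x (t : P), f (M.pt x t) = A x t) (hinj : ∀ z, ∃ U ∈ 𝓝 z, Set.InjOn f U)
    (x x' : M.X) (e e' : ZMod 5) (b b' : Bool)
    (h : M.pt x ⟨pv (if b then e else e + 1), pv_mem _⟩ =
      M.pt x' ⟨pv (if b' then e' else e' + 1), pv_mem _⟩)
    (h' : A x (pv (if b then e + 1 else e)) = A x' (pv (if b' then e' + 1 else e'))) :
    (x', e') = (x, e) ∨ (x', e') = M.g (x, e) := by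
  obtain ⟨U, hU, hUi⟩ := hinj (M.pt x ⟨pv (if b then e else e + 1), pv_mem _⟩)
  have h1 := h441_path M x e b U hU
  have h2 := h441_path M x' e' b' U (h ▸ hU)
  have h3 : ∀ᶠ s in 𝓝[>] (0 : ℝ), s ∈ Set.Ioo (0 : ℝ) (1 / 2) :=
    Ioo_mem_nhdsGT (by norm_num)
  obtain ⟨s, ⟨hs1, hs2⟩, hs3⟩ := (((h1.and h2).filter_mono nhdsWithin_le_nhds).and h3).exists
  have hs0 : 0 ≤ s := hs3.1.le
  have hs4 : s ≤ 1 := by linarith [hs3.2]
  have hs5 : 0 < s := hs3.1
  have hs6 : s < 1 := by linarith [hs3.2]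
  have h4 := hs1 hs0 hs4
  have h5 := hs2 hs0 hs4
  have h0 : A x (pv (if b then e else e + 1)) = A x' (pv (if b' then e' else e' + 1)) := by
    rw [← hA x ⟨pv (if b then e else e + 1), pv_mem _⟩, h, hA]
  have h6 := hUi h4 h5 (by
    rw [hA, hA]
    show A x (edgePt e (if b then s else 1 - s)) = A x' (edgePt e' (if b' then s else 1 - s))
    rw [h441_lm, h441_lm, h441_A, h441_A, h0, h'])
  have h7 := Quot.eqvGen_exact h6
  have h8 := (h441_cls M (x, e) (if b then s else 1 - s) (by split_ifs <;> linarith)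
    (by split_ifs <;> linarith) h7).1 (Or.inl ⟨rfl, rfl⟩)
  rcases h8 with ⟨h9, h10⟩ | ⟨h9, h10⟩
  · left
    have h11 := h441_int _ _ _ _ (by split_ifs <;> linarith) (by split_ifs <;> linarith)
      (by split_ifs <;> linarith) (by split_ifs <;> linarith) h10
    exact Prod.ext h9 h11.1.symm
  · right
    have h11 := h441_int _ _ _ _ (by split_ifs <;> linarith) (by split_ifs <;> linarith)
      (by split_ifs <;> linarith) (by split_ifs <;> linarith) h10
    exact Prod.ext h9 h11.1.symm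

theorem surf_conn (M : Surf) (hc : ConnectedSpace M.Space) (S : Set M.X) (hS : S.Nonempty)
    (h : ∀ x ∈ S, ∀ i, (M.g (x, i)).1 ∈ S) : S = Set.univ := by
  have hresp : ∀ a b : Σ _ : M.X, P, M.Glue a b → (a.1 ∈ S) = (b.1 ∈ S) := by
    rintro a b ⟨i, s, -, -, -, h4, -⟩
    apply propext
    constructor
    · intro ha
      rw [h4]
      exact h _ ha i
    · intro hb
      have h5 := h _ hb (M.g (a.1, i)).2
      have h6 : (b.1, (M.g (a.1, i)).2) = M.g (a.1, i) := by rw [h4]
      rw [h6, M.g_g] at h5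
      exact h5
  let χ : M.Space → Prop := Quot.lift (fun a : Σ _ : M.X, P => a.1 ∈ S) hresp
  have hq : Topology.IsQuotientMap (Quot.mk M.Glue) := isQuotientMap_quot_mk
  have hclo : IsClopen {z : M.Space | χ z} := by
    have h1 : IsClopen (Quot.mk M.Glue ⁻¹' {z : M.Space | χ z}) := by
      constructor
      · rw [isClosed_sigma_iff]
        intro i
        exact (isClosed_const : IsClosed {_t : P | i ∈ S})
      · rw [isOpen_sigma_iff]
        intro i
        exact (isOpen_const : IsOpen {_t : P | i ∈ S})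
    exact ⟨hq.isClosed_preimage.1 h1.1, hq.isOpen_preimage.1 h1.2⟩
  have hne : ({z : M.Space | χ z}).Nonempty := by
    obtain ⟨x, hx⟩ := hS
    exact ⟨M.pt x ⟨pv 0, pv_mem 0⟩, hx⟩
  have huniv : {z : M.Space | χ z} = Set.univ := hclo.eq_univ hne
  ext x
  simp only [Set.mem_univ, iff_true]
  have h1 : M.pt x ⟨pv 0, pv_mem 0⟩ ∈ {z : M.Space | χ z} := by
    rw [huniv]
    exact Set.mem_univ _
  exact h1

/-! ### the sphere has no nontrivial double cover -/

theorem csph_sc {A : Type} [TopologicalSpace A] [SimplyConnectedSpace A]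
    [LocallyPathConnectedSpace A] {ι : Type} (U : ι → Set A)
    (hU : ∀ a, IsOpen (U a)) (hcov : ∀ m, ∃ a, m ∈ U a) (g : ι → ι → A → ZMod 2)
    (hg : ∀ a b, ∀ m ∈ U a ∩ U b, ∀ᶠ m' in 𝓝 m, g a b m' = g a b m)
    (hcoc : ∀ a b c, ∀ m ∈ U a ∩ U b ∩ U c, g a b m + g b c m = g a c m) :
    ∃ h : ι → A → ZMod 2, (∀ a, ∀ m ∈ U a, ∀ᶠ m' in 𝓝 m, h a m' = h a m) ∧
      ∀ a b, ∀ m ∈ U a ∩ U b, g a b m = h a m + h b m := by
  classical
  choose idx hidx using hcov
  obtain ⟨Z, hZb, hZi, hZc⟩ : ∃ Z : FiberBundleCore ι A (ZMod 2), Z.baseSet = U ∧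
      Z.indexAt = idx ∧ Z.coordChange = fun a b m x => x + g a b m := by
    refine ⟨{ baseSet := U, isOpen_baseSet := hU, indexAt := idx, mem_baseSet_at := hidx,
              coordChange := fun a b m x => x + g a b m,
              coordChange_self := ?_, continuousOn_coordChange := ?_,
              coordChange_comp := ?_ }, rfl, rfl, rfl⟩
    · intro a x hx v
      have h1 := hcoc a a a x ⟨⟨hx, hx⟩, hx⟩
      have h2 : g a a x = 0 := by
        have : ∀ y : ZMod 2, y + y = y → y = 0 := by decide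
        exact this _ h1
      show v + g a a x = v
      rw [h2, add_zero]
    · intro a b p hp
      apply ContinuousAt.continuousWithinAt
      have h1 := hg a b p.1 hp.1
      have h2 : ∀ᶠ q : A × ZMod 2 in 𝓝 p, g a b q.1 = g a b p.1 :=
        (continuous_fst.tendsto p).eventually h1
      have h3 : ContinuousAt (fun q : A × ZMod 2 => q.2 + g a b p.1) p :=
        ((continuous_of_discreteTopology (f := fun y : ZMod 2 => y + g a b p.1)).comp
          continuous_snd).continuousAt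
      refine h3.congr ?_
      filter_upwards [h2] with q hq
      rw [hq]
    · intro a b c x hx v
      show v + g a b x + g b c x = v + g a c x
      rw [add_assoc, hcoc a b c x hx]
  have hcoord : ∀ (a : ι) (p : Z.TotalSpace), (Z.localTriv a p).2 =
      (show ZMod 2 from p.2) + g (idx p.1) a p.1 := by
    intro a p
    have h1 : (Z.localTriv a p).2 = Z.coordChange (Z.indexAt p.1) a p.1 p.2 := rfl
    rw [h1, hZc, hZi]
  obtain ⟨a0⟩ : Nonempty A := inferInstance
  have hcovmap : IsCoveringMap (Bundle.TotalSpace.proj : Z.TotalSpace → A) :=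
    FiberBundle.isCoveringMap (F := ZMod 2) (E := Z.Fiber)
  obtain ⟨F, ⟨_, hF⟩, _⟩ := hcovmap.existsUnique_continuousMap_lifts (ContinuousMap.id A) a0
    (⟨a0, (0 : ZMod 2)⟩ : Z.TotalSpace) rfl
  have hFp : ∀ m, (F m).1 = m := fun m => congrFun hF m
  refine ⟨fun a m => (Z.localTriv a (F m)).2, ?_, ?_⟩
  · intro a m hm
    have h1 : F m ∈ (Z.localTriv a).source := by
      rw [Z.mem_localTriv_source]
      show (F m).1 ∈ Z.baseSet a
      rw [hZb, hFp]
      exact hm
    have h2 : ContinuousAt (fun m' => (Z.localTriv a (F m')).2) m := by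
      have h3 : ContinuousAt (Z.localTriv a) (F m) :=
        (Z.localTriv a).continuousOn.continuousAt ((Z.localTriv a).open_source.mem_nhds h1)
      exact continuousAt_snd.comp (ContinuousAt.comp h3 F.continuous.continuousAt)
    exact h2.tendsto.eventually
      ((isOpen_discrete ({(Z.localTriv a (F m)).2} : Set (ZMod 2))).mem_nhds rfl)
  · intro a b m hm
    show g a b m = (Z.localTriv a (F m)).2 + (Z.localTriv b (F m)).2
    rw [hcoord, hcoord, hFp]
    have h1 := hcoc (idx m) a b m ⟨⟨hidx m, hm.1⟩, hm.2⟩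
    have h2 : ∀ x y z w : ZMod 2, x + y = z → y = (w + x) + (w + z) := by decide
    exact h2 _ _ _ _ h1

theorem csph_chart {M A : Type} [TopologicalSpace M] [TopologicalSpace A] [SimplyConnectedSpace A]
    [LocallyPathConnectedSpace A] (φ : OpenPartialHomeomorph M A) (hφ : φ.target = Set.univ)
    {ι : Type} (U : ι → Set M)
    (hU : ∀ a, IsOpen (U a)) (hcov : ∀ m, ∃ a, m ∈ U a) (g : ι → ι → M → ZMod 2)
    (hg : ∀ a b, ∀ m ∈ U a ∩ U b, ∀ᶠ m' in 𝓝 m, g a b m' = g a b m)
    (hcoc : ∀ a b c, ∀ m ∈ U a ∩ U b ∩ U c, g a b m + g b c m = g a c m) :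
    ∃ h : ι → M → ZMod 2,
      (∀ a, ∀ m ∈ U a, m ∈ φ.source → ∀ᶠ m' in 𝓝 m, h a m' = h a m) ∧
      ∀ a b, ∀ m ∈ U a ∩ U b, m ∈ φ.source → g a b m = h a m + h b m := by
  have hc : Continuous φ.symm := by
    have h1 := φ.symm.continuousOn
    rw [OpenPartialHomeomorph.symm_source, hφ] at h1
    exact continuousOn_univ.1 h1
  obtain ⟨h, h1, h2⟩ := csph_sc (fun a => φ.symm ⁻¹' U a) (fun a => (hU a).preimage hc)
    (fun x => hcov _) (fun a b x => g a b (φ.symm x))
    (fun a b x hx => (hc.tendsto x).eventually (hg a b _ hx))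
    (fun a b c x hx => hcoc a b c _ hx)
  refine ⟨fun a m => h a (φ m), ?_, ?_⟩
  · intro a m hm hs
    have h3 : φ m ∈ φ.symm ⁻¹' U a := by
      show φ.symm (φ m) ∈ U a
      rw [φ.left_inv hs]
      exact hm
    exact (φ.continuousAt hs).tendsto.eventually (h1 a _ h3)
  · intro a b m hm hs
    have h3 : φ m ∈ φ.symm ⁻¹' U a ∩ φ.symm ⁻¹' U b := by
      constructor
      · show φ.symm (φ m) ∈ U a
        rw [φ.left_inv hs]
        exact hm.1
      · show φ.symm (φ m) ∈ U b
        rw [φ.left_inv hs]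
        exact hm.2
    have h4 := h2 a b _ h3
    rw [φ.left_inv hs] at h4
    exact h4

theorem csph_preconn (v : Metric.sphere (0 : E3) 1) (hv : -v ≠ v)
    [Fact (Module.finrank ℝ E3 = 2 + 1)] :
    IsPreconnected ({v}ᶜ ∩ {-v}ᶜ : Set (Metric.sphere (0 : E3) 1)) := by
  have hc : Continuous (stereographic' 2 v).symm := by
    have h1 := (stereographic' 2 v).symm.continuousOn
    rw [OpenPartialHomeomorph.symm_source, stereographic'_target] at h1
    exact continuousOn_univ.1 h1
  have hrank : 1 < Module.rank ℝ (EuclideanSpace ℝ (Fin 2)) := by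
    rw [← Module.finrank_eq_rank, finrank_euclideanSpace_fin]
    norm_num
  have h1 : IsPreconnected ({stereographic' 2 v (-v)}ᶜ : Set (EuclideanSpace ℝ (Fin 2))) :=
    (isConnected_compl_singleton_of_one_lt_rank hrank _).isPreconnected
  have h2 := h1.image _ hc.continuousOn
  have h3 : (stereographic' 2 v).symm '' {stereographic' 2 v (-v)}ᶜ =
      ({v}ᶜ ∩ {-v}ᶜ : Set (Metric.sphere (0 : E3) 1)) := by
    ext y
    constructor
    · rintro ⟨x, hx, rfl⟩
      have h4 : x ∈ (stereographic' 2 v).target := by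
        rw [stereographic'_target]
        exact Set.mem_univ _
      constructor
      · have h5 := (stereographic' 2 v).map_target h4
        rw [stereographic'_source] at h5
        exact h5
      · intro h5
        apply hx
        have h6 := (stereographic' 2 v).right_inv h4
        rw [Set.mem_singleton_iff] at h5 ⊢
        rw [← h6, h5]
    · rintro ⟨hy1, hy2⟩
      have h4 : y ∈ (stereographic' 2 v).source := by
        rw [stereographic'_source]
        exact hy1
      refine ⟨stereographic' 2 v y, ?_, (stereographic' 2 v).left_inv h4⟩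
      intro h5
      apply hy2
      have h6 : -v ∈ (stereographic' 2 v).source := by
        rw [stereographic'_source]
        exact hv
      exact (stereographic' 2 v).injOn h4 h6 h5
  rw [← h3]
  exact h2

theorem cech_sphere {M : Type} [TopologicalSpace M]
    (hS : Nonempty (M ≃ₜ Metric.sphere (0 : E3) 1)) {ι : Type} (U : ι → Set M)
    (hU : ∀ a, IsOpen (U a)) (hcov : ∀ m, ∃ a, m ∈ U a) (g : ι → ι → M → ZMod 2)
    (hg : ∀ a b, ∀ m ∈ U a ∩ U b, ∀ᶠ m' in 𝓝 m, g a b m' = g a b m)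
    (hcoc : ∀ a b c, ∀ m ∈ U a ∩ U b ∩ U c, g a b m + g b c m = g a c m) :
    ∃ h : ι → M → ZMod 2, (∀ a, ∀ m ∈ U a, ∀ᶠ m' in 𝓝 m, h a m' = h a m) ∧
      ∀ a b, ∀ m ∈ U a ∩ U b, g a b m = h a m + h b m := by
  classical
  obtain ⟨e⟩ := hS
  have : Fact (Module.finrank ℝ E3 = 2 + 1) := ⟨by rw [finrank_euclideanSpace_fin]⟩
  obtain ⟨v⟩ : Nonempty (Metric.sphere (0 : E3) 1) :=
    ⟨⟨EuclideanSpace.single 0 1, by simp⟩⟩
  have hv : -v ≠ v := by
    intro h
    have h1 : -(v : E3) = v := by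
      have := congrArg Subtype.val h
      exact this
    have h2 : (v : E3) = 0 := by
      have h3 : (2 : ℝ) • (v : E3) = 0 := by
        rw [two_smul]
        nth_rewrite 1 [← h1]
        exact neg_add_cancel _
      exact (smul_eq_zero.1 h3).resolve_left (by norm_num)
    have h3 : ‖(v : E3)‖ = 1 := norm_eq_of_mem_sphere v
    rw [h2, norm_zero] at h3
    exact zero_ne_one h3
  obtain ⟨φ1, hφ1⟩ : ∃ φ, φ = e.toOpenPartialHomeomorph.trans (stereographic' 2 v) := ⟨_, rfl⟩
  obtain ⟨φ2, hφ2⟩ : ∃ φ, φ = e.toOpenPartialHomeomorph.trans (stereographic' 2 (-v)) := ⟨_, rfl⟩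
  have ht1 : φ1.target = Set.univ := by
    rw [hφ1, OpenPartialHomeomorph.trans_target, stereographic'_target]
    simp
  have ht2 : φ2.target = Set.univ := by
    rw [hφ2, OpenPartialHomeomorph.trans_target, stereographic'_target]
    simp
  have hs1 : ∀ m, m ∈ φ1.source ↔ e m ≠ v := by
    intro m
    rw [hφ1, OpenPartialHomeomorph.trans_source, stereographic'_source]
    simp
  have hs2 : ∀ m, m ∈ φ2.source ↔ e m ≠ -v := by
    intro m
    rw [hφ2, OpenPartialHomeomorph.trans_source, stereographic'_source]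
    simp
  obtain ⟨H1, hH1, hH1'⟩ := csph_chart φ1 ht1 U hU hcov g hg hcoc
  obtain ⟨H2, hH2, hH2'⟩ := csph_chart φ2 ht2 U hU hcov g hg hcoc
  choose idx hidx using hcov
  have hindep : ∀ a b m, m ∈ U a → m ∈ U b → m ∈ φ1.source → m ∈ φ2.source →
      H1 a m + H2 a m = H1 b m + H2 b m := by
    intro a b m ha hb h1 h2
    have h3 := (hH1' a b m ⟨ha, hb⟩ h1).symm.trans (hH2' a b m ⟨ha, hb⟩ h2)
    have h4 : ∀ x y z w : ZMod 2, x + y = z + w → x + z = y + w := by decide
    exact h4 _ _ _ _ h3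
  have hW : IsPreconnected (φ1.source ∩ φ2.source) := by
    have h1 := (csph_preconn v hv).image e.symm e.symm.continuous.continuousOn
    have h2 : e.symm '' ({v}ᶜ ∩ {-v}ᶜ) = φ1.source ∩ φ2.source := by
      ext m
      rw [Set.mem_inter_iff, hs1, hs2]
      constructor
      · rintro ⟨y, ⟨hy1, hy2⟩, rfl⟩
        rw [e.apply_symm_apply]
        exact ⟨hy1, hy2⟩
      · rintro ⟨h3, h4⟩
        exact ⟨e m, ⟨h3, h4⟩, e.symm_apply_apply m⟩
    rw [← h2]
    exact h1
  have hD : ContinuousOn (fun m => H1 (idx m) m + H2 (idx m) m) (φ1.source ∩ φ2.source) := by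
    intro m hm
    apply ContinuousAt.continuousWithinAt
    have h1 := hH1 (idx m) m (hidx m) hm.1
    have h2 := hH2 (idx m) m (hidx m) hm.2
    have h3 : ∀ᶠ m' in 𝓝 m, H1 (idx m') m' + H2 (idx m') m' = H1 (idx m) m + H2 (idx m) m := by
      filter_upwards [h1, h2, (hU (idx m)).mem_nhds (hidx m), φ1.open_source.mem_nhds hm.1,
        φ2.open_source.mem_nhds hm.2] with m' e1 e2 e3 e4 e5
      rw [hindep (idx m') (idx m) m' (hidx m') e3 e4 e5, e1, e2]
    exact tendsto_const_nhds.congr' (by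
      filter_upwards [h3] with m' e1
      exact e1.symm)
  obtain ⟨d, hd⟩ : ∃ d : ZMod 2, ∀ a m, m ∈ U a → m ∈ φ1.source → m ∈ φ2.source →
      H1 a m = H2 a m + d := by
    by_cases hne : (φ1.source ∩ φ2.source).Nonempty
    · obtain ⟨m0, hm0⟩ := hne
      refine ⟨H1 (idx m0) m0 + H2 (idx m0) m0, fun a m ha h1 h2 => ?_⟩
      have h3 := hW.constant hD hm0 ⟨h1, h2⟩
      rw [h3, ← hindep a (idx m) m ha (hidx m) h1 h2]
      have h4 : ∀ x y : ZMod 2, x = y + (x + y) := by decide
      exact h4 _ _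
    · exact ⟨0, fun a m _ h1 h2 => absurd ⟨m, h1, h2⟩ hne⟩
  have hcover : ∀ m, m ∉ φ1.source → m ∈ φ2.source := by
    intro m hm
    rw [hs1, not_not] at hm
    rw [hs2, hm]
    exact hv.symm
  obtain ⟨h, hh⟩ : ∃ h : ι → M → ZMod 2, ∀ a m, h a m =
      if m ∈ φ1.source then H1 a m else H2 a m + d := ⟨_, fun _ _ => rfl⟩
  have hh1 : ∀ a m, m ∈ φ1.source → h a m = H1 a m := by
    intro a m hm
    rw [hh, if_pos hm]
  have hh2 : ∀ a m, m ∈ U a → m ∈ φ2.source → h a m = H2 a m + d := by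
    intro a m ha hm
    rw [hh]
    by_cases h1 : m ∈ φ1.source
    · rw [if_pos h1]
      exact hd a m ha h1 hm
    · rw [if_neg h1]
  refine ⟨h, ?_, ?_⟩
  · intro a m ha
    by_cases h1 : m ∈ φ1.source
    · filter_upwards [hH1 a m ha h1, φ1.open_source.mem_nhds h1] with m' e1 e2
      rw [hh1 a m' e2, hh1 a m h1, e1]
    · have h2 := hcover m h1
      filter_upwards [hH2 a m ha h2, φ2.open_source.mem_nhds h2, (hU a).mem_nhds ha]
        with m' e1 e2 e3
      rw [hh2 a m' e3 e2, hh2 a m ha h2, e1]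
  · intro a b m hm
    by_cases h1 : m ∈ φ1.source
    · rw [hh1 a m h1, hh1 b m h1]
      exact hH1' a b m hm h1
    · have h2 := hcover m h1
      rw [hh2 a m hm.1 h2, hh2 b m hm.2 h2, hH2' a b m hm h2]
      have h4 : ∀ x y z : ZMod 2, x + y = x + z + (y + z) := by decide
      exact h4 _ _ _


/-! helper lemmas for `dual_coboundary` (names begin with `jb_`) -/

def jb_v (M : Surf) (y : M.X) (k : ZMod 5) : M.Space := M.pt y ⟨pv k, pv_mem k⟩

def jb_St (M : Surf) (v : M.Space) (p : Σ _ : M.X, P) : Prop :=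
  ∃ k, jb_v M p.1 k = v ∧ ∀ j, j ≠ k → j + 1 ≠ k → 0 < lam j (p.2 : ℂ)

open Classical in
def jb_al (M : Surf) (a : M.X × ZMod 5 → ZMod 2) (v : M.Space) (y : M.X) : ZMod 2 :=
  if h : ∃ k, jb_v M y k = v then a (y, h.choose) else 0

theorem jb_v_inj (M : Surf) (hreg : ∀ x (t t' : P), M.pt x t = M.pt x t' → t = t') (y : M.X)
    {k k' : ZMod 5} (h : jb_v M y k = jb_v M y k') : k = k' := by
  have h1 := hreg y _ _ h
  exact pv_inj (congrArg Subtype.val h1)

theorem jb_al_eq (M : Surf) (hreg : ∀ x (t t' : P), M.pt x t = M.pt x t' → t = t')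
    (a : M.X × ZMod 5 → ZMod 2) (v : M.Space) (y : M.X) (k : ZMod 5) (h : jb_v M y k = v) :
    jb_al M a v y = a (y, k) := by
  have hex : ∃ k, jb_v M y k = v := ⟨k, h⟩
  have hc := hex.choose_spec
  have : hex.choose = k := jb_v_inj M hreg y (hc.trans h.symm)
  rw [jb_al, dif_pos hex, this]

theorem jb_edge0 (i : ZMod 5) : edgePt i 0 = pv i := by
  simp [edgePt]

theorem jb_edge1 (i : ZMod 5) : edgePt i 1 = pv (i + 1) := by
  simp [edgePt]

/-- glueing of the ends -/
theorem jb_glue_end (M : Surf) (y : M.X) (i : ZMod 5) (s : ℝ) (h0 : 0 ≤ s) (h1 : s ≤ 1)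
    (t t' : P) (ht : (t : ℂ) = edgePt i s)
    (ht' : (t' : ℂ) = edgePt (M.g (y, i)).2 (if M.flip (y, i) then 1 - s else s)) :
    M.pt y t = M.pt (M.g (y, i)).1 t' :=
  Quot.sound ⟨i, s, h0, h1, ht, rfl, ht'⟩

theorem jb_v_start (M : Surf) (y : M.X) (i : ZMod 5) :
    jb_v M (M.g (y, i)).1 (if M.flip (y, i) then (M.g (y, i)).2 + 1 else (M.g (y, i)).2) =
      jb_v M y i := by
  symm
  apply jb_glue_end M y i 0 le_rfl zero_le_one
  · exact (jb_edge0 i).symm
  · by_cases hf : M.flip (y, i) = true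
    · simp only [hf, if_true, sub_zero]
      exact (jb_edge1 _).symm
    · simp only [hf, if_false, Bool.false_eq_true]
      exact (jb_edge0 _).symm

theorem jb_v_end (M : Surf) (y : M.X) (i : ZMod 5) :
    jb_v M (M.g (y, i)).1 (if M.flip (y, i) then (M.g (y, i)).2 else (M.g (y, i)).2 + 1) =
      jb_v M y (i + 1) := by
  symm
  apply jb_glue_end M y i 1 zero_le_one le_rfl
  · exact (jb_edge1 i).symm
  · by_cases hf : M.flip (y, i) = true
    · simp only [hf, if_true, sub_self]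
      exact (jb_edge0 _).symm
    · simp only [hf, if_false, Bool.false_eq_true]
      exact (jb_edge1 _).symm

theorem jb_lam_edge (j i : ZMod 5) (s : ℝ) :
    lam j (edgePt i s) = (1 - s) * lam j (pv i) + s * lam j (pv (i + 1)) :=
  lam_comb j _ _ s

/-- positivity near the vertex `i` on the edge `i` -/
theorem jb_pos0 (j i : ZMod 5) (s : ℝ) (h0 : 0 ≤ s) (h1 : s < 1) (hj : j ≠ i)
    (hj' : j + 1 ≠ i) : 0 < lam j (edgePt i s) := by
  rw [jb_lam_edge]
  have h2 := lam_pv_pos j i (Ne.symm hj) (Ne.symm hj')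
  have h3 := lam_nonneg j (pv (i + 1)) (pv_mem _)
  have h4 : 0 < (1 - s) * lam j (pv i) := mul_pos (by linarith) h2
  have h5 : 0 ≤ s * lam j (pv (i + 1)) := mul_nonneg h0 h3
  linarith

/-- positivity near the vertex `i + 1` on the edge `i` -/
theorem jb_pos1 (j i : ZMod 5) (s : ℝ) (h0 : 0 < s) (h1 : s ≤ 1) (hj : j ≠ i + 1)
    (hj' : j + 1 ≠ i + 1) : 0 < lam j (edgePt i s) := by
  rw [jb_lam_edge]
  have h2 := lam_pv_pos j (i + 1) (Ne.symm hj) (Ne.symm hj')
  have h3 := lam_nonneg j (pv i) (pv_mem _)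
  have h4 : 0 < s * lam j (pv (i + 1)) := mul_pos h0 h2
  have h5 : 0 ≤ (1 - s) * lam j (pv i) := mul_nonneg (by linarith) h3
  linarith

theorem jb_z5a (k : ZMod 5) : k + 1 ≠ k ∧ k + 1 + 1 ≠ k := by
  revert k; decide

theorem jb_z5b (i : ZMod 5) : i - 1 ≠ i + 1 ∧ i - 1 + 1 ≠ i + 1 ∧ i - 1 ≠ i := by
  revert i; decide

/-- crossing an edge -/
theorem jb_cross (M : Surf) (hreg : ∀ x (t t' : P), M.pt x t = M.pt x t' → t = t')
    (c a : M.X × ZMod 5 → ZMod 2)
    (ha : ∀ x i, if M.flip (x, i) then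
        a ((M.g (x, i)).1, (M.g (x, i)).2 + 1) = a (x, i) + c (x, i) ∧
        a ((M.g (x, i)).1, (M.g (x, i)).2) = a (x, i + 1) + c (x, i)
      else
        a ((M.g (x, i)).1, (M.g (x, i)).2) = a (x, i) + c (x, i) ∧
        a ((M.g (x, i)).1, (M.g (x, i)).2 + 1) = a (x, i + 1) + c (x, i))
    (v : M.Space) (y : M.X) (t t' : P) (i : ZMod 5) (s : ℝ) (h0 : 0 ≤ s) (h1 : s ≤ 1)
    (ht : (t : ℂ) = edgePt i s)
    (ht' : (t' : ℂ) = edgePt (M.g (y, i)).2 (if M.flip (y, i) then 1 - s else s))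
    (hst : jb_St M v ⟨y, t⟩) :
    jb_St M v ⟨(M.g (y, i)).1, t'⟩ ∧ jb_al M a v (M.g (y, i)).1 = jb_al M a v y + c (y, i) := by
  obtain ⟨k, hk, hpos⟩ := hst
  have hlam0 : lam i (t : ℂ) = 0 := by
    rw [ht, jb_lam_edge, (lam_pv i).1, (lam_pv i).2]; ring
  have hik : i = k ∨ i + 1 = k := by
    by_contra hcon
    push Not at hcon
    have := hpos i hcon.1 hcon.2
    simp only at this
    rw [hlam0] at this
    exact lt_irrefl _ this
  have hai := ha y i
  rcases hik with rfl | hik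
  · -- the vertex is the start
    have hs1 : s < 1 := by
      rcases lt_or_eq_of_le h1 with h | h
      · exact h
      · exfalso
        have := hpos (i + 1) (jb_z5a i).1 (jb_z5a i).2
        simp only at this
        rw [ht, h, jb_edge1, (lam_pv (i + 1)).1] at this
        exact lt_irrefl _ this
    have hv : jb_v M (M.g (y, i)).1
        (if M.flip (y, i) then (M.g (y, i)).2 + 1 else (M.g (y, i)).2) = v :=
      (jb_v_start M y i).trans hk
    constructor
    · refine ⟨_, hv, ?_⟩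
      intro j hj hj'
      simp only
      rw [ht']
      by_cases hf : M.flip (y, i) = true
      · simp only [hf, if_true] at hj hj' ⊢
        exact jb_pos1 j _ (1 - s) (by linarith) (by linarith) hj hj'
      · simp only [hf, if_false, Bool.false_eq_true] at hj hj' ⊢
        exact jb_pos0 j _ s h0 hs1 hj hj'
    · rw [jb_al_eq M hreg a v _ _ hv, jb_al_eq M hreg a v y i hk]
      by_cases hf : M.flip (y, i) = true
      · simp only [hf, if_true] at hai ⊢
        exact hai.1
      · simp only [hf, if_false, Bool.false_eq_true] at hai ⊢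
        exact hai.1
  · subst hik
    have hs0 : 0 < s := by
      rcases lt_or_eq_of_le h0 with h | h
      · exact h
      · exfalso
        have hz := jb_z5b i
        have := hpos (i - 1) hz.1 hz.2.1
        simp only at this
        rw [ht, ← h, jb_edge0] at this
        have h2 := (lam_pv (i - 1)).2
        rw [sub_add_cancel] at h2
        rw [h2] at this
        exact lt_irrefl _ this
    have hv : jb_v M (M.g (y, i)).1
        (if M.flip (y, i) then (M.g (y, i)).2 else (M.g (y, i)).2 + 1) = v :=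
      (jb_v_end M y i).trans hk
    constructor
    · refine ⟨_, hv, ?_⟩
      intro j hj hj'
      simp only
      rw [ht']
      by_cases hf : M.flip (y, i) = true
      · simp only [hf, if_true] at hj hj' ⊢
        exact jb_pos0 j _ (1 - s) (by linarith) (by linarith) hj hj'
      · simp only [hf, if_false, Bool.false_eq_true] at hj hj' ⊢
        exact jb_pos1 j _ s hs0 h1 hj hj'
    · rw [jb_al_eq M hreg a v _ _ hv, jb_al_eq M hreg a v y (i + 1) hk]
      by_cases hf : M.flip (y, i) = true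
      · simp only [hf, if_true] at hai ⊢
        exact hai.2
      · simp only [hf, if_false, Bool.false_eq_true] at hai ⊢
        exact hai.2

theorem jb_glue_symm (M : Surf) (p q : Σ _ : M.X, P) (h : M.Glue p q) : M.Glue q p := by
  obtain ⟨x, t⟩ := p
  obtain ⟨x', t'⟩ := q
  obtain ⟨i, s, h0, h1, ht, hx, ht'⟩ := h
  simp only at ht hx ht'
  subst hx
  have hgg := M.g_g (x, i)
  have hfg := M.flip_g (x, i)
  refine ⟨(M.g (x, i)).2, if M.flip (x, i) then 1 - s else s, ?_, ?_, ht', ?_, ?_⟩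
  · split_ifs <;> linarith
  · split_ifs <;> linarith
  · simp only [Prod.mk.eta, hgg]
  · simp only [Prod.mk.eta, hgg, hfg]
    rw [ht]
    by_cases hf : M.flip (x, i) = true
    · simp [hf]
    · simp [hf]

theorem jb_St_glue (M : Surf) (hreg : ∀ x (t t' : P), M.pt x t = M.pt x t' → t = t')
    (c a : M.X × ZMod 5 → ZMod 2)
    (ha : ∀ x i, if M.flip (x, i) then
        a ((M.g (x, i)).1, (M.g (x, i)).2 + 1) = a (x, i) + c (x, i) ∧
        a ((M.g (x, i)).1, (M.g (x, i)).2) = a (x, i + 1) + c (x, i)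
      else
        a ((M.g (x, i)).1, (M.g (x, i)).2) = a (x, i) + c (x, i) ∧
        a ((M.g (x, i)).1, (M.g (x, i)).2 + 1) = a (x, i + 1) + c (x, i))
    (v : M.Space) (p q : Σ _ : M.X, P) (h : M.Glue p q) : jb_St M v p → jb_St M v q := by
  obtain ⟨x, t⟩ := p
  obtain ⟨x', t'⟩ := q
  obtain ⟨i, s, h0, h1, ht, hx, ht'⟩ := h
  simp only at ht hx ht'
  subst hx
  intro hst
  exact (jb_cross M hreg c a ha v x t t' i s h0 h1 ht ht' hst).1

theorem jb_al_glue (M : Surf) (hreg : ∀ x (t t' : P), M.pt x t = M.pt x t' → t = t')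
    (c a : M.X × ZMod 5 → ZMod 2)
    (ha : ∀ x i, if M.flip (x, i) then
        a ((M.g (x, i)).1, (M.g (x, i)).2 + 1) = a (x, i) + c (x, i) ∧
        a ((M.g (x, i)).1, (M.g (x, i)).2) = a (x, i + 1) + c (x, i)
      else
        a ((M.g (x, i)).1, (M.g (x, i)).2) = a (x, i) + c (x, i) ∧
        a ((M.g (x, i)).1, (M.g (x, i)).2 + 1) = a (x, i + 1) + c (x, i))
    (v v' : M.Space) (p q : Σ _ : M.X, P) (h : M.Glue p q) (h1 : jb_St M v p)
    (h2 : jb_St M v' p) :
    jb_al M a v p.1 + jb_al M a v' p.1 = jb_al M a v q.1 + jb_al M a v' q.1 := by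
  obtain ⟨x, t⟩ := p
  obtain ⟨x', t'⟩ := q
  obtain ⟨i, s, hs0, hs1, ht, hx, ht'⟩ := h
  simp only at ht hx ht'
  subst hx
  have e1 := (jb_cross M hreg c a ha v x t t' i s hs0 hs1 ht ht' h1).2
  have e2 := (jb_cross M hreg c a ha v' x t t' i s hs0 hs1 ht ht' h2).2
  simp only
  rw [e1, e2]
  generalize jb_al M a v x = A
  generalize jb_al M a v' x = B
  generalize c (x, i) = C
  revert A B C
  decide

theorem jb_cover (t : ℂ) (ht : t ∈ P) : ∃ k : ZMod 5, ∀ j, j ≠ k → j + 1 ≠ k → 0 < lam j t := by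
  by_cases hz : ∃ i, lam i t = 0
  · obtain ⟨i, hi⟩ := hz
    obtain ⟨s, hs0, hs1, hs⟩ := (lam_zero_iff i t ht).1 hi
    by_cases hi1 : lam (i + 1) t = 0
    · refine ⟨i + 1, fun j hj hj' => ?_⟩
      rcases lt_or_eq_of_le (lam_nonneg j t ht) with h | h
      · exact h
      · exfalso
        obtain ⟨r, hr0, hr1, hr⟩ := (lam_zero_iff j t ht).1 h.symm
        obtain ⟨u, hu0, hu1, hu⟩ := (lam_zero_iff (i + 1) t ht).1 hi1
        have hij : i ≠ j := by
          rintro rfl
          exact hj' rfl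
        have h1 := edgePt_two i j s r hs0 hs1 hr0 hr1 hij (hs.symm.trans hr)
        have h2 := edgePt_two i (i + 1) s u hs0 hs1 hu0 hu1 (jb_z5a i).1.symm (hs.symm.trans hu)
        rcases h1 with h1 | h1
        · exact hj h1.1
        · rcases h2 with h2 | h2
          · have := h1.2.1.symm.trans h2.2.1
            norm_num at this
          · exact (jb_z5b i).1 h2.1.symm
    · refine ⟨i, fun j hj hj' => ?_⟩
      rcases lt_or_eq_of_le (lam_nonneg j t ht) with h | h
      · exact h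
      · exfalso
        obtain ⟨r, hr0, hr1, hr⟩ := (lam_zero_iff j t ht).1 h.symm
        have h1 := edgePt_two i j s r hs0 hs1 hr0 hr1 (Ne.symm hj) (hs.symm.trans hr)
        rcases h1 with h1 | h1
        · apply hi1
          rw [← h1.1]
          exact h.symm
        · apply hj'
          rw [h1.1]
          ring
  · push Not at hz
    exact ⟨0, fun j _ _ => lt_of_le_of_ne (lam_nonneg j t ht) (Ne.symm (hz j))⟩

theorem jb_St_open (M : Surf) (v : M.Space) : IsOpen {p : Σ _ : M.X, P | jb_St M v p} := by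
  rw [isOpen_sigma_iff]
  intro y
  have : (Sigma.mk y ⁻¹' {p : Σ _ : M.X, P | jb_St M v p}) =
      ⋃ k ∈ {k : ZMod 5 | jb_v M y k = v}, {t : P | ∀ j, j ≠ k → j + 1 ≠ k → 0 < lam j (t : ℂ)} := by
    ext t
    simp only [Set.mem_preimage, Set.mem_setOf_eq, Set.mem_iUnion, jb_St, exists_prop]
  rw [this]
  refine isOpen_biUnion fun k _ => ?_
  have h2 : {t : P | ∀ j, j ≠ k → j + 1 ≠ k → 0 < lam j (t : ℂ)} =
      ⋂ j : ZMod 5, {t : P | j ≠ k → j + 1 ≠ k → 0 < lam j (t : ℂ)} := by
    ext t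
    simp
  rw [h2]
  refine isOpen_iInter_of_finite fun j => ?_
  by_cases hj : j ≠ k
  · by_cases hj' : j + 1 ≠ k
    · have h3 : {t : P | j ≠ k → j + 1 ≠ k → 0 < lam j (t : ℂ)} = {t : P | 0 < lam j (t : ℂ)} := by
        ext t; simp [hj, hj']
      rw [h3]
      exact isOpen_lt continuous_const ((lam_cont j).comp continuous_subtype_val)
    · have h3 : {t : P | j ≠ k → j + 1 ≠ k → 0 < lam j (t : ℂ)} = Set.univ := by
        ext t; simp [hj']
      rw [h3]; exact isOpen_univ
  · have h3 : {t : P | j ≠ k → j + 1 ≠ k → 0 < lam j (t : ℂ)} = Set.univ := by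
      ext t; simp [hj]
    rw [h3]; exact isOpen_univ

/-- a path inside a star -/
theorem jb_path (M : Surf) (v : M.Space) (U : Set M.Space) (hh : M.Space → ZMod 2)
    (hloc : ∀ m ∈ U, ∀ᶠ m' in 𝓝 m, hh m' = hh m)
    (hU : ∀ p : Σ _ : M.X, P, jb_St M v p → M.pt p.1 p.2 ∈ U)
    (y : M.X) (k : ZMod 5) (hk : jb_v M y k = v) (w : ℂ) (hw : w ∈ P)
    (hpos : ∀ j, j ≠ k → j + 1 ≠ k → 0 < lam j w) :
    hh (M.pt y ⟨0, zero_mem_P⟩) = hh (M.pt y ⟨w, hw⟩) := by
  have hconv : Convex ℝ P := convex_convexHull ℝ _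
  have hmem : ∀ s : unitInterval, (1 - (s : ℝ)) • (0 : ℂ) + (s : ℝ) • w ∈ P := fun s =>
    hconv zero_mem_P hw (by linarith [s.2.2]) s.2.1 (by ring)
  let γ : unitInterval → M.Space := fun s => M.pt y ⟨_, hmem s⟩
  have hγc : Continuous γ := by
    have h1 : Continuous fun s : unitInterval =>
        (⟨(1 - (s : ℝ)) • (0 : ℂ) + (s : ℝ) • w, hmem s⟩ : P) :=
      Continuous.subtype_mk (by fun_prop) _
    have h2 : Continuous fun t : P => (⟨y, t⟩ : Σ _ : M.X, P) :=
      @continuous_sigmaMk M.X (fun _ => P) _ y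
    exact continuous_quot_mk.comp (h2.comp h1)
  have hγU : ∀ s, γ s ∈ U := by
    intro s
    apply hU ⟨y, ⟨_, hmem s⟩⟩
    refine ⟨k, hk, fun j hj hj' => ?_⟩
    simp only
    rw [lam_comb]
    have h0 := lam_zero_pos j
    have h1 := hpos j hj hj'
    have hs0 := s.2.1
    have hs1 := s.2.2
    rcases eq_or_lt_of_le hs0 with h | h
    · rw [← h]; simpa using h0
    · have : 0 < (s : ℝ) * lam j w := mul_pos h h1
      have : 0 ≤ (1 - (s : ℝ)) * lam j 0 := mul_nonneg (by linarith) h0.le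
      linarith
  have hlc : IsLocallyConstant fun s => hh (γ s) := by
    rw [IsLocallyConstant.iff_eventually_eq]
    intro s
    exact hγc.continuousAt.eventually (hloc (γ s) (hγU s))
  have := hlc.apply_eq_of_preconnectedSpace 0 1
  have e0 : γ 0 = M.pt y ⟨0, zero_mem_P⟩ := by
    simp only [γ]
    congr 1
    apply Subtype.ext
    simp
  have e1 : γ 1 = M.pt y ⟨w, hw⟩ := by
    simp only [γ]
    congr 1
    apply Subtype.ext
    simp
  rw [← e0, ← e1]
  exact this

theorem jb_z2 (A B C : ZMod 2) : A + B + (B + C) = A + C := by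
  revert A B C; decide

theorem jb_z2b (A B C D : ZMod 2) (h : A + B = C + D) : A + C = B + D := by
  revert A B C D; decide

/-- a labelling of the edges that is locally a coboundary around each vertex is a coboundary -/
theorem dual_coboundary (M : Surf) (hS : Nonempty (M.Space ≃ₜ Metric.sphere (0 : E3) 1))
    (hreg : ∀ x (t t' : P), M.pt x t = M.pt x t' → t = t')
    (c a : M.X × ZMod 5 → ZMod 2) (hc : ∀ e, c (M.g e) = c e)
    (ha : ∀ x i, if M.flip (x, i) then
        a ((M.g (x, i)).1, (M.g (x, i)).2 + 1) = a (x, i) + c (x, i) ∧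
        a ((M.g (x, i)).1, (M.g (x, i)).2) = a (x, i + 1) + c (x, i)
      else
        a ((M.g (x, i)).1, (M.g (x, i)).2) = a (x, i) + c (x, i) ∧
        a ((M.g (x, i)).1, (M.g (x, i)).2 + 1) = a (x, i + 1) + c (x, i)) :
    ∃ F : M.X → ZMod 2, ∀ e, c e = F e.1 + F (M.g e).1 := by
  classical
  -- the stars
  have hStiff : ∀ (v : M.Space) (p q : Σ _ : M.X, P), M.Glue p q → jb_St M v p = jb_St M v q :=
    fun v p q h => propext ⟨jb_St_glue M hreg c a ha v p q h,
      jb_St_glue M hreg c a ha v q p (jb_glue_symm M p q h)⟩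
  let U : M.Space → Set M.Space := fun v => {m | Quot.lift (jb_St M v) (hStiff v) m}
  have hUmk : ∀ (v : M.Space) (p : Σ _ : M.X, P), (Quot.mk _ p : M.Space) ∈ U v ↔ jb_St M v p :=
    fun v p => Iff.rfl
  have hUopen : ∀ v, IsOpen (U v) := by
    intro v
    have h1 : IsOpen ((Quot.mk M.Glue) ⁻¹' (U v)) := jb_St_open M v
    exact isOpen_coinduced.2 h1
  have hcov : ∀ m : M.Space, ∃ v, m ∈ U v := by
    intro m
    induction m using Quot.ind with
    | mk p =>
      obtain ⟨y, t⟩ := p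
      obtain ⟨k, hk⟩ := jb_cover (t : ℂ) t.2
      exact ⟨jb_v M y k, (hUmk _ _).2 ⟨k, rfl, hk⟩⟩
  -- the cocycle
  let G : M.Space → M.Space → (Σ _ : M.X, P) → ZMod 2 := fun v v' p =>
    if jb_St M v p ∧ jb_St M v' p then jb_al M a v p.1 + jb_al M a v' p.1 else 0
  have hG : ∀ v v' p q, M.Glue p q → G v v' p = G v v' q := by
    intro v v' p q h
    simp only [G, ← hStiff v p q h, ← hStiff v' p q h]
    by_cases hh : jb_St M v p ∧ jb_St M v' p
    · rw [if_pos hh, if_pos hh]
      exact jb_al_glue M hreg c a ha v v' p q h hh.1 hh.2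
    · rw [if_neg hh, if_neg hh]
  let g : M.Space → M.Space → M.Space → ZMod 2 := fun v v' => Quot.lift (G v v') (hG v v')
  have hgmk : ∀ v v' (p : Σ _ : M.X, P), jb_St M v p → jb_St M v' p →
      g v v' (Quot.mk _ p) = jb_al M a v p.1 + jb_al M a v' p.1 := by
    intro v v' p h1 h2
    change G v v' p = _
    simp only [G]
    rw [if_pos ⟨h1, h2⟩]
  have hgloc : ∀ v v', ∀ m ∈ U v ∩ U v', ∀ᶠ m' in 𝓝 m, g v v' m' = g v v' m := by
    intro v v' m hm
    induction m using Quot.ind with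
    | mk p =>
      have hp1 : jb_St M v p := hm.1
      have hp2 : jb_St M v' p := hm.2
      let V : Set M.Space := {m' | m' ∈ U v ∧ m' ∈ U v' ∧ g v v' m' = g v v' (Quot.mk _ p)}
      have hVo : IsOpen V := by
        have h1 : IsOpen ((Quot.mk M.Glue) ⁻¹' V) := by
          have h2 : (Quot.mk M.Glue) ⁻¹' V =
              ({q | jb_St M v q} ∩ {q | jb_St M v' q}) ∩
              {q : Σ _ : M.X, P | jb_al M a v q.1 + jb_al M a v' q.1 =
                g v v' (Quot.mk _ p)} := by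
            ext q
            simp only [Set.mem_preimage, Set.mem_inter_iff, Set.mem_setOf_eq, V]
            constructor
            · rintro ⟨h3, h4, h5⟩
              have h3' : jb_St M v q := h3
              have h4' : jb_St M v' q := h4
              refine ⟨⟨h3', h4'⟩, ?_⟩
              rw [← h5]
              exact (hgmk v v' q h3' h4').symm
            · rintro ⟨⟨h3, h4⟩, h5⟩
              refine ⟨h3, h4, ?_⟩
              rw [← h5]
              exact hgmk v v' q h3 h4
          rw [h2]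
          refine ((jb_St_open M v).inter (jb_St_open M v')).inter ?_
          rw [isOpen_sigma_iff]
          intro y
          by_cases hy : jb_al M a v y + jb_al M a v' y = g v v' (Quot.mk _ p)
          · have : (Sigma.mk y ⁻¹' {q : Σ _ : M.X, P | jb_al M a v q.1 + jb_al M a v' q.1 =
                g v v' (Quot.mk _ p)}) = Set.univ := by
              ext t; simpa using hy
            rw [this]; exact isOpen_univ
          · have : (Sigma.mk y ⁻¹' {q : Σ _ : M.X, P | jb_al M a v q.1 + jb_al M a v' q.1 =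
                g v v' (Quot.mk _ p)}) = ∅ := by
              ext t; simpa using hy
            rw [this]; exact isOpen_empty
        exact isOpen_coinduced.2 h1
      have hmem : (Quot.mk _ p : M.Space) ∈ V := ⟨hm.1, hm.2, rfl⟩
      filter_upwards [hVo.mem_nhds hmem] with m' hm'
      exact hm'.2.2
  have hcoc : ∀ v v' v'', ∀ m ∈ U v ∩ U v' ∩ U v'', g v v' m + g v' v'' m = g v v'' m := by
    intro v v' v'' m hm
    induction m using Quot.ind with
    | mk p =>
      have h1 : jb_St M v p := hm.1.1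
      have h2 : jb_St M v' p := hm.1.2
      have h3 : jb_St M v'' p := hm.2
      rw [hgmk v v' p h1 h2, hgmk v' v'' p h2 h3, hgmk v v'' p h1 h3]
      exact jb_z2 _ _ _
  obtain ⟨h, hloc, hgh⟩ := cech_sphere hS U hUopen hcov g hgloc hcoc
  have hStc : ∀ y k, jb_St M (jb_v M y k) ⟨y, ⟨0, zero_mem_P⟩⟩ := fun y k =>
    ⟨k, rfl, fun j _ _ => lam_zero_pos j⟩
  have hind : ∀ y k, a (y, 0) + h (jb_v M y 0) (M.pt y ⟨0, zero_mem_P⟩) =
      a (y, k) + h (jb_v M y k) (M.pt y ⟨0, zero_mem_P⟩) := by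
    intro y k
    have h1 := hgh (jb_v M y 0) (jb_v M y k) (M.pt y ⟨0, zero_mem_P⟩)
      ⟨hStc y 0, hStc y k⟩
    have h2 := hgmk (jb_v M y 0) (jb_v M y k) ⟨y, ⟨0, zero_mem_P⟩⟩ (hStc y 0) (hStc y k)
    rw [jb_al_eq M hreg a _ y 0 rfl, jb_al_eq M hreg a _ y k rfl] at h2
    have h3 : a (y, 0) + a (y, k) = h (jb_v M y 0) (M.pt y ⟨0, zero_mem_P⟩) +
        h (jb_v M y k) (M.pt y ⟨0, zero_mem_P⟩) := h2.symm.trans h1
    exact jb_z2b _ _ _ _ h3
  refine ⟨fun y => a (y, 0) + h (jb_v M y 0) (M.pt y ⟨0, zero_mem_P⟩), ?_⟩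
  rintro ⟨y, i⟩
  simp only
  set y' := (M.g (y, i)).1 with hy'
  set i' := (M.g (y, i)).2 with hi'
  let k' : ZMod 5 := if M.flip (y, i) then i' + 1 else i'
  have hv : jb_v M y' k' = jb_v M y i := jb_v_start M y i
  rw [hind y i, hind y' k', hv]
  have hak : a (y', k') = a (y, i) + c (y, i) := by
    have hai := ha y i
    by_cases hf : M.flip (y, i) = true
    · simp only [hf, if_true, k'] at hai ⊢
      exact hai.1
    · simp only [hf, if_false, Bool.false_eq_true, k'] at hai ⊢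
      exact hai.1
  have hUU : ∀ p : Σ _ : M.X, P, jb_St M (jb_v M y i) p → M.pt p.1 p.2 ∈ U (jb_v M y i) :=
    fun p hp => hp
  have p1 := jb_path M (jb_v M y i) (U (jb_v M y i)) (h (jb_v M y i)) (hloc (jb_v M y i)) hUU
    y i rfl (edgePt i (1 / 2)) (edgePt_mem i (1 / 2) (by norm_num) (by norm_num))
    (fun j hj hj' => jb_pos0 j i (1 / 2) (by norm_num) (by norm_num) hj hj')
  have p2 := jb_path M (jb_v M y i) (U (jb_v M y i)) (h (jb_v M y i)) (hloc (jb_v M y i)) hUU
    y' k' hv (edgePt i' (1 / 2)) (edgePt_mem i' (1 / 2) (by norm_num) (by norm_num))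
    (fun j hj hj' => by
      by_cases hf : M.flip (y, i) = true
      · simp only [hf, if_true, k'] at hj hj'
        exact jb_pos1 j i' (1 / 2) (by norm_num) (by norm_num) hj hj'
      · simp only [hf, if_false, Bool.false_eq_true, k'] at hj hj'
        exact jb_pos0 j i' (1 / 2) (by norm_num) (by norm_num) hj hj')
  have p3 : M.pt y ⟨edgePt i (1 / 2), edgePt_mem i (1 / 2) (by norm_num) (by norm_num)⟩ =
      M.pt y' ⟨edgePt i' (1 / 2), edgePt_mem i' (1 / 2) (by norm_num) (by norm_num)⟩ := by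
    apply jb_glue_end M y i (1 / 2) (by norm_num) (by norm_num) _ _ rfl
    by_cases hf : M.flip (y, i) = true
    · simp only [hf, if_true]
      norm_num
      rfl
    · simp only [hf, if_false, Bool.false_eq_true]
      rfl
  rw [hak, p1, p2, p3]
  generalize h (jb_v M y i) _ = A
  generalize a (y, i) = B
  generalize c (y, i) = C
  revert A B C
  decide

theorem j8051_conj {F : Type} (α β : Equiv.Perm F) (hα : ∀ f, α (α f) = f)
    (hβ : ∀ f, β (β f) = f) (n : ℤ) (f : F) :
    α (((α * β) ^ n) f) = ((α * β) ^ (-n)) (α f) := by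
  have ha : α⁻¹ = α := by
    ext f
    rw [Equiv.Perm.inv_eq_iff_eq, hα]
  have hb : β⁻¹ = β := by
    ext f
    rw [Equiv.Perm.inv_eq_iff_eq, hβ]
  have h1 : α * (α * β) ^ n * α⁻¹ = (α * β) ^ (-n) := by
    rw [← conj_zpow]
    have : α * (α * β) * α⁻¹ = (α * β)⁻¹ := by
      rw [mul_inv_rev, hb, ha]
      ext f
      simp only [Equiv.Perm.mul_apply, hα]
    rw [this, inv_zpow, zpow_neg]
  have h2 : ((α * β) ^ (-n)) (α f) = (α * (α * β) ^ n * α⁻¹) (α f) := by rw [h1]
  rw [h2]
  simp only [Equiv.Perm.mul_apply]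
  rw [ha, hα]

theorem j8051_not {F : Type} (α β : Equiv.Perm F) (hα : ∀ f, α (α f) = f)
    (hβ : ∀ f, β (β f) = f) (hαn : ∀ f, α f ≠ f) (hβn : ∀ f, β f ≠ f) (f : F) :
    ¬ (α * β).SameCycle f (α f) := by
  rintro ⟨n, hn⟩
  rcases Int.even_or_odd' n with ⟨m, rfl | rfl⟩
  · have h1 : ((α * β) ^ (-m)) (((α * β) ^ (2 * m)) f) = ((α * β) ^ (-m)) (α f) := by rw [hn]
    rw [← j8051_conj α β hα hβ, ← Equiv.Perm.mul_apply, ← zpow_add] at h1
    have h2 : -m + 2 * m = m := by ring
    rw [h2] at h1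
    exact hαn _ h1.symm
  · have h1 : ((α * β) ^ (-m)) (((α * β) ^ (2 * m + 1)) f) = ((α * β) ^ (-m)) (α f) := by rw [hn]
    rw [← j8051_conj α β hα hβ, ← Equiv.Perm.mul_apply, ← zpow_add] at h1
    have h2 : -m + (2 * m + 1) = 1 + m := by ring
    rw [h2, zpow_add, zpow_one, Equiv.Perm.mul_apply, Equiv.Perm.mul_apply] at h1
    exact hβn _ (α.injective h1)

theorem j8051_col {F : Type} (α β : Equiv.Perm F) (hα : ∀ f, α (α f) = f)
    (hβ : ∀ f, β (β f) = f) (hαn : ∀ f, α f ≠ f) (hβn : ∀ f, β f ≠ f) :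
    ∃ s : F → ZMod 2, (∀ f, s (α f) = s f + 1) ∧ ∀ f, s (β f) = s f + 1 := by
  classical
  have hmov : ∀ f g, (α * β).SameCycle f g → (α * β).SameCycle (α f) (α g) := by
    rintro f g ⟨n, rfl⟩
    exact ⟨-n, (j8051_conj α β hα hβ n f).symm⟩
  let S : Setoid F :=
    { r := fun f g => (α * β).SameCycle f g ∨ (α * β).SameCycle (α f) g
      iseqv :=
        { refl := fun f => Or.inl (Equiv.Perm.SameCycle.refl _ _)
          symm := by
            rintro f g (h | h)
            · exact Or.inl h.symm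
            · right
              have := hmov _ _ h
              rw [hα] at this
              exact this.symm
          trans := by
            rintro f g k (h | h) (h' | h')
            · exact Or.inl (h.trans h')
            · exact Or.inr ((hmov _ _ h).trans h')
            · exact Or.inr (h.trans h')
            · left
              have := hmov _ _ h
              rw [hα] at this
              exact this.trans h' } }
  let r : F → F := fun f => (Quotient.mk S f).out
  have hr : ∀ f, (α * β).SameCycle (r f) f ∨ (α * β).SameCycle (α (r f)) f := by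
    intro f
    have : S.r (Quotient.mk S f).out f := Quotient.exact (Quotient.out_eq (Quotient.mk S f))
    exact this
  have hrα : ∀ f, r (α f) = r f := by
    intro f
    have : Quotient.mk S (α f) = Quotient.mk S f := by
      apply Quotient.sound
      right
      rw [hα]
    show (Quotient.mk S (α f)).out = (Quotient.mk S f).out
    rw [this]
  have hrφ : ∀ f, r ((α * β) f) = r f := by
    intro f
    have : Quotient.mk S ((α * β) f) = Quotient.mk S f := by
      apply Quotient.sound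
      left
      exact (Equiv.Perm.sameCycle_apply_left).2 (Equiv.Perm.SameCycle.refl _ _)
    show (Quotient.mk S ((α * β) f)).out = (Quotient.mk S f).out
    rw [this]
  let s : F → ZMod 2 := fun f => if (α * β).SameCycle (r f) f then 0 else 1
  have hsα : ∀ f, s (α f) = s f + 1 := by
    intro f
    show (if (α * β).SameCycle (r (α f)) (α f) then (0 : ZMod 2) else 1) =
      (if (α * β).SameCycle (r f) f then (0 : ZMod 2) else 1) + 1
    rw [hrα]
    by_cases h : (α * β).SameCycle (r f) f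
    · have h' : ¬ (α * β).SameCycle (r f) (α f) := fun h' =>
        j8051_not α β hα hβ hαn hβn f (h.symm.trans h')
      rw [if_pos h, if_neg h', zero_add]
    · have h' : (α * β).SameCycle (r f) (α f) := by
        rcases hr f with h1 | h1
        · exact absurd h1 h
        · have := hmov _ _ h1
          rwa [hα] at this
      rw [if_neg h, if_pos h']
      rfl
  have hsφ : ∀ f, s ((α * β) f) = s f := by
    intro f
    show (if (α * β).SameCycle (r ((α * β) f)) ((α * β) f) then (0 : ZMod 2) else 1) =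
      (if (α * β).SameCycle (r f) f then (0 : ZMod 2) else 1)
    rw [hrφ]
    simp only [Equiv.Perm.sameCycle_apply_right]
  refine ⟨s, hsα, fun f => ?_⟩
  have h1 : β f = α ((α * β) f) := by
    rw [Equiv.Perm.mul_apply, hα]
  rw [h1, hsα, hsφ]

/-- the edge-crossing map on flags -/
def j8051_b (M : Surf) : (M.X × ZMod 5) × Bool → (M.X × ZMod 5) × Bool
  | ((x, i), true) => if M.flip (x, i) then
      (((M.g (x, i)).1, (M.g (x, i)).2 + 1), false) else (M.g (x, i), true)
  | ((x, i), false) => if M.flip (x, i - 1) then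
      (M.g (x, i - 1), true) else (((M.g (x, i - 1)).1, (M.g (x, i - 1)).2 + 1), false)

theorem j8051_bb (M : Surf) (f : (M.X × ZMod 5) × Bool) : j8051_b M (j8051_b M f) = f := by
  rcases f with ⟨⟨x, i⟩, b⟩
  cases b
  · by_cases h : M.flip (x, i - 1) = true
    · have h1 : j8051_b M ((x, i), false) = (M.g (x, i - 1), true) := by
        simp only [j8051_b, h, if_true]
      have h2 : M.flip (M.g (x, i - 1)) = true := by rw [M.flip_g, h]
      rw [h1]
      have h3 : ∀ e : M.X × ZMod 5, M.flip e = true →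
          j8051_b M (e, true) = (((M.g e).1, (M.g e).2 + 1), false) := by
        rintro ⟨y, j⟩ he
        simp only [j8051_b, he, if_true]
      rw [h3 _ h2, M.g_g, sub_add_cancel]
    · have h1 : j8051_b M ((x, i), false) =
          (((M.g (x, i - 1)).1, (M.g (x, i - 1)).2 + 1), false) := by
        simp only [j8051_b, h, if_false, Bool.false_eq_true]
      have h2 : ¬ M.flip (M.g (x, i - 1)) = true := by rw [M.flip_g]; exact h
      rw [h1]
      have h3 : ∀ e : M.X × ZMod 5, ¬ M.flip e = true →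
          j8051_b M ((e.1, e.2 + 1), false) = (((M.g e).1, (M.g e).2 + 1), false) := by
        rintro ⟨y, j⟩ he
        simp only [j8051_b, add_sub_cancel_right, he, if_false, Bool.false_eq_true]
      rw [h3 _ h2, M.g_g, sub_add_cancel]
  · by_cases h : M.flip (x, i) = true
    · have h1 : j8051_b M ((x, i), true) = (((M.g (x, i)).1, (M.g (x, i)).2 + 1), false) := by
        simp only [j8051_b, h, if_true]
      have h2 : M.flip (M.g (x, i)) = true := by rw [M.flip_g, h]
      rw [h1]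
      have h3 : ∀ e : M.X × ZMod 5, M.flip e = true →
          j8051_b M ((e.1, e.2 + 1), false) = (M.g e, true) := by
        rintro ⟨y, j⟩ he
        simp only [j8051_b, add_sub_cancel_right, he, if_true]
      rw [h3 _ h2, M.g_g]
    · have h1 : j8051_b M ((x, i), true) = (M.g (x, i), true) := by
        simp only [j8051_b, h, if_false, Bool.false_eq_true]
      have h2 : ¬ M.flip (M.g (x, i)) = true := by rw [M.flip_g]; exact h
      rw [h1]
      have h3 : ∀ e : M.X × ZMod 5, ¬ M.flip e = true →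
          j8051_b M (e, true) = (M.g e, true) := by
        rintro ⟨y, j⟩ he
        simp only [j8051_b, he, if_false, Bool.false_eq_true]
      rw [h3 _ h2, M.g_g]

theorem j8051_bne (M : Surf) (f : (M.X × ZMod 5) × Bool) : j8051_b M f ≠ f := by
  rcases f with ⟨⟨x, i⟩, b⟩
  cases b
  · by_cases h : M.flip (x, i - 1) = true
    · simp only [j8051_b, h, if_true]
      intro h'
      exact absurd (congrArg Prod.snd h') (by simp)
    · simp only [j8051_b, h, if_false, Bool.false_eq_true]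
      intro h'
      have h1 := congrArg Prod.fst h'
      have h2 := congrArg Prod.fst h1
      have h3 := congrArg Prod.snd h1
      simp only at h2 h3
      apply M.g_ne (x, i - 1)
      exact Prod.ext h2 (eq_sub_of_add_eq h3)
  · by_cases h : M.flip (x, i) = true
    · simp only [j8051_b, h, if_true]
      intro h'
      exact absurd (congrArg Prod.snd h') (by simp)
    · simp only [j8051_b, h, if_false, Bool.false_eq_true]
      intro h'
      exact M.g_ne (x, i) (congrArg Prod.fst h')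

/-- local orientations at the vertices -/
theorem loc_orient (M : Surf) : ∃ a : M.X × ZMod 5 → ZMod 2, ∀ x i,
    if M.flip (x, i) then
        a ((M.g (x, i)).1, (M.g (x, i)).2 + 1) = a (x, i) ∧
        a ((M.g (x, i)).1, (M.g (x, i)).2) = a (x, i + 1)
      else
        a ((M.g (x, i)).1, (M.g (x, i)).2) = a (x, i) + 1 ∧
        a ((M.g (x, i)).1, (M.g (x, i)).2 + 1) = a (x, i + 1) + 1 := by
  let α : Equiv.Perm ((M.X × ZMod 5) × Bool) :=
    { toFun := fun f => (f.1, !f.2)
      invFun := fun f => (f.1, !f.2)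
      left_inv := fun f => by simp
      right_inv := fun f => by simp }
  let β : Equiv.Perm ((M.X × ZMod 5) × Bool) :=
    { toFun := j8051_b M
      invFun := j8051_b M
      left_inv := j8051_bb M
      right_inv := j8051_bb M }
  have hα : ∀ f, α (α f) = f := fun f => α.left_inv f
  have hβ : ∀ f, β (β f) = f := fun f => β.left_inv f
  have hαn : ∀ f, α f ≠ f := by
    intro f h
    have h1 : (!f.2) = f.2 := congrArg Prod.snd h
    revert h1
    cases f.2 <;> simp
  have hβn : ∀ f, β f ≠ f := j8051_bne M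
  obtain ⟨s, hs, ht⟩ := j8051_col α β hα hβ hαn hβn
  have hs1 : ∀ e : M.X × ZMod 5, s (e, true) = s (e, false) + 1 := fun e => hs (e, false)
  have h2 : ∀ z : ZMod 2, z + 1 + 1 = z := by decide
  refine ⟨fun e => s (e, true), fun x i => ?_⟩
  have t1 := ht ((x, i), true)
  have t2 := ht ((x, i + 1), false)
  have e1 : β ((x, i), true) = j8051_b M ((x, i), true) := rfl
  have e2 : β ((x, i + 1), false) = j8051_b M ((x, i + 1), false) := rfl
  rw [e1] at t1
  rw [e2] at t2
  by_cases h : M.flip (x, i) = true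
  · rw [if_pos h]
    simp only [j8051_b, h, if_true] at t1
    simp only [j8051_b, add_sub_cancel_right, h, if_true] at t2
    refine ⟨?_, ?_⟩
    · show s (((M.g (x, i)).1, (M.g (x, i)).2 + 1), true) = s ((x, i), true)
      rw [hs1, t1, h2]
    · show s (((M.g (x, i)).1, (M.g (x, i)).2), true) = s ((x, i + 1), true)
      rw [hs1 (x, i + 1), ← t2]
  · rw [if_neg h]
    simp only [j8051_b, h, if_false, Bool.false_eq_true] at t1
    simp only [j8051_b, add_sub_cancel_right, h, if_false, Bool.false_eq_true] at t2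
    refine ⟨?_, ?_⟩
    · show s (((M.g (x, i)).1, (M.g (x, i)).2), true) = s ((x, i), true) + 1
      exact t1
    · show s (((M.g (x, i)).1, (M.g (x, i)).2 + 1), true) = s ((x, i + 1), true) + 1
      rw [hs1, t2, ← hs1]

/-! ### from the combinatorial filling to the complex -/

/-- chains of glued solids whose common facets contain the point `z` -/
def ChB {I : Type} (T : I → (E3 ≃ᵃⁱ[ℝ] E3)) (m : I × Fin 12 → Option (I × Fin 12)) (z : E3)
    (i j : I) : Prop :=
  Relation.EqvGen (fun i j => ∃ q r, m (i, q) = some (j, r) ∧ z ∈ T i '' facet q) i j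

theorem mkb_facet_subset (q : Fin 12) : facet q ⊆ Dod := by
  unfold facet Dod
  apply convexHull_mono
  rintro _ ⟨j, rfl⟩
  exact ⟨_, rfl⟩

theorem mkb_facet_compact (q : Fin 12) : IsCompact (facet q) :=
  (Set.finite_range _).isCompact_convexHull ℝ

theorem mkb_P_compact : IsCompact P := (Set.finite_range pv).isCompact_convexHull ℝ

/-- the complex of solids -/
def mkbB (I : Type) (hI : Finite I) (T : I → (E3 ≃ᵃⁱ[ℝ] E3))
    (m : I × Fin 12 → Option (I × Fin 12))
    (h1 : ∀ a b, m a = some b → m b = some a) (h2 : ∀ a, m a ≠ some a)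
    (h3 : ∀ i q j r, m (i, q) = some (j, r) → T i '' facet q = T j '' facet r) : Solid where
  I := I
  fin := hI
  mt := m
  h := fun a => match m a with
    | none => id
    | some b => fun t => (T b.1).symm (T a.1 t)
  mt_symm := h1
  mt_ne := h2
  h_image := by
    intro a b hab
    simp only [hab]
    have := h3 a.1 a.2 b.1 b.2 hab
    ext z
    constructor
    · rintro ⟨t, ht, rfl⟩
      have h4 : T a.1 t ∈ T b.1 '' facet b.2 := by rw [← this]; exact ⟨t, ht, rfl⟩
      obtain ⟨s, hs, hs'⟩ := h4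
      show (T b.1).symm (T a.1 t) ∈ _
      rw [← hs', AffineIsometryEquiv.symm_apply_apply]
      exact hs
    · intro hz
      have h4 : T b.1 z ∈ T a.1 '' facet a.2 := by rw [this]; exact ⟨z, hz, rfl⟩
      obtain ⟨s, hs, hs'⟩ := h4
      refine ⟨s, hs, ?_⟩
      show (T b.1).symm (T a.1 s) = z
      rw [hs', AffineIsometryEquiv.symm_apply_apply]
  h_dist := by
    intro a b hab s _ t _
    simp only [hab]
    show dist ((T b.1).symm (T a.1 s)) ((T b.1).symm (T a.1 t)) = _
    rw [AffineIsometryEquiv.dist_map, AffineIsometryEquiv.dist_map]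
  h_h := by
    intro a b hab t _
    have hba := h1 a b hab
    simp only [hab, hba]
    show (T a.1).symm (T b.1 ((T b.1).symm (T a.1 t))) = t
    rw [AffineIsometryEquiv.apply_symm_apply, AffineIsometryEquiv.symm_apply_apply]

section mkb

variable {I : Type} {hI : Finite I} {T : I → (E3 ≃ᵃⁱ[ℝ] E3)}
    {m : I × Fin 12 → Option (I × Fin 12)}
    {h1 : ∀ a b, m a = some b → m b = some a} {h2 : ∀ a, m a ≠ some a}
    {h3 : ∀ i q j r, m (i, q) = some (j, r) → T i '' facet q = T j '' facet r}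

theorem mkb_glue_T {a b : Σ _ : I, Dod} (h : (mkbB I hI T m h1 h2 h3).Glue a b) :
    ∃ q r, m (a.1, q) = some (b.1, r) ∧ (a.2 : E3) ∈ facet q ∧ T b.1 b.2 = T a.1 a.2 := by
  obtain ⟨q, r, hm, hq, hb⟩ := h
  refine ⟨q, r, hm, hq, ?_⟩
  have hm' : m (a.1, q) = some (b.1, r) := hm
  have h4 : (mkbB I hI T m h1 h2 h3).h (a.1, q) = fun t => (T b.1).symm (T a.1 t) := by
    show (match m (a.1, q) with
      | none => id
      | some b => fun t => (T b.1).symm (T a.1 t)) = _
    rw [hm']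
  have h5 : (b.2 : E3) = (T b.1).symm (T a.1 a.2) := by
    rw [hb, h4]
  rw [h5, AffineIsometryEquiv.apply_symm_apply]

theorem mkb_step {z : E3} {i j : I} {q r : Fin 12} (hm : m (i, q) = some (j, r))
    (hz : z ∈ T i '' facet q) (t : Dod) (ht : T i t = z) :
    ∃ t' : Dod, T j t' = z ∧ (mkbB I hI T m h1 h2 h3).pt i t = (mkbB I hI T m h1 h2 h3).pt j t' := by
  have hz' : z ∈ T j '' facet r := by rw [← h3 i q j r hm]; exact hz
  obtain ⟨s, hs, hs'⟩ := hz'
  obtain ⟨u, hu, hu'⟩ := hz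
  have htu : (t : E3) = u := (T i).injective (ht.trans hu'.symm)
  refine ⟨⟨s, mkb_facet_subset r hs⟩, hs', ?_⟩
  apply Quot.sound
  refine ⟨q, r, hm, ?_, ?_⟩
  · show (t : E3) ∈ facet q
    rw [htu]; exact hu
  · have h4 : (mkbB I hI T m h1 h2 h3).h (i, q) = fun t => (T j).symm (T i t) := by
      show (match m (i, q) with
        | none => id
        | some b => fun t => (T b.1).symm (T i t)) = _
      rw [hm]
    show s = (mkbB I hI T m h1 h2 h3).h (i, q) t
    rw [h4]
    show s = (T j).symm (T i t)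
    rw [ht, ← hs', AffineIsometryEquiv.symm_apply_apply]

theorem mkb_chain {z : E3} {i j : I} (h : ChB T m z i j) :
    (∀ t : Dod, T i t = z → ∃ t' : Dod, T j t' = z ∧
      (mkbB I hI T m h1 h2 h3).pt i t = (mkbB I hI T m h1 h2 h3).pt j t') ∧
    (∀ t : Dod, T j t = z → ∃ t' : Dod, T i t' = z ∧
      (mkbB I hI T m h1 h2 h3).pt j t = (mkbB I hI T m h1 h2 h3).pt i t') := by
  unfold ChB at h
  induction h with
  | rel i j h =>
    obtain ⟨q, r, hm, hz⟩ := h
    refine ⟨fun t ht => mkb_step hm hz t ht, fun t ht => ?_⟩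
    refine mkb_step (h1 _ _ hm) ?_ t ht
    rw [← h3 i q j r hm]; exact hz
  | refl i => exact ⟨fun t ht => ⟨t, ht, rfl⟩, fun t ht => ⟨t, ht, rfl⟩⟩
  | symm i j _ ih => exact ⟨ih.2, ih.1⟩
  | trans i j k _ _ ih1 ih2 =>
    constructor
    · intro t ht
      obtain ⟨t', ht', e1⟩ := ih1.1 t ht
      obtain ⟨t'', ht'', e2⟩ := ih2.1 t' ht'
      exact ⟨t'', ht'', e1.trans e2⟩
    · intro t ht
      obtain ⟨t', ht', e1⟩ := ih2.2 t ht
      obtain ⟨t'', ht'', e2⟩ := ih1.2 t' ht'
      exact ⟨t'', ht'', e1.trans e2⟩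

theorem mkb_quot (i j : I) (t t' : Dod) :
    (mkbB I hI T m h1 h2 h3).pt i t = (mkbB I hI T m h1 h2 h3).pt j t' ↔
      T i t = T j t' ∧ ChB T m (T i t) i j := by
  constructor
  · intro h
    have h4 : Relation.EqvGen (mkbB I hI T m h1 h2 h3).Glue ⟨i, t⟩ ⟨j, t'⟩ := Quot.eqvGen_exact h
    have key : ∀ a b : Σ _ : I, Dod, Relation.EqvGen (mkbB I hI T m h1 h2 h3).Glue a b →
        T a.1 a.2 = T b.1 b.2 ∧ ChB T m (T a.1 a.2) a.1 b.1 := by
      intro a b hab
      induction hab with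
      | rel a b h =>
        obtain ⟨q, r, hm, hq, hT⟩ := mkb_glue_T h
        exact ⟨hT.symm, Relation.EqvGen.rel _ _ ⟨q, r, hm, ⟨_, hq, rfl⟩⟩⟩
      | refl a => exact ⟨rfl, Relation.EqvGen.refl _⟩
      | symm a b _ ih =>
        refine ⟨ih.1.symm, ?_⟩
        rw [← ih.1]
        exact Relation.EqvGen.symm _ _ ih.2
      | trans a b c _ _ ih1 ih2 =>
        refine ⟨ih1.1.trans ih2.1, ?_⟩
        have h5 := ih2.2
        rw [← ih1.1] at h5
        exact Relation.EqvGen.trans _ _ _ ih1.2 h5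
    exact key _ _ h4
  · rintro ⟨hT, hC⟩
    obtain ⟨t'', ht'', e⟩ := (mkb_chain (hI := hI) (h1 := h1) (h2 := h2) (h3 := h3) hC).1 t rfl
    have : t'' = t' := Subtype.ext ((T j).injective (ht''.trans hT))
    rw [e, this]

theorem mkb_closed (hI : Finite I) (i j : I) : IsClosed {z | ChB T m z i j} := by
  rw [← isOpen_compl_iff, isOpen_iff_mem_nhds]
  intro z hz
  have h4 : ∀ᶠ z' in 𝓝 z, ∀ a : I × Fin 12, z' ∈ T a.1 '' facet a.2 → z ∈ T a.1 '' facet a.2 := by
    rw [Filter.eventually_all]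
    intro a
    by_cases h : z ∈ T a.1 '' facet a.2
    · exact Filter.Eventually.of_forall fun _ _ => h
    · have hcl : IsClosed (T a.1 '' facet a.2) :=
        ((mkb_facet_compact a.2).image (T a.1).continuous).isClosed
      filter_upwards [hcl.isOpen_compl.mem_nhds h] with z' hz' hz''
      exact absurd hz'' hz'
  filter_upwards [h4] with z' hz'
  intro hch
  apply hz
  have hch' : ChB T m z' i j := hch
  show ChB T m z i j
  unfold ChB at hch' ⊢
  refine Relation.EqvGen.mono (r := fun i j => ∃ q r, m (i, q) = some (j, r) ∧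
    z' ∈ T i '' facet q) ?_ _ _ hch'
  rintro a b ⟨q, r, hm, hq⟩
  exact ⟨q, r, hm, hz' (a, q) hq⟩

end mkb

theorem make_boundary (M : Surf) (f : M.Space → E3) (hf : Continuous f)
    (A : M.X → (ℂ →ᵃⁱ[ℝ] E3)) (hA : ∀ x (t : P), f (M.pt x t) = A x t)
    (I : Type) (hI : Finite I) (T : I → (E3 ≃ᵃⁱ[ℝ] E3))
    (m : I × Fin 12 → Option (I × Fin 12)) (Φ : M.X → I × Fin 12)
    (h1 : ∀ a b, m a = some b → m b = some a) (h2 : ∀ a, m a ≠ some a)
    (h3 : ∀ i q j r, m (i, q) = some (j, r) → T i '' facet q = T j '' facet r)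
    (h4 : Function.Injective Φ) (h5 : Set.range Φ = {a | m a = none})
    (h6 : ∀ x, A x '' P = T (Φ x).1 '' facet (Φ x).2)
    (h7 : ∀ z x y, z ∈ A x '' P → z ∈ A y '' P →
      (Ch M A z x y ↔ ChB T m z (Φ x).1 (Φ y).1))
    (h8 : ∀ i q j r, m (i, q) = some (j, r) → T i '' Dod ∩ T j '' Dod = T i '' facet q) :
    ∃ (B : Solid) (F : B.Space → E3), Continuous F ∧
      (∀ i, Isometry fun t : Dod => F (B.pt i t)) ∧ B.Proper F ∧ IsBoundary M f B F := by
  have hopp := h8
  clear h8
  have hpt : ∀ (i j : I) (t t' : Dod),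
      (mkbB I hI T m h1 h2 h3).pt i t = (mkbB I hI T m h1 h2 h3).pt j t' ↔
      T i t = T j t' ∧ ChB T m (T i t) i j := mkb_quot
  let B : Solid := mkbB I hI T m h1 h2 h3
  let F : B.Space → E3 := Quot.lift (fun p : Σ _ : I, Dod => T p.1 p.2) (by
    intro a b h
    obtain ⟨q, r, hm, hq, hT⟩ := mkb_glue_T h
    exact hT.symm)
  have hFpt : ∀ (i : I) (t : Dod), F (B.pt i t) = T i t := fun i t => rfl
  have hFc : Continuous F := by
    refine continuous_quot_lift _ ?_
    exact continuous_sigma fun i => (T i).continuous.comp continuous_subtype_val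
  -- the coordinate maps
  have hwm : ∀ x (t : P), (T (Φ x).1).symm (A x t) ∈ facet (Φ x).2 := by
    intro x t
    have h8 : A x t ∈ T (Φ x).1 '' facet (Φ x).2 := by
      rw [← h6]; exact ⟨t, t.2, rfl⟩
    obtain ⟨s, hs, hs'⟩ := h8
    rw [← hs', AffineIsometryEquiv.symm_apply_apply]
    exact hs
  let w : ∀ x, P → Dod := fun x t => ⟨(T (Φ x).1).symm (A x t), mkb_facet_subset _ (hwm x t)⟩
  have hwT : ∀ x t, T (Φ x).1 (w x t) = A x t := fun x t => by
    show T (Φ x).1 ((T (Φ x).1).symm (A x t)) = A x t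
    rw [AffineIsometryEquiv.apply_symm_apply]
  have hwI : ∀ x, Isometry (w x) := by
    intro x
    refine Isometry.of_dist_eq fun s t => ?_
    show dist ((T (Φ x).1).symm (A x s)) ((T (Φ x).1).symm (A x t)) = dist (s : ℂ) (t : ℂ)
    rw [AffineIsometryEquiv.dist_map, AffineIsometry.dist_map]
  -- equality
  have hkey : ∀ x y (t t' : P), M.pt x t = M.pt y t' ↔
      B.pt (Φ x).1 (w x t) = B.pt (Φ y).1 (w y t') := by
    intro x y t t'
    rw [quot_iff M f A hA]
    have h8 := hpt (Φ x).1 (Φ y).1 (w x t) (w y t')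
    constructor
    · rintro ⟨e1, e2⟩
      refine h8.2 ⟨by rw [hwT, hwT, e1], ?_⟩
      rw [hwT]
      exact (h7 _ x y ⟨t, t.2, rfl⟩ ⟨t', t'.2, e1.symm⟩).1 e2
    · intro e
      obtain ⟨e1, e2⟩ := h8.1 e
      rw [hwT, hwT] at e1
      rw [hwT] at e2
      exact ⟨e1, (h7 _ x y ⟨t, t.2, rfl⟩ ⟨t', t'.2, e1.symm⟩).2 e2⟩
  let Ψ : M.Space → B.Space := Quot.lift
    (fun p : Σ _ : M.X, P => B.pt (Φ p.1).1 (w p.1 p.2)) (by
      intro a b h
      have : M.pt a.1 a.2 = M.pt b.1 b.2 := Quot.sound h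
      exact (hkey _ _ _ _).1 this)
  have hΨpt : ∀ x (t : P), Ψ (M.pt x t) = B.pt (Φ x).1 (w x t) := fun x t => rfl
  have hBc : ∀ i : I, Continuous fun t : Dod => B.pt i t := by
    intro i
    have h8 : Continuous (Quot.mk B.Glue) := continuous_quot_mk
    exact h8.comp continuous_sigmaMk
  have hMc : ∀ x : M.X, Continuous fun t : P => M.pt x t := by
    intro x
    have h8 : Continuous (Quot.mk M.Glue) := continuous_quot_mk
    exact h8.comp continuous_sigmaMk
  have hΨc : Continuous Ψ := by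
    refine continuous_quot_lift _ ?_
    exact continuous_sigma fun x => (hBc (Φ x).1).comp (hwI x).continuous
  have hΨi : Function.Injective Ψ := by
    intro a b
    induction a using Quot.ind with
    | mk a =>
      induction b using Quot.ind with
      | mk b =>
        intro h
        exact (hkey a.1 b.1 a.2 b.2).2 h
  haveI : CompactSpace P := isCompact_iff_compactSpace.1 mkb_P_compact
  haveI := M.fin
  have hΨcl : IsClosedMap Ψ := by
    intro C hC
    have hq : Topology.IsQuotientMap (Quot.mk B.Glue) := isQuotientMap_quot_mk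
    have h8 : IsClosed (Quot.mk B.Glue ⁻¹' (Ψ '' C)) := by
      rw [isClosed_sigma_iff]
      intro i
      show IsClosed {t : Dod | B.pt i t ∈ Ψ '' C}
      have h9 : {t : Dod | B.pt i t ∈ Ψ '' C} =
          ⋃ x : M.X, ({t : Dod | T i t ∈ (fun s : P => A x s) '' {s : P | M.pt x s ∈ C}} ∩
            {t : Dod | ChB T m (T i t) i (Φ x).1}) := by
        ext t
        rw [Set.mem_iUnion]
        constructor
        · rintro ⟨c, hc, hc'⟩
          induction c using Quot.ind with
          | mk c =>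
            have h10 : B.pt i t = B.pt (Φ c.1).1 (w c.1 c.2) := hc'.symm
            obtain ⟨e1, e2⟩ := (hpt i (Φ c.1).1 t (w c.1 c.2)).1 h10
            rw [hwT] at e1
            exact ⟨c.1, ⟨c.2, hc, e1.symm⟩, e2⟩
        · rintro ⟨x, ⟨s, hs, hs'⟩, hch⟩
          refine ⟨M.pt x s, hs, ?_⟩
          show B.pt (Φ x).1 (w x s) = B.pt i t
          symm
          refine (hpt i (Φ x).1 t (w x s)).2 ⟨?_, hch⟩
          rw [hwT]
          exact hs'.symm
      rw [h9]
      refine isClosed_iUnion_of_finite fun x => ?_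
      refine IsClosed.inter ?_ ?_
      · have h11 : IsClosed {s : P | M.pt x s ∈ C} := hC.preimage (hMc x)
        have h12 : IsCompact ((fun s : P => A x s) '' {s : P | M.pt x s ∈ C}) :=
          h11.isCompact.image ((A x).continuous.comp continuous_subtype_val)
        exact h12.isClosed.preimage ((T i).continuous.comp continuous_subtype_val)
      · exact (mkb_closed hI i (Φ x).1).preimage ((T i).continuous.comp continuous_subtype_val)
    exact hq.isClosed_preimage.1 h8
  have hprop : B.Proper F := by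
    intro i q j r hm
    have hr : ∀ i : I, Set.range (fun t : Dod => F (B.pt i t)) = T i '' Dod := by
      intro i
      ext z
      constructor
      · rintro ⟨t, rfl⟩
        exact ⟨t, t.2, rfl⟩
      · rintro ⟨t, ht, rfl⟩
        exact ⟨⟨t, ht⟩, rfl⟩
    have hr2 : (fun t : Dod => F (B.pt i t)) '' {t | (t : E3) ∈ facet q} = T i '' facet q := by
      ext z
      constructor
      · rintro ⟨t, ht, rfl⟩
        exact ⟨t, ht, rfl⟩
      · rintro ⟨t, ht, rfl⟩
        exact ⟨⟨t, mkb_facet_subset q ht⟩, ht, rfl⟩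
    exact (congrArg₂ (· ∩ ·) (hr i) (hr j)).trans ((hopp i q j r hm).trans hr2.symm)
  refine ⟨B, F, hFc, fun i => (T i).isometry.comp isometry_subtype_coe, hprop, Ψ, Φ, ?_, ?_,
    h4, h5, ?_, ?_⟩
  · exact (Topology.IsClosedEmbedding.of_continuous_injective_isClosedMap hΨc hΨi hΨcl).isEmbedding
  · ext z
    constructor
    · rintro ⟨c, rfl⟩
      induction c using Quot.ind with
      | mk c =>
        have h8 : m (Φ c.1) = none := by
          have : Φ c.1 ∈ {a | m a = none} := by rw [← h5]; exact ⟨_, rfl⟩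
          exact this
        exact ⟨(Φ c.1).1, (Φ c.1).2, h8, w c.1 c.2, hwm _ _, rfl⟩
    · rintro ⟨i, q, hm, t, ht, rfl⟩
      have h8 : (i, q) ∈ Set.range Φ := by rw [h5]; exact hm
      obtain ⟨x, hx⟩ := h8
      have h9 : T i t ∈ A x '' P := by
        rw [h6, hx]; exact ⟨t, ht, rfl⟩
      obtain ⟨s, hs, hs'⟩ := h9
      refine ⟨M.pt x ⟨s, hs⟩, ?_⟩
      show B.pt (Φ x).1 (w x ⟨s, hs⟩) = B.pt i t
      have hx1 : (Φ x).1 = i := by rw [hx]
      refine (hpt _ _ _ _).2 ⟨?_, ?_⟩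
      · rw [hwT]; exact hs'
      · rw [hx1]; exact Relation.EqvGen.refl _
  · intro x
    refine ⟨w x, hwI x, ?_, fun t => rfl⟩
    ext z
    constructor
    · rintro ⟨t, rfl⟩
      exact hwm x t
    · intro hz
      have h8 : T (Φ x).1 z ∈ A x '' P := by rw [h6]; exact ⟨z, hz, rfl⟩
      obtain ⟨s, hs, hs'⟩ := h8
      refine ⟨⟨s, hs⟩, ?_⟩
      show (T (Φ x).1).symm (A x s) = z
      rw [hs', AffineIsometryEquiv.symm_apply_apply]
  · intro z
    induction z using Quot.ind with
    | mk z =>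
      show F (B.pt (Φ z.1).1 (w z.1 z.2)) = f (M.pt z.1 z.2)
      rw [hFpt, hwT, hA]

end

end Pool.Agent.Helper275.Pent
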