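import Pool.Agent.Helper275.Pent.Tr
import Pool.Agent.Helper275.Pent.Opp

set_option autoImplicit false

namespace Pool.Agent.Helper275.Pent

open scoped Matrix Topology Classical

noncomputable section

theorem gold_s5 : Real.goldenRatio = (1 + s5) / 2 := rfl

theorem h845_sub (B : ℂ →ᵃⁱ[ℝ] E3) (a b : ℂ) : B a - B b = B.linearIsometry (a - b) :=
  (B.map_vsub a b).symm

theorem h845_dot (x y : E3) : x.ofLp ⬝ᵥ y.ofLp = inner ℝ x y := by
  simp [PiLp.inner_apply, dotProduct, mul_comm]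

theorem h845_fr (B : ℂ →ᵃⁱ[ℝ] E3) (a b c : ℂ) (h1 : dist b a = 1) (h2 : dist c a = 1)
    (h3 : dist b c = Real.goldenRatio) :
    (B b - B a).ofLp ⬝ᵥ (B b - B a).ofLp = 1 ∧ (B c - B a).ofLp ⬝ᵥ (B c - B a).ofLp = 1 ∧
      (B b - B a).ofLp ⬝ᵥ (B c - B a).ofLp = cc := by
  have e1 : ‖B b - B a‖ = 1 := by rw [← dist_eq_norm, B.dist_map, h1]
  have e2 : ‖B c - B a‖ = 1 := by rw [← dist_eq_norm, B.dist_map, h2]
  have e3 : ‖(B b - B a) - (B c - B a)‖ = Real.goldenRatio := by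
    rw [sub_sub_sub_cancel_right, ← dist_eq_norm, B.dist_map, h3]
  refine ⟨?_, ?_, ?_⟩
  · rw [h845_dot, real_inner_self_eq_norm_sq, e1]; norm_num
  · rw [h845_dot, real_inner_self_eq_norm_sq, e2]; norm_num
  · rw [h845_dot]
    have h := norm_sub_sq_real (B b - B a) (B c - B a)
    rw [e1, e2, e3, gold_s5] at h
    have hs := s5_sq
    unfold cc
    nlinarith

theorem h845_true (B : ℂ →ᵃⁱ[ℝ] E3) (i : ZMod 5) :
    (B (pv (i + 1)) - B (pv i)).ofLp ⬝ᵥ (B (pv (i + 1)) - B (pv i)).ofLp = 1 ∧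
    (B (pv (i - 1)) - B (pv i)).ofLp ⬝ᵥ (B (pv (i - 1)) - B (pv i)).ofLp = 1 ∧
      (B (pv (i + 1)) - B (pv i)).ofLp ⬝ᵥ (B (pv (i - 1)) - B (pv i)).ofLp = cc := by
  apply h845_fr
  · rw [dist_comm]; exact pv_dist_one i
  · have := pv_dist_one (i - 1)
    rwa [sub_add_cancel] at this
  · have := pv_dist_two (i - 1)
    rw [dist_comm, show i - 1 + 2 = i + 1 by ring] at this
    exact this

theorem h845_false (B : ℂ →ᵃⁱ[ℝ] E3) (i : ZMod 5) :
    (B (pv i) - B (pv (i + 1))).ofLp ⬝ᵥ (B (pv i) - B (pv (i + 1))).ofLp = 1 ∧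
    (B (pv (i + 2)) - B (pv (i + 1))).ofLp ⬝ᵥ (B (pv (i + 2)) - B (pv (i + 1))).ofLp = 1 ∧
      (B (pv i) - B (pv (i + 1))).ofLp ⬝ᵥ (B (pv (i + 2)) - B (pv (i + 1))).ofLp = cc := by
  apply h845_fr
  · exact pv_dist_one i
  · have := pv_dist_one (i + 1)
    rw [dist_comm, show i + 1 + 1 = i + 2 by ring] at this
    exact this
  · exact pv_dist_two i

theorem h845_rec (B : ℂ →ᵃⁱ[ℝ] E3) (i : ZMod 5) : B (pv (i + 2)) - B (pv (i + 1)) =
    ((s5 - 1) / 2) • (B (pv (i + 1)) - B (pv i)) + (B (pv (i - 1)) - B (pv i)) := by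
  rw [h845_sub, h845_sub, h845_sub, pv_rec, map_add, map_smul]
  rfl

/-- the vertex opposite to the edge `o, o+u` of a frame -/
def h845op (P : Fr) : V := P.o + P.u + (1 + (s5 - 1) / 2) • P.v

theorem h845op_kap (P : Fr) : h845op (kapF P) = h845op P := by
  have h1 := s5_sq
  simp only [h845op, kapF]
  have : P.o + P.u + -P.u + (1 + (s5 - 1) / 2) • (((s5 - 1) / 2) • P.u + P.v) =
      P.o + ((1 + (s5 - 1) / 2) * ((s5 - 1) / 2)) • P.u + (1 + (s5 - 1) / 2) • P.v := by module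
  rw [this]
  have h2 : (1 + (s5 - 1) / 2) * ((s5 - 1) / 2) = 1 := by linear_combination (1 / 4 : ℝ) * h1
  rw [h2, one_smul]

/-- frame of the pentagon `B '' P` at one of the ends of its edge `i` -/
def frA (B : ℂ →ᵃⁱ[ℝ] E3) (i : ZMod 5) (b : Bool) : Fr where
  o := (B (pv (if b then i else i + 1))).ofLp
  u := (B (pv (if b then i + 1 else i)) - B (pv (if b then i else i + 1))).ofLp
  v := (B (pv (if b then i - 1 else i + 2)) - B (pv (if b then i else i + 1))).ofLp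
  hu := by
    cases b
    · exact (h845_false B i).1
    · exact (h845_true B i).1
  hv := by
    cases b
    · exact (h845_false B i).2.1
    · exact (h845_true B i).2.1
  huv := by
    cases b
    · exact (h845_false B i).2.2
    · exact (h845_true B i).2.2

theorem frA_rho (B : ℂ →ᵃⁱ[ℝ] E3) (i : ZMod 5) (b : Bool) :
    rhoF (frA B i b) = frA B (if b then i + 1 else i - 1) b := by
  have hr := congrArg WithLp.ofLp (h845_rec B i)
  simp only [WithLp.ofLp_add, WithLp.ofLp_sub, WithLp.ofLp_smul] at hr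
  cases b
  · have e1 : i - 1 + 1 = i := by ring
    have e2 : i - 1 + 2 = i + 1 := by ring
    ext1
    · simp [rhoF, frA, e1, e2]
    · simp only [rhoF, frA, Bool.false_eq_true, if_false, e1, e2, WithLp.ofLp_sub]
      have h2 : (B (pv (i - 1))).ofLp = (B (pv (i + 2))).ofLp - (B (pv (i + 1))).ofLp -
          ((s5 - 1) / 2) • ((B (pv (i + 1))).ofLp - (B (pv i)).ofLp) + (B (pv i)).ofLp := by
        rw [hr]; module
      rw [h2]; module
    · simp only [rhoF, frA, Bool.false_eq_true, if_false, e1, e2, WithLp.ofLp_sub]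
      module
  · have e1 : i + 1 - 1 = i := by ring
    have e2 : i + 1 + 1 = i + 2 := by ring
    ext1
    · simp [rhoF, frA, e1, e2]
    · simp only [rhoF, frA, if_true, e1, e2, WithLp.ofLp_sub]
      rw [hr]
    · simp only [rhoF, frA, if_true, e1, e2, WithLp.ofLp_sub]
      module

theorem h845op_frA (B : ℂ →ᵃⁱ[ℝ] E3) (i : ZMod 5) (b : Bool) :
    (B (pv (i + 3))).ofLp = h845op (frA B i b) := by
  have h1 := s5_sq
  have hr := congrArg WithLp.ofLp (h845_rec B i)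
  have hr2 := congrArg WithLp.ofLp (h845_rec B (i + 1))
  simp only [WithLp.ofLp_add, WithLp.ofLp_sub, WithLp.ofLp_smul] at hr hr2
  have e1 : i + 1 - 1 = i := by ring
  have e2 : i + 1 + 1 = i + 2 := by ring
  have e3 : i + 1 + 2 = i + 3 := by ring
  rw [e1, e2, e3] at hr2
  have k1 : (B (pv (i + 3))).ofLp = (B (pv (i + 2))).ofLp + ((s5 - 1) / 2) • ((B (pv (i + 2))).ofLp - (B (pv (i + 1))).ofLp) +
      ((B (pv i)).ofLp - (B (pv (i + 1))).ofLp) := by
    rw [add_assoc, ← hr2]; module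
  cases b
  · simp only [h845op, frA, Bool.false_eq_true, if_false, WithLp.ofLp_sub]
    rw [k1]; module
  · simp only [h845op, frA, if_true, WithLp.ofLp_sub]
    have k2 : (B (pv (i + 2))).ofLp = (B (pv (i + 1))).ofLp + (((s5 - 1) / 2) • ((B (pv (i + 1))).ofLp - (B (pv i)).ofLp) +
      ((B (pv (i - 1))).ofLp - (B (pv i)).ofLp)) := by
      rw [← hr]; module
    rw [k1, k2]
    have h2 : ((s5 - 1) / 2) * ((s5 - 1) / 2) = 1 - (s5 - 1) / 2 := by linear_combination (1 / 4 : ℝ) * h1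
    set k := (s5 - 1) / 2
    have h3 : (B (pv (i + 1))).ofLp + (k • ((B (pv (i + 1))).ofLp - (B (pv i)).ofLp) + ((B (pv (i - 1))).ofLp - (B (pv i)).ofLp)) +
        k • ((B (pv (i + 1))).ofLp + (k • ((B (pv (i + 1))).ofLp - (B (pv i)).ofLp) + ((B (pv (i - 1))).ofLp - (B (pv i)).ofLp)) - (B (pv (i + 1))).ofLp) +
        ((B (pv i)).ofLp - (B (pv (i + 1))).ofLp) =
        (B (pv i)).ofLp + (k + k * k) • ((B (pv (i + 1))).ofLp - (B (pv i)).ofLp) + (1 + k) • ((B (pv (i - 1))).ofLp - (B (pv i)).ofLp) := by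
      module
    rw [h3, h2]
    module

theorem frA_opp (B B' : ℂ →ᵃⁱ[ℝ] E3) (i j : ZMod 5) (b b' : Bool)
    (h : frA B' j b' = kapF (frA B i b)) : B (pv (i + 3)) = B' (pv (j + 3)) := by
  have h1 := h845op_frA B i b
  have h2 := h845op_frA B' j b'
  rw [h, h845op_kap, ← h1] at h2
  exact WithLp.ofLp_injective 2 h2.symm

/-- next dart of the face, for the orientation `ε` -/
def phA {X : Type} (ε : X → Bool) : Equiv.Perm (X × ZMod 5) where
  toFun d := (d.1, if ε d.1 then d.2 + 1 else d.2 - 1)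
  invFun d := (d.1, if ε d.1 then d.2 - 1 else d.2 + 1)
  left_inv := by
    rintro ⟨x, i⟩
    cases h : ε x <;> simp [h]
  right_inv := by
    rintro ⟨x, i⟩
    cases h : ε x <;> simp [h]


theorem zf8054_zpow {α β : Type} (f : Equiv.Perm α) (F : α → β) (hF : ∀ d, F (f d) = F d)
    (z : ℤ) : ∀ d, F ((f ^ z) d) = F d := by
  induction z using Int.induction_on with
  | zero => intro d; rfl
  | succ n ih =>
    intro d
    rw [zpow_add_one, Equiv.Perm.mul_apply, ih, hF]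
  | pred n ih =>
    intro d
    rw [zpow_sub_one, Equiv.Perm.mul_apply, ih]
    have := hF (f⁻¹ d)
    rw [← this]
    simp

theorem zf8054_cycle_sum {D : Type} [Fintype D] (σ : Equiv.Perm D) (c : D → ZMod 2)
    (hs : ∀ d, ∑ e ∈ Finset.univ.filter (fun e => σ.SameCycle d e), c e = 0) (p : D) :
    ∑ k ∈ Finset.range (Function.minimalPeriod σ p), c ((σ ^ k) p) = 0 := by
  have hper : p ∈ Function.periodicPts σ := Function.Injective.mem_periodicPts σ.injective p
  have hpos : 0 < Function.minimalPeriod σ p := Function.minimalPeriod_pos_of_mem_periodicPts hper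
  rw [← hs p]
  have himg : Finset.univ.filter (fun e => σ.SameCycle p e) =
      (Finset.range (Function.minimalPeriod σ p)).image (fun k => (σ ^ k) p) := by
    ext e
    simp only [Finset.mem_filter, Finset.mem_univ, true_and, Finset.mem_image, Finset.mem_range]
    constructor
    · intro h
      obtain ⟨n, hn⟩ := h.exists_nat_pow_eq
      refine ⟨n % Function.minimalPeriod σ p, Nat.mod_lt _ hpos, ?_⟩
      rw [← Equiv.Perm.iterate_eq_pow, Function.iterate_mod_minimalPeriod_eq,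
        Equiv.Perm.iterate_eq_pow]
      exact hn
    · rintro ⟨k, _, rfl⟩
      exact ⟨k, by simp⟩
  rw [himg, Finset.sum_image]
  intro a ha b hb hab
  simp only [← Equiv.Perm.iterate_eq_pow] at hab
  exact Function.iterate_injOn_Iio_minimalPeriod (by simpa using ha) (by simpa using hb) hab

theorem zf8054_fix {D : Type} [Fintype D] (σ : Equiv.Perm D) (c : D → ZMod 2)
    (hs : ∀ d, ∑ e ∈ Finset.univ.filter (fun e => σ.SameCycle d e), c e = 0) (p : D) (n : ℕ)
    (hn : (σ ^ n) p = p) : ∑ k ∈ Finset.range n, c ((σ ^ k) p) = 0 := by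
  have h1 : Function.IsPeriodicPt σ n p := by
    rw [Function.IsPeriodicPt, Function.IsFixedPt, Equiv.Perm.iterate_eq_pow]
    exact hn
  obtain ⟨q, hq⟩ := h1.minimalPeriod_dvd
  have hP : (σ ^ Function.minimalPeriod σ p) p = p := by
    rw [← Equiv.Perm.iterate_eq_pow]
    exact Function.iterate_minimalPeriod
  have h2 := zf8054_cycle_sum σ c hs p
  obtain ⟨P, hPd⟩ : ∃ P, P = Function.minimalPeriod σ p := ⟨_, rfl⟩
  rw [← hPd] at hq hP h2
  rw [hq]
  clear hq h1 hn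
  induction q with
  | zero => simp
  | succ q ih =>
    rw [Nat.mul_succ, add_comm, Finset.sum_range_add, h2, zero_add]
    rw [← ih]
    apply Finset.sum_congr rfl
    intro k _
    rw [add_comm, pow_add, Equiv.Perm.mul_apply, hP]

theorem zf8054_eq {D : Type} [Fintype D] (σ : Equiv.Perm D) (c : D → ZMod 2)
    (hs : ∀ d, ∑ e ∈ Finset.univ.filter (fun e => σ.SameCycle d e), c e = 0) (p : D) (m n : ℕ)
    (hmn : m ≤ n) (h : (σ ^ m) p = (σ ^ n) p) :
    ∑ k ∈ Finset.range m, c ((σ ^ k) p) = ∑ k ∈ Finset.range n, c ((σ ^ k) p) := by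
  obtain ⟨l, rfl⟩ := Nat.exists_eq_add_of_le hmn
  rw [Finset.sum_range_add]
  have h1 : ∑ k ∈ Finset.range l, c ((σ ^ (m + k)) p) = 0 := by
    have h2 : (σ ^ l) ((σ ^ m) p) = (σ ^ m) p := by
      rw [← Equiv.Perm.mul_apply, ← pow_add, add_comm l m]
      exact h.symm
    rw [← zf8054_fix σ c hs ((σ ^ m) p) l h2]
    apply Finset.sum_congr rfl
    intro k _
    rw [add_comm, pow_add, Equiv.Perm.mul_apply]
  rw [h1, add_zero]

theorem zf8054_pot {D : Type} [Fintype D] (σ : Equiv.Perm D) (c : D → ZMod 2)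
    (hs : ∀ d, ∑ e ∈ Finset.univ.filter (fun e => σ.SameCycle d e), c e = 0) :
    ∃ b : D → ZMod 2, ∀ d, b (σ d) = b d + c d := by
  obtain ⟨r, hr1, hr2⟩ : ∃ r : D → D, (∀ d, σ.SameCycle (r d) d) ∧ ∀ d, r (σ d) = r d := by
    refine ⟨fun d => (Quotient.mk (Equiv.Perm.SameCycle.setoid σ) d).out, ?_, ?_⟩
    · intro d
      exact Quotient.exact (s := Equiv.Perm.SameCycle.setoid σ) (Quotient.out_eq _)
    · intro d
      show (Quotient.mk (Equiv.Perm.SameCycle.setoid σ) (σ d)).out =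
        (Quotient.mk (Equiv.Perm.SameCycle.setoid σ) d).out
      congr 1
      apply Quotient.sound
      show σ.SameCycle (σ d) d
      exact Equiv.Perm.sameCycle_apply_left.2 (Equiv.Perm.SameCycle.refl σ d)
  have hex : ∀ d, ∃ n : ℕ, (σ ^ n) (r d) = d := fun d => (hr1 d).exists_nat_pow_eq
  choose n hn using hex
  refine ⟨fun d => ∑ k ∈ Finset.range (n d), c ((σ ^ k) (r d)), fun d => ?_⟩
  show ∑ k ∈ Finset.range (n (σ d)), c ((σ ^ k) (r (σ d))) = _
  have h1 : ∑ k ∈ Finset.range (n d), c ((σ ^ k) (r d)) + c d =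
      ∑ k ∈ Finset.range (n d + 1), c ((σ ^ k) (r d)) := by
    rw [Finset.sum_range_succ, hn d]
  rw [h1, hr2]
  have h2 := hn (σ d)
  rw [hr2] at h2
  have h3 : (σ ^ (n d + 1)) (r d) = σ d := by
    rw [pow_succ', Equiv.Perm.mul_apply, hn d]
  rcases le_total (n (σ d)) (n d + 1) with h | h
  · exact zf8054_eq σ c hs (r d) _ _ h (h2.trans h3.symm)
  · exact (zf8054_eq σ c hs (r d) _ _ h (h3.trans h2.symm)).symm

theorem zf8054_ph_pow {X : Type} (ε : X → Bool) (n : ℕ) (d : X × ZMod 5) :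
    (phA ε ^ n) d = (d.1, if ε d.1 then d.2 + n else d.2 - n) := by
  induction n with
  | zero => simp
  | succ n ih =>
    rw [pow_succ', Equiv.Perm.mul_apply, ih]
    show (d.1, if ε d.1 then (if ε d.1 then d.2 + (n : ZMod 5) else d.2 - n) + 1 else
      (if ε d.1 then d.2 + (n : ZMod 5) else d.2 - n) - 1) = _
    apply Prod.ext
    · rfl
    · show (if ε d.1 then (if ε d.1 then d.2 + (n : ZMod 5) else d.2 - n) + 1 else
        (if ε d.1 then d.2 + (n : ZMod 5) else d.2 - n) - 1) = _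
      split_ifs
      · push_cast; ring
      · push_cast; ring

theorem phA_five {X : Type} (ε : X → Bool) (d : X × ZMod 5) : (phA ε ^ 5) d = d := by
  rw [zf8054_ph_pow]
  have h5 : ((5 : ℕ) : ZMod 5) = 0 := by decide
  rw [h5]
  apply Prod.ext
  · rfl
  · simp

theorem phA_cycle {X : Type} (ε : X → Bool) (d e : X × ZMod 5) :
    (phA ε).SameCycle d e ↔ d.1 = e.1 := by
  constructor
  · rintro ⟨z, hz⟩
    have := zf8054_zpow (phA ε) Prod.fst (fun d => rfl) z d
    rw [hz] at this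
    exact this.symm
  · intro h
    by_cases hε : ε d.1 = true
    · refine ⟨((e.2 - d.2).val : ℤ), ?_⟩
      rw [zpow_natCast, zf8054_ph_pow, if_pos hε, ZMod.natCast_val, ZMod.cast_id', id]
      apply Prod.ext
      · exact h
      · show d.2 + (e.2 - d.2) = e.2
        ring
    · refine ⟨((d.2 - e.2).val : ℤ), ?_⟩
      rw [zpow_natCast, zf8054_ph_pow, if_neg hε, ZMod.natCast_val, ZMod.cast_id', id]
      apply Prod.ext
      · exact h
      · show d.2 - (d.2 - e.2) = e.2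
        ring

/-- the surface is orientable -/
theorem exists_orient (M : Surf) (hS : Nonempty (M.Space ≃ₜ Metric.sphere (0 : E3) 1))
    (hreg : ∀ x (t t' : P), M.pt x t = M.pt x t' → t = t') :
    ∃ ε : M.X → Bool, ∀ d, M.flip d = (ε d.1 == ε (M.g d).1) := by
  obtain ⟨a, ha⟩ := loc_orient M
  obtain ⟨F, hF⟩ := dual_coboundary M hS hreg (fun e => if M.flip e then 0 else 1) a
    (fun e => by simp only [M.flip_g]) (by
      intro x i
      have h := ha x i
      split_ifs at h ⊢ with h1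
      · simpa using h
      · exact h)
  have key : ∀ a b : ZMod 2, ∀ c : Bool, (if c = true then (0 : ZMod 2) else 1) = a + b →
      c = (decide (a = 0) == decide (b = 0)) := by decide
  exact ⟨fun x => decide (F x = 0), fun d => key _ _ _ (hF d)⟩

/-- gluing as a permutation -/
def glA (M : Surf) : Equiv.Perm (M.X × ZMod 5) := Function.Involutive.toPerm M.g M.g_g

theorem zf8054_glue (M : Surf) (x y : M.X) (i j : ZMod 5) (hg : M.g (x, i) = (y, j))
    (k l : ZMod 5) (h : (k = i ∧ l = if M.flip (x, i) then j + 1 else j) ∨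
      (k = i + 1 ∧ l = if M.flip (x, i) then j else j + 1)) :
    M.pt x ⟨pv k, pv_mem _⟩ = M.pt y ⟨pv l, pv_mem _⟩ := by
  have e0 : ∀ i : ZMod 5, edgePt i 0 = pv i := by
    intro i
    unfold edgePt
    rw [sub_zero, one_smul, zero_smul, add_zero]
  have e1 : ∀ i : ZMod 5, edgePt i 1 = pv (i + 1) := by
    intro i
    unfold edgePt
    rw [sub_self, one_smul, zero_smul, zero_add]
  apply Quot.sound
  rcases h with ⟨rfl, rfl⟩ | ⟨rfl, rfl⟩
  · refine ⟨k, 0, le_refl _, zero_le_one, (e0 k).symm, ?_, ?_⟩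
    · show y = (M.g (x, k)).1
      rw [hg]
    · show pv (if M.flip (x, k) then j + 1 else j) =
        edgePt (M.g (x, k)).2 (if M.flip (x, k) then 1 - 0 else 0)
      rw [hg]
      show pv (if M.flip (x, k) then j + 1 else j) =
        edgePt j (if M.flip (x, k) then 1 - 0 else 0)
      split_ifs
      · rw [sub_zero, e1]
      · rw [e0]
  · refine ⟨i, 1, zero_le_one, le_refl _, (e1 i).symm, ?_, ?_⟩
    · show y = (M.g (x, i)).1
      rw [hg]
    · show pv (if M.flip (x, i) then j else j + 1) =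
        edgePt (M.g (x, i)).2 (if M.flip (x, i) then 1 - 1 else 1)
      rw [hg]
      show pv (if M.flip (x, i) then j else j + 1) =
        edgePt j (if M.flip (x, i) then 1 - 1 else 1)
      split_ifs
      · rw [sub_self, e0]
      · rw [e1]

theorem zf8054_step (M : Surf) (ε : M.X → Bool) (x y : M.X) (i j : ZMod 5)
    (hg : M.g (x, i) = (y, j)) :
    (phA ε * glA M) (x, i) = (y, if ε y then j + 1 else j - 1) := by
  show phA ε (M.g (x, i)) = _
  rw [hg]
  rfl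

/-- darts starting at the same vertex of the surface -/
theorem cycle_pt (M : Surf) (ε : M.X → Bool) (hε : ∀ d, M.flip d = (ε d.1 == ε (M.g d).1))
    (d e : M.X × ZMod 5) (h : (phA ε * glA M).SameCycle d e) :
    M.pt d.1 ⟨pv (if ε d.1 then d.2 else d.2 + 1), pv_mem _⟩ =
      M.pt e.1 ⟨pv (if ε e.1 then e.2 else e.2 + 1), pv_mem _⟩ := by
  obtain ⟨z, rfl⟩ := h
  refine (zf8054_zpow (phA ε * glA M)
    (fun d => M.pt d.1 ⟨pv (if ε d.1 then d.2 else d.2 + 1), pv_mem _⟩) ?_ z d).symm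
  rintro ⟨x, i⟩
  obtain ⟨⟨y, j⟩, hg⟩ : ∃ q, M.g (x, i) = q := ⟨_, rfl⟩
  have hf := hε (x, i)
  rw [hg] at hf
  have hf' : M.flip (x, i) = (ε x == ε y) := hf
  rw [zf8054_step M ε x y i j hg]
  symm
  apply zf8054_glue M x y i j hg
  rw [hf']
  cases hx : ε x <;> cases hy : ε y <;> simp

theorem dsc_A (M : Surf) (hS : Nonempty (M.Space ≃ₜ Metric.sphere (0 : E3) 1))
    (hreg : ∀ x (t t' : P), M.pt x t = M.pt x t' → t = t') [Fintype (M.X × ZMod 5)]
    (ε : M.X → Bool) (hε : ∀ d, M.flip d = (ε d.1 == ε (M.g d).1))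
    (c : M.X × ZMod 5 → ZMod 2) (hc : ∀ d, c (glA M d) = c d)
    (hs : ∀ d, ∑ e ∈ Finset.univ.filter (fun e => (phA ε * glA M).SameCycle d e), c e = 0) :
    ∃ f : M.X × ZMod 5 → ZMod 2, (∀ d, f (phA ε d) = f d) ∧ ∀ d, c d = f d + f (glA M d) := by
  obtain ⟨b, hb⟩ := zf8054_pot (phA ε * glA M) c (fun d => by convert hs d)
  obtain ⟨F, hF⟩ := dual_coboundary M hS hreg c
    (fun d => b (d.1, if ε d.1 then d.2 else d.2 - 1)) hc (by
      intro x i
      obtain ⟨⟨y, j⟩, hg⟩ : ∃ q, M.g (x, i) = q := ⟨_, rfl⟩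
      have hg' : M.g (y, j) = (x, i) := by rw [← hg, M.g_g]
      have hf := hε (x, i)
      rw [hg] at hf
      have hf' : M.flip (x, i) = (ε x == ε y) := hf
      have hcc : c (y, j) = c (x, i) := by
        rw [← hg]; exact hc (x, i)
      have b1 := hb (x, i)
      have b2 := hb (y, j)
      rw [zf8054_step M ε x y i j hg] at b1
      rw [zf8054_step M ε y x j i hg', hcc] at b2
      have h2 : ∀ a b c : ZMod 2, a = b + c → b = a + c := by decide
      rw [hg, hf']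
      cases hx : ε x <;> cases hy : ε y <;> simp [hx, hy] at b1 b2 ⊢
      · exact ⟨h2 _ _ _ b2, b1⟩
      · exact ⟨h2 _ _ _ b2, b1⟩
      · exact ⟨b1, h2 _ _ _ b2⟩
      · exact ⟨b1, h2 _ _ _ b2⟩)
  exact ⟨fun d => F d.1, fun d => rfl, fun d => hF d⟩

theorem mkmap_conn (M : Surf) (hS : Nonempty (M.Space ≃ₜ Metric.sphere (0 : E3) 1)) :
    ConnectedSpace M.Space := by
  obtain ⟨h⟩ := hS
  have h1 : IsConnected (Metric.sphere (0 : E3) 1) := by
    apply isConnected_sphere _ _ zero_le_one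
    rw [← Module.finrank_eq_rank, finrank_euclideanSpace]
    simp
  have h2 : ConnectedSpace (Metric.sphere (0 : E3) 1) := isConnected_iff_connectedSpace.1 h1
  exact h.symm.surjective.connectedSpace h.symm.continuous

theorem mkmap_glue (M : Surf) (f : M.Space → E3) (A : M.X → (ℂ →ᵃⁱ[ℝ] E3))
    (hA : ∀ x (t : P), f (M.pt x t) = A x t) (ε : M.X → Bool)
    (hε : ∀ d, M.flip d = (ε d.1 == ε (M.g d).1)) (d : M.X × ZMod 5) :
    A (M.g d).1 (pv (if ε (M.g d).1 then (M.g d).2 else (M.g d).2 + 1)) =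
      A d.1 (pv (if ε d.1 then d.2 + 1 else d.2)) ∧
    A (M.g d).1 (pv (if ε (M.g d).1 then (M.g d).2 + 1 else (M.g d).2)) =
      A d.1 (pv (if ε d.1 then d.2 else d.2 + 1)) := by
  obtain ⟨x, i⟩ := d
  have e0 : ∀ k : ZMod 5, edgePt k 0 = pv k := by
    intro k; simp [edgePt]
  have e1 : ∀ k : ZMod 5, edgePt k 1 = pv (k + 1) := by
    intro k; simp [edgePt]
  have key : ∀ s : ℝ, 0 ≤ s → s ≤ 1 → A x (edgePt i s) = A (M.g (x, i)).1
      (edgePt (M.g (x, i)).2 (if M.flip (x, i) then 1 - s else s)) := by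
    intro s h0 h1
    have hm1 : edgePt i s ∈ P := edgePt_mem i s h0 h1
    have hm2 : edgePt (M.g (x, i)).2 (if M.flip (x, i) then 1 - s else s) ∈ P := by
      split_ifs
      · exact edgePt_mem _ _ (by linarith) (by linarith)
      · exact edgePt_mem _ _ h0 h1
    have h2 : M.pt x ⟨edgePt i s, hm1⟩ = M.pt (M.g (x, i)).1
        ⟨edgePt (M.g (x, i)).2 (if M.flip (x, i) then 1 - s else s), hm2⟩ :=
      Quot.sound ⟨i, s, h0, h1, rfl, rfl, rfl⟩
    have h3 := congrArg f h2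
    rw [hA, hA] at h3
    exact h3
  have k0 := key 0 le_rfl zero_le_one
  have k1 := key 1 zero_le_one le_rfl
  have hf := hε (x, i)
  simp only [] at hf
  rw [e0] at k0
  rw [e1] at k1
  cases hb : ε x <;> cases hb' : ε (M.g (x, i)).1
  · rw [hb, hb'] at hf
    rw [hf] at k0 k1
    simp only [beq_self_eq_true, if_true, sub_zero, sub_self, e0, e1] at k0 k1
    simp only [Bool.false_eq_true, if_false]
    exact ⟨k0.symm, k1.symm⟩
  · rw [hb, hb'] at hf
    rw [hf] at k0 k1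
    simp only [Bool.false_beq, Bool.not_true, Bool.false_eq_true, if_false, e0, e1] at k0 k1
    simp only [Bool.false_eq_true, if_false, if_true]
    exact ⟨k0.symm, k1.symm⟩
  · rw [hb, hb'] at hf
    rw [hf] at k0 k1
    simp only [Bool.true_beq, Bool.false_eq_true, if_false, e0, e1] at k0 k1
    simp only [Bool.false_eq_true, if_false, if_true]
    exact ⟨k1.symm, k0.symm⟩
  · rw [hb, hb'] at hf
    rw [hf] at k0 k1
    simp only [beq_self_eq_true, if_true, sub_zero, sub_self, e0, e1] at k0 k1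
    simp only [if_true]
    exact ⟨k1.symm, k0.symm⟩

theorem mkmap_pow {D : Type} (p : Equiv.Perm D) (h5 : ∀ d, (p ^ 5) d = d) (S : Set D)
    (hS : ∀ d ∈ S, p d ∈ S) (d e : D) (h : p.SameCycle d e) (hd : d ∈ S) : e ∈ S := by
  have hn : ∀ n : ℕ, ∀ d ∈ S, (p ^ n) d ∈ S := by
    intro n
    induction n with
    | zero => intro d hd; simpa using hd
    | succ n ih =>
      intro d hd
      rw [pow_succ', Equiv.Perm.mul_apply]
      exact hS _ (ih d hd)
  have hinv : ∀ d ∈ S, p⁻¹ d ∈ S := by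
    intro d hd
    have h1 : p⁻¹ d = (p ^ 4) d := by
      rw [Equiv.Perm.inv_eq_iff_eq]
      have h2 := h5 d
      rw [pow_succ', Equiv.Perm.mul_apply] at h2
      exact h2.symm
    rw [h1]
    exact hn 4 d hd
  have hninv : ∀ n : ℕ, ∀ d ∈ S, ((p⁻¹) ^ n) d ∈ S := by
    intro n
    induction n with
    | zero => intro d hd; simpa using hd
    | succ n ih =>
      intro d hd
      rw [pow_succ', Equiv.Perm.mul_apply]
      exact hinv _ (ih d hd)
  obtain ⟨n, hn'⟩ := h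
  rw [← hn']
  cases n with
  | ofNat n => simpa using hn n d hd
  | negSucc n =>
    rw [zpow_negSucc, ← inv_pow]
    exact hninv (n + 1) d hd

theorem make_map (M : Surf) (hS : Nonempty (M.Space ≃ₜ Metric.sphere (0 : E3) 1))
    (f : M.Space → E3) (A : M.X → (ℂ →ᵃⁱ[ℝ] E3)) (hA : ∀ x (t : P), f (M.pt x t) = A x t)
    (hinj : ∀ z, ∃ U ∈ 𝓝 z, Set.InjOn f U) [Fintype (M.X × ZMod 5)] :
    ∃ (ε : M.X → Bool) (p : PMap (M.X × ZMod 5)), p.ph = phA ε ∧ (∀ d, p.gl d = M.g d) ∧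
      ∀ d, p.fr d = frA (A d.1) d.2 (ε d.1) := by
  have hreg : ∀ x (t t' : P), M.pt x t = M.pt x t' → t = t' := by
    intro x t t' h
    have h1 := congrArg f h
    rw [hA, hA] at h1
    exact Subtype.ext ((A x).injective h1)
  obtain ⟨ε, hε⟩ := exists_orient M hS hreg
  have hglue := mkmap_glue M f A hA ε hε
  have hfo : ∀ d, (frA (A (M.g d).1) (M.g d).2 (ε (M.g d).1)).o =
      (frA (A d.1) d.2 (ε d.1)).o + (frA (A d.1) d.2 (ε d.1)).u := by
    intro d
    simp only [frA]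
    rw [(hglue d).1, WithLp.ofLp_sub]
    abel
  have hfu : ∀ d, (frA (A (M.g d).1) (M.g d).2 (ε (M.g d).1)).u =
      -(frA (A d.1) d.2 (ε d.1)).u := by
    intro d
    simp only [frA]
    rw [(hglue d).1, (hglue d).2, WithLp.ofLp_sub, WithLp.ofLp_sub]
    abel
  refine ⟨ε, ⟨phA ε, glA M, M.g_g, M.g_ne, fun d => frA (A d.1) d.2 (ε d.1), ?_, hfo, hfu, ?_, ?_,
    ?_, ?_⟩, rfl, fun d => rfl, fun d => rfl⟩
  · intro d
    exact (frA_rho (A d.1) d.2 (ε d.1)).symm
  · intro d h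
    exact li_fold M f A hA hinj d.1 d.2 (frA_opp _ _ _ _ _ _ h)
  · intro d e h hu
    have h1 := cycle_pt M ε hε d e h
    have h2 := congrArg f h1
    rw [hA, hA] at h2
    have ho : (frA (A d.1) d.2 (ε d.1)).o = (frA (A e.1) e.2 (ε e.1)).o := by
      simp only [frA]
      exact congrArg WithLp.ofLp h2
    have h3 : A d.1 (pv (if ε d.1 then d.2 + 1 else d.2)) =
        A e.1 (pv (if ε e.1 then e.2 + 1 else e.2)) := by
      have h4 : (frA (A d.1) d.2 (ε d.1)).u = (frA (A e.1) e.2 (ε e.1)).u := hu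
      simp only [frA] at h4
      have h5 := WithLp.ofLp_injective _ h4
      have h6 : A d.1 (pv (if ε d.1 then d.2 else d.2 + 1)) =
        A e.1 (pv (if ε e.1 then e.2 else e.2 + 1)) := h2
      rw [h6] at h5
      exact sub_left_injective h5
    rcases li_edge M f A hA hinj d.1 e.1 d.2 e.2 (ε d.1) (ε e.1) h1 h3 with h4 | h4
    · exact h4.symm
    · exfalso
      have h5 : e = M.g d := h4
      have h6 := hfo d
      rw [← h5, ← ho] at h6
      have h7 : (frA (A d.1) d.2 (ε d.1)).u = 0 := by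
        have := h6.symm
        rwa [add_eq_left] at this
      have h8 := (frA (A d.1) d.2 (ε d.1)).hu
      rw [h7] at h8
      simp at h8
  · intro S hSn hph hgl
    have hall : ∀ x i k, (x, i) ∈ S → (x, k) ∈ S := by
      intro x i k h
      exact mkmap_pow (phA ε) (phA_five ε) S hph (x, i) (x, k)
        ((phA_cycle ε (x, i) (x, k)).2 rfl) h
    have h1 := surf_conn M (mkmap_conn M hS) {x | ∃ i, (x, i) ∈ S}
      (by obtain ⟨⟨x, i⟩, hx⟩ := hSn; exact ⟨x, i, hx⟩)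
      (by
        rintro x ⟨i, hi⟩ k
        exact ⟨(M.g (x, k)).2, hgl _ (hall x i k hi)⟩)
    rw [Set.eq_univ_iff_forall]
    rintro ⟨x, k⟩
    have h2 : x ∈ {x | ∃ i, (x, i) ∈ S} := by rw [h1]; trivial
    obtain ⟨i, hi⟩ := h2
    exact hall x i k hi
  · intro c hc hs
    refine dsc_A M hS hreg ε hε c hc (fun d => ?_)
    rw [← hs d]
    refine Finset.sum_congr ?_ (fun _ _ => rfl)
    ext e
    simp only [Finset.mem_filter]

/-- formal coordinates of the model vertices -/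
def q8058dvf : Fin 20 → V5 := ![
  ⟨⟨1/4, 1/4⟩, ⟨1/4, 1/4⟩, ⟨1/4, 1/4⟩⟩,
  ⟨⟨0, 0⟩, ⟨1/2, 0⟩, ⟨3/4, 1/4⟩⟩,
  ⟨⟨-1/4, -1/4⟩, ⟨1/4, 1/4⟩, ⟨1/4, 1/4⟩⟩,
  ⟨⟨-1/2, 0⟩, ⟨3/4, 1/4⟩, ⟨0, 0⟩⟩,
  ⟨⟨1/2, 0⟩, ⟨3/4, 1/4⟩, ⟨0, 0⟩⟩,
  ⟨⟨3/4, 1/4⟩, ⟨0, 0⟩, ⟨1/2, 0⟩⟩,
  ⟨⟨1/4, 1/4⟩, ⟨-1/4, -1/4⟩, ⟨1/4, 1/4⟩⟩,
  ⟨⟨0, 0⟩, ⟨-1/2, 0⟩, ⟨3/4, 1/4⟩⟩,
  ⟨⟨-1/4, -1/4⟩, ⟨-1/4, -1/4⟩, ⟨1/4, 1/4⟩⟩,
  ⟨⟨-3/4, -1/4⟩, ⟨0, 0⟩, ⟨1/2, 0⟩⟩,
  ⟨⟨-3/4, -1/4⟩, ⟨0, 0⟩, ⟨-1/2, 0⟩⟩,
  ⟨⟨-1/4, -1/4⟩, ⟨1/4, 1/4⟩, ⟨-1/4, -1/4⟩⟩,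
  ⟨⟨0, 0⟩, ⟨1/2, 0⟩, ⟨-3/4, -1/4⟩⟩,
  ⟨⟨1/4, 1/4⟩, ⟨1/4, 1/4⟩, ⟨-1/4, -1/4⟩⟩,
  ⟨⟨3/4, 1/4⟩, ⟨0, 0⟩, ⟨-1/2, 0⟩⟩,
  ⟨⟨1/4, 1/4⟩, ⟨-1/4, -1/4⟩, ⟨-1/4, -1/4⟩⟩,
  ⟨⟨1/2, 0⟩, ⟨-3/4, -1/4⟩, ⟨0, 0⟩⟩,
  ⟨⟨-1/2, 0⟩, ⟨-3/4, -1/4⟩, ⟨0, 0⟩⟩,
  ⟨⟨-1/4, -1/4⟩, ⟨-1/4, -1/4⟩, ⟨-1/4, -1/4⟩⟩,
  ⟨⟨0, 0⟩, ⟨-1/2, 0⟩, ⟨-3/4, -1/4⟩⟩]

def q8058U : V5 := ⟨⟨-1/4, -1/4⟩, ⟨1/4, -1/4⟩, ⟨1/2, 0⟩⟩
def q8058V : V5 := ⟨⟨1/4, -1/4⟩, ⟨1/2, 0⟩, ⟨-1/4, -1/4⟩⟩
def q8058W : V5 := ⟨⟨0, 0⟩, ⟨-1/4, -1/4⟩, ⟨-1/2, 0⟩⟩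

theorem q8058_formal : ∀ a, q8058dvf a = (q8058dvf 0).add
    (((q8058U.smul (cr a).x).add (q8058V.smul (cr a).y)).add (q8058W.smul (cr a).z)) := by
  decide +kernel

/-- evaluation of a formal triple in the standard basis -/
def q8058ev (p : V5) : V := ![ev p.x, ev p.y, ev p.z]

theorem q8058ev_add (p q : V5) : q8058ev (p.add q) = q8058ev p + q8058ev q := by
  ext i
  fin_cases i <;> simp [q8058ev, V5.add, ev_add]

theorem q8058ev_smul (k : K5) (p : V5) : q8058ev (p.smul k) = ev k • q8058ev p := by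
  ext i
  fin_cases i <;> simp [q8058ev, V5.smul, ev_mul]

theorem q8058_ga : ga = (1 + s5) / 4 := by
  unfold ga
  rw [gold_s5]; ring

theorem q8058_gc : gc = (3 + s5) / 4 := by
  unfold gc
  rw [gold_s5]
  have := s5_sq
  linear_combination (1 / 8 : ℝ) * this

theorem q8058_dv (a : Fin 20) : (dv a).ofLp = q8058ev (q8058dvf a) := by
  ext i
  fin_cases a <;> fin_cases i <;>
    simp [dv, q8058dvf, q8058ev, ev, q8058_ga, q8058_gc] <;> ring

/-- the frame of the model -/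
def q8058Q : Fr where
  o := q8058ev (q8058dvf 0)
  u := q8058ev q8058U
  v := q8058ev q8058V
  hu := by
    simp [q8058ev, q8058U, ev, dotProduct, Fin.sum_univ_three]
    have := s5_sq
    linear_combination (1 / 8 : ℝ) * this
  hv := by
    simp [q8058ev, q8058V, ev, dotProduct, Fin.sum_univ_three]
    have := s5_sq
    linear_combination (1 / 8 : ℝ) * this
  huv := by
    simp [q8058ev, q8058U, q8058V, ev, dotProduct, Fin.sum_univ_three, cc]
    have := s5_sq
    linear_combination (1 / 16 : ℝ) * this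

theorem q8058_w : q8058Q.w = q8058ev q8058W := by
  have := s5_sq
  unfold Fr.w q8058Q
  ext i
  fin_cases i
  · simp [q8058ev, q8058U, q8058V, q8058W, ev, crossProduct]
    linear_combination (1 / 16 : ℝ) * this
  · simp [q8058ev, q8058U, q8058V, q8058W, ev, crossProduct]
    linear_combination (-1 / 16 : ℝ) * this
  · simp [q8058ev, q8058U, q8058V, q8058W, ev, crossProduct]
    linear_combination (-1 / 16 : ℝ) * this

theorem q8058_dp (a : Fin 20) : (dv a).ofLp = q8058Q.o +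
    q8058Q.lin (ev (cr a).x) (ev (cr a).y) (ev (cr a).z) := by
  rw [q8058_dv, q8058_formal a, q8058ev_add, q8058ev_add, q8058ev_add, q8058ev_smul,
    q8058ev_smul, q8058ev_smul]
  unfold Fr.lin
  rw [q8058_w]
  rfl

/-- `lin` as a linear equivalence -/
def q8058lin (Q : Fr) : V →ₗ[ℝ] V where
  toFun p := Q.lin (p 0) (p 1) (p 2)
  map_add' p q := by simp only [Fr.lin, Pi.add_apply]; module
  map_smul' c p := by simp only [Fr.lin, Pi.smul_apply, smul_eq_mul, RingHom.id_apply]; module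

theorem q8058lin_inj (Q : Fr) : Function.Injective (q8058lin Q) := by
  intro p q h
  obtain ⟨h0, h1, h2⟩ := Q.lin_inj h
  ext i
  fin_cases i
  · exact h0
  · exact h1
  · exact h2

def q8058e (Q : Fr) : V ≃ₗ[ℝ] V := LinearEquiv.ofInjectiveEndo (q8058lin Q) (q8058lin_inj Q)

theorem q8058e_apply (Q : Fr) (p : V) : q8058e Q p = Q.lin (p 0) (p 1) (p 2) := rfl

/-- change of sign of the last coordinate -/
def q8058sg (s : Bool) : V ≃ₗ[ℝ] V where
  toFun p := ![p 0, p 1, sg s * p 2]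
  invFun p := ![p 0, p 1, sg s * p 2]
  map_add' p q := by ext i; fin_cases i <;> simp [mul_add]
  map_smul' c p := by
    ext i
    fin_cases i
    · simp
    · simp
    · simp; ring
  left_inv p := by
    have := sg_sq s
    ext i
    fin_cases i
    · simp
    · simp
    · simp [← mul_assoc, this]
  right_inv p := by
    have := sg_sq s
    ext i
    fin_cases i
    · simp
    · simp
    · simp [← mul_assoc, this]

theorem q8058sg_apply (s : Bool) (p : V) : q8058sg s p = ![p 0, p 1, sg s * p 2] := rfl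

/-- the linear part -/
def q8058L (s : Bool) (Q : Fr) : V ≃ₗ[ℝ] V :=
  ((q8058e q8058Q).symm.trans (q8058sg s)).trans (q8058e Q)

theorem q8058L_lin (s : Bool) (Q : Fr) (a b c : ℝ) :
    q8058L s Q (q8058Q.lin a b c) = Q.lin a b (sg s * c) := by
  have e : q8058Q.lin a b c = q8058e q8058Q ![a, b, c] := by
    rw [q8058e_apply]; rfl
  rw [e]
  unfold q8058L
  rw [LinearEquiv.trans_apply, LinearEquiv.trans_apply, LinearEquiv.symm_apply_apply,
    q8058sg_apply, q8058e_apply]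
  rfl

theorem q8058L_dot (s : Bool) (Q : Fr) (x : V) : q8058L s Q x ⬝ᵥ q8058L s Q x = x ⬝ᵥ x := by
  obtain ⟨p, rfl⟩ := (q8058e q8058Q).surjective x
  rw [q8058e_apply, q8058L_lin, Fr.lin_dot, Fr.lin_dot]
  have := sg_sq s
  linear_combination (p 2 * p 2 * (1 - cc * cc)) * this

/-- the linear isometry -/
def q8058LI (s : Bool) (Q : Fr) : E3 ≃ₗᵢ[ℝ] E3 where
  toLinearEquiv := ((WithLp.linearEquiv 2 ℝ V).trans (q8058L s Q)).trans
    (WithLp.linearEquiv 2 ℝ V).symm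
  norm_map' x := by
    have h1 : ∀ y : E3, ‖y‖ ^ 2 = y.ofLp ⬝ᵥ y.ofLp := by
      intro y
      rw [EuclideanSpace.norm_sq_eq]
      simp [dotProduct, sq_abs, ← sq]
    rw [← Real.sqrt_sq (norm_nonneg x), ← Real.sqrt_sq (norm_nonneg (_ : E3)), h1, h1]
    congr 1
    exact q8058L_dot s Q x.ofLp

theorem q8058LI_apply (s : Bool) (Q : Fr) (x : E3) :
    (q8058LI s Q x).ofLp = q8058L s Q x.ofLp := rfl

/-- the model dodecahedron can be moved to any position -/
theorem exists_T (s : Bool) (Q : Fr) : ∃ T : E3 ≃ᵃⁱ[ℝ] E3, ∀ a, (T (dv a)).ofLp = dp s Q a := by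
  refine ⟨AffineIsometryEquiv.mk' (fun x => q8058LI s Q (x - dv 0) + WithLp.toLp 2 Q.o)
    (q8058LI s Q) (dv 0) (fun x => ?_), fun a => ?_⟩
  · simp [vsub_eq_sub, vadd_eq_add]
  · have e1 : ((dv a - dv 0 : E3)).ofLp = q8058Q.lin (ev (cr a).x) (ev (cr a).y) (ev (cr a).z) := by
      have h0 : (dv 0).ofLp = q8058Q.o := q8058_dv 0
      rw [WithLp.ofLp_sub, q8058_dp a, h0, add_sub_cancel_left]
    change (q8058LI s Q (dv a - dv 0) + WithLp.toLp 2 Q.o).ofLp = dp s Q a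
    rw [WithLp.ofLp_add, q8058LI_apply, e1, q8058L_lin]
    unfold dp evL
    rw [add_comm]

/-- `ofLp` as an affine map -/
def zqL : E3 →ᵃ[ℝ] V := (WithLp.linearEquiv 2 ℝ (Fin 3 → ℝ)).toLinearMap.toAffineMap

theorem zqL_apply (z : E3) : zqL z = z.ofLp := rfl

theorem zq_fv : fv = vt := rfl

theorem zq_facet (T : E3 ≃ᵃⁱ[ℝ] E3) (s : Bool) (Q : Fr) (hT : ∀ a, (T (dv a)).ofLp = dp s Q a) (q : Fin 12) (z : E3) :
    z ∈ T '' facet q ↔ z.ofLp ∈ convexHull ℝ (fverts s Q q) := by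
  let G : E3 →ᵃ[ℝ] V := zqL.comp T.toAffineEquiv.toAffineMap
  have hG : ∀ w, G w = (T w).ofLp := fun w => rfl
  have h1 : convexHull ℝ (fverts s Q q) = G '' facet q := by
    unfold facet
    rw [AffineMap.image_convexHull]
    congr 1
    unfold fverts
    rw [← Set.range_comp]
    congr 1
    funext j
    simp only [Function.comp]
    rw [hG, hT, zq_fv]
  rw [h1]
  constructor
  · rintro ⟨w, hw, rfl⟩
    exact ⟨w, hw, hG w⟩
  · rintro ⟨w, hw, he⟩
    refine ⟨w, hw, ?_⟩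
    rw [hG] at he
    exact (WithLp.ofLp_injective 2) he

theorem zq_face (B : ℂ →ᵃⁱ[ℝ] E3) (z : E3) :
    z ∈ B '' P ↔ z.ofLp ∈ convexHull ℝ (Set.range fun k => (B (pv k)).ofLp) := by
  let G : ℂ →ᵃ[ℝ] V := zqL.comp B.toAffineMap
  have hG : ∀ w, G w = (B w).ofLp := fun w => rfl
  have h1 : convexHull ℝ (Set.range fun k => (B (pv k)).ofLp) = G '' P := by
    unfold P
    rw [AffineMap.image_convexHull]
    congr 1
    rw [← Set.range_comp]
    rfl
  rw [h1]
  constructor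
  · rintro ⟨w, hw, rfl⟩
    exact ⟨w, hw, hG w⟩
  · rintro ⟨w, hw, he⟩
    refine ⟨w, hw, ?_⟩
    rw [hG] at he
    exact (WithLp.ofLp_injective 2) he

theorem zq_pow {X : Type} (ε : X → Bool) (x : X) (i j : ZMod 5) : ∃ k : ℕ, (phA ε ^ k) (x, i) = (x, j) := by
  obtain ⟨k, hk⟩ := (phA_cycle ε (x, i) (x, j)).2 rfl
  refine ⟨(k % 5).toNat, ?_⟩
  have h5 : phA ε ^ 5 = 1 := Equiv.ext fun d => by rw [phA_five]; rfl
  have h1 : (phA ε) ^ ((k % 5).toNat : ℤ) = (phA ε) ^ k := by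
    rw [Int.toNat_of_nonneg (Int.emod_nonneg _ (by norm_num))]
    conv_rhs => rw [← Int.emod_add_mul_ediv k 5, zpow_add, zpow_mul]
    have : (phA ε) ^ (5 : ℤ) = 1 := by exact_mod_cast h5
    rw [this, one_zpow, mul_one]
  rw [← zpow_natCast, h1]
  exact hk

theorem zq_pow_fst {X : Type} (ε : X → Bool) (d : X × ZMod 5) (k : ℕ) : ((phA ε ^ k) d).1 = d.1 := by
  have h : (phA ε).SameCycle d ((phA ε ^ k) d) := ⟨k, by rw [zpow_natCast]⟩
  exact ((phA_cycle ε _ _).1 h).symm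

theorem zq_verts {X : Type} [Fintype (X × ZMod 5)] (A : X → (ℂ →ᵃⁱ[ℝ] E3)) (ε : X → Bool) (p : PMap (X × ZMod 5)) (h1 : p.ph = phA ε)
    (h3 : ∀ d, p.fr d = frA (A d.1) d.2 (ε d.1)) (x : X) :
    {z | ∃ k : ℕ, z = (p.fr ((p.ph ^ k) (x, 0))).o} = Set.range fun k => (A x (pv k)).ofLp := by
  ext z
  constructor
  · rintro ⟨k, rfl⟩
    rw [h1, h3, zq_pow_fst]
    exact ⟨if ε x then ((phA ε ^ k) (x, 0)).2 else ((phA ε ^ k) (x, 0)).2 + 1, rfl⟩
  · rintro ⟨i, rfl⟩
    obtain ⟨k, hk⟩ := zq_pow ε x 0 (if ε x then i else i - 1)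
    refine ⟨k, ?_⟩
    rw [h1, hk, h3]
    show _ = (A x (pv (if ε x then (if ε x then i else i - 1) else (if ε x then i else i - 1) + 1))).ofLp
    have : (if ε x then (if ε x then i else i - 1) else (if ε x then i else i - 1) + 1) = i := by
      split_ifs
      · rfl
      · ring
    rw [this]

theorem zq_seg (B : ℂ →ᵃⁱ[ℝ] E3) (i : ZMod 5) (b : Bool) (z : E3) :
    z.ofLp ∈ segment ℝ (frA B i b).o ((frA B i b).o + (frA B i b).u) ↔
      ∃ s, 0 ≤ s ∧ s ≤ 1 ∧ z = B (edgePt i s) := by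
  have hB : ∀ s : ℝ, (B (edgePt i s)).ofLp = (1 - s) • (B (pv i)).ofLp + s • (B (pv (i + 1))).ofLp := by
    intro s
    have h1 : edgePt i s = AffineMap.lineMap (pv i) (pv (i + 1)) s := by
      unfold edgePt
      rw [AffineMap.lineMap_apply_module]
    have h2 : B (edgePt i s) = AffineMap.lineMap (B (pv i)) (B (pv (i + 1))) s := by
      rw [h1]
      exact B.toAffineMap.apply_lineMap _ _ _
    rw [h2, AffineMap.lineMap_apply_module]
    rfl
  have ho : (frA B i b).o = (B (pv (if b then i else i + 1))).ofLp := rfl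
  have hou : (frA B i b).o + (frA B i b).u = (B (pv (if b then i + 1 else i))).ofLp := by
    show (B (pv (if b then i else i + 1))).ofLp + (B (pv (if b then i + 1 else i)) - B (pv (if b then i else i + 1))).ofLp = _
    rw [WithLp.ofLp_sub]
    abel
  rw [hou, ho]
  have key : segment ℝ (B (pv (if b then i else i + 1))).ofLp (B (pv (if b then i + 1 else i))).ofLp =
      segment ℝ (B (pv i)).ofLp (B (pv (i + 1))).ofLp := by
    cases b
    · simp only [Bool.false_eq_true, if_false]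
      exact segment_symm ℝ _ _
    · simp only [if_true]
  rw [key, segment_eq_image]
  constructor
  · rintro ⟨s, hs, he⟩
    refine ⟨s, hs.1, hs.2, (WithLp.ofLp_injective 2) ?_⟩
    rw [hB]
    exact he.symm
  · rintro ⟨s, h0, h1, rfl⟩
    exact ⟨s, ⟨h0, h1⟩, (hB s).symm⟩

theorem zq_relph {X : Type} [Fintype (X × ZMod 5)] (ε : X → Bool) (p : PMap (X × ZMod 5)) (h1 : p.ph = phA ε)
    (t : V) (x : X) (i j : ZMod 5) : RelM p t (x, i) (x, j) := by
  obtain ⟨k, hk⟩ := zq_pow ε x i j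
  have key : ∀ (k : ℕ) (d : X × ZMod 5), RelM p t d ((phA ε ^ k) d) := by
    intro k
    induction k with
    | zero => intro d; exact Relation.EqvGen.refl _
    | succ k ih =>
      intro d
      refine Relation.EqvGen.trans _ _ _ (ih d) (Relation.EqvGen.rel _ _ (Or.inl ?_))
      rw [h1, pow_succ', Equiv.Perm.mul_apply]
  rw [← hk]
  exact key k _

theorem zq_dod (T : E3 ≃ᵃⁱ[ℝ] E3) (s : Bool) (Q : Fr) (hT : ∀ a, (T (dv a)).ofLp = dp s Q a)
    (z : E3) : z ∈ T '' Dod ↔ z.ofLp ∈ convexHull ℝ (Set.range (dp s Q)) := by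
  let G : E3 →ᵃ[ℝ] V := zqL.comp T.toAffineEquiv.toAffineMap
  have hG : ∀ w, G w = (T w).ofLp := fun w => rfl
  have h1 : convexHull ℝ (Set.range (dp s Q)) = G '' Dod := by
    unfold Dod
    rw [AffineMap.image_convexHull]
    congr 1
    rw [← Set.range_comp]
    congr 1
    funext j
    simp only [Function.comp]
    rw [hG, hT]
  rw [h1]
  constructor
  · rintro ⟨w, hw, rfl⟩
    exact ⟨w, hw, hG w⟩
  · rintro ⟨w, hw, he⟩
    refine ⟨w, hw, ?_⟩
    rw [hG] at he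
    exact (WithLp.ofLp_injective 2) he

theorem fill_E3 (M : Surf) (A : M.X → (ℂ →ᵃⁱ[ℝ] E3)) [Fintype (M.X × ZMod 5)]
    (ε : M.X → Bool) (p : PMap (M.X × ZMod 5)) (h1 : p.ph = phA ε) (h2 : ∀ d, p.gl d = M.g d)
    (h3 : ∀ d, p.fr d = frA (A d.1) d.2 (ε d.1)) (s0 : Bool) (hF : FilledS p s0) :
    ∃ (I : Type) (_ : Finite I) (T : I → (E3 ≃ᵃⁱ[ℝ] E3))
      (m : I × Fin 12 → Option (I × Fin 12)) (Φ : M.X → I × Fin 12),
      (∀ a b, m a = some b → m b = some a) ∧ (∀ a, m a ≠ some a) ∧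
      (∀ i q j r, m (i, q) = some (j, r) → T i '' facet q = T j '' facet r) ∧
      Function.Injective Φ ∧ Set.range Φ = {a | m a = none} ∧
      (∀ x, A x '' P = T (Φ x).1 '' facet (Φ x).2) ∧
      (∀ z x y, z ∈ A x '' P → z ∈ A y '' P →
        (Ch M A z x y ↔ ChB T m z (Φ x).1 (Φ y).1)) ∧
      (∀ i q j r, m (i, q) = some (j, r) → T i '' Dod ∩ T j '' Dod = T i '' facet q) := by
  obtain ⟨I, hI, Q, s, m, fac, f1, f2, f3, f4, f5, f6, f7, f8, f9, f10, -⟩ := hF
  have hTe := fun i => exists_T (s i) (Q i)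
  choose T hT using hTe
  have hfac : ∀ x i, fac (x, i) = fac (x, 0) := by
    intro x i
    rw [f6, h1, phA_cycle]
  have hface : ∀ x (z : E3), z ∈ A x '' P ↔ z.ofLp ∈ convexHull ℝ (fverts (s (fac (x, 0)).1) (Q (fac (x, 0)).1) (fac (x, 0)).2) := by
    intro x z
    rw [zq_face, ← zq_verts A ε p h1 h3 x, f7 (x, 0)]
  have hfacet : ∀ i q (z : E3), z ∈ T i '' facet q ↔ z.ofLp ∈ convexHull ℝ (fverts (s i) (Q i) q) :=
    fun i q z => zq_facet (T i) (s i) (Q i) (hT i) q z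
  have hdod : ∀ i (z : E3), z ∈ T i '' Dod ↔
      z.ofLp ∈ convexHull ℝ (Set.range (dp (s i) (Q i))) :=
    fun i z => zq_dod (T i) (s i) (Q i) (hT i) z
  have hopp : ∀ i q j r, m (i, q) = some (j, r) → T i '' Dod ∩ T j '' Dod = T i '' facet q := by
    intro i q j r hm
    obtain ⟨k, k', hk⟩ := f10 i q j r hm
    have hv := f3 i q j r hm
    ext z
    rw [Set.mem_inter_iff, hdod, hdod, hfacet]
    constructor
    · rintro ⟨g1, g2⟩
      rw [f9 i] at g1 hv ⊢
      rw [f9 j] at g2 hv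
      exact opp_inter s0 (Q i) (Q j) q r k k' hk hv _ g1 g2
    · intro g
      have hsub : ∀ (s : Bool) (Q : Fr) (q : Fin 12),
          convexHull ℝ (fverts s Q q) ⊆ convexHull ℝ (Set.range (dp s Q)) := by
        intro s Q q
        apply convexHull_mono
        rintro _ ⟨a, rfl⟩
        exact ⟨_, rfl⟩
      refine ⟨hsub _ _ _ g, ?_⟩
      rw [hv] at g
      exact hsub _ _ _ g
  refine ⟨I, hI, T, m, fun x => fac (x, 0), f1, f2, ?_, ?_, ?_, ?_, ?_, hopp⟩
  · intro i q j r hm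
    ext z
    rw [hfacet, hfacet, f3 i q j r hm]
  · intro x y hxy
    have := (f6 (x, 0) (y, 0)).1 hxy
    rw [h1, phA_cycle] at this
    exact this
  · ext a
    constructor
    · rintro ⟨x, rfl⟩
      exact f4 _
    · intro ha
      obtain ⟨d, hd⟩ := f5 a ha
      refine ⟨d.1, ?_⟩
      show fac (d.1, 0) = a
      rw [← hfac d.1 d.2]
      exact hd
  · intro x
    ext z
    rw [hface, hfacet]
  · intro z x y hzx hzy
    have h8 := f8 z.ofLp (x, 0) (y, 0) ((hface x z).1 hzx) ((hface y z).1 hzy)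
    have hB : ∀ i j, ChB T m z i j ↔ RelB Q s m z.ofLp i j := by
      intro i j
      unfold ChB RelB
      have : (fun i j => ∃ q r, m (i, q) = some (j, r) ∧ z ∈ T i '' facet q) =
          (fun i j => ∃ f f', m (i, f) = some (j, f') ∧ z.ofLp ∈ convexHull ℝ (fverts (s i) (Q i) f)) := by
        funext i j
        refine propext ⟨?_, ?_⟩
        · rintro ⟨q, r, hm, hz⟩
          exact ⟨q, r, hm, (hfacet i q z).1 hz⟩
        · rintro ⟨q, r, hm, hz⟩
          exact ⟨q, r, hm, (hfacet i q z).2 hz⟩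
      rw [this]
    show Ch M A z x y ↔ ChB T m z (fac (x, 0)).1 (fac (y, 0)).1
    rw [hB, ← h8]
    have hseg : ∀ (x : M.X) (i : ZMod 5), (z.ofLp ∈ segment ℝ (p.fr (x, i)).o ((p.fr (x, i)).o + (p.fr (x, i)).u) ↔
        ∃ s, 0 ≤ s ∧ s ≤ 1 ∧ z = A x (edgePt i s)) := by
      intro x i
      rw [h3]
      exact zq_seg (A x) i (ε x) z
    constructor
    · intro h
      have key2 : ∀ x y, Ch M A z x y → RelM p z.ofLp (x, 0) (y, 0) := by
        intro x y h
        clear hzx hzy h8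
        unfold Ch at h
        induction h with
        | rel a b hab =>
          obtain ⟨i, s', h0, h1', hz, rfl⟩ := hab
          refine Relation.EqvGen.trans _ _ _ (zq_relph ε p h1 z.ofLp a 0 i) ?_
          refine Relation.EqvGen.trans _ (M.g (a, i)) _ ?_ (zq_relph ε p h1 z.ofLp (M.g (a, i)).1 (M.g (a, i)).2 0)
          refine Relation.EqvGen.rel _ _ (Or.inr ⟨?_, (hseg a i).2 ⟨s', h0, h1', hz⟩⟩)
          rw [h2]
        | refl a => exact Relation.EqvGen.refl _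
        | symm a b _ ih => exact Relation.EqvGen.symm _ _ ih
        | trans a b c _ _ ih1 ih2 => exact Relation.EqvGen.trans _ _ _ ih1 ih2
      exact key2 x y h
    · intro h
      have key : ∀ d e, RelM p z.ofLp d e → Ch M A z d.1 e.1 := by
        intro d e hde
        unfold RelM at hde
        induction hde with
        | rel a b hab =>
          rcases hab with hab | ⟨hab, hz⟩
          · have : b.1 = a.1 := by rw [hab, h1]; rfl
            rw [this]
            exact Relation.EqvGen.refl _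
          · obtain ⟨s', h0, h1', hz'⟩ := (hseg a.1 a.2).1 hz
            refine Relation.EqvGen.rel _ _ ⟨a.2, s', h0, h1', hz', ?_⟩
            rw [hab, h2]
        | refl a => exact Relation.EqvGen.refl _
        | symm a b _ ih => exact Relation.EqvGen.symm _ _ ih
        | trans a b c _ _ ih1 ih2 => exact Relation.EqvGen.trans _ _ _ ih1 ih2
      exact key _ _ h

end

end Pool.Agent.Helper275.Pent
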